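import Mathlib

set_option autoImplicit false

namespace Pool.Agent.H976R2

open Finset

/-- The sequence `centralBinom m / 4^m`. -/
noncomputable def pp (m : ℕ) : ℝ := (Nat.centralBinom m : ℝ) / 4 ^ m

lemma pp_zero : pp 0 = 1 := by simp [pp]

lemma pp_pos (m : ℕ) : 0 < pp m := by
  unfold pp
  have := Nat.centralBinom_pos m
  positivity

lemma pp_succ (m : ℕ) : ((m : ℝ) + 1) * pp (m + 1) = ((m : ℝ) + 1 / 2) * pp m := by
  have h : ((m : ℝ) + 1) * (Nat.centralBinom (m + 1) : ℝ)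
      = 2 * (2 * m + 1) * (Nat.centralBinom m : ℝ) := by
    exact_mod_cast Nat.succ_mul_centralBinom_succ m
  unfold pp
  rw [← mul_div_assoc, h, pow_succ]
  field_simp
  ring

lemma pp_conv_step (m : ℕ) :
    ∑ k ∈ range (m + 2), pp k * pp (m + 1 - k) = ∑ k ∈ range (m + 1), pp k * pp (m - k) := by
  set C1 := ∑ k ∈ range (m + 2), pp k * pp (m + 1 - k) with hC1
  set C0 := ∑ k ∈ range (m + 1), pp k * pp (m - k) with hC0
  -- reflection
  have refl : ∀ n : ℕ, ∑ k ∈ range (n + 1), (k : ℝ) * (pp k * pp (n - k))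
      = ∑ k ∈ range (n + 1), ((n : ℝ) - k) * (pp k * pp (n - k)) := by
    intro n
    rw [← Finset.sum_range_reflect]
    apply Finset.sum_congr rfl
    intro k hk
    have hk' : k ≤ n := Nat.lt_succ_iff.mp (Finset.mem_range.mp hk)
    have e1 : n + 1 - 1 - k = n - k := by omega
    have e2 : n - (n - k) = k := by omega
    rw [e1, e2, Nat.cast_sub hk']
    ring
  have dbl : ∀ n : ℕ, 2 * ∑ k ∈ range (n + 1), (k : ℝ) * (pp k * pp (n - k))
      = (n : ℝ) * ∑ k ∈ range (n + 1), pp k * pp (n - k) := by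
    intro n
    rw [two_mul]
    nth_rewrite 2 [refl n]
    rw [← Finset.sum_add_distrib, Finset.mul_sum]
    apply Finset.sum_congr rfl
    intro k _
    ring
  have h1 := dbl (m + 1)
  have h0 := dbl m
  have shift : ∑ k ∈ range (m + 1 + 1), (k : ℝ) * (pp k * pp (m + 1 - k))
      = ∑ k ∈ range (m + 1), ((k : ℝ) + 1 / 2) * (pp k * pp (m - k)) := by
    rw [Finset.sum_range_succ']
    simp only [Nat.cast_zero, zero_mul, add_zero]
    apply Finset.sum_congr rfl
    intro k _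
    have e : m + 1 - (k + 1) = m - k := by omega
    rw [e]
    push_cast
    rw [← mul_assoc, pp_succ k]
    ring
  rw [shift] at h1
  have h2 : 2 * ∑ k ∈ range (m + 1), ((k : ℝ) + 1 / 2) * (pp k * pp (m - k))
      = ((m : ℝ) + 1) * C0 := by
    have : ∑ k ∈ range (m + 1), ((k : ℝ) + 1 / 2) * (pp k * pp (m - k))
        = ∑ k ∈ range (m + 1), (k : ℝ) * (pp k * pp (m - k)) + (1 / 2) * C0 := by
      rw [hC0, Finset.mul_sum, ← Finset.sum_add_distrib]
      apply Finset.sum_congr rfl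
      intro k _
      ring
    rw [this, mul_add, h0, ← hC0]
    ring
  rw [h2] at h1
  have h3 : ((m : ℝ) + 1) * C0 = ((m : ℝ) + 1) * C1 := by
    rw [h1]
    push_cast
    rfl
  have hm : ((m : ℝ) + 1) ≠ 0 := by positivity
  exact (mul_left_cancel₀ hm h3).symm

lemma pp_conv (m : ℕ) : ∑ k ∈ range (m + 1), pp k * pp (m - k) = 1 := by
  induction m with
  | zero => simp [pp_zero]
  | succ m ih => rw [pp_conv_step m, ih]

lemma sqrt_le_sum_pp (n : ℕ) : Real.sqrt ((n : ℝ) + 1) ≤ ∑ k ∈ range (n + 1), pp k := by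
  have hnn : 0 ≤ ∑ k ∈ range (n + 1), pp k := Finset.sum_nonneg (fun k _ => (pp_pos k).le)
  apply Real.sqrt_le_iff.mpr
  refine ⟨hnn, ?_⟩
  have h1 : ((n : ℝ) + 1) = ∑ m ∈ range (n + 1), ∑ k ∈ range (m + 1), pp k * pp (m - k) := by
    rw [Finset.sum_congr rfl (fun m _ => pp_conv m)]
    simp
  rw [h1, sq, Finset.sum_mul_sum, Finset.sum_range_diag_flip (n + 1) (fun i j => pp i * pp j)]
  apply Finset.sum_le_sum
  intro k _
  apply Finset.sum_le_sum_of_subset_of_nonneg
  · intro x hx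
    simp only [Finset.mem_range] at hx ⊢
    omega
  · intro x _ _
    exact mul_nonneg (pp_pos _).le (pp_pos _).le

lemma pp_le_one (m : ℕ) : pp m ≤ 1 := by
  unfold pp
  rw [div_le_one (by positivity)]
  exact_mod_cast Nat.centralBinom_le_four_pow m

/-- `1 / p_m ≤ 2 √(m+1)`. -/
lemma inv_pp_le (m : ℕ) : 1 / pp m ≤ 2 * Real.sqrt ((m : ℝ) + 1) := by
  have key' : ∀ n : ℕ, 1 ≤ 4 * ((n : ℝ) + 1) * (pp (n + 1)) ^ 2 := by
    intro n
    induction n with
    | zero => simp [pp, Nat.centralBinom, Nat.choose]; norm_num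
    | succ n ih =>
      have h := pp_succ (n + 1)
      push_cast at h ⊢
      have hn : (0 : ℝ) < (n : ℝ) + 1 := by positivity
      have e : pp (n + 1 + 1) = ((n : ℝ) + 3 / 2) / ((n : ℝ) + 2) * pp (n + 1) := by
        field_simp
        linarith
      rw [e]
      have hm : 4 * ((n : ℝ) + 1 + 1) * (((n : ℝ) + 3 / 2) / ((n : ℝ) + 2) * pp (n + 1)) ^ 2
          = (4 * ((n : ℝ) + 1) * (pp (n + 1)) ^ 2) *
            (((n : ℝ) + 3 / 2) ^ 2 / (((n : ℝ) + 1) * ((n : ℝ) + 2))) := by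
        field_simp
        ring
      rw [hm]
      have h1 : 1 ≤ ((n : ℝ) + 3 / 2) ^ 2 / (((n : ℝ) + 1) * ((n : ℝ) + 2)) := by
        rw [le_div_iff₀ (by positivity)]
        nlinarith
      nlinarith
  have key : ∀ n : ℕ, 1 ≤ 4 * ((n : ℝ) + 1) * (pp n) ^ 2 := by
    intro n
    cases n with
    | zero => simp [pp_zero]
    | succ n =>
      have h := key' n
      push_cast
      nlinarith [sq_nonneg (pp (n + 1))]
  have h := key m
  have hp := pp_pos m
  have hs : 0 ≤ Real.sqrt ((m : ℝ) + 1) := Real.sqrt_nonneg _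
  have hs2 : Real.sqrt ((m : ℝ) + 1) ^ 2 = (m : ℝ) + 1 := Real.sq_sqrt (by positivity)
  rw [div_le_iff₀ hp]
  have h3 : 1 ≤ (2 * Real.sqrt ((m : ℝ) + 1) * pp m) ^ 2 := by
    rw [mul_pow, mul_pow, hs2]
    linarith
  have h4 : 0 ≤ 2 * Real.sqrt ((m : ℝ) + 1) * pp m := by positivity
  nlinarith

end Pool.Agent.H976R2
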