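import Mathlib
import Pool.Agent.H976R2.Pseq

set_option autoImplicit false

namespace Pool.Agent.H976R2

open Finset
open scoped Classical

variable {α : Type*}

/-- A finite family of lists of length `m`, closed under permutations and under applying `μ` to the
elements of an initial segment. -/
structure ClosedFam (μ : α → α) (Ω : Finset (List α)) (m : ℕ) : Prop where
  len : ∀ l ∈ Ω, l.length = m
  perm : ∀ l ∈ Ω, ∀ l', l.Perm l' → l' ∈ Ω
  mir : ∀ A B, A ++ B ∈ Ω → A.map μ ++ B ∈ Ω

/-- fiber family -/
noncomputable def fib (Ω : Finset (List α)) (k : ℕ) (B : List α) : Finset (List α) :=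
  (Ω.filter (fun l => l.drop k = B)).image (List.take k)

lemma mem_fib {μ : α → α} {Ω : Finset (List α)} {m : ℕ} (h : ClosedFam μ Ω m) {k : ℕ} (hk : k ≤ m)
    {A B : List α} : A ∈ fib Ω k B ↔ A.length = k ∧ A ++ B ∈ Ω := by
  unfold fib
  simp only [Finset.mem_image, Finset.mem_filter]
  constructor
  · rintro ⟨l, ⟨hl, rfl⟩, rfl⟩
    refine ⟨?_, by rwa [List.take_append_drop]⟩
    rw [List.length_take, h.len l hl]
    exact min_eq_left hk
  · rintro ⟨hA, hAB⟩
    refine ⟨A ++ B, ⟨hAB, ?_⟩, ?_⟩
    · exact List.drop_left' hA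
    · exact List.take_left' hA

lemma closed_fib {μ : α → α} {Ω : Finset (List α)} {m : ℕ} (h : ClosedFam μ Ω m) {k : ℕ} (hk : k ≤ m)
    (B : List α) : ClosedFam μ (fib Ω k B) k where
  len l hl := ((mem_fib h hk).mp hl).1
  perm l hl l' hp := by
    obtain ⟨h1, h2⟩ := (mem_fib h hk).mp hl
    refine (mem_fib h hk).mpr ⟨by rw [← hp.length_eq, h1], ?_⟩
    exact h.perm _ h2 _ (hp.append_right B)
  mir A C hl := by
    obtain ⟨h1, h2⟩ := (mem_fib h hk).mp hl
    refine (mem_fib h hk).mpr ⟨by simpa using h1, ?_⟩
    rw [List.append_assoc] at h2 ⊢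
    exact h.mir _ _ h2

lemma sum_split {μ : α → α} {Ω : Finset (List α)} {m : ℕ} (h : ClosedFam μ Ω m) {k : ℕ} (hk : k ≤ m)
    (F : List α → List α → ℝ) :
    ∑ l ∈ Ω, F (l.take k) (l.drop k) = ∑ B ∈ Ω.image (List.drop k), ∑ A ∈ fib Ω k B, F A B := by
  rw [← Finset.sum_fiberwise_of_maps_to (s := Ω) (t := Ω.image (List.drop k)) (g := List.drop k)
    (fun l hl => Finset.mem_image_of_mem _ hl)]
  apply Finset.sum_congr rfl
  intro B _
  unfold fib
  rw [Finset.sum_image]
  · apply Finset.sum_congr rfl
    intro l hl
    rw [(Finset.mem_filter.mp hl).2]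
  · intro l hl l' hl' hE
    have h1 := (Finset.mem_filter.mp hl).2
    have h2 := (Finset.mem_filter.mp hl').2
    rw [← List.take_append_drop k l, ← List.take_append_drop k l', h1, h2, hE]

lemma fiber_nonneg {μ : α → α} {Ω : Finset (List α)} {m : ℕ} (h : ClosedFam μ Ω m) {k : ℕ} (hk : k ≤ m)
    (f g : List α → ℝ) (hg : ∀ B, 0 ≤ g B)
    (hf : ∀ B, 0 ≤ ∑ A ∈ fib Ω k B, f A) :
    0 ≤ ∑ l ∈ Ω, f (l.take k) * g (l.drop k) := by
  rw [sum_split h hk (fun A B => f A * g B)]
  apply Finset.sum_nonneg
  intro B _
  rw [← Finset.sum_mul]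
  exact mul_nonneg (hf B) (hg B)

lemma fiber_zero {μ : α → α} {Ω : Finset (List α)} {m : ℕ} (h : ClosedFam μ Ω m) {k : ℕ} (hk : k ≤ m)
    (f g : List α → ℝ)
    (hf : ∀ B, ∑ A ∈ fib Ω k B, f A = 0) :
    ∑ l ∈ Ω, f (l.take k) * g (l.drop k) = 0 := by
  rw [sum_split h hk (fun A B => f A * g B)]
  apply Finset.sum_eq_zero
  intro B _
  rw [← Finset.sum_mul, hf B, zero_mul]

/-- Bijections of a closed family given by rotation. -/
lemma sum_rotate {μ : α → α} {Ω : Finset (List α)} {m : ℕ} (h : ClosedFam μ Ω m) (k : ℕ)
    (F : List α → ℝ) : ∑ l ∈ Ω, F (l.rotate k) = ∑ l ∈ Ω, F l := by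
  have hmem : ∀ l ∈ Ω, ∀ j, l.rotate j ∈ Ω := fun l hl j =>
    h.perm l hl _ (List.rotate_perm l j).symm
  have hinj : Set.InjOn (fun l : List α => l.rotate k) (Ω : Set (List α)) := by
    intro l _ l' _ hE
    exact List.rotate_injective k hE
  have himg : Ω.image (fun l : List α => l.rotate k) = Ω := by
    apply Finset.eq_of_subset_of_card_le
    · intro l hl
      obtain ⟨l', hl', rfl⟩ := Finset.mem_image.mp hl
      exact hmem l' hl' k
    · rw [Finset.card_image_of_injOn hinj]
  conv_rhs => rw [← himg]
  rw [Finset.sum_image hinj]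

/-- General reindexing by an injective self-map of a finite set. -/
lemma sum_selfmap {β : Type*} (Ω : Finset β) (φ : β → β) (hφ : ∀ l ∈ Ω, φ l ∈ Ω)
    (hinj : Set.InjOn φ (Ω : Set β)) (F : β → ℝ) : ∑ l ∈ Ω, F (φ l) = ∑ l ∈ Ω, F l := by
  have himg : Ω.image φ = Ω := by
    apply Finset.eq_of_subset_of_card_le
    · intro l hl
      obtain ⟨l', hl', rfl⟩ := Finset.mem_image.mp hl
      exact hφ l' hl'
    · rw [Finset.card_image_of_injOn hinj]
  conv_rhs => rw [← himg]
  rw [Finset.sum_image hinj]

/-- all nonempty prefix sums positive -/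
def SPos (w : α → ℤ) (l : List α) : Prop :=
  ∀ A B, l = A ++ B → A ≠ [] → 0 < (A.map w).sum

/-- all nonempty suffix sums negative -/
def SNegSuf (w : α → ℤ) (l : List α) : Prop :=
  ∀ A B, l = A ++ B → B ≠ [] → (B.map w).sum < 0

/-- all infix sums nonzero -/
def GenL (w : α → ℤ) (l : List α) : Prop :=
  ∀ A B C, l = A ++ B ++ C → B ≠ [] → (B.map w).sum ≠ 0

lemma exists_split (w : α → ℤ) (l : List α) (hg : GenL w l) :
    ∃ A B, l = A ++ B ∧ SNegSuf w A ∧ SPos w B := by
  induction l with
  | nil =>
    refine ⟨[], [], rfl, ?_, ?_⟩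
    · intro A B h hB
      simp_all
    · intro A B h hA
      simp_all
  | cons a l ih =>
    have hg' : GenL w l := by
      intro A B C h hB
      exact hg (a :: A) B C (by simp [h]) hB
    obtain ⟨A, B, rfl, hA, hB⟩ := ih hg'
    rcases lt_trichotomy 0 (w a + (A.map w).sum) with hpos | hzero | hneg
    · refine ⟨[], a :: (A ++ B), rfl, ?_, ?_⟩
      · intro A' B' h hB'
        simp_all
      · intro P Q h hP
        cases P with
        | nil => exact absurd rfl hP
        | cons b P =>
          rw [List.cons_append, List.cons.injEq] at h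
          obtain ⟨rfl, h⟩ := h
          have hge : (A.map w).sum ≤ (P.map w).sum := by
            rcases List.append_eq_append_iff.mp h with ⟨T, h1, h2⟩ | ⟨T, h1, h2⟩
            · -- P = A ++ T, B = T ++ Q
              rw [h1]
              simp only [List.map_append, List.sum_append]
              by_cases hT : T = []
              · simp [hT]
              · have := hB T Q h2 hT
                linarith
            · -- A = P ++ T
              rw [h1]
              simp only [List.map_append, List.sum_append]
              by_cases hT : T = []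
              · simp [hT]
              · have := hA P T h1 hT
                linarith
          simp only [List.map_cons, List.sum_cons]
          linarith
    · exfalso
      refine hg [] (a :: A) B (by simp) (by simp) ?_
      simp only [List.map_cons, List.sum_cons]
      exact hzero.symm
    · refine ⟨a :: A, B, by simp, ?_, hB⟩
      intro P Q h hQ
      cases P with
      | nil =>
        simp only [List.nil_append] at h
        rw [← h]
        simp only [List.map_cons, List.sum_cons]
        exact hneg
      | cons b P =>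
        rw [List.cons_append, List.cons.injEq] at h
        exact hA P Q h.2 hQ

lemma unique_split (w : α → ℤ) {A B A' B' : List α} (h : A ++ B = A' ++ B')
    (hA : SNegSuf w A) (hB : SPos w B) (hA' : SNegSuf w A') (hB' : SPos w B') : A = A' := by
  rcases List.append_eq_append_iff.mp h with ⟨T, h1, h2⟩ | ⟨T, h1, h2⟩
  · by_cases hT : T = []
    · simp [h1, hT]
    · have e1 := hA' A T h1 hT
      have e2 := hB T B' h2 hT
      omega
  · by_cases hT : T = []
    · simp [h1, hT]
    · have e1 := hA A' T h1 hT
      have e2 := hB' T B h2 hT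
      omega

lemma spos_reverse_map (μ : α → α) (w : α → ℤ) (hw : ∀ a, w (μ a) = - w a) (A : List α) :
    SPos w (A.reverse.map μ) ↔ SNegSuf w A := by
  have hs : ∀ L : List α, ((L.map μ).map w).sum = - (L.map w).sum := by
    intro L
    induction L with
    | nil => simp
    | cons a L ih => simp only [List.map_cons, List.sum_cons, ih, hw]; ring
  constructor
  · intro h P Q hPQ hQ
    have := h (Q.reverse.map μ) (P.reverse.map μ) (by rw [hPQ]; simp) (by simpa using hQ)
    rw [hs, List.map_reverse, List.sum_reverse] at this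
    omega
  · intro h P Q hPQ hP
    have hPQ' : A.reverse.map μ = P ++ Q := hPQ
    obtain ⟨P', Q', h1, h2, h3⟩ := List.map_eq_append_iff.mp hPQ'
    have h4 : A = Q'.reverse ++ P'.reverse := by
      rw [← List.reverse_append, ← h1, List.reverse_reverse]
    have := h Q'.reverse P'.reverse h4 (by
      intro h5
      apply hP
      rw [← h2]
      simp at h5
      simp [h5])
    rw [← h2, hs]
    rw [List.map_reverse, List.sum_reverse] at this
    omega

lemma gen_fib {μ : α → α} {Ω : Finset (List α)} {m : ℕ} (h : ClosedFam μ Ω m) {k : ℕ} (hk : k ≤ m)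
    (w : α → ℤ) (hG : ∀ l ∈ Ω, GenL w l) (B : List α) : ∀ l ∈ fib Ω k B, GenL w l := by
  intro l hl P Q R hPQR hQ
  obtain ⟨_, h2⟩ := (mem_fib h hk).mp hl
  exact hG _ h2 P Q (R ++ B) (by rw [hPQR]; simp) hQ

theorem SA_exact (μ : α → α) (hμ : ∀ a, μ (μ a) = a) (w : α → ℤ) (hw : ∀ a, w (μ a) = - w a) :
    ∀ (m : ℕ) (Ω : Finset (List α)), ClosedFam μ Ω m → (∀ l ∈ Ω, GenL w l) →
      ∑ l ∈ Ω, (if SPos w l then (1 : ℝ) else 0) = pp m * (Ω.card : ℝ) := by
  intro m
  induction m using Nat.strong_induction_on with
  | _ m ih =>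
  intro Ω hΩ hG
  rcases Nat.eq_zero_or_pos m with hm0 | hmpos
  · subst hm0
    have : ∀ l ∈ Ω, (if SPos w l then (1 : ℝ) else 0) = 1 := by
      intro l hl
      have hl0 : l = [] := List.length_eq_zero_iff.mp (hΩ.len l hl)
      rw [if_pos]
      intro A B h hA
      simp_all
    rw [Finset.sum_congr rfl this, pp_zero]
    simp
  · obtain ⟨n, rfl⟩ : ∃ n, m = n + 1 := ⟨m - 1, by omega⟩
    -- marginal identity
    have marg : ∀ k ≤ n + 1, k < n + 1 →
        ∑ l ∈ Ω, (if SPos w (l.take k) then (1 : ℝ) else 0) = pp k * (Ω.card : ℝ) := by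
      intro k hk hk'
      have := fiber_zero hΩ hk (fun A => (if SPos w A then (1 : ℝ) else 0) - pp k) (fun _ => 1) (by
        intro B
        rw [Finset.sum_sub_distrib, ih k hk' _ (closed_fib hΩ hk B) (gen_fib hΩ hk w hG B)]
        simp
        ring)
      simp only [mul_one, Finset.sum_sub_distrib, Finset.sum_const, nsmul_eq_mul] at this
      linarith
    have step3 : ∀ k, 0 < k → k < n + 1 →
        ∑ l ∈ Ω, (if SPos w (l.take k) ∧ SPos w (l.drop k) then (1 : ℝ) else 0)
          = pp k * pp (n + 1 - k) * (Ω.card : ℝ) := by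
      intro k hk0 hk
      have h1 := fiber_zero hΩ hk.le (fun A => (if SPos w A then (1 : ℝ) else 0) - pp k)
        (fun B => (if SPos w B then (1 : ℝ) else 0)) (by
        intro B
        rw [Finset.sum_sub_distrib, ih k hk _ (closed_fib hΩ hk.le B) (gen_fib hΩ hk.le w hG B)]
        simp
        ring)
      have h2 : ∑ l ∈ Ω, (if SPos w (l.take k) ∧ SPos w (l.drop k) then (1 : ℝ) else 0)
          = pp k * ∑ l ∈ Ω, (if SPos w (l.drop k) then (1 : ℝ) else 0) := by
        have e : ∀ l : List α, (if SPos w (l.take k) ∧ SPos w (l.drop k) then (1 : ℝ) else 0)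
            = ((if SPos w (l.take k) then (1 : ℝ) else 0) - pp k) *
                (if SPos w (l.drop k) then (1 : ℝ) else 0)
              + pp k * (if SPos w (l.drop k) then (1 : ℝ) else 0) := by
          intro l
          by_cases ha : SPos w (l.take k) <;> by_cases hb : SPos w (l.drop k) <;> simp [ha, hb]
        rw [Finset.sum_congr rfl (fun l _ => e l), Finset.sum_add_distrib, h1, zero_add,
          Finset.mul_sum]
      have h3 : ∑ l ∈ Ω, (if SPos w (l.drop k) then (1 : ℝ) else 0)
          = ∑ l ∈ Ω, (if SPos w (l.take (n + 1 - k)) then (1 : ℝ) else 0) := by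
        rw [← sum_rotate hΩ k (fun l => (if SPos w (l.take (n + 1 - k)) then (1 : ℝ) else 0))]
        apply Finset.sum_congr rfl
        intro l hl
        have hlen := hΩ.len l hl
        have : (l.rotate k).take (n + 1 - k) = l.drop k := by
          rw [List.rotate_eq_drop_append_take (by omega)]
          apply List.take_left'
          rw [List.length_drop, hlen]
        rw [this]
      rw [h2, h3, marg (n + 1 - k) (by omega) (by omega)]
      ring
    -- step 1
    have step1 : ∀ l ∈ Ω, ∑ k ∈ range (n + 1 + 1),
        (if SNegSuf w (l.take k) ∧ SPos w (l.drop k) then (1 : ℝ) else 0) = 1 := by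
      intro l hl
      obtain ⟨A, B, hAB, hA, hB⟩ := exists_split w l (hG l hl)
      have hlen := hΩ.len l hl
      have hA' : A.length ≤ n + 1 := by
        rw [← hlen, hAB, List.length_append]; omega
      rw [Finset.sum_eq_single A.length]
      · rw [hAB, List.take_left, List.drop_left, if_pos ⟨hA, hB⟩]
      · intro k hk hne
        rw [if_neg]
        rintro ⟨h1, h2⟩
        apply hne
        have : A = l.take k := unique_split w (by rw [← hAB, List.take_append_drop]) hA hB h1 h2
        rw [this, List.length_take, hlen]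
        have := Finset.mem_range.mp hk
        omega
      · intro h
        exact absurd (Finset.mem_range.mpr (by omega)) h
    -- step 2
    have step2 : ∀ k ≤ n + 1, ∑ l ∈ Ω, (if SNegSuf w (l.take k) ∧ SPos w (l.drop k) then (1 : ℝ) else 0)
        = ∑ l ∈ Ω, (if SPos w (l.take k) ∧ SPos w (l.drop k) then (1 : ℝ) else 0) := by
      intro k hk
      rw [← sum_selfmap Ω (fun l => (l.take k).reverse.map μ ++ l.drop k) ?_ ?_
        (fun l => (if SPos w (l.take k) ∧ SPos w (l.drop k) then (1 : ℝ) else 0))]
      · apply Finset.sum_congr rfl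
        intro l hl
        have hlen := hΩ.len l hl
        have hlk : ((l.take k).reverse.map μ).length = k := by simp [hlen, hk]
        rw [List.take_left' hlk, List.drop_left' hlk, spos_reverse_map μ w hw]
      · intro l hl
        apply hΩ.mir
        refine hΩ.perm l hl _ ?_
        conv_lhs => rw [← List.take_append_drop k l]
        exact (List.reverse_perm _).symm.append_right _
      · intro l hl l' hl' hE
        have hlen := hΩ.len l hl
        have hlen' := hΩ.len l' hl'
        have hlk : ((l.take k).reverse.map μ).length = k := by simp [hlen, hk]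
        have hlk' : ((l'.take k).reverse.map μ).length = k := by simp [hlen', hk]
        obtain ⟨e1, e2⟩ := List.append_inj hE (by rw [hlk, hlk'])
        have hμi : Function.Injective μ := by
          intro x y hxy
          rw [← hμ x, ← hμ y, hxy]
        have e3 : (l.take k).reverse = (l'.take k).reverse := (List.map_injective_iff.mpr hμi) e1
        have e4 : l.take k = l'.take k := List.reverse_injective e3
        rw [← List.take_append_drop k l, ← List.take_append_drop k l', e4, e2]
    -- assemble
    set N := ∑ l ∈ Ω, (if SPos w l then (1 : ℝ) else 0) with hN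
    have tot : (Ω.card : ℝ) = ∑ k ∈ range (n + 1 + 1),
        ∑ l ∈ Ω, (if SPos w (l.take k) ∧ SPos w (l.drop k) then (1 : ℝ) else 0) := by
      rw [← Finset.sum_congr rfl (fun k hk => step2 k (by
        have := Finset.mem_range.mp hk; omega)), Finset.sum_comm, Finset.sum_congr rfl step1]
      simp
    have hnil : SPos w ([] : List α) := by
      intro A B h hA
      simp_all
    rw [Finset.sum_range_succ, Finset.sum_range_succ'] at tot
    have t0 : ∑ l ∈ Ω, (if SPos w (l.take 0) ∧ SPos w (l.drop 0) then (1 : ℝ) else 0) = N := by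
      rw [hN]
      apply Finset.sum_congr rfl
      intro l _
      simp [hnil]
    have t1 : ∑ l ∈ Ω, (if SPos w (l.take (n + 1)) ∧ SPos w (l.drop (n + 1)) then (1 : ℝ) else 0) = N := by
      rw [hN]
      apply Finset.sum_congr rfl
      intro l hl
      have hlen := hΩ.len l hl
      rw [List.take_of_length_le (by omega), List.drop_of_length_le (by omega)]
      simp [hnil]
    have hc := pp_conv (n + 1)
    rw [Finset.sum_range_succ, Finset.sum_range_succ'] at hc
    rw [t0, t1, Finset.sum_congr rfl (fun k hk => step3 (k + 1) (by omega) (by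
      have := Finset.mem_range.mp hk; omega)), ← Finset.sum_mul] at tot
    simp only [pp_zero, Nat.sub_self, Nat.sub_zero, mul_one, one_mul] at hc
    have hS : ∑ k ∈ range n, pp (k + 1) * pp (n + 1 - (k + 1)) = 1 - 2 * pp (n + 1) := by linarith
    rw [hS] at tot
    linarith

end Pool.Agent.H976R2
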