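import Mathlib
import Pool.Agent.H976R2.Sparre

set_option autoImplicit false
set_option linter.unusedVariables false

namespace Pool.Agent.H976R2

open Finset
open scoped Classical

/-- all nonempty prefix sums are nonpositive -/
def Pers {β : Type*} (c : β → ℤ) (l : List β) : Prop :=
  ∀ A B, l = A ++ B → A ≠ [] → (A.map c).sum ≤ 0

lemma eta_bound {γ : Type*} (lab : γ → ℕ) (sg : γ → ℤ) (hsg : ∀ x, sg x = 1 ∨ sg x = -1) :
    ∀ (n : ℕ) (Q : List γ), (Q.map lab).Nodup → (∀ q ∈ Q, lab q < n) →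
      (-(3 : ℤ) ^ n < 2 * (Q.map (fun q => sg q * 3 ^ lab q)).sum ∧
        2 * (Q.map (fun q => sg q * 3 ^ lab q)).sum < (3 : ℤ) ^ n) ∧
      (Q ≠ [] → (Q.map (fun q => sg q * 3 ^ lab q)).sum ≠ 0) := by
  intro n
  induction n with
  | zero =>
    intro Q _ hQ
    have : Q = [] := by
      apply List.eq_nil_iff_forall_not_mem.mpr
      intro q hq
      exact absurd (hQ q hq) (by omega)
    subst this
    simp
  | succ n ih =>
    intro Q hnd hQ
    by_cases hex : ∃ q ∈ Q, lab q = n
    · obtain ⟨q, hq, hqn⟩ := hex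
      have hperm := List.perm_cons_erase hq
      have hsum : (Q.map (fun q => sg q * 3 ^ lab q)).sum
          = sg q * 3 ^ lab q + ((Q.erase q).map (fun q => sg q * 3 ^ lab q)).sum := by
        rw [(hperm.map _).sum_eq]
        simp
      have hnd' : ((q :: Q.erase q).map lab).Nodup := (hperm.map lab).nodup_iff.mp hnd
      rw [List.map_cons, List.nodup_cons] at hnd'
      have hlt : ∀ x ∈ Q.erase q, lab x < n := by
        intro x hx
        have h1 := hQ x (List.mem_of_mem_erase hx)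
        have h2 : lab x ≠ n := by
          intro h
          apply hnd'.1
          rw [hqn, ← h]
          exact List.mem_map_of_mem hx
        omega
      obtain ⟨⟨h1, h2⟩, _⟩ := ih (Q.erase q) hnd'.2 hlt
      rw [hsum, hqn, pow_succ]
      have h3 : (0 : ℤ) < 3 ^ n := by positivity
      rcases hsg q with h | h <;> rw [h] <;> refine ⟨⟨?_, ?_⟩, fun _ => ?_⟩ <;> omega
    · push Not at hex
      have hlt : ∀ x ∈ Q, lab x < n := by
        intro x hx
        have h1 := hQ x hx
        have h2 := hex x hx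
        omega
      obtain ⟨⟨h1, h2⟩, h3⟩ := ih Q hnd hlt
      have h4 : (0 : ℤ) < 3 ^ n := by positivity
      rw [pow_succ]
      exact ⟨⟨by omega, by omega⟩, h3⟩

/-- labelled sign lists -/
noncomputable def TT (K : ℕ) : Finset (List (Fin K × Bool)) :=
  ((List.finite_length_eq (Fin K × Bool) K).toFinset).filter (fun s => (s.map Prod.fst).Nodup)

lemma mem_TT {K : ℕ} {s : List (Fin K × Bool)} : s ∈ TT K ↔ s.length = K ∧ (s.map Prod.fst).Nodup := by
  simp [TT]

lemma TT_nonempty (K : ℕ) : (TT K).Nonempty := by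
  refine ⟨(List.finRange K).map (fun i => (i, true)), mem_TT.mpr ⟨by simp, ?_⟩⟩
  rw [List.map_map]
  have : (Prod.fst ∘ fun i : Fin K => (i, true)) = id := rfl
  rw [this, List.map_id]
  exact List.nodup_finRange K

variable {β : Type*}

noncomputable def prodFam (K : ℕ) (Ω : Finset (List β)) : Finset (List ((Fin K × Bool) × β)) :=
  (TT K ×ˢ Ω).image (fun p => p.1.zip p.2)

lemma mem_prodFam {μ : β → β} {K : ℕ} {Ω : Finset (List β)} (hΩ : ClosedFam μ Ω K)
    {s : List ((Fin K × Bool) × β)} :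
    s ∈ prodFam K Ω ↔ s.map Prod.fst ∈ TT K ∧ s.map Prod.snd ∈ Ω := by
  unfold prodFam
  simp only [Finset.mem_image, Finset.mem_product]
  constructor
  · rintro ⟨⟨a, b⟩, ⟨ha, hb⟩, rfl⟩
    have h1 := (mem_TT.mp ha).1
    have h2 := hΩ.len b hb
    simp only at ha hb h1 h2 ⊢
    rw [List.map_fst_zip (by omega), List.map_snd_zip (by omega)]
    exact ⟨ha, hb⟩
  · rintro ⟨h1, h2⟩
    exact ⟨(s.map Prod.fst, s.map Prod.snd), ⟨h1, h2⟩, (List.zip_of_prod rfl rfl).symm⟩

lemma sum_prodFam {μ : β → β} {K : ℕ} {Ω : Finset (List β)} (hΩ : ClosedFam μ Ω K)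
    (F : List β → ℝ) :
    ∑ s ∈ prodFam K Ω, F (s.map Prod.snd) = ((TT K).card : ℝ) * ∑ l ∈ Ω, F l := by
  unfold prodFam
  rw [Finset.sum_image]
  · rw [Finset.sum_product]
    rw [Finset.sum_congr rfl (fun a ha => Finset.sum_congr rfl (fun b hb => ?_)) (g := fun _ => ∑ l ∈ Ω, F l)]
    · simp
    · have h1 := (mem_TT.mp ha).1
      have h2 := hΩ.len b hb
      simp only
      rw [List.map_snd_zip (by omega)]
  · intro p hp q hq hE
    have hp' := Finset.mem_product.mp hp
    have hq' := Finset.mem_product.mp hq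
    have h1 := (mem_TT.mp hp'.1).1
    have h2 := hΩ.len _ hp'.2
    have h3 := (mem_TT.mp hq'.1).1
    have h4 := hΩ.len _ hq'.2
    simp only at hE
    have e1 : p.1 = q.1 := by
      rw [← List.map_fst_zip (l₁ := p.1) (l₂ := p.2) (by omega), hE, List.map_fst_zip (by omega)]
    have e2 : p.2 = q.2 := by
      rw [← List.map_snd_zip (l₁ := p.1) (l₂ := p.2) (by omega), hE, List.map_snd_zip (by omega)]
    exact Prod.ext e1 e2

def muP {K : ℕ} (μ : β → β) (x : (Fin K × Bool) × β) : (Fin K × Bool) × β :=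
  ((x.1.1, !x.1.2), μ x.2)

lemma closed_prodFam {μ : β → β} {K : ℕ} {Ω : Finset (List β)} (hΩ : ClosedFam μ Ω K) :
    ClosedFam (muP (K := K) μ) (prodFam K Ω) K where
  len s hs := by
    have := (mem_TT.mp ((mem_prodFam hΩ).mp hs).1).1
    simpa using this
  perm s hs s' hp := by
    obtain ⟨h1, h2⟩ := (mem_prodFam hΩ).mp hs
    refine (mem_prodFam hΩ).mpr ⟨?_, hΩ.perm _ h2 _ (hp.map _)⟩
    rw [mem_TT] at h1 ⊢
    refine ⟨by rw [← (hp.map Prod.fst).length_eq]; exact h1.1, ?_⟩
    exact ((hp.map Prod.fst).map Prod.fst).nodup_iff.mp h1.2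
  mir A B hs := by
    obtain ⟨h1, h2⟩ := (mem_prodFam hΩ).mp hs
    refine (mem_prodFam hΩ).mpr ⟨?_, ?_⟩
    · rw [mem_TT] at h1 ⊢
      obtain ⟨h1a, h1b⟩ := h1
      refine ⟨by simpa using h1a, ?_⟩
      have e : ((List.map (muP μ) A ++ B).map Prod.fst).map Prod.fst
          = ((A ++ B).map Prod.fst).map Prod.fst := by
        simp only [List.map_append, List.map_map]
        congr 1
      rw [e]
      exact h1b
    · have e : (List.map (muP (K := K) μ) A ++ B).map Prod.snd
          = (A.map Prod.snd).map μ ++ B.map Prod.snd := by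
        simp only [List.map_append, List.map_map]
        congr 1
      rw [e]
      apply hΩ.mir
      rw [← List.map_append]
      exact h2

theorem SA_lower (μ : β → β) (hμ : ∀ a, μ (μ a) = a) (c : β → ℤ) (hc : ∀ a, c (μ a) = - c a)
    (K : ℕ) (Ω : Finset (List β)) (hΩ : ClosedFam μ Ω K) :
    pp K * (Ω.card : ℝ) ≤ ∑ l ∈ Ω, (if Pers c l then (1 : ℝ) else 0) := by
  set sg : (Fin K × Bool) × β → ℤ := fun x => if x.1.2 then 1 else -1 with hsgdef
  set lab : (Fin K × Bool) × β → ℕ := fun x => (x.1.1 : ℕ) with hlabdef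
  have hsg : ∀ x, sg x = 1 ∨ sg x = -1 := by
    intro x
    simp only [hsgdef]
    split <;> simp
  set w : (Fin K × Bool) × β → ℤ := fun x => -(3 ^ K * c x.2 + sg x * 3 ^ lab x) with hw
  have hwsum : ∀ Q : List ((Fin K × Bool) × β), (Q.map w).sum
      = -(3 ^ K * ((Q.map Prod.snd).map c).sum + (Q.map (fun q => sg q * 3 ^ lab q)).sum) := by
    intro Q
    induction Q with
    | nil => simp
    | cons q Q ih =>
      have hwq : w q = -(3 ^ K * c q.2 + sg q * 3 ^ lab q) := rfl
      rw [List.map_cons, List.sum_cons, ih, hwq]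
      simp only [List.map_cons, List.sum_cons]
      ring
  have hfacts : ∀ s ∈ prodFam K Ω, ∀ P Q R, s = P ++ Q ++ R →
      (-(3 : ℤ) ^ K < 2 * (Q.map (fun q => sg q * 3 ^ lab q)).sum ∧
        2 * (Q.map (fun q => sg q * 3 ^ lab q)).sum < (3 : ℤ) ^ K) ∧
      (Q ≠ [] → (Q.map (fun q => sg q * 3 ^ lab q)).sum ≠ 0) := by
    intro s hs P Q R hPQR
    apply eta_bound lab sg hsg K Q
    · have h1 := (mem_TT.mp ((mem_prodFam hΩ).mp hs).1).2
      rw [hPQR] at h1
      have h2 : ((Q.map Prod.fst).map Prod.fst).Nodup := by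
        simp only [List.map_append] at h1
        exact (List.Nodup.of_append_right (List.Nodup.of_append_left h1))
      have e : Q.map lab = ((Q.map Prod.fst).map Prod.fst).map (fun i : Fin K => (i : ℕ)) := by
        simp only [List.map_map]
        rfl
      rw [e]
      exact (List.nodup_map_iff Fin.val_injective).mpr h2
    · intro q _
      exact q.1.1.2
  have h3K : (0 : ℤ) < 3 ^ K := by positivity
  have hgen : ∀ s ∈ prodFam K Ω, GenL w s := by
    intro s hs P Q R hPQR hQ
    obtain ⟨⟨h1, h2⟩, h3⟩ := hfacts s hs P Q R hPQR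
    have h3 := h3 hQ
    rw [hwsum]
    intro h
    have h4 : 3 ^ K * ((Q.map Prod.snd).map c).sum + (Q.map (fun q => sg q * 3 ^ lab q)).sum = 0 := by
      omega
    set x := ((Q.map Prod.snd).map c).sum
    set y := (Q.map (fun q => sg q * 3 ^ lab q)).sum
    rcases lt_trichotomy x 0 with hx | hx | hx
    · have : (3 : ℤ) ^ K * x ≤ - 3 ^ K := by nlinarith
      omega
    · rw [hx] at h4
      omega
    · have : (3 : ℤ) ^ K ≤ 3 ^ K * x := by nlinarith
      omega
  have hμP : ∀ a, muP (K := K) μ (muP μ a) = a := by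
    intro a
    simp [muP, hμ]
  have hwμ : ∀ a, w (muP μ a) = - w a := by
    intro a
    obtain ⟨⟨i, b⟩, a⟩ := a
    simp only [hw, muP, hc, hsgdef, hlabdef]
    cases b <;> simp <;> ring
  have hex := SA_exact (muP (K := K) μ) hμP w hwμ K (prodFam K Ω) (closed_prodFam hΩ) hgen
  have hcard : ((prodFam K Ω).card : ℝ) = ((TT K).card : ℝ) * (Ω.card : ℝ) := by
    have := sum_prodFam hΩ (fun _ => 1)
    simpa using this
  have hle : ∑ s ∈ prodFam K Ω, (if SPos w s then (1 : ℝ) else 0)
      ≤ ∑ s ∈ prodFam K Ω, (if Pers c (s.map Prod.snd) then (1 : ℝ) else 0) := by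
    apply Finset.sum_le_sum
    intro s hs
    by_cases hsp : SPos w s
    · rw [if_pos hsp, if_pos]
      intro A B hAB hA
      obtain ⟨P, Q, h1, h2, h3⟩ := List.map_eq_append_iff.mp hAB
      have hP : P ≠ [] := by
        rintro rfl
        apply hA
        rw [← h2]
        simp
      have h4 := hsp P Q h1 hP
      obtain ⟨⟨h5, h6⟩, _⟩ := hfacts s hs [] P Q (by simpa using h1)
      rw [hwsum, h2] at h4
      by_contra hcon
      push Not at hcon
      have : (3 : ℤ) ^ K ≤ 3 ^ K * (A.map c).sum := by nlinarith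
      omega
    · rw [if_neg hsp]
      split <;> norm_num
  rw [sum_prodFam hΩ (fun l => if Pers c l then (1 : ℝ) else 0), hex, hcard] at hle
  have hT : (0 : ℝ) < ((TT K).card : ℝ) := by
    exact_mod_cast Finset.card_pos.mpr (TT_nonempty K)
  have h5 : ((TT K).card : ℝ) * (pp K * (Ω.card : ℝ))
      ≤ ((TT K).card : ℝ) * ∑ l ∈ Ω, (if Pers c l then (1 : ℝ) else 0) := by linarith
  exact le_of_mul_le_mul_left h5 hT

end Pool.Agent.H976R2
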