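import Mathlib
import Pool.Agent.H976R2.SparreLower

set_option autoImplicit false
set_option linter.unusedVariables false

namespace Pool.Agent.H976R2

open Finset
open scoped Classical

variable {β : Type*}

/-- total height -/
def tsum' (t : β → ℕ) (l : List β) : ℕ := (l.map t).sum

/-- total displacement -/
def csum' (c : β → ℤ) (l : List β) : ℤ := (l.map c).sum

@[simp] lemma tsum'_nil (t : β → ℕ) : tsum' t [] = 0 := rfl
@[simp] lemma tsum'_append (t : β → ℕ) (a b : List β) : tsum' t (a ++ b) = tsum' t a + tsum' t b := by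
  simp [tsum']
@[simp] lemma tsum'_cons (t : β → ℕ) (a : β) (b : List β) : tsum' t (a :: b) = t a + tsum' t b := by
  simp [tsum']
@[simp] lemma csum'_nil (c : β → ℤ) : csum' c [] = 0 := rfl
@[simp] lemma csum'_append (c : β → ℤ) (a b : List β) : csum' c (a ++ b) = csum' c a + csum' c b := by
  simp [csum']
@[simp] lemma csum'_cons (c : β → ℤ) (a : β) (b : List β) : csum' c (a :: b) = c a + csum' c b := by
  simp [csum']

lemma length_le_tsum' (t : β → ℕ) (ht : ∀ a, 1 ≤ t a) (l : List β) : l.length ≤ tsum' t l := by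
  induction l with
  | nil => simp
  | cons a l ih =>
    have := ht a
    simp only [List.length_cons, tsum'_cons]
    omega

lemma tsum'_pos (t : β → ℕ) (ht : ∀ a, 1 ≤ t a) {l : List β} (h : l ≠ []) : 0 < tsum' t l := by
  have := length_le_tsum' t ht l
  have h2 : 0 < l.length := List.length_pos_iff.mpr h
  omega

lemma eq_nil_of_tsum' (t : β → ℕ) (ht : ∀ a, 1 ≤ t a) {l : List β} (h : tsum' t l = 0) : l = [] := by
  by_contra hne
  have := tsum'_pos t ht hne
  omega

/-- comparison of two coincidences of the same list -/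
lemma cmp (t : β → ℕ) (ht : ∀ a, 1 ≤ t a) {A0 X C0 A B C : List β}
    (h : A0 ++ X ++ C0 = A ++ B ++ C) (h0 : tsum' t A0 = tsum' t C0) (h1 : tsum' t A = tsum' t C) :
    (∃ T T', T ≠ [] ∧ A0 = A ++ T ∧ C0 = T' ++ C ∧ tsum' t T = tsum' t T') ∨
    (∃ T T', A = A0 ++ T ∧ C = T' ++ C0 ∧ X = T ++ B ++ T' ∧ tsum' t T = tsum' t T') := by
  have hp : A0 ++ (X ++ C0) = A ++ (B ++ C) := by simpa using h
  rcases List.append_eq_append_iff.mp hp with ⟨T, e1, e2⟩ | ⟨T, e1, e2⟩
  · -- A = A0 ++ T, X ++ C0 = T ++ (B ++ C)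
    have hs : X ++ C0 = (T ++ B) ++ C := by simpa using e2
    rcases List.append_eq_append_iff.mp hs with ⟨T', e3, e4⟩ | ⟨T', e3, e4⟩
    · -- T ++ B = X ++ T', C0 = T' ++ C
      have ht1 : tsum' t A = tsum' t A0 + tsum' t T := by rw [e1]; simp
      have ht2 : tsum' t C0 = tsum' t T' + tsum' t C := by rw [e4]; simp
      have hT : T = [] := eq_nil_of_tsum' t ht (by omega)
      have hT' : T' = [] := eq_nil_of_tsum' t ht (by omega)
      subst hT hT'
      right
      refine ⟨[], [], by simpa using e1, by simpa using e4.symm, ?_, rfl⟩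
      simpa using e3.symm
    · -- X = (T ++ B) ++ T', C = T' ++ C0
      right
      refine ⟨T, T', e1, e4, e3, ?_⟩
      have ht1 : tsum' t A = tsum' t A0 + tsum' t T := by rw [e1]; simp
      have ht2 : tsum' t C = tsum' t T' + tsum' t C0 := by rw [e4]; simp
      omega
  · -- A0 = A ++ T, B ++ C = T ++ (X ++ C0)
    by_cases hT : T = []
    · subst hT
      have e5 : X ++ C0 = B ++ C := by simpa using e2.symm
      have e6 : A0 = A := by simpa using e1
      rcases List.append_eq_append_iff.mp e5 with ⟨T', e3, e4⟩ | ⟨T', e3, e4⟩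
      · have ht2 : tsum' t C0 = tsum' t T' + tsum' t C := by rw [e4]; simp
        have hT' : T' = [] := eq_nil_of_tsum' t ht (by rw [e6] at h0; omega)
        subst hT'
        right
        exact ⟨[], [], by simp [e6], by simpa using e4.symm, by simpa using e3.symm, rfl⟩
      · have ht2 : tsum' t C = tsum' t T' + tsum' t C0 := by rw [e4]; simp
        have hT' : T' = [] := eq_nil_of_tsum' t ht (by rw [e6] at h0; omega)
        subst hT'
        right
        exact ⟨[], [], by simp [e6], by simpa using e4, by simpa using e3, rfl⟩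
    · left
      have hTpos := tsum'_pos t ht hT
      have ht1 : tsum' t A0 = tsum' t A + tsum' t T := by rw [e1]; simp
      have hs : B ++ C = (T ++ X) ++ C0 := by simpa using e2
      rcases List.append_eq_append_iff.mp hs with ⟨T', e3, e4⟩ | ⟨T', e3, e4⟩
      · -- T ++ X = B ++ T', C = T' ++ C0
        exfalso
        have ht2 : tsum' t C = tsum' t T' + tsum' t C0 := by rw [e4]; simp
        omega
      · -- B = T ++ X ++ T', C0 = T' ++ C
        have ht2 : tsum' t C0 = tsum' t T' + tsum' t C := by rw [e4]; simp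
        exact ⟨T, T', hT, e1, e4, by omega⟩

/-- primitive pair -/
def Prim (t : β → ℕ) (p : List β × List β) : Prop :=
  p.1 ≠ [] ∧ tsum' t p.1 = tsum' t p.2 ∧
    ∀ A1 A2 C1 C2, p.1 = A1 ++ A2 → p.2 = C1 ++ C2 → tsum' t A1 = tsum' t C2 → A1 = [] ∨ A2 = []

/-- no coincidence -/
def ZF (t : β → ℕ) (M : List β) : Prop :=
  ∀ A B C, M = A ++ B ++ C → tsum' t A = tsum' t C → A = []

/-- rebuild a list from nested pairs -/
def build : List (List β × List β) → List β → List β
  | [], M => M
  | p :: Ps, M => p.1 ++ build Ps M ++ p.2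

/-- inward condition -/
def Ip (t : β → ℕ) (c : β → ℤ) (M : List β) : Prop :=
  ∀ A B C, M = A ++ B ++ C → A ≠ [] → tsum' t A = tsum' t C → csum' c A + csum' c C ≤ 0

lemma exists_factor (t : β → ℕ) (ht : ∀ a, 1 ≤ t a) : ∀ (n : ℕ) (M : List β), M.length = n →
    ∃ Ps M0, (∀ p ∈ Ps, Prim t p) ∧ ZF t M0 ∧ M = build Ps M0 := by
  intro n
  induction n using Nat.strong_induction_on with
  | _ n ih =>
  intro M hM
  by_cases hZ : ZF t M
  · exact ⟨[], M, by simp, hZ, rfl⟩
  · unfold ZF at hZ
    push Not at hZ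
    -- minimal A
    have hex : ∃ k, ∃ A B C, M = A ++ B ++ C ∧ tsum' t A = tsum' t C ∧ A ≠ [] ∧ A.length = k := by
      obtain ⟨A, B, C, h1, h2, h3⟩ := hZ
      exact ⟨A.length, A, B, C, h1, h2, h3, rfl⟩
    obtain ⟨A, B, C, h1, h2, h3, h4⟩ := Nat.find_spec hex
    have hmin := fun k (hk : k < Nat.find hex) => Nat.find_min hex hk
    have hAlen : 0 < A.length := List.length_pos_iff.mpr h3
    obtain ⟨Ps, M0, hPs, hM0, hB⟩ := ih B.length (by rw [← hM, h1]; simp; omega) B rfl
    refine ⟨(A, C) :: Ps, M0, ?_, hM0, ?_⟩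
    · intro p hp
      rcases List.mem_cons.mp hp with rfl | hp
      · refine ⟨h3, h2, ?_⟩
        intro A1 A2 C1 C2 e1 e2 e3
        by_contra hcon
        push Not at hcon
        simp only at e1 e2
        have hl : A1.length < A.length := by
          rw [e1, List.length_append]
          have := List.length_pos_iff.mpr hcon.2
          omega
        refine hmin A1.length (by omega) ⟨A1, A2 ++ B ++ C1, C2, ?_, e3, hcon.1, rfl⟩
        rw [h1, e1, e2]
        simp
      · exact hPs p hp
    · rw [h1, hB]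
      rfl

lemma factor_unique (t : β → ℕ) (ht : ∀ a, 1 ≤ t a) : ∀ (Ps Ps' : List (List β × List β)) (M M' : List β),
    (∀ p ∈ Ps, Prim t p) → (∀ p ∈ Ps', Prim t p) → ZF t M → ZF t M' →
    build Ps M = build Ps' M' → Ps = Ps' ∧ M = M' := by
  intro Ps
  induction Ps with
  | nil =>
    intro Ps' M M' _ hPs' hM hM' hE
    cases Ps' with
    | nil => exact ⟨rfl, hE⟩
    | cons p Ps' =>
      exfalso
      have hp := hPs' p (by simp)
      exact hp.1 (hM p.1 (build Ps' M') p.2 hE hp.2.1)
  | cons p Ps ih =>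
    intro Ps' M M' hPs hPs' hM hM' hE
    cases Ps' with
    | nil =>
      exfalso
      have hp := hPs p (by simp)
      exact hp.1 (hM' p.1 (build Ps M) p.2 hE.symm hp.2.1)
    | cons p' Ps' =>
      have hp := hPs p (by simp)
      have hp' := hPs' p' (by simp)
      have hE' : p.1 ++ build Ps M ++ p.2 = p'.1 ++ build Ps' M' ++ p'.2 := hE
      rcases cmp t ht hE' hp.2.1 hp'.2.1 with ⟨T, T', hT, e1, e2, e3⟩ | ⟨T, T', e1, e2, e3, e4⟩
      · exfalso
        rcases hp.2.2 p'.1 T T' p'.2 e1 e2 hp'.2.1 with h | h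
        · exact hp'.1 h
        · exact hT h
      · have hT : T = [] := by
          rcases hp'.2.2 p.1 T T' p.2 e1 e2 hp.2.1 with h | h
          · exact absurd h hp.1
          · exact h
        subst hT
        have hT' : T' = [] := eq_nil_of_tsum' t ht (by rw [← e4]; simp)
        subst hT'
        have hpp : p = p' := by
          apply Prod.ext
          · simpa using e1.symm
          · simpa using e2.symm
        subst hpp
        have hmid : build Ps M = build Ps' M' := by simpa using e3
        obtain ⟨h1, h2⟩ := ih Ps' M M' (fun q hq => hPs q (by simp [hq]))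
          (fun q hq => hPs' q (by simp [hq])) hM hM' hmid
        exact ⟨by rw [h1], h2⟩

lemma Ip_of_pers (t : β → ℕ) (ht : ∀ a, 1 ≤ t a) (c : β → ℤ) :
    ∀ (Ps : List (List β × List β)) (M : List β) (S : ℤ), (∀ p ∈ Ps, Prim t p) → ZF t M →
    (∀ P Q, Ps = P ++ Q → P ≠ [] → S + (P.map (fun p => csum' c p.1 + csum' c p.2)).sum ≤ 0) →
    ∀ A B C, build Ps M = A ++ B ++ C → A ≠ [] → tsum' t A = tsum' t C →
      S + (csum' c A + csum' c C) ≤ 0 := by
  intro Ps
  induction Ps with
  | nil =>
    intro M S _ hM _ A B C hE hA hts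
    exact absurd (hM A B C hE hts) hA
  | cons p Ps ih =>
    intro M S hPs hM hS A B C hE hA hts
    have hp := hPs p (by simp)
    have hE' : p.1 ++ build Ps M ++ p.2 = A ++ B ++ C := hE
    rcases cmp t ht hE' hp.2.1 hts with ⟨T, T', hT, e1, e2, e3⟩ | ⟨T, T', e1, e2, e3, e4⟩
    · exfalso
      rcases hp.2.2 A T T' C e1 e2 hts with h | h
      · exact hA h
      · exact hT h
    · have h1 := hS [p] Ps rfl (by simp)
      simp only [List.map_cons, List.map_nil, List.sum_cons, List.sum_nil, add_zero] at h1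
      rw [e1, e2]
      simp only [csum'_append]
      by_cases hT : T = []
      · subst hT
        have hT' : T' = [] := eq_nil_of_tsum' t ht (by rw [← e4]; simp)
        subst hT'
        simp only [csum'_nil]
        linarith
      · have := ih M (S + (csum' c p.1 + csum' c p.2)) (fun q hq => hPs q (by simp [hq])) hM (by
          intro P Q hPQ hP
          have := hS (p :: P) Q (by simp [hPQ]) (by simp)
          simp only [List.map_cons, List.sum_cons] at this
          linarith) T B T' e3 hT e4
        linarith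

/-- the factorisation -/
noncomputable def fac (t : β → ℕ) (M : List β) : List (List β × List β) × List β :=
  if h : ∃ q : List (List β × List β) × List β, (∀ p ∈ q.1, Prim t p) ∧ ZF t q.2 ∧ M = build q.1 q.2
  then Classical.choose h else ([], M)

lemma fac_spec (t : β → ℕ) (ht : ∀ a, 1 ≤ t a) (M : List β) :
    (∀ p ∈ (fac t M).1, Prim t p) ∧ ZF t (fac t M).2 ∧ M = build (fac t M).1 (fac t M).2 := by
  have h : ∃ q : List (List β × List β) × List β, (∀ p ∈ q.1, Prim t p) ∧ ZF t q.2 ∧ M = build q.1 q.2 := by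
    obtain ⟨Ps, M0, h1, h2, h3⟩ := exists_factor t ht M.length M rfl
    exact ⟨(Ps, M0), h1, h2, h3⟩
  unfold fac
  rw [dif_pos h]
  exact Classical.choose_spec h

lemma fac_build (t : β → ℕ) (ht : ∀ a, 1 ≤ t a) (Ps : List (List β × List β)) (M : List β)
    (h1 : ∀ p ∈ Ps, Prim t p) (h2 : ZF t M) : fac t (build Ps M) = (Ps, M) := by
  obtain ⟨e1, e2, e3⟩ := fac_spec t ht (build Ps M)
  obtain ⟨h3, h4⟩ := factor_unique t ht _ _ _ _ h1 e1 h2 e2 e3
  exact Prod.ext h3.symm h4.symm

/-- number of coincidences -/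
noncomputable def zc (t : β → ℕ) (M : List β) : ℕ := (fac t M).1.length

def flat (Ps : List (List β × List β)) : List β := Ps.flatMap (fun p => p.1 ++ p.2)

lemma build_append_perm (P Q : List (List β × List β)) (R : List β) :
    (build (P ++ Q) R).Perm (flat P ++ build Q R) := by
  induction P with
  | nil => simp [flat]
  | cons p P ih =>
    have h1 : build (p :: P ++ Q) R = p.1 ++ build (P ++ Q) R ++ p.2 := rfl
    have h2 : flat (p :: P) = p.1 ++ p.2 ++ flat P := by simp [flat]
    rw [h1, h2]
    have h3 : (p.1 ++ build (P ++ Q) R ++ p.2).Perm (p.1 ++ (p.2 ++ build (P ++ Q) R)) := by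
      rw [List.append_assoc]
      exact List.perm_append_comm.append_left _
    refine h3.trans ?_
    have h4 := (ih.append_left p.2).append_left p.1
    simpa [List.append_assoc] using h4

def muPair (μ : β → β) (p : List β × List β) : List β × List β := (p.1.map μ, p.2.map μ)

lemma flat_map (μ : β → β) (P : List (List β × List β)) :
    flat (P.map (muPair μ)) = (flat P).map μ := by
  induction P with
  | nil => rfl
  | cons p P ih =>
    have h1 : flat (p :: P) = p.1 ++ p.2 ++ flat P := by simp [flat]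
    have h2 : flat ((p :: P).map (muPair μ)) = p.1.map μ ++ p.2.map μ ++ flat (P.map (muPair μ)) := by
      simp [flat, muPair]
    rw [h1, h2, ih]
    simp

lemma prim_map (μ : β → β) (t : β → ℕ) (htμ : ∀ a, t (μ a) = t a) (p : List β × List β)
    (h : Prim t p) : Prim t (muPair μ p) := by
  have hts : ∀ l : List β, tsum' t (l.map μ) = tsum' t l := by
    intro l
    induction l with
    | nil => rfl
    | cons a l ih => simp [ih, htμ]
  refine ⟨by simpa [muPair] using h.1, by simpa [muPair, hts] using h.2.1, ?_⟩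
  intro A1 A2 C1 C2 e1 e2 e3
  simp only [muPair] at e1 e2
  obtain ⟨A1', A2', f1, f2, f3⟩ := List.map_eq_append_iff.mp e1
  obtain ⟨C1', C2', g1, g2, g3⟩ := List.map_eq_append_iff.mp e2
  rw [← f2, ← g3, hts, hts] at e3
  rcases h.2.2 A1' A2' C1' C2' f1 g1 e3 with h | h
  · left; rw [← f2, h]; rfl
  · right; rw [← f3, h]; rfl

theorem Z_bound (μ : β → β) (hμ : ∀ a, μ (μ a) = a) (c : β → ℤ) (hc : ∀ a, c (μ a) = - c a)
    (t : β → ℕ) (ht : ∀ a, 1 ≤ t a) (htμ : ∀ a, t (μ a) = t a)
    (m : ℕ) (Ω : Finset (List β)) (hΩ : ClosedFam μ Ω m) :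
    (Ω.card : ℝ) ≤ ∑ M ∈ Ω, (if Ip t c M then 1 / pp (zc t M) else 0) := by
  set κ : List β → ℕ × List β := fun M => (zc t M, (fac t M).2) with hκ
  rw [← Finset.sum_fiberwise_of_maps_to (s := Ω) (t := Ω.image κ) (g := κ)
    (fun l hl => Finset.mem_image_of_mem _ hl)]
  rw [Finset.card_eq_sum_card_image κ Ω]
  push_cast
  apply Finset.sum_le_sum
  rintro ⟨z, R⟩ hzR
  -- ZF R
  have hR : ZF t R := by
    obtain ⟨M, _, hM2⟩ := Finset.mem_image.mp hzR
    simp only [hκ, Prod.mk.injEq] at hM2
    rw [← hM2.2]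
    exact (fac_spec t ht M).2.1
  set Λ : Finset (List (List β × List β)) :=
    (Ω.filter (fun M => κ M = (z, R))).image (fun M => (fac t M).1) with hΛ
  have hinj : Set.InjOn (fun M => (fac t M).1) (Ω.filter (fun M => κ M = (z, R)) : Set (List β)) := by
    intro M hM M' hM' hE
    have h1 := (Finset.mem_filter.mp hM).2
    have h2 := (Finset.mem_filter.mp hM').2
    simp only [hκ, Prod.mk.injEq] at h1 h2 hE
    rw [(fac_spec t ht M).2.2, (fac_spec t ht M').2.2, h1.2, h2.2, hE]
  have hmem : ∀ Ps, Ps ∈ Λ ↔ (∀ p ∈ Ps, Prim t p) ∧ Ps.length = z ∧ build Ps R ∈ Ω := by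
    intro Ps
    rw [hΛ]
    simp only [Finset.mem_image, Finset.mem_filter]
    constructor
    · rintro ⟨M, ⟨hM, hM2⟩, rfl⟩
      simp only [hκ, Prod.mk.injEq] at hM2
      obtain ⟨e1, e2, e3⟩ := fac_spec t ht M
      refine ⟨e1, hM2.1, ?_⟩
      rw [← hM2.2, ← e3]
      exact hM
    · rintro ⟨h1, h2, h3⟩
      have hf := fac_build t ht Ps R h1 hR
      refine ⟨build Ps R, ⟨h3, ?_⟩, by rw [hf]⟩
      simp only [hκ, zc, hf, h2]
  have hclosed : ClosedFam (muPair μ) Λ z := by
    refine ⟨fun Ps hPs => ((hmem Ps).mp hPs).2.1, ?_, ?_⟩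
    · intro Ps hPs Ps' hp
      obtain ⟨h1, h2, h3⟩ := (hmem Ps).mp hPs
      refine (hmem Ps').mpr ⟨fun p hp' => h1 p (hp.mem_iff.mpr hp'), by rw [← hp.length_eq, h2], ?_⟩
      refine hΩ.perm _ h3 _ ?_
      have e1 := build_append_perm Ps [] R
      have e2 := build_append_perm Ps' [] R
      simp only [List.append_nil] at e1 e2
      refine e1.trans (List.Perm.trans ?_ e2.symm)
      apply List.Perm.append_right
      unfold flat
      exact hp.flatMap_right _
    · intro A B hAB
      obtain ⟨h1, h2, h3⟩ := (hmem (A ++ B)).mp hAB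
      refine (hmem _).mpr ⟨?_, by simpa using h2, ?_⟩
      · intro p hp
        rcases List.mem_append.mp hp with hp | hp
        · obtain ⟨q, hq, rfl⟩ := List.mem_map.mp hp
          exact prim_map μ t htμ q (h1 q (List.mem_append_left _ hq))
        · exact h1 p (List.mem_append_right _ hp)
      · have e1 := hΩ.perm _ h3 _ (build_append_perm A B R)
        have e2 := hΩ.mir _ _ e1
        rw [← flat_map] at e2
        exact hΩ.perm _ e2 _ (build_append_perm _ B R).symm
  have hcardΛ : (Λ.card : ℝ) = ((Ω.filter (fun M => κ M = (z, R))).card : ℝ) := by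
    rw [hΛ, Finset.card_image_of_injOn hinj]
  have hmuPair : ∀ a, muPair μ (muPair μ a) = a := by
    intro a
    have : ∀ l : List β, (l.map μ).map μ = l := by
      intro l
      rw [List.map_map]
      have : μ ∘ μ = id := funext hμ
      rw [this, List.map_id]
    simp [muPair, this]
  have hcs : ∀ l : List β, csum' c (l.map μ) = - csum' c l := by
    intro l
    induction l with
    | nil => simp
    | cons a l ih => simp only [List.map_cons, csum'_cons, ih, hc]; ring
  have hSA := SA_lower (muPair μ) hmuPair (fun p => csum' c p.1 + csum' c p.2) (by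
    intro a
    simp only [muPair, hcs]
    ring) z Λ hclosed
  have hpz := pp_pos z
  have hsum : ∑ M ∈ Ω.filter (fun M => κ M = (z, R)), (if Ip t c M then 1 / pp (zc t M) else 0)
      ≥ ∑ Ps ∈ Λ, (if Pers (fun p => csum' c p.1 + csum' c p.2) Ps then (1 : ℝ) else 0) / pp z := by
    rw [hΛ, Finset.sum_image hinj]
    apply Finset.sum_le_sum
    intro M hM
    have h2 := (Finset.mem_filter.mp hM).2
    simp only [hκ, Prod.mk.injEq] at h2
    obtain ⟨e1, e2, e3⟩ := fac_spec t ht M
    rw [h2.1]
    by_cases hP : Pers (fun p => csum' c p.1 + csum' c p.2) (fac t M).1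
    · rw [if_pos hP, if_pos]
      intro A B C hE hA hts
      have := Ip_of_pers t ht c (fac t M).1 (fac t M).2 0 e1 e2 (by
        intro P Q hPQ hP'
        rw [zero_add]
        exact hP P Q hPQ hP') A B C (by rw [← e3]; exact hE) hA hts
      linarith
    · rw [if_neg hP]
      split
      · rw [zero_div]; positivity
      · simp
  refine le_trans ?_ hsum
  rw [← Finset.sum_div, le_div_iff₀ hpz, ← hcardΛ]
  linarith

end Pool.Agent.H976R2
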