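import Mathlib
import Pool.Agent.H976R2.Factor

set_option autoImplicit false
set_option linter.unusedVariables false

namespace Pool.Agent.H976R2

open Finset
open scoped Classical

variable {β : Type*}

/-- outward condition -/
def Op (t : β → ℕ) (c : β → ℤ) (L R : List β) : Prop :=
  ∀ A A' B B', L = A ++ A' → R = B ++ B' → A ≠ [] → tsum' t A = tsum' t B →
    0 < csum' c A + csum' c B

def OO (t : β → ℕ) (c : β → ℤ) (i j : ℕ) (l : List β) : Prop := Op t c (l.take i).reverse (l.drop j)

def mid (i j : ℕ) (l : List β) : List β := (l.drop i).take (j - i)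

lemma tsum'_reverse (t : β → ℕ) (l : List β) : tsum' t l.reverse = tsum' t l := by
  simp [tsum', List.sum_reverse]

lemma csum'_reverse (c : β → ℤ) (l : List β) : csum' c l.reverse = csum' c l := by
  simp [csum', List.sum_reverse]

lemma tau_lt (t : β → ℕ) (ht : ∀ a, 1 ≤ t a) (l : List β) {i j : ℕ} (hij : i < j) (hj : j ≤ l.length) :
    tsum' t (l.take i) < tsum' t (l.take j) := by
  have h : l.take j = l.take i ++ (l.drop i).take (j - i) := by
    have : j = i + (j - i) := by omega
    conv_lhs => rw [this]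
    rw [List.take_add]
  rw [h, tsum'_append]
  have : 0 < tsum' t ((l.drop i).take (j - i)) := by
    apply tsum'_pos t ht
    apply List.ne_nil_of_length_pos
    rw [List.length_take, List.length_drop]
    omega
  omega

lemma tau_le (t : β → ℕ) (l : List β) {i j : ℕ} (hij : i ≤ j) :
    tsum' t (l.take i) ≤ tsum' t (l.take j) := by
  have h : l.take j = l.take i ++ (l.drop i).take (j - i) := by
    have : j = i + (j - i) := by omega
    conv_lhs => rw [this]
    rw [List.take_add]
  rw [h, tsum'_append]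
  omega

lemma sep_aux (t : β → ℕ) (c : β → ℤ) (ht : ∀ a, 1 ≤ t a) (l : List β) {i j i' j' : ℕ}
    (hij : i ≤ j) (hj : j ≤ l.length) (hij' : i' ≤ j') (hj' : j' ≤ l.length)
    (hI : Ip t c (mid i j l)) (hO : OO t c i' j' l)
    (hs : tsum' t (l.take i) + tsum' t (l.take j) = tsum' t (l.take i') + tsum' t (l.take j'))
    (hlt : i < i') : False := by
  have h1 := tau_lt t ht l hlt (by omega)
  have h2 : j' < j := by
    by_contra hcon
    have := tau_le t l (i := j) (j := j') (by omega)
    omega
  -- decomposition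
  set A := (l.drop i).take (i' - i) with hA
  set B := (l.drop i').take (j' - i') with hB
  set C := (l.drop j').take (j - j') with hC
  have hti' : l.take i' = l.take i ++ A := by
    have : i' = i + (i' - i) := by omega
    conv_lhs => rw [this]
    rw [List.take_add]
  have htj : l.take j = l.take j' ++ C := by
    have : j = j' + (j - j') := by omega
    conv_lhs => rw [this]
    rw [List.take_add]
  have hmid : mid i j l = A ++ B ++ C := by
    have e1 : l.drop i = A ++ l.drop i' := by
      have : l.drop i' = (l.drop i).drop (i' - i) := by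
        rw [List.drop_drop]; congr 1; omega
      rw [this, hA, List.take_append_drop]
    have e2 : l.drop i' = B ++ l.drop j' := by
      have : l.drop j' = (l.drop i').drop (j' - i') := by
        rw [List.drop_drop]; congr 1; omega
      rw [this, hB, List.take_append_drop]
    have lA : A.length = i' - i := by rw [hA, List.length_take, List.length_drop]; omega
    have lB : B.length = j' - i' := by rw [hB, List.length_take, List.length_drop]; omega
    have e3 : j - i = A.length + (B.length + (j - j')) := by omega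
    unfold mid
    rw [e1, e2, e3, List.take_length_add_append, List.take_length_add_append, hC, List.append_assoc]
  have hAne : A ≠ [] := by
    apply List.ne_nil_of_length_pos
    rw [hA, List.length_take, List.length_drop]; omega
  have hts : tsum' t A = tsum' t C := by
    rw [hti', htj] at hs
    simp only [tsum'_append] at hs
    omega
  have h3 := hI A B C hmid hAne hts
  have hdj' : l.drop j' = C ++ l.drop j := by
    have : l.drop j = (l.drop j').drop (j - j') := by
      rw [List.drop_drop]; congr 1; omega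
    rw [this, hC, List.take_append_drop]
  have h4 := hO A.reverse (l.take i).reverse C (l.drop j) (by rw [hti', List.reverse_append]) hdj'
    (by simpa using hAne) (by rw [tsum'_reverse]; exact hts)
  rw [csum'_reverse] at h4
  omega

lemma sep (t : β → ℕ) (c : β → ℤ) (ht : ∀ a, 1 ≤ t a) (l : List β) {i j i' j' : ℕ}
    (hij : i ≤ j) (hj : j ≤ l.length) (hij' : i' ≤ j') (hj' : j' ≤ l.length)
    (hI : Ip t c (mid i j l)) (hO : OO t c i j l) (hI' : Ip t c (mid i' j' l)) (hO' : OO t c i' j' l)
    (hs : tsum' t (l.take i) + tsum' t (l.take j) = tsum' t (l.take i') + tsum' t (l.take j')) :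
    i = i' ∧ j = j' := by
  rcases lt_trichotomy i i' with h | h | h
  · exact (sep_aux t c ht l hij hj hij' hj' hI hO' hs h).elim
  · refine ⟨h, ?_⟩
    subst h
    rcases lt_trichotomy j j' with h | h | h
    · have := tau_lt t ht l h hj'
      omega
    · exact h
    · have := tau_lt t ht l h hj
      omega
  · exact (sep_aux t c ht l hij' hj' hij hj hI' hO hs.symm h).elim

/-- counting coincidences -/
lemma count_zc (t : β → ℕ) (ht : ∀ a, 1 ≤ t a) (l : List β) (J s : ℕ) :
    ∀ (Ps : List (List β × List β)) (M L R : List β), (∀ p ∈ Ps, Prim t p) →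
      l = L ++ build Ps M ++ R → L.length + (build Ps M).length ≤ J →
      s = tsum' t (l.take L.length) + tsum' t (l.take (L.length + (build Ps M).length)) →
      Ps.length + 1 ≤ (((range (J + 1)) ×ˢ (range (J + 1))).filter
        (fun q : ℕ × ℕ => L.length ≤ q.1 ∧ q.1 ≤ q.2 ∧
          tsum' t (l.take q.1) + tsum' t (l.take q.2) = s)).card := by
  intro Ps
  induction Ps with
  | nil =>
    intro M L R _ hl hJ hs
    have hb : build ([] : List (List β × List β)) M = M := rfl
    rw [hb] at hJ hs hl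
    simp only [List.length_nil, zero_add]
    apply Finset.card_pos.mpr
    refine ⟨(L.length, L.length + M.length), ?_⟩
    simp only [Finset.mem_filter, Finset.mem_product, Finset.mem_range]
    refine ⟨⟨by omega, by omega⟩, le_refl _, by omega, hs.symm⟩
  | cons p Ps ih =>
    intro M L R hPs hl hJ hs
    have hp := hPs p (by simp)
    have hb : build (p :: Ps) M = p.1 ++ build Ps M ++ p.2 := rfl
    rw [hb] at hJ hs hl
    simp only [List.length_append] at hJ hs
    have hl' : l = (L ++ p.1) ++ build Ps M ++ (p.2 ++ R) := by rw [hl]; simp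
    have hp1 : 0 < p.1.length := List.length_pos_iff.mpr hp.1
    have t1 : l.take L.length = L := by rw [hl]; simp
    have t2 : l.take (L.length + (p.1.length + (build Ps M).length + p.2.length))
        = L ++ (p.1 ++ build Ps M ++ p.2) := by
      rw [hl]
      apply List.take_left'
      simp only [List.length_append]
    have t3 : l.take (L ++ p.1).length = L ++ p.1 := by
      rw [hl', List.append_assoc]; exact List.take_left
    have t4 : l.take ((L ++ p.1).length + (build Ps M).length) = (L ++ p.1) ++ build Ps M := by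
      rw [hl']
      apply List.take_left'
      simp only [List.length_append]
    have key := ih M (L ++ p.1) (p.2 ++ R) (fun q hq => hPs q (by simp [hq])) hl'
      (by simp only [List.length_append]; omega) (by
        rw [hs, t1, t2, t3, t4]
        simp only [tsum'_append]
        have := hp.2.1
        omega)
    have hsub : insert (L.length, L.length + (p.1.length + (build Ps M).length + p.2.length))
        (((range (J + 1)) ×ˢ (range (J + 1))).filter
        (fun q : ℕ × ℕ => (L ++ p.1).length ≤ q.1 ∧ q.1 ≤ q.2 ∧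
          tsum' t (l.take q.1) + tsum' t (l.take q.2) = s)) ⊆
        (((range (J + 1)) ×ˢ (range (J + 1))).filter
        (fun q : ℕ × ℕ => L.length ≤ q.1 ∧ q.1 ≤ q.2 ∧
          tsum' t (l.take q.1) + tsum' t (l.take q.2) = s)) := by
      intro q hq
      rcases Finset.mem_insert.mp hq with rfl | hq
      · simp only [Finset.mem_filter, Finset.mem_product, Finset.mem_range]
        refine ⟨⟨by omega, by omega⟩, le_refl _, by omega, hs.symm⟩
      · simp only [Finset.mem_filter, Finset.mem_product, Finset.mem_range, List.length_append] at hq ⊢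
        exact ⟨hq.1, by omega, hq.2.2⟩
    have hnot : (L.length, L.length + (p.1.length + (build Ps M).length + p.2.length)) ∉
        (((range (J + 1)) ×ˢ (range (J + 1))).filter
        (fun q : ℕ × ℕ => (L ++ p.1).length ≤ q.1 ∧ q.1 ≤ q.2 ∧
          tsum' t (l.take q.1) + tsum' t (l.take q.2) = s)) := by
      simp only [Finset.mem_filter, Finset.mem_product, Finset.mem_range, List.length_append]
      intro h
      omega
    have hc := Finset.card_le_card hsub
    rw [Finset.card_insert_of_notMem hnot] at hc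
    simp only [List.length_cons]
    omega

/-- the pairs `i ≤ j ≤ J` -/
def pairs (J : ℕ) : Finset (ℕ × ℕ) :=
  ((range (J + 1)) ×ˢ (range (J + 1))).filter (fun q : ℕ × ℕ => q.1 ≤ q.2)

lemma mem_pairs {J : ℕ} {q : ℕ × ℕ} : q ∈ pairs J ↔ q.1 ≤ q.2 ∧ q.2 ≤ J := by
  simp only [pairs, Finset.mem_filter, Finset.mem_product, Finset.mem_range]
  omega

lemma card_pairs_le (J : ℕ) : (pairs J).card ≤ (J + 1) ^ 2 := by
  unfold pairs
  refine (Finset.card_filter_le _ _).trans ?_
  rw [Finset.card_product, Finset.card_range, sq]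

/-- The weighted count of good pairs for one list. -/
lemma weighted_count (t : β → ℕ) (c : β → ℤ) (ht : ∀ a, 1 ≤ t a) (l : List β) (J : ℕ)
    (hJ : J ≤ l.length) :
    ∑ q ∈ pairs J, (if OO t c q.1 q.2 l ∧ Ip t c (mid q.1 q.2 l) then
        1 / pp (zc t (mid q.1 q.2 l)) else 0)
      ≤ 2 * ((J : ℝ) + 1) * Real.sqrt (2 * (tsum' t (l.take J) : ℝ) + 1) := by
  set σ : ℕ × ℕ → ℕ := fun q => tsum' t (l.take q.1) + tsum' t (l.take q.2) with hσ
  set τ := tsum' t (l.take J) with hτ
  set n : ℕ → ℕ := fun s => ((pairs J).filter (fun q => σ q = s)).card with hn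
  -- individual bound
  have hind : ∀ q ∈ pairs J, 1 / pp (zc t (mid q.1 q.2 l)) ≤ 2 * Real.sqrt (n (σ q)) := by
    intro q hq
    obtain ⟨h1, h2⟩ := mem_pairs.mp hq
    refine (inv_pp_le _).trans ?_
    have hcount : zc t (mid q.1 q.2 l) + 1 ≤ n (σ q) := by
      obtain ⟨e1, e2, e3⟩ := fac_spec t ht (mid q.1 q.2 l)
      have hL : (l.take q.1).length = q.1 := by rw [List.length_take]; omega
      have hM : (mid q.1 q.2 l).length = q.2 - q.1 := by
        unfold mid
        rw [List.length_take, List.length_drop]; omega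
      have hdec : l = l.take q.1 ++ build (fac t (mid q.1 q.2 l)).1 (fac t (mid q.1 q.2 l)).2
          ++ l.drop q.2 := by
        rw [← e3]
        unfold mid
        have e4 : (l.drop q.1).take (q.2 - q.1) ++ l.drop q.2 = l.drop q.1 := by
          have : l.drop q.2 = (l.drop q.1).drop (q.2 - q.1) := by
            rw [List.drop_drop]; congr 1; omega
          rw [this, List.take_append_drop]
        rw [List.append_assoc, e4, List.take_append_drop]
      have hcz := count_zc t ht l J (σ q) _ _ (l.take q.1) (l.drop q.2) e1 hdec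
        (by rw [← e3, hL, hM]; omega) (by
          rw [← e3, hL, hM, hσ]
          have : q.1 + (q.2 - q.1) = q.2 := by omega
          rw [this])
      refine hcz.trans ?_
      apply Finset.card_le_card
      intro r hr
      simp only [Finset.mem_filter, Finset.mem_product, Finset.mem_range] at hr
      simp only [Finset.mem_filter, mem_pairs, hσ]
      exact ⟨⟨hr.2.2.1, by omega⟩, hr.2.2.2⟩
    have : Real.sqrt ((zc t (mid q.1 q.2 l) : ℝ) + 1) ≤ Real.sqrt (n (σ q)) := by
      apply Real.sqrt_le_sqrt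
      exact_mod_cast hcount
    linarith
  -- sum over good pairs
  set good := (pairs J).filter (fun q => OO t c q.1 q.2 l ∧ Ip t c (mid q.1 q.2 l)) with hgood
  have h1 : ∑ q ∈ pairs J, (if OO t c q.1 q.2 l ∧ Ip t c (mid q.1 q.2 l) then
        1 / pp (zc t (mid q.1 q.2 l)) else 0) ≤ ∑ q ∈ good, 2 * Real.sqrt (n (σ q)) := by
    rw [hgood, Finset.sum_filter]
    apply Finset.sum_le_sum
    intro q hq
    split
    · exact hind q hq
    · exact le_refl _
  have hinj : Set.InjOn σ (good : Set (ℕ × ℕ)) := by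
    intro q hq q' hq' hE
    obtain ⟨hq1, hq2, hq3⟩ := Finset.mem_filter.mp hq
    obtain ⟨hq1', hq2', hq3'⟩ := Finset.mem_filter.mp hq'
    obtain ⟨a1, a2⟩ := mem_pairs.mp hq1
    obtain ⟨b1, b2⟩ := mem_pairs.mp hq1'
    obtain ⟨e1, e2⟩ := sep t c ht l a1 (a2.trans hJ) b1 (b2.trans hJ) hq3 hq2 hq3' hq2' hE
    exact Prod.ext e1 e2
  have himg : good.image σ ⊆ range (2 * τ + 1) := by
    intro s hs
    obtain ⟨q, hq, rfl⟩ := Finset.mem_image.mp hs
    obtain ⟨a1, a2⟩ := mem_pairs.mp (Finset.mem_filter.mp hq).1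
    have := tau_le t l (i := q.1) (j := J) (by omega)
    have := tau_le t l (i := q.2) (j := J) a2
    rw [Finset.mem_range, hσ]
    simp only
    omega
  have h2 : ∑ q ∈ good, 2 * Real.sqrt (n (σ q)) ≤ ∑ s ∈ range (2 * τ + 1), 2 * Real.sqrt (n s) := by
    have : ∑ q ∈ good, 2 * Real.sqrt (n (σ q)) = ∑ s ∈ good.image σ, 2 * Real.sqrt (n s) := by
      rw [Finset.sum_image hinj]
    rw [this]
    apply Finset.sum_le_sum_of_subset_of_nonneg himg
    intro s _ _
    positivity
  have h3 : (∑ s ∈ range (2 * τ + 1), Real.sqrt (n s)) ^ 2 ≤ (2 * (τ : ℝ) + 1) * ((J : ℝ) + 1) ^ 2 := by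
    have hcs := sq_sum_le_card_mul_sum_sq (s := range (2 * τ + 1)) (f := fun s => Real.sqrt (n s))
    refine hcs.trans ?_
    rw [Finset.card_range]
    push_cast
    apply mul_le_mul_of_nonneg_left _ (by positivity)
    have : ∑ s ∈ range (2 * τ + 1), Real.sqrt (n s) ^ 2 = ∑ s ∈ range (2 * τ + 1), (n s : ℝ) := by
      apply Finset.sum_congr rfl
      intro s _
      rw [Real.sq_sqrt (Nat.cast_nonneg _)]
    rw [this]
    have hsum : ∑ s ∈ range (2 * τ + 1), n s ≤ (pairs J).card := by
      rw [hn]
      have hm : ∀ q ∈ pairs J, σ q ∈ range (2 * τ + 1) := by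
        intro q hq
        obtain ⟨a1, a2⟩ := mem_pairs.mp hq
        have := tau_le t l (i := q.1) (j := J) (by omega)
        have := tau_le t l (i := q.2) (j := J) a2
        rw [Finset.mem_range, hσ]
        simp only
        omega
      rw [Finset.card_eq_sum_card_fiberwise hm]
    calc ∑ s ∈ range (2 * τ + 1), (n s : ℝ) = ((∑ s ∈ range (2 * τ + 1), n s : ℕ) : ℝ) := by
          push_cast; rfl
      _ ≤ (((pairs J).card : ℕ) : ℝ) := by exact_mod_cast hsum
      _ ≤ (((J + 1) ^ 2 : ℕ) : ℝ) := by exact_mod_cast card_pairs_le J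
      _ = ((J : ℝ) + 1) ^ 2 := by push_cast; ring
  have h4 : ∑ s ∈ range (2 * τ + 1), Real.sqrt (n s) ≤ ((J : ℝ) + 1) * Real.sqrt (2 * (τ : ℝ) + 1) := by
    have hnn : 0 ≤ ((J : ℝ) + 1) * Real.sqrt (2 * (τ : ℝ) + 1) := by positivity
    apply le_of_sq_le_sq _ hnn
    rw [mul_pow, Real.sq_sqrt (by positivity)]
    linarith
  have h5 : ∑ s ∈ range (2 * τ + 1), 2 * Real.sqrt (n s) = 2 * ∑ s ∈ range (2 * τ + 1), Real.sqrt (n s) := by
    rw [Finset.mul_sum]
  rw [h5] at h2
  linarith

/-- Step (E) for one pair. -/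
lemma pair_bound (μ : β → β) (hμ : ∀ a, μ (μ a) = a) (c : β → ℤ) (hc : ∀ a, c (μ a) = - c a)
    (t : β → ℕ) (ht : ∀ a, 1 ≤ t a) (htμ : ∀ a, t (μ a) = t a)
    (K : ℕ) (Ω : Finset (List β)) (hΩ : ClosedFam μ Ω K) {i j : ℕ} (hij : i ≤ j) (hj : j ≤ K) :
    ∑ l ∈ Ω, (if OO t c i j l then (1 : ℝ) else 0) ≤
      ∑ l ∈ Ω, (if OO t c i j l ∧ Ip t c (mid i j l) then 1 / pp (zc t (mid i j l)) else 0) := by
  set k := j - i with hk
  set f : List β → ℝ := fun M => (if Ip t c M then 1 / pp (zc t M) else 0) - 1 with hf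
  set g : List β → ℝ := fun X => (if Op t c (X.drop (K - j)).reverse (X.take (K - j)) then (1 : ℝ) else 0)
    with hg
  have hnn : 0 ≤ ∑ l ∈ Ω, f (l.take k) * g (l.drop k) := by
    apply fiber_nonneg hΩ (by omega)
    · intro B
      simp only [hg]
      split <;> norm_num
    · intro B
      have := Z_bound μ hμ c hc t ht htμ k _ (closed_fib hΩ (by omega : k ≤ K) B)
      simp only [hf, Finset.sum_sub_distrib, Finset.sum_const, nsmul_eq_mul, mul_one]
      linarith
  rw [← sum_rotate hΩ i (fun l => f (l.take k) * g (l.drop k))] at hnn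
  have hterm : ∀ l ∈ Ω, f ((l.rotate i).take k) * g ((l.rotate i).drop k)
      = (if OO t c i j l ∧ Ip t c (mid i j l) then 1 / pp (zc t (mid i j l)) else 0)
        - (if OO t c i j l then (1 : ℝ) else 0) := by
    intro l hl
    have hlen := hΩ.len l hl
    have e0 : l.rotate i = l.drop i ++ l.take i := List.rotate_eq_drop_append_take (by omega)
    have e1 : (l.rotate i).take k = mid i j l := by
      rw [e0]
      unfold mid
      rw [List.take_append_of_le_length (by rw [List.length_drop]; omega)]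
    have e2 : (l.rotate i).drop k = l.drop j ++ l.take i := by
      rw [e0, List.drop_append_of_le_length (by rw [List.length_drop]; omega), List.drop_drop]
      congr 2
      omega
    have hlj : (l.drop j).length = K - j := by rw [List.length_drop, hlen]
    have e3 : g ((l.rotate i).drop k) = (if OO t c i j l then (1 : ℝ) else 0) := by
      rw [e2]
      simp only [hg]
      rw [List.drop_left' hlj, List.take_left' hlj]
      rfl
    rw [e1, e3]
    simp only [hf]
    by_cases h1 : OO t c i j l <;> by_cases h2 : Ip t c (mid i j l) <;> simp [h1, h2]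
  rw [Finset.sum_congr rfl hterm, Finset.sum_sub_distrib] at hnn
  linarith

/-- monotonicity: moving away the nearest elements on the left side -/
lemma g_le (μ : β → β) (c : β → ℤ) (t : β → ℕ)
    (K : ℕ) (Ω : Finset (List β)) (hΩ : ClosedFam μ Ω K) {r m : ℕ} (hr : r ≤ m) (hm : m ≤ K) :
    ∑ l ∈ Ω, (if OO t c m m l then (1 : ℝ) else 0) ≤
      ∑ l ∈ Ω, (if OO t c (m - r) m l then (1 : ℝ) else 0) := by
  rw [← sum_selfmap Ω (fun l => (l.take m).rotate r ++ l.drop m) ?_ ?_
    (fun l => if OO t c (m - r) m l then (1 : ℝ) else 0)]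
  · apply Finset.sum_le_sum
    intro l hl
    have hlen := hΩ.len l hl
    by_cases h : OO t c m m l
    · rw [if_pos h, if_pos]
      have hlm : (l.take m).length = m := by rw [List.length_take]; omega
      have e0 : (l.take m).rotate r = (l.take m).drop r ++ (l.take m).take r :=
        List.rotate_eq_drop_append_take (by omega)
      have hlm' : ((l.take m).rotate r).length = m := by rw [List.length_rotate, hlm]
      unfold OO
      rw [List.drop_left' hlm']
      have e1 : ((l.take m).rotate r ++ l.drop m).take (m - r) = (l.take m).drop r := by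
        rw [e0, List.append_assoc]
        apply List.take_left'
        rw [List.length_drop, hlm]
      rw [e1]
      intro A A' B B' h1 h2 h3 h4
      refine h A (A' ++ ((l.take m).take r).reverse) B B' ?_ h2 h3 h4
      rw [← List.append_assoc, ← h1, ← List.reverse_append, List.take_append_drop]
    · rw [if_neg h]
      split <;> norm_num
  · intro l hl
    refine hΩ.perm l hl _ ?_
    conv_lhs => rw [← List.take_append_drop m l]
    exact (List.rotate_perm _ _).symm.append_right _
  · intro l hl l' hl' hE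
    have hlen := hΩ.len l hl
    have hlen' := hΩ.len l' hl'
    obtain ⟨e1, e2⟩ := List.append_inj hE (by
      rw [List.length_rotate, List.length_rotate, List.length_take, List.length_take, hlen, hlen'])
    have e3 := List.rotate_injective r e1
    rw [← List.take_append_drop m l, ← List.take_append_drop m l', e3, e2]

/-- exchangeability of heights -/
lemma tau_avg (μ : β → β) (t : β → ℕ) (K : ℕ) (Ω : Finset (List β)) (hΩ : ClosedFam μ Ω K)
    {J : ℕ} (hJ : J ≤ K) :
    (K : ℝ) * ∑ l ∈ Ω, (tsum' t (l.take J) : ℝ) = (J : ℝ) * ∑ l ∈ Ω, (tsum' t l : ℝ) := by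
  set E0 : ℝ := ∑ l ∈ Ω, (tsum' t (l.take 1) : ℝ) with hE0
  have key : ∀ J ≤ K, ∑ l ∈ Ω, (tsum' t (l.take J) : ℝ) = (J : ℝ) * E0 := by
    intro J
    induction J with
    | zero => intro _; simp
    | succ J ih =>
      intro hJK
      have ih := ih (by omega)
      have e1 : ∀ l ∈ Ω, (tsum' t (l.take (J + 1)) : ℝ)
          = (tsum' t (l.take J) : ℝ) + (tsum' t ((l.rotate J).take 1) : ℝ) := by
        intro l hl
        have hlen := hΩ.len l hl
        have e0 : l.rotate J = l.drop J ++ l.take J := List.rotate_eq_drop_append_take (by omega)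
        have e2 : (l.rotate J).take 1 = (l.drop J).take 1 := by
          rw [e0, List.take_append_of_le_length (by rw [List.length_drop]; omega)]
        rw [e2, List.take_add, tsum'_append]
        push_cast
        rfl
      rw [Finset.sum_congr rfl e1, Finset.sum_add_distrib, ih,
        sum_rotate hΩ J (fun l => (tsum' t (l.take 1) : ℝ))]
      push_cast
      ring
  have h1 := key J hJ
  have h2 := key K le_rfl
  have h3 : ∑ l ∈ Ω, (tsum' t (l.take K) : ℝ) = ∑ l ∈ Ω, (tsum' t l : ℝ) := by
    apply Finset.sum_congr rfl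
    intro l hl
    rw [List.take_of_length_le (by rw [hΩ.len l hl])]
  rw [h3] at h2
  rw [h1, h2]
  ring

/-- Abel summation -/
lemma abel (h : ℕ → ℝ) (n : ℕ) :
    ∑ m ∈ range (n + 1), h m / ((m : ℝ) + 1)
      = (∑ m ∈ range (n + 1), h m) / ((n : ℝ) + 1)
        + ∑ m ∈ range n, (∑ k ∈ range (m + 1), h k) / (((m : ℝ) + 1) * ((m : ℝ) + 2)) := by
  induction n with
  | zero => simp
  | succ n ih =>
    rw [Finset.sum_range_succ, ih, Finset.sum_range_succ (fun m => h m) (n + 1),
      Finset.sum_range_succ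
        (fun m : ℕ => (∑ k ∈ range (m + 1), h k) / (((m : ℝ) + 1) * ((m : ℝ) + 2))) n]
    generalize ∑ m ∈ range (n + 1), h m = S
    generalize ∑ m ∈ range n, (∑ k ∈ range (m + 1), h k) / (((m : ℝ) + 1) * ((m : ℝ) + 2)) = U
    push_cast
    have h1 : (n : ℝ) + 1 ≠ 0 := by positivity
    have h2 : (n : ℝ) + 2 ≠ 0 := by positivity
    have h3 : (n : ℝ) + 1 + 1 ≠ 0 := by positivity
    field_simp
    ring

lemma sum_sqrt_le (n : ℕ) : ∑ m ∈ range n, Real.sqrt m / ((m : ℝ) + 2) ≤ 2 * Real.sqrt n := by
  induction n with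
  | zero => simp
  | succ n ih =>
    rw [Finset.sum_range_succ]
    have h1 : Real.sqrt n / ((n : ℝ) + 2) ≤ 2 * (Real.sqrt ((n : ℝ) + 1) - Real.sqrt n) := by
      set a := Real.sqrt n with ha
      set b := Real.sqrt ((n : ℝ) + 1) with hb
      have ha2 : a ^ 2 = n := Real.sq_sqrt (Nat.cast_nonneg _)
      have hb2 : b ^ 2 = (n : ℝ) + 1 := Real.sq_sqrt (by positivity)
      have ha0 : 0 ≤ a := Real.sqrt_nonneg _
      have hb0 : 0 ≤ b := Real.sqrt_nonneg _
      have hab : a ≤ b := Real.sqrt_le_sqrt (by linarith)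
      have hb1 : 1 ≤ b := by
        rw [hb]; exact Real.one_le_sqrt.mpr (by linarith [Nat.cast_nonneg (α := ℝ) n])
      rw [div_le_iff₀ (by positivity)]
      have h2 : (b - a) * (b + a) = 1 := by nlinarith
      have h3 : 0 ≤ b - a := by linarith
      -- a (a+b) ≤ 2 (n+2)
      have h4 : (b - a) * (a * (b + a)) = a := by
        calc (b - a) * (a * (b + a)) = a * ((b - a) * (b + a)) := by ring
          _ = a := by rw [h2, mul_one]
      have h5 : a * (b + a) ≤ 2 * ((n : ℝ) + 2) := by nlinarith
      calc a = (b - a) * (a * (b + a)) := h4.symm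
        _ ≤ (b - a) * (2 * ((n : ℝ) + 2)) := mul_le_mul_of_nonneg_left h5 h3
        _ = 2 * (b - a) * ((n : ℝ) + 2) := by ring
    push_cast
    linarith

lemma sum_pairs (o : ℕ → ℕ → ℝ) (J : ℕ) :
    ∑ m ∈ range (J + 1), ∑ i ∈ range (m + 1), o i m = ∑ q ∈ pairs J, o q.1 q.2 := by
  unfold pairs
  rw [Finset.sum_filter, Finset.sum_product_right]
  apply Finset.sum_congr rfl
  intro m hm
  have hm' := Finset.mem_range.mp hm
  rw [← Finset.sum_filter]
  apply Finset.sum_congr _ (fun _ _ => rfl)
  ext i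
  simp only [Finset.mem_range, Finset.mem_filter]
  omega

theorem comb_bound (μ : β → β) (hμ : ∀ a, μ (μ a) = a) (c : β → ℤ) (hc : ∀ a, c (μ a) = - c a)
    (t : β → ℕ) (ht : ∀ a, 1 ≤ t a) (htμ : ∀ a, t (μ a) = t a)
    (K : ℕ) (Ω : Finset (List β)) (hΩ : ClosedFam μ Ω K) (W : ℕ) (hW : ∀ l ∈ Ω, tsum' t l ≤ W) :
    ∑ m ∈ range (K + 1), ∑ l ∈ Ω, (if OO t c m m l then (1 : ℝ) else 0)
      ≤ (1 + 6 * Real.sqrt (3 * (W : ℝ))) * (Ω.card : ℝ) := by
  set N : ℝ := (Ω.card : ℝ) with hN
  have hN0 : 0 ≤ N := by rw [hN]; positivity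
  have hWs : 0 ≤ Real.sqrt (3 * (W : ℝ)) := Real.sqrt_nonneg _
  set g : ℕ → ℝ := fun m => ∑ l ∈ Ω, (if OO t c m m l then (1 : ℝ) else 0) with hg
  have hgN : ∀ m, g m ≤ N := by
    intro m
    rw [hg, hN]
    simp only
    calc ∑ l ∈ Ω, (if OO t c m m l then (1 : ℝ) else 0) ≤ ∑ l ∈ Ω, (1 : ℝ) := by
          apply Finset.sum_le_sum
          intro l _
          split <;> norm_num
      _ = (Ω.card : ℝ) := by simp
  rcases Nat.eq_zero_or_pos K with hK0 | hKpos
  · subst hK0
    simp only [zero_add, Finset.sum_range_one]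
    have := hgN 0
    simp only [hg] at this
    nlinarith
  have hKr : (0 : ℝ) < (K : ℝ) := by exact_mod_cast hKpos
  set o : ℕ → ℕ → ℝ := fun i j => ∑ l ∈ Ω, (if OO t c i j l then (1 : ℝ) else 0) with ho
  set h : ℕ → ℝ := fun m => ∑ i ∈ range (m + 1), o i m with hh
  set T : ℕ → ℝ := fun J => ∑ l ∈ Ω, 2 * Real.sqrt (2 * (tsum' t (l.take J) : ℝ) + 1) with hT
  -- Step A
  have stepA : ∀ m ≤ K, g m ≤ h m / ((m : ℝ) + 1) := by
    intro m hm
    rw [le_div_iff₀ (by positivity)]
    have : ∑ i ∈ range (m + 1), g m ≤ h m := by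
      rw [hh]
      apply Finset.sum_le_sum
      intro i hi
      have hi' : i ≤ m := by have := Finset.mem_range.mp hi; omega
      have := g_le μ c t K Ω hΩ (r := m - i) (m := m) (by omega) hm
      have e : m - (m - i) = i := by omega
      rw [e] at this
      exact this
    rw [Finset.sum_const, Finset.card_range, nsmul_eq_mul] at this
    push_cast at this
    linarith
  -- Step B
  have stepB : ∀ J ≤ K, ∑ m ∈ range (J + 1), h m ≤ ((J : ℝ) + 1) * T J := by
    intro J hJ
    have e1 : ∑ m ∈ range (J + 1), h m = ∑ q ∈ pairs J, o q.1 q.2 := sum_pairs o J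
    rw [e1]
    calc ∑ q ∈ pairs J, o q.1 q.2
        ≤ ∑ q ∈ pairs J, ∑ l ∈ Ω, (if OO t c q.1 q.2 l ∧ Ip t c (mid q.1 q.2 l) then
            1 / pp (zc t (mid q.1 q.2 l)) else 0) := by
          apply Finset.sum_le_sum
          intro q hq
          obtain ⟨h1, h2⟩ := mem_pairs.mp hq
          exact pair_bound μ hμ c hc t ht htμ K Ω hΩ h1 (h2.trans hJ)
      _ = ∑ l ∈ Ω, ∑ q ∈ pairs J, (if OO t c q.1 q.2 l ∧ Ip t c (mid q.1 q.2 l) then
            1 / pp (zc t (mid q.1 q.2 l)) else 0) := Finset.sum_comm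
      _ ≤ ∑ l ∈ Ω, 2 * ((J : ℝ) + 1) * Real.sqrt (2 * (tsum' t (l.take J) : ℝ) + 1) := by
          apply Finset.sum_le_sum
          intro l hl
          exact weighted_count t c ht l J (by rw [hΩ.len l hl]; exact hJ)
      _ = ((J : ℝ) + 1) * T J := by
          rw [hT]
          simp only
          rw [Finset.mul_sum]
          apply Finset.sum_congr rfl
          intro l _
          ring
  -- bounds on T
  have hT0 : T 0 = 2 * N := by
    rw [hT]
    simp [hN]
    ring
  have hTm : ∀ m, 1 ≤ m → m ≤ K → T m ≤ 2 * N * (Real.sqrt (3 * (W : ℝ)) * (Real.sqrt m / Real.sqrt K)) := by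
    intro m hm1 hmK
    have h1 : ∀ l ∈ Ω, Real.sqrt (2 * (tsum' t (l.take m) : ℝ) + 1)
        ≤ Real.sqrt (3 * (tsum' t (l.take m) : ℝ)) := by
      intro l hl
      apply Real.sqrt_le_sqrt
      have h2 := length_le_tsum' t ht (l.take m)
      rw [List.length_take, hΩ.len l hl] at h2
      have h3 : 1 ≤ tsum' t (l.take m) := by omega
      have h4 : (1 : ℝ) ≤ (tsum' t (l.take m) : ℝ) := by exact_mod_cast h3
      linarith
    have h2 : (∑ l ∈ Ω, Real.sqrt (3 * (tsum' t (l.take m) : ℝ))) ^ 2
        ≤ N * ∑ l ∈ Ω, 3 * (tsum' t (l.take m) : ℝ) := by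
      have hcs := sq_sum_le_card_mul_sum_sq (s := Ω)
        (f := fun l => Real.sqrt (3 * (tsum' t (l.take m) : ℝ)))
      refine hcs.trans (le_of_eq ?_)
      rw [← hN]
      congr 1
      apply Finset.sum_congr rfl
      intro l _
      rw [Real.sq_sqrt (by positivity)]
    have h3 : ∑ l ∈ Ω, 3 * (tsum' t (l.take m) : ℝ) ≤ 3 * ((m : ℝ) * W / K) * N := by
      rw [← Finset.mul_sum]
      have h4 := tau_avg μ t K Ω hΩ hmK
      have h5 : ∑ l ∈ Ω, (tsum' t l : ℝ) ≤ (W : ℝ) * N := by
        calc ∑ l ∈ Ω, (tsum' t l : ℝ) ≤ ∑ l ∈ Ω, (W : ℝ) := by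
              apply Finset.sum_le_sum
              intro l hl
              exact_mod_cast hW l hl
          _ = (W : ℝ) * N := by rw [Finset.sum_const, nsmul_eq_mul, hN]; ring
      have h6 : (K : ℝ) * ∑ l ∈ Ω, (tsum' t (l.take m) : ℝ) ≤ (m : ℝ) * ((W : ℝ) * N) := by
        rw [h4]
        exact mul_le_mul_of_nonneg_left h5 (by positivity)
      have h7 : ∑ l ∈ Ω, (tsum' t (l.take m) : ℝ) ≤ (m : ℝ) * ((W : ℝ) * N) / K := by
        rw [le_div_iff₀ hKr]
        linarith
      calc 3 * ∑ l ∈ Ω, (tsum' t (l.take m) : ℝ) ≤ 3 * ((m : ℝ) * ((W : ℝ) * N) / K) := by linarith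
        _ = 3 * ((m : ℝ) * W / K) * N := by ring
    set Q : ℝ := Real.sqrt (3 * (W : ℝ)) * (Real.sqrt m / Real.sqrt K) with hQ
    have hQ0 : 0 ≤ Q := by positivity
    have hQ2 : Q ^ 2 = 3 * ((m : ℝ) * W / K) := by
      rw [hQ, mul_pow, div_pow, Real.sq_sqrt (by positivity), Real.sq_sqrt (by positivity),
        Real.sq_sqrt (by positivity)]
      ring
    have h8 : ∑ l ∈ Ω, Real.sqrt (3 * (tsum' t (l.take m) : ℝ)) ≤ N * Q := by
      apply le_of_sq_le_sq _ (by positivity)
      calc (∑ l ∈ Ω, Real.sqrt (3 * (tsum' t (l.take m) : ℝ))) ^ 2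
          ≤ N * ∑ l ∈ Ω, 3 * (tsum' t (l.take m) : ℝ) := h2
        _ ≤ N * (3 * ((m : ℝ) * W / K) * N) := mul_le_mul_of_nonneg_left h3 hN0
        _ = (N * Q) ^ 2 := by rw [mul_pow, hQ2]; ring
    have h9 : ∑ l ∈ Ω, Real.sqrt (2 * (tsum' t (l.take m) : ℝ) + 1)
        ≤ ∑ l ∈ Ω, Real.sqrt (3 * (tsum' t (l.take m) : ℝ)) := Finset.sum_le_sum h1
    have h10 : T m = 2 * ∑ l ∈ Ω, Real.sqrt (2 * (tsum' t (l.take m) : ℝ) + 1) := by
      rw [hT]
      simp only
      rw [Finset.mul_sum]
    rw [h10]
    linarith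
  -- combine
  have hcomb : ∑ m ∈ range (K + 1), g m ≤ T K + ∑ m ∈ range K, T m / ((m : ℝ) + 2) := by
    calc ∑ m ∈ range (K + 1), g m ≤ ∑ m ∈ range (K + 1), h m / ((m : ℝ) + 1) := by
          apply Finset.sum_le_sum
          intro m hm
          exact stepA m (by have := Finset.mem_range.mp hm; omega)
      _ = (∑ m ∈ range (K + 1), h m) / ((K : ℝ) + 1)
        + ∑ m ∈ range K, (∑ k ∈ range (m + 1), h k) / (((m : ℝ) + 1) * ((m : ℝ) + 2)) := abel h K
      _ ≤ T K + ∑ m ∈ range K, T m / ((m : ℝ) + 2) := by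
          apply add_le_add
          · rw [div_le_iff₀ (by positivity)]
            have := stepB K le_rfl
            linarith
          · apply Finset.sum_le_sum
            intro m hm
            have hmK : m ≤ K := (Finset.mem_range.mp hm).le
            have := stepB m hmK
            rw [div_le_div_iff₀ (by positivity) (by positivity)]
            have h2 : (0 : ℝ) < (m : ℝ) + 2 := by positivity
            calc (∑ k ∈ range (m + 1), h k) * ((m : ℝ) + 2)
                ≤ (((m : ℝ) + 1) * T m) * ((m : ℝ) + 2) := mul_le_mul_of_nonneg_right this h2.le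
              _ = T m * (((m : ℝ) + 1) * ((m : ℝ) + 2)) := by ring
  have hTK := hTm K hKpos le_rfl
  have hsK : Real.sqrt (K : ℝ) ≠ 0 := (Real.sqrt_pos.mpr hKr).ne'
  rw [div_self hsK, mul_one] at hTK
  have hsum : ∑ m ∈ range K, T m / ((m : ℝ) + 2) ≤ N + 2 * N * Real.sqrt (3 * (W : ℝ)) * 2 := by
    have hbd : ∀ m ∈ range K, T m / ((m : ℝ) + 2) ≤ (if m = 0 then N else 0)
        + 2 * N * Real.sqrt (3 * (W : ℝ)) / Real.sqrt K * (Real.sqrt m / ((m : ℝ) + 2)) := by
      intro m hm
      have hmK : m ≤ K := (Finset.mem_range.mp hm).le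
      by_cases hm0 : m = 0
      · subst hm0
        rw [hT0]
        simp
      · rw [if_neg hm0, zero_add, div_le_iff₀ (by positivity)]
        refine (hTm m (by omega) hmK).trans (le_of_eq ?_)
        have h2 : (m : ℝ) + 2 ≠ 0 := by positivity
        field_simp
    refine (Finset.sum_le_sum hbd).trans ?_
    rw [Finset.sum_add_distrib, ← Finset.mul_sum]
    have e1 : ∑ m ∈ range K, (if m = 0 then N else 0) = N := by
      rw [Finset.sum_ite_eq' (range K) 0 (fun _ => N)]
      simp [hKpos]
    rw [e1]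
    have e2 := sum_sqrt_le K
    have e3 : 0 ≤ 2 * N * Real.sqrt (3 * (W : ℝ)) / Real.sqrt K := by positivity
    have e4 := mul_le_mul_of_nonneg_left e2 e3
    have e5 : 2 * N * Real.sqrt (3 * (W : ℝ)) / Real.sqrt K * (2 * Real.sqrt K)
        = 2 * N * Real.sqrt (3 * (W : ℝ)) * 2 := by
      field_simp
    linarith
  have : ∑ m ∈ range (K + 1), g m ≤ (1 + 6 * Real.sqrt (3 * (W : ℝ))) * N := by
    refine hcomb.trans ?_
    have e : (1 + 6 * Real.sqrt (3 * (W : ℝ))) * N
        = 2 * N * Real.sqrt (3 * (W : ℝ)) + (N + 2 * N * Real.sqrt (3 * (W : ℝ)) * 2) := by ring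
    rw [e]
    exact add_le_add hTK hsum
  exact this

end Pool.Agent.H976R2
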