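import Mathlib

set_option autoImplicit false
set_option linter.unusedVariables false

namespace Pool.Agent.H976R2

/-- The four lattice directions. -/
inductive Dir : Type
  | E : Dir
  | W : Dir
  | N : Dir
  | S : Dir
  deriving DecidableEq

instance : Fintype Dir where
  elems := {Dir.E, Dir.W, Dir.N, Dir.S}
  complete := by intro x; cases x <;> simp

/-- horizontal increment -/
def dx : Dir → ℤ
  | Dir.E => 1
  | Dir.W => -1
  | Dir.N => 0
  | Dir.S => 0

/-- vertical increment -/
def dy : Dir → ℤ
  | Dir.E => 0
  | Dir.W => 0
  | Dir.N => 1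
  | Dir.S => -1

/-- horizontal displacement of a word -/
def wX (w : List Dir) : ℤ := (w.map dx).sum

/-- vertical displacement of a word -/
def wY (w : List Dir) : ℤ := (w.map dy).sum

@[simp] lemma wX_nil : wX [] = 0 := rfl
@[simp] lemma wY_nil : wY [] = 0 := rfl
@[simp] lemma wX_cons (s : Dir) (w : List Dir) : wX (s :: w) = dx s + wX w := by simp [wX]
@[simp] lemma wY_cons (s : Dir) (w : List Dir) : wY (s :: w) = dy s + wY w := by simp [wY]
@[simp] lemma wX_append (a b : List Dir) : wX (a ++ b) = wX a + wX b := by simp [wX]
@[simp] lemma wY_append (a b : List Dir) : wY (a ++ b) = wY a + wY b := by simp [wY]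

/-- crossing contribution of one step -/
def crs (x y px py : ℤ) : Dir → ℤ
  | Dir.E => 0
  | Dir.W => 0
  | Dir.N => if py = y ∧ px < x then 1 else 0
  | Dir.S => if py - 1 = y ∧ px < x then -1 else 0

/-- signed flow -/
def flow (x y : ℤ) : ℤ → ℤ → List Dir → ℤ
  | _, _, [] => 0
  | px, py, s :: w => crs x y px py s + flow x y (px + dx s) (py + dy s) w

/-- the walk from `(px, py)` along `w` does not visit `(x, y)` -/
def Off (x y px py : ℤ) (w : List Dir) : Prop :=
  ∀ a b, w = a ++ b → ¬ (px + wX a = x ∧ py + wY a = y)

lemma Off.tail {x y px py : ℤ} {s : Dir} {w : List Dir} (h : Off x y px py (s :: w)) :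
    Off x y (px + dx s) (py + dy s) w := by
  intro a b hab hc
  refine h (s :: a) b (by simp [hab]) ?_
  rw [wX_cons, wY_cons]
  constructor
  · linarith [hc.1]
  · linarith [hc.2]

lemma Off.head {x y px py : ℤ} {w : List Dir} (h : Off x y px py w) : ¬ (px = x ∧ py = y) := by
  have := h [] w rfl
  simpa using this

lemma flow_conserve (x y : ℤ) : ∀ (w : List Dir) (px py : ℤ), Off x y px py w →
    flow x y px py w + (if py + wY w = y ∧ px + wX w < x then 1 else 0)
      = flow x (y - 1) px py w + (if py = y ∧ px < x then 1 else 0) := by
  intro w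
  induction w with
  | nil =>
    intro px py _
    simp [flow]
  | cons s w ih =>
    intro px py h
    have h1 := ih _ _ h.tail
    have h2 := h.head
    have h3 := h.tail.head
    have e1 : flow x y px py (s :: w) = crs x y px py s + flow x y (px + dx s) (py + dy s) w := rfl
    have e2 : flow x (y - 1) px py (s :: w)
        = crs x (y - 1) px py s + flow x (y - 1) (px + dx s) (py + dy s) w := rfl
    rw [e1, e2, wY_cons, wX_cons]
    rw [show py + (dy s + wY w) = py + dy s + wY w by ring,
      show px + (dx s + wX w) = px + dx s + wX w by ring]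
    have key : crs x y px py s + (if py + dy s = y ∧ px + dx s < x then 1 else 0)
        = crs x (y - 1) px py s + (if py = y ∧ px < x then 1 else 0) := by
      cases s
      · simp only [crs, dx, dy] at h2 h3 ⊢
        split_ifs <;> omega
      · simp only [crs, dx, dy] at h2 h3 ⊢
        split_ifs <;> omega
      · simp only [crs, dx, dy] at h2 h3 ⊢
        split_ifs <;> omega
      · simp only [crs, dx, dy] at h2 h3 ⊢
        split_ifs <;> omega
    linarith

lemma flow_column (x y : ℤ) : ∀ (w : List Dir) (px py : ℤ), Off x y px py w →
    flow (x + 1) y px py w = flow x y px py w := by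
  intro w
  induction w with
  | nil => intro px py _; rfl
  | cons s w ih =>
    intro px py h
    have h1 := ih _ _ h.tail
    have h2 := h.head
    have h3 := h.tail.head
    have e1 : flow x y px py (s :: w) = crs x y px py s + flow x y (px + dx s) (py + dy s) w := rfl
    have e2 : flow (x + 1) y px py (s :: w)
        = crs (x + 1) y px py s + flow (x + 1) y (px + dx s) (py + dy s) w := rfl
    rw [e1, e2, h1]
    have key : crs (x + 1) y px py s = crs x y px py s := by
      cases s
      · simp only [crs]
      · simp only [crs]
      · simp only [crs, dx, dy] at h2 h3 ⊢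
        split_ifs <;> omega
      · simp only [crs, dx, dy] at h2 h3 ⊢
        split_ifs <;> omega
    rw [key]

lemma flow_zero_high (x y : ℤ) : ∀ (w : List Dir) (px py : ℤ),
    (∀ a b, w = a ++ b → py + wY a ≤ y) → flow x y px py w = 0 := by
  intro w
  induction w with
  | nil => intro px py _; rfl
  | cons s w ih =>
    intro px py h
    have h0 := h [] (s :: w) rfl
    have hs := h [s] w rfl
    have h1 := ih (px + dx s) (py + dy s) (by
      intro a b hab
      have := h (s :: a) b (by simp [hab])
      rw [wY_cons] at this
      linarith)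
    have e1 : flow x y px py (s :: w) = crs x y px py s + flow x y (px + dx s) (py + dy s) w := rfl
    rw [e1, h1]
    cases s <;> simp only [crs, dy, wY_nil, wY_cons] at h0 hs ⊢
    · rfl
    · rfl
    · rw [if_neg (by omega)]; rfl
    · rw [if_neg (by omega)]; rfl

lemma flow_zero_low (x y : ℤ) : ∀ (w : List Dir) (px py : ℤ),
    (∀ a b, w = a ++ b → y < py + wY a) → flow x y px py w = 0 := by
  intro w
  induction w with
  | nil => intro px py _; rfl
  | cons s w ih =>
    intro px py h
    have h0 := h [] (s :: w) rfl
    have hs := h [s] w rfl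
    have h1 := ih (px + dx s) (py + dy s) (by
      intro a b hab
      have := h (s :: a) b (by simp [hab])
      rw [wY_cons] at this
      linarith)
    have e1 : flow x y px py (s :: w) = crs x y px py s + flow x y (px + dx s) (py + dy s) w := rfl
    rw [e1, h1]
    cases s <;> simp only [crs, dy, wY_nil, wY_cons] at h0 hs ⊢
    · rfl
    · rfl
    · rw [if_neg (by omega)]; rfl
    · rw [if_neg (by omega)]; rfl

/-- the side function of the walk `A` from the origin to height `H` -/
def side (A : List Dir) (H x y : ℤ) : ℤ :=
  flow x y 0 0 A + (if H = y ∧ wX A < x then 1 else 0)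

lemma side_horizontal (A : List Dir) (H x y : ℤ) (hH : wY A = H) (h : Off x y 0 0 A) :
    side A H (x + 1) y = side A H x y := by
  unfold side
  rw [flow_column x y A 0 0 h]
  have hend := h A [] (by simp)
  simp only [zero_add, hH] at hend
  congr 1
  split_ifs <;> omega

lemma side_vertical (A : List Dir) (H x y : ℤ) (hH : wY A = H) (h : Off x (y + 1) 0 0 A)
    (h0 : 0 ≤ y) (h1 : y + 1 ≤ H) : side A H x (y + 1) = side A H x y := by
  unfold side
  have hc := flow_conserve x (y + 1) A 0 0 h
  simp only [zero_add, hH] at hc
  rw [show y + 1 - 1 = y by ring] at hc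
  rw [hc]
  split_ifs <;> omega

lemma side_const (A : List Dir) (H : ℤ) (hH : wY A = H) : ∀ (B : List Dir) (px py : ℤ),
    (∀ a b, B = a ++ b → 0 ≤ py + wY a ∧ py + wY a ≤ H) →
    (∀ a b, B = a ++ b → Off (px + wX a) (py + wY a) 0 0 A) →
    side A H (px + wX B) (py + wY B) = side A H px py := by
  intro B
  induction B with
  | nil => intro px py _ _; simp
  | cons s B ih =>
    intro px py h1 h2
    have h3 := ih (px + dx s) (py + dy s) (by
      intro a b hab
      have := h1 (s :: a) b (by simp [hab])
      rw [wY_cons] at this
      constructor <;> linarith [this.1, this.2]) (by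
      intro a b hab
      have := h2 (s :: a) b (by simp [hab])
      rw [wY_cons, wX_cons] at this
      rw [show px + dx s + wX a = px + (dx s + wX a) by ring,
        show py + dy s + wY a = py + (dy s + wY a) by ring]
      exact this)
    rw [wX_cons, wY_cons, show px + (dx s + wX B) = px + dx s + wX B by ring,
      show py + (dy s + wY B) = py + dy s + wY B by ring, h3]
    have a0 := h1 [] (s :: B) rfl
    have a1 := h1 [s] B rfl
    have b0 := h2 [] (s :: B) rfl
    have b1 := h2 [s] B rfl
    cases s <;> simp only [dx, dy, wX_cons, wY_cons, wX_nil, wY_nil, add_zero] at a0 a1 b0 b1 ⊢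
    · exact side_horizontal A H px py hH b0
    · have := side_horizontal A H (px + -1) py hH b1
      rw [show px + -1 + 1 = px by ring] at this
      exact this.symm
    · exact side_vertical A H px py hH b1 a0.1 a1.2
    · have := side_vertical A H px (py + -1) hH (by
        rw [show py + -1 + 1 = py by ring]; exact b0) a1.1 (by linarith [a0.2])
      rw [show py + -1 + 1 = py by ring] at this
      exact this.symm

/-- Planarity: two disjoint crossings of a strip keep their horizontal order. `A` goes up from
`(0,0)` to height `H`; `B` (reflected) goes down from `(z,H)` to height `0`. -/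
theorem planar (A B : List Dir) (H z : ℤ)
    (hYA : wY A = H) (hYB : wY B = H)
    (hA : ∀ a b, A = a ++ b → 0 ≤ wY a ∧ wY a ≤ H)
    (hB : ∀ a b, B = a ++ b → 0 ≤ wY a ∧ wY a ≤ H)
    (hdis : ∀ a a' b b', A = a ++ a' → B = b ++ b' → ¬ (wX a = z + wX b ∧ wY a = H - wY b)) :
    wX A < z ↔ 0 < z + wX B := by
  -- reflected word
  let fl : Dir → Dir := fun s => match s with
    | Dir.N => Dir.S
    | Dir.S => Dir.N
    | Dir.E => Dir.E
    | Dir.W => Dir.W
  have hflX : ∀ w : List Dir, wX (w.map fl) = wX w := by
    intro w
    induction w with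
    | nil => rfl
    | cons s w ih => rw [List.map_cons, wX_cons, wX_cons, ih]; cases s <;> rfl
  have hflY : ∀ w : List Dir, wY (w.map fl) = - wY w := by
    intro w
    induction w with
    | nil => rfl
    | cons s w ih =>
      rw [List.map_cons, wY_cons, wY_cons, ih]
      cases s <;> simp only [fl, dy] <;> ring
  have hsc := side_const A H hYA (B.map fl) z H (by
    intro a b hab
    obtain ⟨a', b', e1, e2, e3⟩ := List.map_eq_append_iff.mp hab
    rw [← e2, hflY]
    have := hB a' b' e1
    constructor <;> linarith [this.1, this.2]) (by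
    intro a b hab
    obtain ⟨a', b', e1, e2, e3⟩ := List.map_eq_append_iff.mp hab
    rw [← e2, hflY, hflX]
    intro c d hcd hcon
    refine hdis c d a' b' hcd e1 ⟨?_, ?_⟩
    · linarith [hcon.1]
    · linarith [hcon.2])
  rw [hflX, hflY, hYB] at hsc
  have h1 : side A H z H = (if wX A < z then 1 else 0) := by
    unfold side
    rw [flow_zero_high z H A 0 0 (by
      intro a b hab
      have := hA a b hab
      linarith [this.2])]
    simp
  have h2 : side A H (z + wX B) (H + - H) = (if 0 < z + wX B then 1 else 0) := by
    rw [show H + -H = (0 : ℤ) by ring]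
    have hoff : Off (z + wX B) 0 0 0 A := by
      intro a b hab hcon
      refine hdis a b B [] hab (by simp) ⟨by linarith [hcon.1], ?_⟩
      rw [hYB]; linarith [hcon.2]
    have hc := flow_conserve (z + wX B) 0 A 0 0 hoff
    rw [flow_zero_low (z + wX B) (0 - 1) A 0 0 (by
      intro a b hab
      have := hA a b hab
      linarith [this.1])] at hc
    unfold side
    simp only [zero_add, hYA, true_and] at hc
    exact hc
  rw [h1, h2] at hsc
  split_ifs at hsc with h3 h4 h5
  · exact ⟨fun _ => h3, fun _ => h4⟩
  · omega
  · omega
  · exact ⟨fun h => absurd h h5, fun h => absurd h h3⟩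

end Pool.Agent.H976R2
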