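import Mathlib
import Pool.Agent.H976R2.Planar
import Pool.Agent.H976R2.Comb

set_option autoImplicit false
set_option linter.unusedVariables false

namespace Pool.Agent.H976R2

open Dir

/-- self-avoiding word -/
def Saw (w : List Dir) : Prop := ∀ a b c, w = a ++ b ++ c → b ≠ [] → ¬ (wX b = 0 ∧ wY b = 0)

/-- the start is at minimal height -/
def Bot (w : List Dir) : Prop := ∀ a b, w = a ++ b → 0 ≤ wY a

/-- the end is at maximal height -/
def Top (w : List Dir) : Prop := ∀ a b, w = a ++ b → 0 ≤ wY b

lemma Saw.left {a b : List Dir} (h : Saw (a ++ b)) : Saw a := by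
  intro x y z hxyz hy
  exact h x y (z ++ b) (by rw [hxyz]; simp) hy

lemma Saw.right {a b : List Dir} (h : Saw (a ++ b)) : Saw b := by
  intro x y z hxyz hy
  exact h (a ++ x) y z (by rw [hxyz]; simp) hy

lemma Bot.left {a b : List Dir} (h : Bot (a ++ b)) : Bot a := by
  intro x y hxy
  exact h x (y ++ b) (by rw [hxy]; simp)

lemma Top.right {a b : List Dir} (h : Top (a ++ b)) : Top b := by
  intro x y hxy
  exact h (a ++ x) y (by rw [hxy]; simp)

lemma Bot.nonneg {a : List Dir} (h : Bot a) : 0 ≤ wY a := h a [] (by simp)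
lemma Top.nonneg {a : List Dir} (h : Top a) : 0 ≤ wY a := h [] a (by simp)

lemma bot_nil : Bot [] := by
  intro a b h
  simp_all

lemma top_nil : Top [] := by
  intro a b h
  simp_all

lemma Bot.append {u v : List Dir} (hu : Bot u) (hv : Bot v) : Bot (u ++ v) := by
  intro a b hab
  rcases List.append_eq_append_iff.mp hab with ⟨T, h1, h2⟩ | ⟨T, h1, h2⟩
  · rw [h1, wY_append]
    have := hu.nonneg
    have := hv T b h2
    linarith
  · exact hu a T h1

lemma Top.append {u v : List Dir} (hu : Top u) (hv : Top v) : Top (u ++ v) := by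
  intro a b hab
  rcases List.append_eq_append_iff.mp hab with ⟨T, h1, h2⟩ | ⟨T, h1, h2⟩
  · exact hv T b h2
  · rw [h2, wY_append]
    have := hv.nonneg
    have := hu a T h1
    linarith

lemma bot_N : Bot [N] := by
  intro a b h
  cases a with
  | nil => simp
  | cons s a =>
    simp only [List.cons_append, List.cons.injEq] at h
    have ha : a = [] := by
      have := h.2.symm
      simp_all
    rw [ha, ← h.1]
    simp [dy]

lemma top_N : Top [N] := by
  intro a b h
  cases a with
  | nil =>
    simp only [List.nil_append] at h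
    rw [← h]
    simp [dy]
  | cons s a =>
    simp only [List.cons_append, List.cons.injEq] at h
    have hb : b = [] := by
      have := h.2.symm
      simp_all
    rw [hb]
    simp

lemma Bot.consN {v : List Dir} (hv : Bot v) : Bot (N :: v) := bot_N.append hv
lemma Top.consN {v : List Dir} (hv : Top v) : Top (N :: v) := top_N.append hv

/-- joining with a north step -/
lemma saw_join {u v : List Dir} (hu : Saw u) (hut : Top u) (hv : Saw v) (hvb : Bot v) :
    Saw (u ++ N :: v) := by
  intro a b c habc hb
  rw [List.append_assoc] at habc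
  rcases List.append_eq_append_iff.mp habc with ⟨T, h1, h2⟩ | ⟨T, h1, h2⟩
  · -- a = u ++ T, N :: v = T ++ (b ++ c)
    cases T with
    | nil =>
      simp only [List.nil_append] at h2
      cases b with
      | nil => exact absurd rfl hb
      | cons s b =>
        simp only [List.cons_append, List.cons.injEq] at h2
        obtain ⟨rfl, h2⟩ := h2
        have := hvb b c h2
        rw [wX_cons, wY_cons]
        simp only [dy]
        intro hcon
        linarith [hcon.2]
    | cons s T =>
      simp only [List.cons_append, List.cons.injEq] at h2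
      exact hv T b c (by rw [h2.2]; simp) hb
  · -- u = a ++ T, b ++ c = T ++ N :: v
    rcases List.append_eq_append_iff.mp h2 with ⟨T', h3, h4⟩ | ⟨T', h3, h4⟩
    · -- T = b ++ T'
      exact hu a b T' (by rw [h1, h3]; simp) hb
    · -- b = T ++ T', N :: v = T' ++ c
      cases T' with
      | nil =>
        simp only [List.append_nil] at h3
        exact hu a b [] (by rw [h1, h3]; simp) hb
      | cons s T' =>
        simp only [List.cons_append, List.cons.injEq] at h4
        obtain ⟨rfl, h4⟩ := h4
        have e1 := hut a T h1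
        have e2 := hvb T' c h4
        rw [h3, wX_append, wY_append, wY_cons]
        simp only [dy]
        intro hcon
        linarith [hcon.2]

/-- irreducible piece -/
def Piece (s : List Dir) : Prop :=
  Saw s ∧ Bot s ∧ Top s ∧ ∀ b1 b2, s = b1 ++ N :: b2 → Top b1 → Bot b2 → False

/-- concatenation with preceding north steps -/
def Gh (l : List (List Dir)) : List Dir := l.flatMap (fun s => N :: s)

/-- concatenation with following north steps -/
def Gt (l : List (List Dir)) : List Dir := l.flatMap (fun s => s ++ [N])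

@[simp] lemma Gh_nil : Gh [] = [] := rfl
@[simp] lemma Gt_nil : Gt [] = [] := rfl
lemma Gh_cons (s : List Dir) (l : List (List Dir)) : Gh (s :: l) = N :: s ++ Gh l := by
  simp [Gh]
lemma Gt_cons (s : List Dir) (l : List (List Dir)) : Gt (s :: l) = s ++ [N] ++ Gt l := by
  simp [Gt]
lemma Gh_append (l k : List (List Dir)) : Gh (l ++ k) = Gh l ++ Gh k := by simp [Gh]
lemma Gt_append (l k : List (List Dir)) : Gt (l ++ k) = Gt l ++ Gt k := by simp [Gt]

lemma N_Gt (l : List (List Dir)) : N :: Gt l = Gh l ++ [N] := by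
  induction l with
  | nil => rfl
  | cons s l ih =>
    rw [Gt_cons, Gh_cons]
    simp only [List.cons_append, List.append_assoc, List.nil_append]
    rw [← ih]

/-- height weight of a piece -/
def tt (s : List Dir) : ℕ := (wY s).toNat + 1

lemma tt_pos (s : List Dir) : 1 ≤ tt s := by unfold tt; omega

lemma tt_eq {s : List Dir} (h : Piece s) : (tt s : ℤ) = wY s + 1 := by
  have := h.2.1.nonneg
  unfold tt
  push_cast
  rw [Int.toNat_of_nonneg this]

lemma wY_Gh {l : List (List Dir)} (h : ∀ s ∈ l, Piece s) : wY (Gh l) = (tsum' tt l : ℤ) := by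
  induction l with
  | nil => simp
  | cons s l ih =>
    rw [Gh_cons, wY_append, wY_cons, ih (fun x hx => h x (by simp [hx])), tsum'_cons]
    push_cast
    rw [tt_eq (h s (by simp))]
    simp only [dy]
    ring

lemma wX_Gh (l : List (List Dir)) : wX (Gh l) = csum' wX l := by
  induction l with
  | nil => simp
  | cons s l ih =>
    rw [Gh_cons, wX_append, wX_cons, ih, csum'_cons]
    simp only [dx]
    ring

lemma wY_Gt {l : List (List Dir)} (h : ∀ s ∈ l, Piece s) : wY (Gt l) = (tsum' tt l : ℤ) := by
  have h1 := wY_Gh h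
  have h2 := congrArg wY (N_Gt l)
  rw [wY_cons, wY_append, h1] at h2
  simp only [dy, wY_cons, wY_nil] at h2
  linarith

lemma wX_Gt (l : List (List Dir)) : wX (Gt l) = csum' wX l := by
  have h1 := wX_Gh l
  have h2 := congrArg wX (N_Gt l)
  rw [wX_cons, wX_append, h1] at h2
  simp only [dx, wX_cons, wX_nil] at h2
  linarith

lemma bot_Gh {l : List (List Dir)} (h : ∀ s ∈ l, Piece s) : Bot (Gh l) := by
  induction l with
  | nil => exact bot_nil
  | cons s l ih =>
    rw [Gh_cons]
    exact ((h s (by simp)).2.1.consN).append (ih (fun x hx => h x (by simp [hx])))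

lemma top_Gh {l : List (List Dir)} (h : ∀ s ∈ l, Piece s) : Top (Gh l) := by
  induction l with
  | nil => exact top_nil
  | cons s l ih =>
    rw [Gh_cons]
    exact ((h s (by simp)).2.2.1.consN).append (ih (fun x hx => h x (by simp [hx])))

lemma bot_Gt {l : List (List Dir)} (h : ∀ s ∈ l, Piece s) : Bot (Gt l) := by
  induction l with
  | nil => exact bot_nil
  | cons s l ih =>
    rw [Gt_cons]
    exact ((h s (by simp)).2.1.append bot_N).append (ih (fun x hx => h x (by simp [hx])))

lemma top_Gt {l : List (List Dir)} (h : ∀ s ∈ l, Piece s) : Top (Gt l) := by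
  induction l with
  | nil => exact top_nil
  | cons s l ih =>
    rw [Gt_cons]
    exact ((h s (by simp)).2.2.1.append top_N).append (ih (fun x hx => h x (by simp [hx])))

lemma saw_top_append_Gh {l : List (List Dir)} (h : ∀ s ∈ l, Piece s) :
    ∀ u : List Dir, Saw u → Top u → Saw (u ++ Gh l) ∧ Top (u ++ Gh l) := by
  induction l with
  | nil => intro u h1 h2; simpa using ⟨h1, h2⟩
  | cons s l ih =>
    intro u h1 h2
    have hs := h s (by simp)
    have e : u ++ Gh (s :: l) = (u ++ N :: s) ++ Gh l := by rw [Gh_cons]; simp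
    rw [e]
    exact ih (fun x hx => h x (by simp [hx])) (u ++ N :: s) (saw_join h1 h2 hs.1 hs.2.1)
      (h2.append hs.2.2.1.consN)

/-- bridge-like words decompose into pieces -/
lemma bridge_decomp : ∀ (n : ℕ) (b : List Dir), b.length = n → Saw b → Bot b → Top b →
    ∃ l, (∀ s ∈ l, Piece s) ∧ N :: b = Gh l := by
  intro n
  induction n using Nat.strong_induction_on with
  | _ n ih =>
  intro b hb h1 h2 h3
  by_cases hp : Piece b
  · exact ⟨[b], by simpa using hp, by simp [Gh_cons]⟩
  · unfold Piece at hp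
    push Not at hp
    obtain ⟨b1, b2, e, h4, h5⟩ := hp h1 h2 h3
    have e' : b = b1 ++ ([N] ++ b2) := by rw [e]; simp
    have hb1 : Bot b1 := by rw [e'] at h2; exact h2.left
    have hs1 : Saw b1 := by rw [e'] at h1; exact h1.left
    have hb2 : Top b2 := by rw [e'] at h3; exact h3.right.right
    have hs2 : Saw b2 := by rw [e'] at h1; exact h1.right.right
    have hlen : b1.length + 1 + b2.length = n := by
      rw [← hb, e]; simp; omega
    obtain ⟨l1, hl1, e1⟩ := ih b1.length (by omega) b1 rfl hs1 hb1 h4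
    obtain ⟨l2, hl2, e2⟩ := ih b2.length (by omega) b2 rfl hs2 h5.1 hb2
    refine ⟨l1 ++ l2, ?_, ?_⟩
    · intro s hs
      rcases List.mem_append.mp hs with hs | hs
      · exact hl1 s hs
      · exact hl2 s hs
    · rw [Gh_append, ← e1, ← e2, e]
      simp

/-- height constraint -/
def Cc (R : ℕ) (H h : ℤ) : Prop := -(R : ℤ) ≤ 2 * h + 1 - H ∧ 2 * h + 1 - H ≤ (R : ℤ)

/-- no further cut of the initial part -/
def NF0 (R : ℕ) (H : ℤ) (w : List Dir) : Prop :=
  ∀ u b, w = u ++ N :: b → Top u → Bot b → ¬ Cc R H (wY u)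

/-- no further cut of the final part -/
def NF1 (R : ℕ) (H : ℤ) (w : List Dir) : Prop :=
  ∀ b v, w = b ++ N :: v → Top b → Bot v → ¬ Cc R H (wY v)

lemma decomp_u (R : ℕ) (H : ℤ) : ∀ (n : ℕ) (u : List Dir), u.length = n → Saw u → Top u → Cc R H (wY u) →
    ∃ w0 l, u = w0 ++ Gh l ∧ Saw w0 ∧ Top w0 ∧ Cc R H (wY w0) ∧ NF0 R H w0 ∧ ∀ s ∈ l, Piece s := by
  intro n
  induction n using Nat.strong_induction_on with
  | _ n ih =>
  intro u hu h1 h2 h3
  by_cases hnf : NF0 R H u
  · exact ⟨u, [], by simp, h1, h2, h3, hnf, by simp⟩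
  · unfold NF0 at hnf
    push Not at hnf
    obtain ⟨u', b, e, h4, h5, h6⟩ := hnf
    have e' : u = u' ++ ([N] ++ b) := by rw [e]; simp
    have hs' : Saw u' := by rw [e'] at h1; exact h1.left
    have hsb : Saw b := by rw [e'] at h1; exact h1.right.right
    have htb : Top b := by rw [e'] at h2; exact h2.right.right
    have hlen : u'.length < n := by rw [← hu, e]; simp
    obtain ⟨w0, l, e1, f1, f2, f3, f4, f5⟩ := ih u'.length hlen u' rfl hs' h4 h6
    obtain ⟨l', g1, g2⟩ := bridge_decomp b.length b rfl hsb h5 htb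
    refine ⟨w0, l ++ l', ?_, f1, f2, f3, f4, ?_⟩
    · rw [e, g2, e1, Gh_append]; simp
    · intro s hs
      rcases List.mem_append.mp hs with hs | hs
      · exact f5 s hs
      · exact g1 s hs

lemma decomp_v (R : ℕ) (H : ℤ) : ∀ (n : ℕ) (v : List Dir), v.length = n → Saw v → Bot v → Cc R H (wY v) →
    ∃ w1 l, v = Gt l ++ w1 ∧ Saw w1 ∧ Bot w1 ∧ Cc R H (wY w1) ∧ NF1 R H w1 ∧ ∀ s ∈ l, Piece s := by
  intro n
  induction n using Nat.strong_induction_on with
  | _ n ih =>
  intro v hv h1 h2 h3
  by_cases hnf : NF1 R H v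
  · exact ⟨v, [], by simp, h1, h2, h3, hnf, by simp⟩
  · unfold NF1 at hnf
    push Not at hnf
    obtain ⟨b, v', e, h4, h5, h6⟩ := hnf
    have e' : v = b ++ ([N] ++ v') := by rw [e]; simp
    have hs' : Saw v' := by rw [e'] at h1; exact h1.right.right
    have hsb : Saw b := by rw [e'] at h1; exact h1.left
    have hbb : Bot b := by rw [e'] at h2; exact h2.left
    have hlen : v'.length < n := by rw [← hv, e]; simp; omega
    obtain ⟨w1, l, e1, f1, f2, f3, f4, f5⟩ := ih v'.length hlen v' rfl hs' h5 h6
    obtain ⟨l', g1, g2⟩ := bridge_decomp b.length b rfl hsb hbb h4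
    have g3 : b ++ [N] = Gt l' := by
      have := N_Gt l'
      rw [← g2] at this
      simp only [List.cons_append, List.cons.injEq, true_and] at this
      exact this.symm
    refine ⟨w1, l' ++ l, ?_, f1, f2, f3, f4, ?_⟩
    · rw [Gt_append, ← g3, List.append_assoc, ← e1, e]; simp
    · intro s hs
      rcases List.mem_append.mp hs with hs | hs
      · exact g1 s hs
      · exact f5 s hs

/-- full decomposition of a far walk with total height `H` -/
structure Dec (R : ℕ) (H : ℤ) (ξ : List Dir) (w0 : List Dir) (l : List (List Dir)) (w1 : List Dir) :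
    Prop where
  eq : ξ = w0 ++ Gh l ++ N :: w1
  hY : wY ξ = H
  s0 : Saw w0
  t0 : Top w0
  c0 : Cc R H (wY w0)
  n0 : NF0 R H w0
  s1 : Saw w1
  b1 : Bot w1
  c1 : Cc R H (wY w1)
  n1 : NF1 R H w1
  pc : ∀ s ∈ l, Piece s

lemma Dec.saw {R : ℕ} {H : ℤ} {ξ w0 w1 : List Dir} {l : List (List Dir)} (h : Dec R H ξ w0 l w1) :
    Saw ξ := by
  rw [h.eq]
  obtain ⟨h1, h2⟩ := saw_top_append_Gh h.pc w0 h.s0 h.t0
  exact saw_join h1 h2 h.s1 h.b1

lemma Dec.height {R : ℕ} {H : ℤ} {ξ w0 w1 : List Dir} {l : List (List Dir)} (h : Dec R H ξ w0 l w1) :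
    wY w0 + tsum' tt l + 1 + wY w1 = H := by
  rw [← h.hY, h.eq, wY_append, wY_append, wY_cons, wY_Gh h.pc]
  simp only [dy]
  ring

lemma Dec.tsum_le {R : ℕ} {H : ℤ} {ξ w0 w1 : List Dir} {l : List (List Dir)} (h : Dec R H ξ w0 l w1) :
    tsum' tt l ≤ R := by
  have h1 := h.height
  have h2 := h.c0
  have h3 := h.c1
  unfold Cc at h2 h3
  have : (tsum' tt l : ℤ) ≤ R := by linarith [h2.1, h3.1]
  exact_mod_cast this

/-- alternate form of the factorisation -/
lemma alt_form (w0 w1 : List Dir) (l : List (List Dir)) :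
    w0 ++ Gh l ++ N :: w1 = w0 ++ N :: (Gt l ++ w1) := by
  have h := N_Gt l
  calc w0 ++ Gh l ++ N :: w1 = w0 ++ ((Gh l ++ [N]) ++ w1) := by simp
    _ = w0 ++ N :: (Gt l ++ w1) := by rw [← h]; simp

lemma Gh_inj : ∀ (l l' : List (List Dir)), (∀ s ∈ l, Piece s) → (∀ s ∈ l', Piece s) →
    Gh l = Gh l' → l = l' := by
  intro l
  induction l with
  | nil =>
    intro l' _ _ hE
    cases l' with
    | nil => rfl
    | cons s l' => rw [Gh_cons] at hE; simp at hE
  | cons s l ih =>
    intro l' h h' hE
    cases l' with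
    | nil => rw [Gh_cons] at hE; simp at hE
    | cons s' l' =>
      have hs := h s (by simp)
      have hs' := h' s' (by simp)
      rw [Gh_cons, Gh_cons] at hE
      simp only [List.cons_append, List.cons.injEq, true_and] at hE
      have aux : ∀ (s s' : List Dir) (l l' : List (List Dir)), Piece s → Piece s' →
          (∀ x ∈ l, Piece x) → (∀ x ∈ l', Piece x) → s ++ Gh l = s' ++ Gh l' →
          ∀ T, s' = s ++ T → Gh l = T ++ Gh l' → T = [] := by
        intro s s' l l' hs hs' hl hl' _ T e1 e2
        cases T with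
        | nil => rfl
        | cons d T =>
          exfalso
          cases l with
          | nil => simp at e2
          | cons x l =>
            rw [Gh_cons] at e2
            simp only [List.cons_append, List.cons.injEq] at e2
            obtain ⟨rfl, e2⟩ := e2
            have hb : Bot (x ++ Gh l) := (hl x (by simp)).2.1.append
              (bot_Gh (fun y hy => hl y (by simp [hy])))
            rw [e2] at hb
            exact hs'.2.2.2 s T e1 hs.2.2.1 hb.left
      have hss : s = s' := by
        rcases List.append_eq_append_iff.mp hE with ⟨T, e1, e2⟩ | ⟨T, e1, e2⟩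
        · have := aux s s' l l' hs hs' (fun x hx => h x (by simp [hx]))
            (fun x hx => h' x (by simp [hx])) hE T e1 e2
          rw [e1, this]; simp
        · have := aux s' s l' l hs' hs (fun x hx => h' x (by simp [hx]))
            (fun x hx => h x (by simp [hx])) hE.symm T e1 e2
          rw [e1, this]; simp
      subst hss
      have := ih l' (fun x hx => h x (by simp [hx])) (fun x hx => h' x (by simp [hx]))
        (List.append_cancel_left hE)
      rw [this]

lemma Dec.unique {R : ℕ} {H : ℤ} {ξ w0 w1 w0' w1' : List Dir} {l l' : List (List Dir)}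
    (h : Dec R H ξ w0 l w1) (h' : Dec R H ξ w0' l' w1') : w0 = w0' ∧ l = l' ∧ w1 = w1' := by
  have aux0 : ∀ (w0 w1 w0' w1' : List Dir) (l l' : List (List Dir)), Dec R H ξ w0 l w1 →
      Dec R H ξ w0' l' w1' → ∀ T, w0' = w0 ++ T → N :: (Gt l ++ w1) = T ++ N :: (Gt l' ++ w1') →
      T = [] := by
    intro w0 w1 w0' w1' l l' h h' T e1 e2
    cases T with
    | nil => rfl
    | cons d T =>
      exfalso
      simp only [List.cons_append, List.cons.injEq] at e2
      obtain ⟨rfl, e2⟩ := e2
      have hb : Bot (Gt l ++ w1) := (bot_Gt h.pc).append h.b1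
      rw [e2] at hb
      exact h'.n0 w0 T e1 h.t0 hb.left h.c0
  have hw0 : w0 = w0' := by
    have hE : w0 ++ N :: (Gt l ++ w1) = w0' ++ N :: (Gt l' ++ w1') := by
      rw [← alt_form, ← alt_form, ← h.eq, ← h'.eq]
    rcases List.append_eq_append_iff.mp hE with ⟨T, e1, e2⟩ | ⟨T, e1, e2⟩
    · have := aux0 w0 w1 w0' w1' l l' h h' T e1 e2
      rw [e1, this]; simp
    · have := aux0 w0' w1' w0 w1 l' l h' h T e1 e2
      rw [e1, this]; simp
  subst hw0
  have aux1 : ∀ (w1 w1' : List Dir) (l l' : List (List Dir)), Dec R H ξ w0 l w1 →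
      Dec R H ξ w0 l' w1' → ∀ T, N :: w1' = T ++ N :: w1 → w0 ++ Gh l = w0 ++ Gh l' ++ T → T = [] := by
    intro w1 w1' l l' h h' T e1 e2
    cases T with
    | nil => rfl
    | cons d T =>
      exfalso
      simp only [List.cons_append, List.cons.injEq] at e1
      obtain ⟨rfl, e1⟩ := e1
      obtain ⟨_, ht⟩ := saw_top_append_Gh h.pc w0 h.s0 h.t0
      rw [e2] at ht
      have htT : Top T := by
        have : Top ([N] ++ T) := ht.right
        exact this.right
      exact h'.n1 T w1 e1 htT h.b1 h.c1
  have hw1 : w1 = w1' := by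
    have hE : (w0 ++ Gh l) ++ N :: w1 = (w0 ++ Gh l') ++ N :: w1' := by
      rw [← h.eq, ← h'.eq]
    rcases List.append_eq_append_iff.mp hE with ⟨T, e1, e2⟩ | ⟨T, e1, e2⟩
    · have := aux1 w1' w1 l' l h' h T e2 e1
      rw [this] at e2
      simp only [List.nil_append, List.cons.injEq, true_and] at e2
      exact e2
    · have := aux1 w1 w1' l l' h h' T e2 e1
      rw [this] at e2
      simp only [List.nil_append, List.cons.injEq, true_and] at e2
      exact e2.symm
  subst hw1
  have hl : l = l' := by
    apply Gh_inj l l' h.pc h'.pc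
    have hE : (w0 ++ Gh l) ++ N :: w1 = (w0 ++ Gh l') ++ N :: w1 := by
      rw [← h.eq, ← h'.eq]
    have := List.append_cancel_right hE
    exact List.append_cancel_left this
  exact ⟨rfl, hl, rfl⟩

end Pool.Agent.H976R2
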