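import Mathlib
import Pool.Agent.H976R2.Words

set_option autoImplicit false
set_option linter.unusedVariables false

namespace Pool.Agent.H976R2

open Dir

/-- A near pair: `u` ends at its maximal height, `v` starts at its minimal height, and `u` followed by
the vertical reflection of `v` is self-avoiding. -/
def Near (u v : List Dir) : Prop :=
  Saw u ∧ Top u ∧ Saw v ∧ Bot v ∧
  ∀ q' q p p', u = q' ++ q → v = p ++ p' → wX q + wX p = 0 → wY q = wY p → q = [] ∧ p = []

lemma Gh_ne_nil {l : List (List Dir)} (h : l ≠ []) : Gh l ≠ [] := by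
  cases l with
  | nil => exact absurd rfl h
  | cons s l => rw [Gh_cons]; simp

lemma between_Gh {l : List (List Dir)} (h : ∀ s ∈ l, Piece s) :
    ∀ a b, Gh l = a ++ b → 0 ≤ wY a ∧ wY a ≤ (tsum' tt l : ℤ) := by
  intro a b hab
  have h1 := bot_Gh h a b hab
  have h2 := top_Gh h a b hab
  have h3 := wY_Gh h
  rw [hab, wY_append] at h3
  constructor <;> linarith

lemma between_Gt {l : List (List Dir)} (h : ∀ s ∈ l, Piece s) :
    ∀ a b, Gt l = a ++ b → 0 ≤ wY a ∧ wY a ≤ (tsum' tt l : ℤ) := by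
  intro a b hab
  have h1 := bot_Gt h a b hab
  have h2 := top_Gt h a b hab
  have h3 := wY_Gt h
  rw [hab, wY_append] at h3
  constructor <;> linarith

section
variable {u v w0 w1 : List Dir} {l1 l2 : List (List Dir)}

lemma near_ne (hN : Near u v) (hu : u = w0 ++ Gh l1) (hv : v = Gt l2 ++ w1)
    (h1 : ∀ s ∈ l1, Piece s) (h2 : ∀ s ∈ l2, Piece s)
    {A A' B B' : List (List Dir)} (eA : l1.reverse = A ++ A') (eB : l2 = B ++ B') (hA : A ≠ [])
    (hts : tsum' tt A = tsum' tt B) : csum' wX A + csum' wX B ≠ 0 := by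
  intro hcon
  have el1 : l1 = A'.reverse ++ A.reverse := by
    rw [← List.reverse_append, ← eA, List.reverse_reverse]
  have hpA : ∀ s ∈ A.reverse, Piece s := fun s hs => h1 s (by rw [el1]; simp only [List.mem_append]; exact Or.inr hs)
  have hpB : ∀ s ∈ B, Piece s := fun s hs => h2 s (by rw [eB]; simp [hs])
  have := hN.2.2.2.2 (w0 ++ Gh A'.reverse) (Gh A.reverse) (Gt B) (Gt B' ++ w1)
    (by rw [hu, el1, Gh_append]; simp) (by rw [hv, eB, Gt_append]; simp)
    (by rw [wX_Gh, wX_Gt, csum'_reverse]; exact hcon)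
    (by rw [wY_Gh hpA, wY_Gt hpB, tsum'_reverse, hts])
  exact Gh_ne_nil (by simpa using hA) this.1

lemma near_sign (hN : Near u v) (hu : u = w0 ++ Gh l1) (hv : v = Gt l2 ++ w1)
    (h1 : ∀ s ∈ l1, Piece s) (h2 : ∀ s ∈ l2, Piece s)
    {A T A' B T' B' : List (List Dir)} (eA : l1.reverse = A ++ T ++ A') (eB : l2 = B ++ T' ++ B')
    (hA : A ≠ [])
    (hts : tsum' tt A = tsum' tt B) (hts' : tsum' tt T = tsum' tt T') :
    0 < csum' wX A + csum' wX B ↔ 0 < csum' wX (A ++ T) + csum' wX (B ++ T') := by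
  have el1 : l1 = A'.reverse ++ (T.reverse ++ A.reverse) := by
    rw [← List.reverse_append, ← List.reverse_append, ← eA, List.reverse_reverse]
  have hpA : ∀ s ∈ A.reverse, Piece s := fun s hs => h1 s (by
    rw [el1]; simp only [List.mem_append]; exact Or.inr (Or.inr hs))
  have hpT : ∀ s ∈ T.reverse, Piece s := fun s hs => h1 s (by
    rw [el1]; simp only [List.mem_append]; exact Or.inr (Or.inl hs))
  have hpB : ∀ s ∈ B, Piece s := fun s hs => h2 s (by rw [eB]; simp [hs])
  have hpT' : ∀ s ∈ T', Piece s := fun s hs => h2 s (by rw [eB]; simp [hs])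
  have hp := planar (Gh T.reverse) (Gt T') (tsum' tt T : ℤ)
    (csum' wX B + (csum' wX T + csum' wX A))
    (by rw [wY_Gh hpT, tsum'_reverse]) (by rw [wY_Gt hpT', hts'])
    (by
      intro a b hab
      have := between_Gh hpT a b hab
      rwa [tsum'_reverse] at this)
    (by
      intro a b hab
      have := between_Gt hpT' a b hab
      rwa [hts'])
    (by
      intro a a' b b' ha hb hcon
      have hXa : wX a + wX a' = csum' wX T := by
        rw [← wX_append, ← ha, wX_Gh, csum'_reverse]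
      have hYa : wY a + wY a' = (tsum' tt T : ℤ) := by
        rw [← wY_append, ← ha, wY_Gh hpT, tsum'_reverse]
      have := hN.2.2.2.2 (w0 ++ Gh A'.reverse ++ a) (a' ++ Gh A.reverse) (Gt B ++ b) (b' ++ Gt B' ++ w1)
        (by rw [hu, el1, Gh_append, Gh_append, ha]; simp)
        (by rw [hv, eB, Gt_append, Gt_append, hb]; simp)
        (by
          rw [wX_append, wX_append, wX_Gh, wX_Gt, csum'_reverse]
          linarith [hcon.1])
        (by
          rw [wY_append, wY_append, wY_Gh hpA, wY_Gt hpB, tsum'_reverse, hts]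
          linarith [hcon.2])
      have h3 := this.1
      simp only [List.append_eq_nil_iff] at h3
      exact Gh_ne_nil (by simpa using hA) h3.2)
  rw [wX_Gh, wX_Gt, csum'_reverse] at hp
  rw [csum'_append, csum'_append]
  constructor
  · intro h
    have := hp.mp (by linarith)
    linarith
  · intro h
    have := hp.mpr (by linarith)
    linarith

lemma near_cmp (hN : Near u v) (hu : u = w0 ++ Gh l1) (hv : v = Gt l2 ++ w1)
    (h1 : ∀ s ∈ l1, Piece s) (h2 : ∀ s ∈ l2, Piece s)
    {A1 A1' B1 B1' A2 A2' B2 B2' : List (List Dir)}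
    (eA1 : l1.reverse = A1 ++ A1') (eB1 : l2 = B1 ++ B1') (hA1 : A1 ≠ [])
    (hts1 : tsum' tt A1 = tsum' tt B1)
    (eA2 : l1.reverse = A2 ++ A2') (eB2 : l2 = B2 ++ B2') (hA2 : A2 ≠ [])
    (hts2 : tsum' tt A2 = tsum' tt B2) (hle : tsum' tt A1 ≤ tsum' tt A2) :
    0 < csum' wX A1 + csum' wX B1 ↔ 0 < csum' wX A2 + csum' wX B2 := by
  have pre : ∀ {P P' Q Q' : List (List Dir)}, P ++ P' = Q ++ Q' → tsum' tt P ≤ tsum' tt Q →
      ∃ T, Q = P ++ T := by
    intro P P' Q Q' hE hle
    rcases List.append_eq_append_iff.mp hE with ⟨T, e1, e2⟩ | ⟨T, e1, e2⟩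
    · exact ⟨T, e1⟩
    · have : T = [] := by
        apply eq_nil_of_tsum' tt tt_pos
        rw [e1, tsum'_append] at hle
        omega
      subst this
      exact ⟨[], by simpa using e1.symm⟩
  obtain ⟨T, hT⟩ := pre (eA1.symm.trans eA2) hle
  obtain ⟨T', hT'⟩ := pre (eB1.symm.trans eB2) (by rw [← hts1, ← hts2]; exact hle)
  have hts' : tsum' tt T = tsum' tt T' := by
    rw [hT, hT', tsum'_append, tsum'_append] at hts2
    omega
  rw [hT, hT']
  exact near_sign hN hu hv h1 h2 (T := T) (A' := A2') (T' := T') (B' := B2')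
    (by rw [eA2, hT]) (by rw [eB2, hT']) hA1 hts1 hts'

/-- A near pair satisfies one of the two sign conditions. -/
theorem near_op (hN : Near u v) (hu : u = w0 ++ Gh l1) (hv : v = Gt l2 ++ w1)
    (h1 : ∀ s ∈ l1, Piece s) (h2 : ∀ s ∈ l2, Piece s) :
    Op tt wX l1.reverse l2 ∨ Op tt (fun s => - wX s) l1.reverse l2 := by
  by_contra hcon
  push Not at hcon
  obtain ⟨hc1, hc2⟩ := hcon
  unfold Op at hc1 hc2
  push Not at hc1 hc2
  obtain ⟨A1, A1', B1, B1', eA1, eB1, hA1, hts1, hD1⟩ := hc1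
  obtain ⟨A2, A2', B2, B2', eA2, eB2, hA2, hts2, hD2⟩ := hc2
  have neg : ∀ l : List (List Dir), csum' (fun s => - wX s) l = - csum' wX l := by
    intro l
    induction l with
    | nil => simp
    | cons s l ih => simp only [csum'_cons, ih]; ring
  rw [neg, neg] at hD2
  have hn1 := near_ne hN hu hv h1 h2 eA1 eB1 hA1 hts1
  have hn2 := near_ne hN hu hv h1 h2 eA2 eB2 hA2 hts2
  have hiff : 0 < csum' wX A1 + csum' wX B1 ↔ 0 < csum' wX A2 + csum' wX B2 := by
    rcases le_total (tsum' tt A1) (tsum' tt A2) with hle | hle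
    · exact near_cmp hN hu hv h1 h2 eA1 eB1 hA1 hts1 eA2 eB2 hA2 hts2 hle
    · exact (near_cmp hN hu hv h1 h2 eA2 eB2 hA2 hts2 eA1 eB1 hA1 hts1 hle).symm
  have h3 : 0 < csum' wX A2 + csum' wX B2 := by omega
  have h4 := hiff.mpr h3
  omega

end

end Pool.Agent.H976R2
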