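import Mathlib
import Pool.Agent.H976R2.NearP

set_option autoImplicit false
set_option linter.unusedVariables false

namespace Pool.Agent.H976R2

open Dir Finset
open scoped Classical

/-- exchange of east and west -/
def mE : Dir → Dir
  | Dir.E => Dir.W
  | Dir.W => Dir.E
  | Dir.N => Dir.N
  | Dir.S => Dir.S

def mir (w : List Dir) : List Dir := w.map mE

lemma mE_mE (s : Dir) : mE (mE s) = s := by cases s <;> rfl

lemma mir_mir (w : List Dir) : mir (mir w) = w := by
  unfold mir
  rw [List.map_map]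
  have : mE ∘ mE = id := funext mE_mE
  rw [this, List.map_id]

lemma mir_append (a b : List Dir) : mir (a ++ b) = mir a ++ mir b := by simp [mir]

lemma wX_mir (w : List Dir) : wX (mir w) = - wX w := by
  induction w with
  | nil => rfl
  | cons s w ih =>
    have : mir (s :: w) = mE s :: mir w := rfl
    rw [this, wX_cons, wX_cons, ih]
    cases s <;> simp only [mE, dx] <;> ring

lemma wY_mir (w : List Dir) : wY (mir w) = wY w := by
  induction w with
  | nil => rfl
  | cons s w ih =>
    have : mir (s :: w) = mE s :: mir w := rfl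
    rw [this, wY_cons, wY_cons, ih]
    cases s <;> simp only [mE, dy]

lemma length_mir (w : List Dir) : (mir w).length = w.length := by simp [mir]

lemma mir_eq_append {w a b : List Dir} (h : mir w = a ++ b) : w = mir a ++ mir b := by
  rw [← mir_append, ← h, mir_mir]

lemma Saw.mir {w : List Dir} (h : Saw w) : Saw (mir w) := by
  intro a b c habc hb hcon
  have e := mir_eq_append habc
  rw [mir_append] at e
  refine h _ (H976R2.mir b) _ e (by simpa [H976R2.mir] using hb) ?_
  rw [wX_mir, wY_mir]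
  exact ⟨by linarith [hcon.1], hcon.2⟩

lemma Bot.mir {w : List Dir} (h : Bot w) : Bot (mir w) := by
  intro a b hab
  have := h _ _ (mir_eq_append hab)
  rwa [wY_mir] at this

lemma Top.mir {w : List Dir} (h : Top w) : Top (mir w) := by
  intro a b hab
  have := h _ _ (mir_eq_append hab)
  rwa [wY_mir] at this

lemma Piece.mir {s : List Dir} (h : Piece s) : Piece (mir s) := by
  refine ⟨h.1.mir, h.2.1.mir, h.2.2.1.mir, ?_⟩
  intro b1 b2 e h1 h2
  have e2 := mir_eq_append e
  have e3 : H976R2.mir (N :: b2) = N :: H976R2.mir b2 := rfl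
  rw [e3] at e2
  exact h.2.2.2 _ _ e2 h1.mir h2.mir

lemma tt_mir (s : List Dir) : tt (mir s) = tt s := by
  unfold tt
  rw [wY_mir]

/-- words of length `n` -/
noncomputable def wordsN (n : ℕ) : Finset (List Dir) := (List.finite_length_eq Dir n).toFinset

lemma mem_wordsN {n : ℕ} {w : List Dir} : w ∈ wordsN n ↔ w.length = n := by
  simp [wordsN]

/-- words of length at most `n` -/
noncomputable def wordsLe (n : ℕ) : Finset (List Dir) := (range (n + 1)).biUnion wordsN

lemma mem_wordsLe {n : ℕ} {w : List Dir} : w ∈ wordsLe n ↔ w.length ≤ n := by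
  simp only [wordsLe, Finset.mem_biUnion, mem_wordsN, Finset.mem_range]
  constructor
  · rintro ⟨a, h1, h2⟩; omega
  · intro h; exact ⟨w.length, by omega, rfl⟩

/-- self-avoiding words of length `n` with final height at least `L` -/
noncomputable def FW (n : ℕ) (L : ℤ) : Finset (List Dir) :=
  (wordsN n).filter (fun ξ => Saw ξ ∧ L ≤ wY ξ)

/-- near pairs of total length `n - 1` -/
noncomputable def NP (n R : ℕ) (L : ℤ) : Finset (List Dir × List Dir) :=
  ((wordsLe n) ×ˢ (wordsLe n)).filter (fun p => p.1.length + p.2.length + 1 = n ∧ Near p.1 p.2 ∧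
    (wY p.1 - wY p.2 ≤ R ∧ -(R : ℤ) ≤ wY p.1 - wY p.2) ∧ L ≤ wY p.1 + 1 + wY p.2)

/-- the chosen decomposition -/
noncomputable def dd (R : ℕ) (ξ : List Dir) : List Dir × List (List Dir) × List Dir :=
  if h : ∃ q : List Dir × List (List Dir) × List Dir, Dec R (wY ξ) ξ q.1 q.2.1 q.2.2
  then Classical.choose h else ([], [], [])

lemma dd_spec {R : ℕ} {ξ w0 w1 : List Dir} {l : List (List Dir)} (h : Dec R (wY ξ) ξ w0 l w1) :
    dd R ξ = (w0, l, w1) := by
  have hex : ∃ q : List Dir × List (List Dir) × List Dir, Dec R (wY ξ) ξ q.1 q.2.1 q.2.2 :=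
    ⟨(w0, l, w1), h⟩
  have hs : Dec R (wY ξ) ξ (dd R ξ).1 (dd R ξ).2.1 (dd R ξ).2.2 := by
    unfold dd
    rw [dif_pos hex]
    exact Classical.choose_spec hex
  obtain ⟨h1, h2, h3⟩ := hs.unique h
  exact Prod.ext h1 (Prod.ext h2 h3)

/-- decomposition of near pairs -/
lemma near_dec {R : ℕ} {u v : List Dir} (hN : Near u v)
    (hR : wY u - wY v ≤ R ∧ -(R : ℤ) ≤ wY u - wY v) :
    ∃ w0 l1 l2 w1, u = w0 ++ Gh l1 ∧ v = Gt l2 ++ w1 ∧
      Dec R (wY (u ++ N :: v)) (u ++ N :: v) w0 (l1 ++ l2) w1 := by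
  set H := wY (u ++ N :: v) with hH
  have hH' : H = wY u + 1 + wY v := by
    rw [hH, wY_append, wY_cons]; simp only [dy]; ring
  have cu : Cc R H (wY u) := by
    unfold Cc
    rw [hH']
    constructor <;> linarith [hR.1, hR.2]
  have cv : Cc R H (wY v) := by
    unfold Cc
    rw [hH']
    constructor <;> linarith [hR.1, hR.2]
  obtain ⟨w0, l1, e1, a1, a2, a3, a4, a5⟩ := decomp_u R H u.length u rfl hN.1 hN.2.1 cu
  obtain ⟨w1, l2, e2, b1, b2, b3, b4, b5⟩ := decomp_v R H v.length v rfl hN.2.2.1 hN.2.2.2.1 cv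
  refine ⟨w0, l1, l2, w1, e1, e2, ?_⟩
  refine ⟨?_, hH.symm, a1, a2, a3, a4, b1, b2, b3, b4, ?_⟩
  · rw [alt_form, Gt_append, List.append_assoc, ← e2, ← alt_form]
    -- w0 ++ N :: (Gt l1 ++ v) = (w0 ++ Gh l1) ++ N :: v
    rw [← e1]
  · intro s hs
    rcases List.mem_append.mp hs with hs | hs
    · exact a5 s hs
    · exact b5 s hs

lemma mk_dec {R : ℕ} {H : ℤ} {ξ w0 w1 : List Dir} {l l' : List (List Dir)} (h : Dec R H ξ w0 l w1)
    (hp : ∀ s ∈ l', Piece s) (ht : tsum' tt l' = tsum' tt l) :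
    Dec R H (w0 ++ Gh l' ++ N :: w1) w0 l' w1 := by
  refine ⟨rfl, ?_, h.s0, h.t0, h.c0, h.n0, h.s1, h.b1, h.c1, h.n1, hp⟩
  have := h.height
  rw [wY_append, wY_append, wY_cons, wY_Gh hp, ht]
  simp only [dy]
  linarith

lemma tsum'_perm {β : Type*} (t : β → ℕ) {l l' : List β} (h : l.Perm l') :
    tsum' t l = tsum' t l' := by
  unfold tsum'
  exact (h.map t).sum_eq

lemma tsum'_map_mir (l : List (List Dir)) : tsum' tt (l.map mir) = tsum' tt l := by
  induction l with
  | nil => rfl
  | cons s l ih => simp only [List.map_cons, tsum'_cons, ih, tt_mir]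

lemma length_Gh_perm {l l' : List (List Dir)} (h : l.Perm l') : (Gh l).length = (Gh l').length := by
  unfold Gh
  exact (h.flatMap_right _).length_eq

lemma length_Gh_map (l : List (List Dir)) : (Gh (l.map mir)).length = (Gh l).length := by
  induction l with
  | nil => rfl
  | cons s l ih =>
    rw [List.map_cons, Gh_cons, Gh_cons]
    simp only [List.length_append, List.length_cons, ih, length_mir]

theorem count_near (n R : ℕ) (L : ℤ) :
    ((NP n R L).card : ℝ) ≤ 2 * (1 + 6 * Real.sqrt (3 * (R : ℝ))) * ((FW n L).card : ℝ) := by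
  set GG := (FW n L).filter
    (fun ξ => ∃ q : List Dir × List (List Dir) × List Dir, Dec R (wY ξ) ξ q.1 q.2.1 q.2.2) with hGG
  set ls : List Dir → List (List Dir) := fun ξ => (dd R ξ).2.1 with hls
  set c' : List Dir → ℤ := fun s => - wX s with hc'
  set cnt : List (List Dir) → ℝ := fun l => ∑ m ∈ range (l.length + 1),
    ((if OO tt wX m m l then (1 : ℝ) else 0) + (if OO tt c' m m l then (1 : ℝ) else 0)) with hcnt
  -- Step 1
  have step1 : ((NP n R L).card : ℝ) ≤ ∑ ξ ∈ GG, cnt (ls ξ) := by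
    have hmaps : ∀ p ∈ NP n R L, p.1 ++ N :: p.2 ∈ GG := by
      intro p hp
      obtain ⟨_, h1, h2, h3, h4⟩ := Finset.mem_filter.mp hp
      obtain ⟨w0, l1, l2, w1, e1, e2, hd⟩ := near_dec h2 h3
      refine Finset.mem_filter.mpr ⟨Finset.mem_filter.mpr ⟨mem_wordsN.mpr ?_, hd.saw, ?_⟩,
        ⟨(w0, l1 ++ l2, w1), hd⟩⟩
      · simp only [List.length_append, List.length_cons]; omega
      · rw [wY_append, wY_cons]; simp only [dy]; linarith
    rw [Finset.card_eq_sum_card_fiberwise hmaps]
    push_cast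
    apply Finset.sum_le_sum
    intro ξ hξ
    set l := ls ξ with hl
    have hsub : (NP n R L).filter (fun p => p.1 ++ N :: p.2 = ξ) ⊆
        ((range (l.length + 1)).filter (fun m => OO tt wX m m l ∨ OO tt c' m m l)).image
          (fun m => ((dd R ξ).1 ++ Gh (l.take m), Gt (l.drop m) ++ (dd R ξ).2.2)) := by
      intro p hp
      obtain ⟨hp1, hp2⟩ := Finset.mem_filter.mp hp
      obtain ⟨_, h1, h2, h3, h4⟩ := Finset.mem_filter.mp hp1
      obtain ⟨w0, l1, l2, w1, e1, e2, hd⟩ := near_dec h2 h3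
      rw [hp2] at hd
      have hdd := dd_spec hd
      have hll : l = l1 ++ l2 := by rw [hl, hls]; simp only [hdd]
      refine Finset.mem_image.mpr ⟨l1.length, Finset.mem_filter.mpr ⟨?_, ?_⟩, ?_⟩
      · rw [Finset.mem_range, hll, List.length_append]; omega
      · have := near_op h2 e1 e2 (fun s hs => hd.pc s (by simp [hs])) (fun s hs => hd.pc s (by simp [hs]))
        unfold OO
        rw [hll, List.take_left, List.drop_left]
        exact this
      · rw [hll, List.take_left, List.drop_left, hdd, ← e1, ← e2]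
    have h1 := Finset.card_le_card hsub
    have h2 := h1.trans Finset.card_image_le
    calc (((NP n R L).filter (fun p => p.1 ++ N :: p.2 = ξ)).card : ℝ)
        ≤ (((range (l.length + 1)).filter (fun m => OO tt wX m m l ∨ OO tt c' m m l)).card : ℝ) := by
          exact_mod_cast h2
      _ = ∑ m ∈ range (l.length + 1), (if OO tt wX m m l ∨ OO tt c' m m l then (1 : ℝ) else 0) := by
          rw [Finset.sum_ite]; simp
      _ ≤ cnt l := by
          rw [hcnt]
          apply Finset.sum_le_sum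
          intro m _
          by_cases ha : OO tt wX m m l <;> by_cases hb : OO tt c' m m l <;> simp [ha, hb]
  refine step1.trans ?_
  -- Step 2 : group by classes
  set κ : List Dir → List Dir × ℕ × List Dir × ℤ :=
    fun ξ => ((dd R ξ).1, (ls ξ).length, (dd R ξ).2.2, wY ξ) with hκ
  have step2 : ∑ ξ ∈ GG, cnt (ls ξ) ≤ 2 * (1 + 6 * Real.sqrt (3 * (R : ℝ))) * (GG.card : ℝ) := by
    rw [← Finset.sum_fiberwise_of_maps_to (s := GG) (t := GG.image κ) (g := κ)
      (fun l hl => Finset.mem_image_of_mem _ hl)]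
    rw [Finset.card_eq_sum_card_image κ GG]
    push_cast
    rw [Finset.mul_sum]
    apply Finset.sum_le_sum
    rintro ⟨w0, K, w1, H⟩ hk
    set fibr := GG.filter (fun ξ => κ ξ = (w0, K, w1, H)) with hfibr
    have hspec : ∀ ξ ∈ fibr, Dec R H ξ w0 (ls ξ) w1 ∧ (ls ξ).length = K ∧ ξ.length = n ∧ L ≤ H := by
      intro ξ hξ
      obtain ⟨hξ1, hξ2⟩ := Finset.mem_filter.mp hξ
      obtain ⟨hξ3, q, hq⟩ := Finset.mem_filter.mp hξ1
      obtain ⟨hξ4, hξ5, hξ6⟩ := Finset.mem_filter.mp hξ3
      have hdd := dd_spec hq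
      simp only [hκ, Prod.mk.injEq] at hξ2
      obtain ⟨f1, f2, f3, f4⟩ := hξ2
      rw [hdd] at f1 f3
      simp only at f1 f3
      have hlsq : ls ξ = q.2.1 := by rw [hls]; simp only [hdd]
      refine ⟨?_, f2, mem_wordsN.mp hξ4, by rw [← f4]; exact hξ6⟩
      rw [hlsq, ← f4, ← f1, ← f3]
      exact hq
    set Ω := fibr.image ls with hΩdef
    have hinj : Set.InjOn ls (fibr : Set (List Dir)) := by
      intro ξ hξ ξ' hξ' hE
      rw [(hspec ξ hξ).1.eq, (hspec ξ' hξ').1.eq, hE]
    have hmem : ∀ l, l ∈ Ω ↔ l.length = K ∧ Dec R H (w0 ++ Gh l ++ N :: w1) w0 l w1 ∧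
        (w0 ++ Gh l ++ N :: w1).length = n ∧ L ≤ H := by
      intro l
      constructor
      · intro hl
        obtain ⟨ξ, hξ, rfl⟩ := Finset.mem_image.mp hl
        obtain ⟨h1, h2, h3, h4⟩ := hspec ξ hξ
        have h5 := h1.eq
        rw [← h5]
        exact ⟨h2, h1, h3, h4⟩
      · rintro ⟨h1, h2, h3, h4⟩
        have h5 : Dec R (wY (w0 ++ Gh l ++ N :: w1)) (w0 ++ Gh l ++ N :: w1) w0 l w1 := by
          rw [h2.hY]; exact h2
        have hdd := dd_spec h5
        have hll : ls (w0 ++ Gh l ++ N :: w1) = l := by rw [hls]; simp only [hdd]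
        refine Finset.mem_image.mpr ⟨w0 ++ Gh l ++ N :: w1, ?_, hll⟩
        refine Finset.mem_filter.mpr ⟨Finset.mem_filter.mpr ⟨Finset.mem_filter.mpr
          ⟨mem_wordsN.mpr h3, h2.saw, by rw [h2.hY]; exact h4⟩, ⟨(w0, l, w1), h5⟩⟩, ?_⟩
        simp only [hκ, hll, h1, hdd, h2.hY]
    have hclosed : ClosedFam mir Ω K := by
      refine ⟨fun l hl => ((hmem l).mp hl).1, ?_, ?_⟩
      · intro l hl l' hp
        obtain ⟨h1, h2, h3, h4⟩ := (hmem l).mp hl
        refine (hmem l').mpr ⟨by rw [← hp.length_eq, h1], ?_, ?_, h4⟩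
        · exact mk_dec h2 (fun s hs => h2.pc s (hp.mem_iff.mpr hs)) (tsum'_perm tt hp).symm
        · rw [← h3]
          simp only [List.length_append, length_Gh_perm hp]
      · intro A B hAB
        obtain ⟨h1, h2, h3, h4⟩ := (hmem _).mp hAB
        refine (hmem _).mpr ⟨by simpa using h1, ?_, ?_, h4⟩
        · apply mk_dec h2
          · intro s hs
            rcases List.mem_append.mp hs with hs | hs
            · obtain ⟨s', hs', rfl⟩ := List.mem_map.mp hs
              exact (h2.pc s' (by simp [hs'])).mir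
            · exact h2.pc s (by simp [hs])
          · rw [tsum'_append, tsum'_append, tsum'_map_mir]
        · rw [← h3]
          simp only [List.length_append, Gh_append, length_Gh_map]
    have hW : ∀ l ∈ Ω, tsum' tt l ≤ R := fun l hl => ((hmem l).mp hl).2.1.tsum_le
    have hcb1 := comb_bound mir mir_mir wX wX_mir tt tt_pos tt_mir K Ω hclosed R hW
    have hcb2 := comb_bound mir mir_mir c' (fun a => by simp only [hc', wX_mir]) tt tt_pos tt_mir K Ω
      hclosed R hW
    have hcard : (Ω.card : ℝ) = (fibr.card : ℝ) := by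
      rw [hΩdef, Finset.card_image_of_injOn hinj]
    have hsum : ∑ ξ ∈ fibr, cnt (ls ξ)
        = ∑ m ∈ range (K + 1), ∑ l ∈ Ω, (if OO tt wX m m l then (1 : ℝ) else 0)
          + ∑ m ∈ range (K + 1), ∑ l ∈ Ω, (if OO tt c' m m l then (1 : ℝ) else 0) := by
      have e1 : ∑ ξ ∈ fibr, cnt (ls ξ) = ∑ l ∈ Ω, cnt l := by
        rw [hΩdef, Finset.sum_image hinj]
      rw [e1, Finset.sum_comm, Finset.sum_comm (s := range (K + 1)), ← Finset.sum_add_distrib]
      apply Finset.sum_congr rfl
      intro l hl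
      rw [hcnt]
      simp only
      rw [hclosed.len l hl, Finset.sum_add_distrib]
    rw [hsum, ← hcard]
    linarith
  refine step2.trans ?_
  have hle : (GG.card : ℝ) ≤ ((FW n L).card : ℝ) := by
    exact_mod_cast Finset.card_filter_le _ _
  have : 0 ≤ 2 * (1 + 6 * Real.sqrt (3 * (R : ℝ))) := by positivity
  exact mul_le_mul_of_nonneg_left hle this

end Pool.Agent.H976R2
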