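import Mathlib
import Pool.Agent.H976R2.CountNP

set_option autoImplicit false
set_option linter.unusedVariables false

namespace Pool.Agent.H976R2

open Dir Finset
open scoped Classical

/-- exchange of north and south -/
def fE : Dir → Dir
  | Dir.E => Dir.E
  | Dir.W => Dir.W
  | Dir.N => Dir.S
  | Dir.S => Dir.N

def flp (w : List Dir) : List Dir := w.map fE

lemma fE_fE (s : Dir) : fE (fE s) = s := by cases s <;> rfl

lemma flp_flp (w : List Dir) : flp (flp w) = w := by
  unfold flp
  rw [List.map_map]
  have : fE ∘ fE = id := funext fE_fE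
  rw [this, List.map_id]

lemma flp_append (a b : List Dir) : flp (a ++ b) = flp a ++ flp b := by simp [flp]

lemma wX_flp (w : List Dir) : wX (flp w) = wX w := by
  induction w with
  | nil => rfl
  | cons s w ih =>
    have : flp (s :: w) = fE s :: flp w := rfl
    rw [this, wX_cons, wX_cons, ih]
    cases s <;> simp only [fE, dx]

lemma wY_flp (w : List Dir) : wY (flp w) = - wY w := by
  induction w with
  | nil => rfl
  | cons s w ih =>
    have : flp (s :: w) = fE s :: flp w := rfl
    rw [this, wY_cons, wY_cons, ih]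
    cases s <;> simp only [fE, dy] <;> ring

lemma length_flp (w : List Dir) : (flp w).length = w.length := by simp [flp]

lemma flp_eq_append {w a b : List Dir} (h : flp w = a ++ b) : w = flp a ++ flp b := by
  rw [← flp_append, ← h, flp_flp]

lemma Saw.flp {w : List Dir} (h : Saw w) : Saw (flp w) := by
  intro a b c habc hb hcon
  have e := flp_eq_append habc
  rw [flp_append] at e
  refine h _ (H976R2.flp b) _ e (by simpa [H976R2.flp] using hb) ?_
  rw [wX_flp, wY_flp]
  exact ⟨hcon.1, by linarith [hcon.2]⟩

/-- exchange of the coordinates -/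
def rE : Dir → Dir
  | Dir.E => Dir.N
  | Dir.W => Dir.S
  | Dir.N => Dir.E
  | Dir.S => Dir.W

def rot (w : List Dir) : List Dir := w.map rE

lemma rE_rE (s : Dir) : rE (rE s) = s := by cases s <;> rfl

lemma rot_rot (w : List Dir) : rot (rot w) = w := by
  unfold rot
  rw [List.map_map]
  have : rE ∘ rE = id := funext rE_rE
  rw [this, List.map_id]

lemma rot_append (a b : List Dir) : rot (a ++ b) = rot a ++ rot b := by simp [rot]

lemma wX_rot (w : List Dir) : wX (rot w) = wY w := by
  induction w with
  | nil => rfl
  | cons s w ih =>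
    have : rot (s :: w) = rE s :: rot w := rfl
    rw [this, wX_cons, wY_cons, ih]
    cases s <;> simp only [rE, dx, dy]

lemma wY_rot (w : List Dir) : wY (rot w) = wX w := by
  induction w with
  | nil => rfl
  | cons s w ih =>
    have : rot (s :: w) = rE s :: rot w := rfl
    rw [this, wY_cons, wX_cons, ih]
    cases s <;> simp only [rE, dx, dy]

lemma length_rot (w : List Dir) : (rot w).length = w.length := by simp [rot]

lemma rot_eq_append {w a b : List Dir} (h : rot w = a ++ b) : w = rot a ++ rot b := by
  rw [← rot_append, ← h, rot_rot]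

lemma Saw.rot {w : List Dir} (h : Saw w) : Saw (rot w) := by
  intro a b c habc hb hcon
  have e := rot_eq_append habc
  rw [rot_append] at e
  refine h _ (H976R2.rot b) _ e (by simpa [H976R2.rot] using hb) ?_
  rw [wX_rot, wY_rot]
  exact ⟨hcon.2, hcon.1⟩

/-- self-avoiding words of length `n` -/
noncomputable def SW (n : ℕ) : Finset (List Dir) := (wordsN n).filter Saw

lemma mem_SW {n : ℕ} {w : List Dir} : w ∈ SW n ↔ w.length = n ∧ Saw w := by
  simp [SW, mem_wordsN]

lemma sum_SW_inv (n : ℕ) (φ : List Dir → List Dir) (hφ : ∀ w, φ (φ w) = w)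
    (hm : ∀ w ∈ SW n, φ w ∈ SW n) (F : List Dir → ℝ) : ∑ w ∈ SW n, F (φ w) = ∑ w ∈ SW n, F w := by
  apply sum_selfmap (SW n) φ hm
  intro a _ b _ h
  rw [← hφ a, ← hφ b, h]

lemma sum_SW_flp (n : ℕ) (F : List Dir → ℝ) : ∑ w ∈ SW n, F (flp w) = ∑ w ∈ SW n, F w :=
  sum_SW_inv n flp flp_flp (fun w hw => mem_SW.mpr ⟨by rw [length_flp]; exact (mem_SW.mp hw).1,
    (mem_SW.mp hw).2.flp⟩) F

lemma sum_SW_rot (n : ℕ) (F : List Dir → ℝ) : ∑ w ∈ SW n, F (rot w) = ∑ w ∈ SW n, F w :=
  sum_SW_inv n rot rot_rot (fun w hw => mem_SW.mpr ⟨by rw [length_rot]; exact (mem_SW.mp hw).1,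
    (mem_SW.mp hw).2.rot⟩) F

/-- the walk reaches height `L` -/
def Reach (L : ℤ) (w : List Dir) : Prop := ∃ a b, w = a ++ b ∧ L ≤ wY a

/-- splitting at the maximal height -/
lemma exists_max_split (w : List Dir) : ∃ u v, w = u ++ v ∧ ∀ a b, w = a ++ b → wY a ≤ wY u := by
  induction w with
  | nil =>
    refine ⟨[], [], rfl, ?_⟩
    intro a b h
    have : a = [] := by simp_all
    rw [this]
  | cons s w ih =>
    obtain ⟨u, v, h1, h2⟩ := ih
    by_cases h : 0 ≤ dy s + wY u
    · refine ⟨s :: u, v, by rw [h1]; rfl, ?_⟩
      intro a b hab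
      cases a with
      | nil => rw [wY_cons]; simpa using h
      | cons t a =>
        simp only [List.cons_append, List.cons.injEq] at hab
        obtain ⟨rfl, hab⟩ := hab
        rw [wY_cons, wY_cons]
        linarith [h2 a b hab]
    · refine ⟨[], s :: w, rfl, ?_⟩
      intro a b hab
      cases a with
      | nil => exact le_rfl
      | cons t a =>
        simp only [List.cons_append, List.cons.injEq] at hab
        obtain ⟨rfl, hab⟩ := hab
        rw [wY_cons, wY_nil]
        have := h2 a b hab
        push Not at h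
        linarith

/-- The reflection at the maximum produces a near pair. -/
lemma near_of_saw {w u v : List Dir} (hw : Saw w) (h : w = u ++ v)
    (hmax : ∀ a b, w = a ++ b → wY a ≤ wY u) : Near u (flp v) := by
  subst h
  refine ⟨hw.left, ?_, hw.right.flp, ?_, ?_⟩
  · intro a b hab
    have := hmax a (b ++ v) (by rw [hab]; simp)
    rw [hab, wY_append] at this
    linarith
  · intro a b hab
    have e := flp_eq_append hab
    have := hmax (u ++ flp a) (flp b) (by rw [List.append_assoc, ← e])
    rw [wY_append, wY_flp] at this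
    linarith
  · intro q' q p p' hu hv hX hY
    have e := flp_eq_append hv
    by_contra hcon
    have hne : q ++ flp p ≠ [] := by
      intro h0
      rw [List.append_eq_nil_iff] at h0
      apply hcon
      refine ⟨h0.1, ?_⟩
      have := h0.2
      unfold flp at this
      simpa using this
    refine hw q' (q ++ flp p) (flp p') ?_ hne ?_
    · rw [hu, e]; simp
    · rw [wX_append, wY_append, wX_flp, wY_flp]
      exact ⟨hX, by linarith⟩

/-- the core counting inequality for reaching walks with small final height -/
lemma reach_small (n R : ℕ) (L : ℤ) (hn : 1 ≤ n) :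
    (((SW n).filter (fun w => Reach L w ∧ (wY w ≤ R ∧ -(R : ℤ) ≤ wY w))).card : ℝ)
      ≤ 4 * ((NP n (R + 1) L).card : ℝ) := by
  have hsub : (SW n).filter (fun w => Reach L w ∧ (wY w ≤ R ∧ -(R : ℤ) ≤ wY w)) ⊆
      ((NP n (R + 1) L) ×ˢ (Finset.univ : Finset Dir)).image
        (fun q => q.1.1 ++ flp q.1.2 ++ [q.2]) := by
    intro w hw
    obtain ⟨hw1, ⟨a, b, hab, hLa⟩, hR1, hR2⟩ := Finset.mem_filter.mp hw
    obtain ⟨hlen, hsaw⟩ := mem_SW.mp hw1
    have hne : w ≠ [] := by
      intro h0
      rw [h0] at hlen
      simp at hlen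
      omega
    obtain ⟨w', d, rfl⟩ : ∃ w' d, w = w' ++ [d] := ⟨w.dropLast, w.getLast hne,
      (List.dropLast_append_getLast hne).symm⟩
    obtain ⟨u, v, h1, h2⟩ := exists_max_split w'
    have hN := near_of_saw hsaw.left h1 h2
    refine Finset.mem_image.mpr ⟨((u, flp v), d), ?_, ?_⟩
    · refine Finset.mem_product.mpr ⟨?_, Finset.mem_univ _⟩
      have hlen' : u.length + v.length + 1 = n := by
        rw [← hlen, h1]
        simp only [List.length_append, List.length_cons, List.length_nil]
      have hYw' : wY w' = wY u + wY v := by rw [h1, wY_append]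
      have hd : -1 ≤ dy d ∧ dy d ≤ 1 := by cases d <;> simp [dy]
      rw [wY_append] at hR1 hR2
      simp only [wY_cons, wY_nil, add_zero] at hR1 hR2
      refine Finset.mem_filter.mpr ⟨?_, ?_, hN, ?_, ?_⟩
      · refine Finset.mem_product.mpr ⟨mem_wordsLe.mpr ?_, mem_wordsLe.mpr ?_⟩
        · simp only; omega
        · simp only [length_flp]; omega
      · simp only [length_flp]; omega
      · simp only [wY_flp]
        push_cast
        constructor <;> linarith [hd.1, hd.2]
      · have hv0 := hN.2.2.2.1.nonneg
        simp only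
        -- a is a prefix of w' ++ [d]
        rcases List.append_eq_append_iff.mp hab with ⟨T, e1, e2⟩ | ⟨T, e1, e2⟩
        · -- a = w' ++ T, [d] = T ++ b
          cases T with
          | nil =>
            simp only [List.append_nil] at e1
            have := h2 a [] (by rw [e1]; simp)
            linarith
          | cons t T =>
            simp only [List.cons_append, List.cons.injEq] at e2
            have hT : T = [] := (List.append_eq_nil_iff.mp e2.2.symm).1
            subst hT
            have h3 := h2 w' [] (by simp)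
            rw [e1, wY_append] at hLa
            simp only [wY_cons, wY_nil, add_zero] at hLa
            rw [← e2.1] at hLa
            linarith [hd.2]
        · -- w' = a ++ T
          have := h2 a T e1
          linarith
    · simp only [flp_flp]
      rw [h1]
  have h1 := (Finset.card_le_card hsub).trans Finset.card_image_le
  rw [Finset.card_product] at h1
  have h2 : (Finset.univ : Finset Dir).card = 4 := by decide
  rw [h2] at h1
  have h3 : (((SW n).filter (fun w => Reach L w ∧ (wY w ≤ R ∧ -(R : ℤ) ≤ wY w))).card : ℝ)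
      ≤ (((NP n (R + 1) L).card * 4 : ℕ) : ℝ) := by exact_mod_cast h1
  push_cast at h3
  linarith

/-- **Maximal inequality** in word form. -/
theorem max_ineq_words (n R : ℕ) (L : ℤ) (hn : 1 ≤ n) :
    (((SW n).filter (fun w => Reach L w)).card : ℝ)
      ≤ (((SW n).filter (fun w => (R : ℤ) < |wY w|)).card : ℝ)
        + 8 * (1 + 6 * Real.sqrt (3 * ((R : ℝ) + 1))) * (((SW n).filter (fun w => L ≤ wY w)).card : ℝ) := by
  have h1 := reach_small n R L hn
  have h2 := count_near n (R + 1) L
  have hFW : FW n L = (SW n).filter (fun w => L ≤ wY w) := by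
    unfold FW SW
    rw [Finset.filter_filter]
  rw [hFW] at h2
  push_cast at h2
  have h3 : ((SW n).filter (fun w => Reach L w)).card ≤
      ((SW n).filter (fun w => (R : ℤ) < |wY w|)).card +
      ((SW n).filter (fun w => Reach L w ∧ (wY w ≤ R ∧ -(R : ℤ) ≤ wY w))).card := by
    rw [← Finset.card_union_add_card_inter]
    refine le_trans (Finset.card_le_card ?_) (Nat.le_add_right _ _)
    intro w hw
    obtain ⟨hw1, hw2⟩ := Finset.mem_filter.mp hw
    by_cases h : (R : ℤ) < |wY w|
    · exact Finset.mem_union_left _ (Finset.mem_filter.mpr ⟨hw1, h⟩)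
    · apply Finset.mem_union_right
      push Not at h
      rw [abs_le] at h
      exact Finset.mem_filter.mpr ⟨hw1, hw2, h.2, h.1⟩
  have h4 : (((SW n).filter (fun w => Reach L w)).card : ℝ) ≤
      (((SW n).filter (fun w => (R : ℤ) < |wY w|)).card : ℝ) +
      (((SW n).filter (fun w => Reach L w ∧ (wY w ≤ R ∧ -(R : ℤ) ≤ wY w))).card : ℝ) := by
    exact_mod_cast h3
  linarith

end Pool.Agent.H976R2
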