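import Mathlib
import Pool.Agent.H976R2.MaxIneq

set_option autoImplicit false
set_option linter.unusedVariables false

namespace Pool.Agent.H976R2

open Dir Finset
open scoped Classical

lemma SW_nonempty (n : ℕ) : (SW n).Nonempty := by
  refine ⟨List.replicate n N, mem_SW.mpr ⟨by simp, ?_⟩⟩
  intro a b c habc hb hcon
  have hall : ∀ x ∈ b, x = N := by
    intro x hx
    have : x ∈ List.replicate n N := by rw [habc]; simp [hx]
    exact List.eq_of_mem_replicate this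
  have hb' : b = List.replicate b.length N := List.eq_replicate_of_mem hall
  have hY : ∀ k : ℕ, wY (List.replicate k N) = k := by
    intro k
    induction k with
    | zero => rfl
    | succ k ih => rw [List.replicate_succ, wY_cons, ih]; simp only [dy]; push_cast; ring
  have h1 := hcon.2
  rw [hb', hY] at h1
  have : 0 < b.length := List.length_pos_iff.mpr hb
  omega

/-- A self-avoiding word cannot stay in a small box. -/
lemma leaves_box (n : ℕ) (L : ℕ) (hL : 1 ≤ L) (hn : (2 * L - 1) ^ 2 ≤ n) (w : List Dir)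
    (hw : w ∈ SW n) : ∃ a b, w = a ++ b ∧ ((L : ℤ) ≤ wY a ∨ (L : ℤ) ≤ - wY a ∨ (L : ℤ) ≤ wX a ∨
      (L : ℤ) ≤ - wX a) := by
  obtain ⟨hlen, hsaw⟩ := mem_SW.mp hw
  by_contra hcon
  push Not at hcon
  have hmaps : ∀ k ∈ range (n + 1), (wX (w.take k), wY (w.take k)) ∈
      (Finset.Ioo (-(L : ℤ)) L) ×ˢ (Finset.Ioo (-(L : ℤ)) L) := by
    intro k _
    obtain ⟨h1, h2, h3, h4⟩ := hcon (w.take k) (w.drop k) (List.take_append_drop k w).symm
    rw [Finset.mem_product, Finset.mem_Ioo, Finset.mem_Ioo]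
    refine ⟨⟨?_, ?_⟩, ⟨?_, ?_⟩⟩ <;> simp only <;> linarith
  have hcard : ((Finset.Ioo (-(L : ℤ)) L) ×ˢ (Finset.Ioo (-(L : ℤ)) L)).card < (range (n + 1)).card := by
    rw [Finset.card_product, Int.card_Ioo, Finset.card_range]
    have : ((L : ℤ) - -(L : ℤ) - 1).toNat = 2 * L - 1 := by omega
    rw [this, ← sq]
    omega
  obtain ⟨i, hi, j, hj, hij, hE⟩ := Finset.exists_ne_map_eq_of_card_lt_of_maps_to hcard hmaps
  rw [Prod.mk.injEq] at hE
  have key : ∀ i j : ℕ, i < j → j ≤ n → wX (w.take i) = wX (w.take j) → wY (w.take i) = wY (w.take j) →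
      False := by
    intro i j hij hj hX hY
    have e1 : w.take j = w.take i ++ (w.drop i).take (j - i) := by
      have : j = i + (j - i) := by omega
      conv_lhs => rw [this]
      rw [List.take_add]
    have hne : (w.drop i).take (j - i) ≠ [] := by
      apply List.ne_nil_of_length_pos
      rw [List.length_take, List.length_drop, hlen]
      omega
    refine hsaw (w.take i) ((w.drop i).take (j - i)) (w.drop j) ?_ hne ?_
    · rw [← e1, List.take_append_drop]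
    · rw [e1, wX_append] at hX
      rw [e1, wY_append] at hY
      constructor <;> linarith
  have hi' := Finset.mem_range.mp hi
  have hj' := Finset.mem_range.mp hj
  rcases lt_or_gt_of_ne hij with h | h
  · exact key i j h (by omega) hE.1 hE.2
  · exact key j i h (by omega) hE.1.symm hE.2.symm

lemma reach_quarter (n : ℕ) (L : ℕ) (hL : 1 ≤ L) (hn : (2 * L - 1) ^ 2 ≤ n) :
    ((SW n).card : ℝ) ≤ 4 * (((SW n).filter (fun w => Reach (L : ℤ) w)).card : ℝ) := by
  set F : List Dir → ℝ := fun w => if Reach (L : ℤ) w then 1 else 0 with hF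
  have e0 : (((SW n).filter (fun w => Reach (L : ℤ) w)).card : ℝ) = ∑ w ∈ SW n, F w := by
    rw [hF, Finset.sum_ite]; simp
  have e1 : ∑ w ∈ SW n, F (flp w) = ∑ w ∈ SW n, F w := sum_SW_flp n F
  have e2 : ∑ w ∈ SW n, F (rot w) = ∑ w ∈ SW n, F w := sum_SW_rot n F
  have e3 : ∑ w ∈ SW n, F (flp (rot w)) = ∑ w ∈ SW n, F w := by
    rw [sum_SW_rot n (fun w => F (flp w)), e1]
  have h : ((SW n).card : ℝ) ≤ ∑ w ∈ SW n, (F w + F (flp w) + F (rot w) + F (flp (rot w))) := by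
    have : ((SW n).card : ℝ) = ∑ w ∈ SW n, (1 : ℝ) := by simp
    rw [this]
    apply Finset.sum_le_sum
    intro w hw
    have hF0 : ∀ x, 0 ≤ F x := by
      intro x; simp only [hF]; split <;> norm_num
    have hF1 : ∀ x, Reach (L : ℤ) x → F x = 1 := by
      intro x hx; simp only [hF]; rw [if_pos hx]
    obtain ⟨a, b, hab, h | h | h | h⟩ := leaves_box n L hL hn w hw
    · have := hF1 w ⟨a, b, hab, h⟩
      linarith [hF0 (flp w), hF0 (rot w), hF0 (flp (rot w))]
    · have := hF1 (flp w) ⟨flp a, flp b, by rw [hab, flp_append], by rw [wY_flp]; exact h⟩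
      linarith [hF0 w, hF0 (rot w), hF0 (flp (rot w))]
    · have := hF1 (rot w) ⟨rot a, rot b, by rw [hab, rot_append], by rw [wY_rot]; exact h⟩
      linarith [hF0 w, hF0 (flp w), hF0 (flp (rot w))]
    · have := hF1 (flp (rot w)) ⟨flp (rot a), flp (rot b), by rw [hab, rot_append, flp_append],
        by rw [wY_flp, wY_rot]; exact h⟩
      linarith [hF0 w, hF0 (flp w), hF0 (rot w)]
  rw [Finset.sum_add_distrib, Finset.sum_add_distrib, Finset.sum_add_distrib, e1, e2, e3] at h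
  rw [e0]
  linarith

/-- total squared displacement -/
noncomputable def S2 (n : ℕ) : ℝ := ∑ w ∈ SW n, ((wX w : ℝ) ^ 2 + (wY w : ℝ) ^ 2)

lemma S2_eq (n : ℕ) : S2 n = 2 * ∑ w ∈ SW n, (wY w : ℝ) ^ 2 := by
  unfold S2
  rw [Finset.sum_add_distrib]
  have h := sum_SW_rot n (fun w => (wY w : ℝ) ^ 2)
  simp only [wY_rot] at h
  rw [h]
  ring

lemma card_le_S2 (n : ℕ) (hn : 1 ≤ n) : ((SW n).card : ℝ) ≤ S2 n := by
  unfold S2
  have : ((SW n).card : ℝ) = ∑ w ∈ SW n, (1 : ℝ) := by simp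
  rw [this]
  apply Finset.sum_le_sum
  intro w hw
  obtain ⟨hlen, hsaw⟩ := mem_SW.mp hw
  have hne : w ≠ [] := by
    intro h0
    rw [h0] at hlen
    simp at hlen
    omega
  have h := hsaw [] w [] (by simp) hne
  have h2 : 1 ≤ (wX w) ^ 2 + (wY w) ^ 2 := by
    by_contra hcon
    push Not at hcon
    have h3 : (wX w) ^ 2 = 0 := by nlinarith [sq_nonneg (wX w), sq_nonneg (wY w)]
    have h4 : (wY w) ^ 2 = 0 := by nlinarith [sq_nonneg (wX w), sq_nonneg (wY w)]
    exact h ⟨pow_eq_zero_iff (two_ne_zero) |>.mp h3, pow_eq_zero_iff (two_ne_zero) |>.mp h4⟩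
  exact_mod_cast h2

lemma cheb1 (n R : ℕ) : (((SW n).filter (fun w => (R : ℤ) < |wY w|)).card : ℝ) * (R : ℝ) ^ 2
    ≤ S2 n / 2 := by
  rw [S2_eq]
  have e0 : (((SW n).filter (fun w => (R : ℤ) < |wY w|)).card : ℝ) * (R : ℝ) ^ 2
      = ∑ w ∈ SW n, (if (R : ℤ) < |wY w| then (R : ℝ) ^ 2 else 0) := by
    rw [Finset.sum_ite]; simp
  rw [e0]
  have : ∑ w ∈ SW n, (if (R : ℤ) < |wY w| then (R : ℝ) ^ 2 else 0) ≤ ∑ w ∈ SW n, (wY w : ℝ) ^ 2 := by
    apply Finset.sum_le_sum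
    intro w _
    split_ifs with h
    · have h1 : (R : ℝ) ≤ |(wY w : ℝ)| := by
        have : (R : ℤ) ≤ |wY w| := h.le
        exact_mod_cast this
      calc (R : ℝ) ^ 2 ≤ |(wY w : ℝ)| ^ 2 := by
            apply pow_le_pow_left₀ (by positivity) h1
        _ = (wY w : ℝ) ^ 2 := sq_abs _
    · positivity
  linarith

lemma cheb2 (n L : ℕ) (hL : 1 ≤ L) : (((SW n).filter (fun w => (L : ℤ) ≤ wY w)).card : ℝ) * (L : ℝ) ^ 2
    ≤ S2 n / 4 := by
  rw [S2_eq]
  set F : List Dir → ℝ := fun w => (if (L : ℤ) ≤ wY w then (L : ℝ) ^ 2 else 0) with hF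
  have e0 : (((SW n).filter (fun w => (L : ℤ) ≤ wY w)).card : ℝ) * (L : ℝ) ^ 2
      = ∑ w ∈ SW n, F w := by
    rw [hF, Finset.sum_ite]; simp
  have e1 : ∑ w ∈ SW n, F (flp w) = ∑ w ∈ SW n, F w := sum_SW_flp n F
  have h : ∑ w ∈ SW n, (F w + F (flp w)) ≤ ∑ w ∈ SW n, (wY w : ℝ) ^ 2 := by
    apply Finset.sum_le_sum
    intro w _
    simp only [hF, wY_flp]
    have hLr : (1 : ℝ) ≤ (L : ℝ) := by exact_mod_cast hL
    split_ifs with h1 h2 h2
    · omega
    · rw [add_zero]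
      have : (L : ℝ) ≤ (wY w : ℝ) := by exact_mod_cast h1
      exact pow_le_pow_left₀ (by positivity) this 2
    · rw [zero_add]
      have : (L : ℝ) ≤ -(wY w : ℝ) := by exact_mod_cast h2
      calc (L : ℝ) ^ 2 ≤ (-(wY w : ℝ)) ^ 2 := pow_le_pow_left₀ (by positivity) this 2
        _ = (wY w : ℝ) ^ 2 := by ring
    · rw [add_zero]; positivity
  rw [Finset.sum_add_distrib, e1] at h
  rw [e0]
  linarith

/-- The displacement bound in word form. -/
theorem displ_words (n : ℕ) (hn : 1 ≤ n) :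
    ((n : ℝ) / 3168) ^ ((4 : ℝ) / 5) ≤ S2 n / ((SW n).card : ℝ) := by
  set c : ℝ := ((SW n).card : ℝ) with hc
  have hcpos : 0 < c := by
    rw [hc]; exact_mod_cast Finset.card_pos.mpr (SW_nonempty n)
  set x : ℝ := S2 n / c with hx
  have hS : S2 n = c * x := by rw [hx]; field_simp
  have hx1 : 1 ≤ x := by
    rw [hx, le_div_iff₀ hcpos, one_mul]; exact card_le_S2 n hn
  have hx0 : 0 < x := by linarith
  set s : ℝ := x ^ ((1 : ℝ) / 2) with hs
  set q : ℝ := x ^ ((1 : ℝ) / 4) with hq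
  have hs1 : 1 ≤ s := Real.one_le_rpow hx1 (by norm_num)
  have hq1 : 1 ≤ q := Real.one_le_rpow hx1 (by norm_num)
  have hs2 : s ^ 2 = x := by
    rw [hs, ← Real.rpow_natCast, ← Real.rpow_mul hx0.le]; norm_num
  have hq2 : q ^ 2 = s := by
    rw [hq, hs, ← Real.rpow_natCast, ← Real.rpow_mul hx0.le]; norm_num
  -- choice of R
  set R : ℕ := ⌈2 * s⌉₊ with hR
  have hR1 : 2 * s ≤ (R : ℝ) := Nat.le_ceil _
  have hR2 : (R : ℝ) < 2 * s + 1 := Nat.ceil_lt_add_one (by positivity)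
  -- choice of L
  set m := Nat.sqrt n with hm
  have hm1 : 1 ≤ m := by
    rw [hm]; exact Nat.le_sqrt.mpr (by simpa using hn)
  have hmn : m * m ≤ n := Nat.sqrt_le n
  have hmn' : n < (m + 1) * (m + 1) := Nat.lt_succ_sqrt n
  set L := (m + 1) / 2 with hL
  have hL1 : 1 ≤ L := by omega
  have hL2 : 2 * L - 1 ≤ m := by omega
  have hL3 : m + 1 ≤ 3 * L := by omega
  have hLn : (2 * L - 1) ^ 2 ≤ n := by
    calc (2 * L - 1) ^ 2 ≤ m ^ 2 := Nat.pow_le_pow_left hL2 2
      _ = m * m := sq m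
      _ ≤ n := hmn
  have hnL : (n : ℝ) ≤ 9 * (L : ℝ) ^ 2 := by
    have : n ≤ (3 * L) * (3 * L) := hmn'.le.trans (Nat.mul_le_mul hL3 hL3)
    have h2 : (n : ℝ) ≤ ((3 * L) * (3 * L) : ℕ) := by exact_mod_cast this
    push_cast at h2
    linarith
  have h1 := reach_quarter n L hL1 hLn
  have h2 := max_ineq_words n R (L : ℤ) hn
  have h3 := cheb1 n R
  have h4 := cheb2 n L hL1
  rw [hS] at h3 h4
  set a : ℝ := (((SW n).filter (fun w => Reach (L : ℤ) w)).card : ℝ) with ha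
  set b : ℝ := (((SW n).filter (fun w => (R : ℤ) < |wY w|)).card : ℝ) with hb
  set d : ℝ := (((SW n).filter (fun w => (L : ℤ) ≤ wY w)).card : ℝ) with hd
  have hd0 : 0 ≤ d := Nat.cast_nonneg _
  have hb0 : 0 ≤ b := Nat.cast_nonneg _
  -- b ≤ c / 8
  have hb8 : b ≤ c / 8 := by
    have e1 : b * (2 * s) ^ 2 ≤ c * x / 2 := by
      refine le_trans ?_ h3
      apply mul_le_mul_of_nonneg_left _ hb0
      exact pow_le_pow_left₀ (by positivity) hR1 2
    rw [mul_pow, hs2] at e1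
    have e2 : b * 8 * x ≤ c * x := by linarith
    have e3 : b * 8 ≤ c := le_of_mul_le_mul_right e2 hx0
    linarith
  -- Φ ≤ 22 q
  have hΦ : 1 + 6 * Real.sqrt (3 * ((R : ℝ) + 1)) ≤ 22 * q := by
    have e1 : Real.sqrt (3 * ((R : ℝ) + 1)) ≤ 3.5 * q := by
      rw [Real.sqrt_le_left (by positivity)]
      rw [mul_pow, hq2]
      linarith
    linarith
  have hLr : (0 : ℝ) < (L : ℝ) := by exact_mod_cast hL1
  -- c/8 ≤ 176 q d
  have e5 : c / 8 ≤ 176 * q * d := by
    have e6 : 8 * (1 + 6 * Real.sqrt (3 * ((R : ℝ) + 1))) * d ≤ 8 * (22 * q) * d := by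
      apply mul_le_mul_of_nonneg_right _ hd0
      linarith
    linarith
  -- L^2 ≤ 352 q x
  have e7 : (L : ℝ) ^ 2 ≤ 352 * q * x := by
    have e8 : c / 8 * (L : ℝ) ^ 2 ≤ 176 * q * (c * x / 4) := by
      calc c / 8 * (L : ℝ) ^ 2 ≤ 176 * q * d * (L : ℝ) ^ 2 :=
            mul_le_mul_of_nonneg_right e5 (by positivity)
        _ = 176 * q * (d * (L : ℝ) ^ 2) := by ring
        _ ≤ 176 * q * (c * x / 4) := by
            apply mul_le_mul_of_nonneg_left h4 (by positivity)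
    have e9 : c * (L : ℝ) ^ 2 ≤ c * (352 * q * x) := by linarith
    exact le_of_mul_le_mul_left e9 hcpos
  have e10 : (n : ℝ) / 3168 ≤ x ^ ((5 : ℝ) / 4) := by
    have e11 : x ^ ((5 : ℝ) / 4) = q * x := by
      rw [hq, ← Real.rpow_add_one hx0.ne']; norm_num
    rw [e11]
    linarith
  calc ((n : ℝ) / 3168) ^ ((4 : ℝ) / 5) ≤ (x ^ ((5 : ℝ) / 4)) ^ ((4 : ℝ) / 5) :=
        Real.rpow_le_rpow (by positivity) e10 (by norm_num)
    _ = x := by
        rw [← Real.rpow_mul hx0.le]; norm_num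

end Pool.Agent.H976R2
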