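import Mathlib
import Pool.Agent.H976R2.Displ

set_option autoImplicit false
set_option linter.unusedVariables false

namespace Pool.Agent.H976R2

open Dir Finset
open scoped Classical

/-- opposite direction -/
def opp : Dir → Dir
  | Dir.E => Dir.W
  | Dir.W => Dir.E
  | Dir.N => Dir.S
  | Dir.S => Dir.N

/-- orthogonality of directions -/
def perp (e d : Dir) : Prop := dx e * dx d + dy e * dy d = 0

instance (e d : Dir) : Decidable (perp e d) := by unfold perp; infer_instance

lemma dx_opp (e : Dir) : dx (opp e) = - dx e := by cases e <;> simp [dx, opp]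
lemma dy_opp (e : Dir) : dy (opp e) = - dy e := by cases e <;> simp [dy, opp]

/-- prefix positions determine prefixes -/
lemma saw_iff_pos (w : List Dir) : Saw w ↔ ∀ a b c d, w = a ++ b → w = c ++ d →
    wX a = wX c → wY a = wY c → a = c := by
  constructor
  · intro h a b c d h1 h2 hX hY
    have hE : a ++ b = c ++ d := by rw [← h1, h2]
    rcases List.append_eq_append_iff.mp hE with ⟨T, e1, e2⟩ | ⟨T, e1, e2⟩
    · by_cases hT : T = []
      · rw [e1, hT]; simp
      · exfalso
        refine h a T d (by rw [h2, e1]) hT ?_
        rw [e1, wX_append] at hX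
        rw [e1, wY_append] at hY
        constructor <;> linarith
    · by_cases hT : T = []
      · rw [e1, hT]; simp
      · exfalso
        refine h c T b (by rw [h1, e1]) hT ?_
        rw [e1, wX_append] at hX
        rw [e1, wY_append] at hY
        constructor <;> linarith
  · intro h a b c habc hb hcon
    have := h a (b ++ c) (a ++ b) c (by rw [habc]; simp) habc
      (by rw [wX_append, hcon.1]; ring) (by rw [wY_append, hcon.2]; ring)
    apply hb
    have h2 := congrArg List.length this
    rw [List.length_append] at h2
    exact List.length_eq_zero_iff.mp (by omega)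

/-- visited sites -/
def vis (w : List Dir) (p : ℤ × ℤ) : Prop := ∃ a b, w = a ++ b ∧ wX a = p.1 ∧ wY a = p.2

/-- deletion of a bump keeps self-avoidance -/
lemma saw_delete {a b : List Dir} {d e : Dir} (h : Saw (a ++ e :: d :: opp e :: b)) :
    Saw (a ++ d :: b) := by
  intro x y z hxyz hy hcon
  rw [List.append_assoc] at hxyz
  rcases List.append_eq_append_iff.mp hxyz with ⟨T, h1, h2⟩ | ⟨T, h1, h2⟩
  · -- x = a ++ T, d :: b = T ++ (y ++ z)
    cases T with
    | nil =>
      simp only [List.nil_append] at h2
      cases y with
      | nil => exact hy rfl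
      | cons s y =>
        simp only [List.cons_append, List.cons.injEq] at h2
        obtain ⟨rfl, h2⟩ := h2
        refine h a (e :: d :: opp e :: y) z (by rw [h2]; simp) (by simp) ?_
        simp only [wX_cons, wY_cons, dx_opp, dy_opp] at hcon ⊢
        constructor <;> linarith [hcon.1, hcon.2]
    | cons s T =>
      simp only [List.cons_append, List.cons.injEq] at h2
      exact h (a ++ e :: d :: opp e :: T) y z (by rw [h2.2]; simp) hy hcon
  · -- a = x ++ T, y ++ z = T ++ d :: b
    rcases List.append_eq_append_iff.mp h2 with ⟨T', h3, h4⟩ | ⟨T', h3, h4⟩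
    · exact h x y (T' ++ e :: d :: opp e :: b) (by rw [h1, h3]; simp) hy hcon
    · cases T' with
      | nil =>
        simp only [List.append_nil] at h3
        exact h x y (e :: d :: opp e :: b) (by rw [h1, h3]) hy hcon
      | cons s T' =>
        simp only [List.cons_append, List.cons.injEq] at h4
        obtain ⟨rfl, h4⟩ := h4
        refine h x (T ++ e :: d :: opp e :: T') z (by rw [h1, h4]; simp) (by simp) ?_
        rw [h3] at hcon
        simp only [wX_append, wY_append, wX_cons, wY_cons, dx_opp, dy_opp] at hcon ⊢
        constructor <;> linarith [hcon.1, hcon.2]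

/-- prefixes of the word with an inserted bump -/
lemma prefix_cases {a b p q : List Dir} {d e : Dir} (h : a ++ e :: d :: opp e :: b = p ++ q) :
    (∃ T, a = p ++ T) ∨ p = a ++ [e] ∨ p = a ++ [e, d] ∨
      (∃ b1 b2, b = b1 ++ b2 ∧ p = a ++ e :: d :: opp e :: b1) := by
  rcases List.append_eq_append_iff.mp h with ⟨T, h1, h2⟩ | ⟨T, h1, h2⟩
  · cases T with
    | nil => left; exact ⟨[], by simpa using h1.symm⟩
    | cons s T =>
      simp only [List.cons_append, List.cons.injEq] at h2
      obtain ⟨rfl, h2⟩ := h2
      cases T with
      | nil => right; left; exact h1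
      | cons s T =>
        simp only [List.cons_append, List.cons.injEq] at h2
        obtain ⟨rfl, h2⟩ := h2
        cases T with
        | nil => right; right; left; exact h1
        | cons s T =>
          simp only [List.cons_append, List.cons.injEq] at h2
          obtain ⟨rfl, h2⟩ := h2
          right; right; right
          exact ⟨T, q, h2, h1⟩
  · left; exact ⟨T, h1⟩

lemma vis_insert {a b : List Dir} {d e : Dir} (p : ℤ × ℤ) :
    vis (a ++ e :: d :: opp e :: b) p ↔ vis (a ++ d :: b) p ∨
      (wX a + dx e = p.1 ∧ wY a + dy e = p.2) ∨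
      (wX a + dx e + dx d = p.1 ∧ wY a + dy e + dy d = p.2) := by
  constructor
  · rintro ⟨x, y, h, hX, hY⟩
    rcases prefix_cases h with ⟨T, h1⟩ | h1 | h1 | ⟨b1, b2, h1, h2⟩
    · left; exact ⟨x, T ++ d :: b, by rw [h1]; simp, hX, hY⟩
    · right; left
      rw [h1] at hX hY
      simp only [wX_append, wY_append, wX_cons, wY_cons, wX_nil, wY_nil] at hX hY
      constructor <;> linarith
    · right; right
      rw [h1] at hX hY
      simp only [wX_append, wY_append, wX_cons, wY_cons, wX_nil, wY_nil] at hX hY
      constructor <;> linarith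
    · left
      refine ⟨a ++ d :: b1, b2, by rw [h1]; simp, ?_, ?_⟩
      · rw [h2] at hX
        simp only [wX_append, wX_cons, dx_opp] at hX ⊢
        linarith
      · rw [h2] at hY
        simp only [wY_append, wY_cons, dy_opp] at hY ⊢
        linarith
  · rintro (⟨x, y, h, hX, hY⟩ | ⟨hX, hY⟩ | ⟨hX, hY⟩)
    · rcases List.append_eq_append_iff.mp h with ⟨T, h1, h2⟩ | ⟨T, h1, h2⟩
      · cases T with
        | nil =>
          exact ⟨a, e :: d :: opp e :: b, rfl, by rw [← hX, h1]; simp, by rw [← hY, h1]; simp⟩
        | cons s T =>
          simp only [List.cons_append, List.cons.injEq] at h2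
          obtain ⟨rfl, h2⟩ := h2
          refine ⟨a ++ e :: d :: opp e :: T, y, by rw [h2]; simp, ?_, ?_⟩
          · rw [h1] at hX
            simp only [wX_append, wX_cons, dx_opp] at hX ⊢
            linarith
          · rw [h1] at hY
            simp only [wY_append, wY_cons, dy_opp] at hY ⊢
            linarith
      · exact ⟨x, T ++ e :: d :: opp e :: b, by rw [h1]; simp, hX, hY⟩
    · refine ⟨a ++ [e], d :: opp e :: b, by simp, ?_, ?_⟩
      · simp only [wX_append, wX_cons, wX_nil]; linarith
      · simp only [wY_append, wY_cons, wY_nil]; linarith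
    · refine ⟨a ++ [e, d], opp e :: b, by simp, ?_, ?_⟩
      · simp only [wX_append, wX_cons, wX_nil]; linarith
      · simp only [wY_append, wY_cons, wY_nil]; linarith

/-- characterisation of admissible insertions -/
lemma saw_insert_iff {a b : List Dir} {d e : Dir} (hw : Saw (a ++ d :: b)) :
    Saw (a ++ e :: d :: opp e :: b) ↔
      (¬ vis (a ++ d :: b) (wX a + dx e, wY a + dy e) ∧
       ¬ vis (a ++ d :: b) (wX a + dx e + dx d, wY a + dy e + dy d)) := by
  have hd : ¬ (dx d = 0 ∧ dy d = 0) := by cases d <;> simp [dx, dy]
  constructor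
  · intro h
    rw [saw_iff_pos] at h
    constructor
    · rintro ⟨x, y, hxy, hX, hY⟩
      simp only at hX hY
      rcases List.append_eq_append_iff.mp hxy with ⟨T, h1, h2⟩ | ⟨T, h1, h2⟩
      · cases T with
        | nil =>
          have hx : x = a := by simpa using h1
          rw [hx] at hX hY
          have := h (a ++ [e]) (d :: opp e :: b) a (e :: d :: opp e :: b) (by simp) rfl
            (by simp only [wX_append, wX_cons, wX_nil]; linarith)
            (by simp only [wY_append, wY_cons, wY_nil]; linarith)
          simp at this
        | cons s T =>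
          simp only [List.cons_append, List.cons.injEq] at h2
          obtain ⟨rfl, h2⟩ := h2
          have := h (a ++ [e]) (d :: opp e :: b) (a ++ e :: d :: opp e :: T) y (by simp)
            (by rw [h2]; simp)
            (by
              rw [h1] at hX
              simp only [wX_append, wX_cons, wX_nil, dx_opp] at hX ⊢; linarith)
            (by
              rw [h1] at hY
              simp only [wY_append, wY_cons, wY_nil, dy_opp] at hY ⊢; linarith)
          simp at this
      · have := h (a ++ [e]) (d :: opp e :: b) x (T ++ e :: d :: opp e :: b) (by simp)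
          (by rw [h1]; simp)
          (by simp only [wX_append, wX_cons, wX_nil]; linarith)
          (by simp only [wY_append, wY_cons, wY_nil]; linarith)
        have h3 := congrArg List.length this
        rw [h1] at h3
        simp at h3
    · rintro ⟨x, y, hxy, hX, hY⟩
      simp only at hX hY
      rcases List.append_eq_append_iff.mp hxy with ⟨T, h1, h2⟩ | ⟨T, h1, h2⟩
      · cases T with
        | nil =>
          have hx : x = a := by simpa using h1
          rw [hx] at hX hY
          have := h (a ++ [e, d]) (opp e :: b) a (e :: d :: opp e :: b) (by simp) rfl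
            (by simp only [wX_append, wX_cons, wX_nil]; linarith)
            (by simp only [wY_append, wY_cons, wY_nil]; linarith)
          simp at this
        | cons s T =>
          simp only [List.cons_append, List.cons.injEq] at h2
          obtain ⟨rfl, h2⟩ := h2
          have := h (a ++ [e, d]) (opp e :: b) (a ++ e :: d :: opp e :: T) y (by simp)
            (by rw [h2]; simp)
            (by
              rw [h1] at hX
              simp only [wX_append, wX_cons, wX_nil, dx_opp] at hX ⊢; linarith)
            (by
              rw [h1] at hY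
              simp only [wY_append, wY_cons, wY_nil, dy_opp] at hY ⊢; linarith)
          simp at this
      · have := h (a ++ [e, d]) (opp e :: b) x (T ++ e :: d :: opp e :: b) (by simp)
          (by rw [h1]; simp)
          (by simp only [wX_append, wX_cons, wX_nil]; linarith)
          (by simp only [wY_append, wY_cons, wY_nil]; linarith)
        have h3 := congrArg List.length this
        rw [h1] at h3
        simp at h3
  · rintro ⟨hf1, hf2⟩
    rw [saw_iff_pos] at hw ⊢
    -- every prefix is old, s1 or s2
    have key : ∀ p q, a ++ e :: d :: opp e :: b = p ++ q →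
        (p = a ++ [e]) ∨ (p = a ++ [e, d]) ∨
        (∃ c c', a ++ d :: b = c ++ c' ∧ wX c = wX p ∧ wY c = wY p ∧
          ((∃ T, a = c ++ T ∧ p = c) ∨ (∃ b1, c = a ++ d :: b1 ∧ p = a ++ e :: d :: opp e :: b1))) := by
      intro p q hpq
      rcases prefix_cases hpq with ⟨T, h1⟩ | h1 | h1 | ⟨b1, b2, h1, h2⟩
      · right; right
        exact ⟨p, T ++ d :: b, by rw [h1]; simp, rfl, rfl, Or.inl ⟨T, h1, rfl⟩⟩
      · left; exact h1
      · right; left; exact h1
      · right; right
        refine ⟨a ++ d :: b1, b2, by rw [h1]; simp, ?_, ?_, Or.inr ⟨b1, rfl, h2⟩⟩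
        · rw [h2]; simp only [wX_append, wX_cons, dx_opp]; ring
        · rw [h2]; simp only [wY_append, wY_cons, dy_opp]; ring
    have s1X : wX (a ++ [e]) = wX a + dx e := by simp
    have s1Y : wY (a ++ [e]) = wY a + dy e := by simp
    have s2X : wX (a ++ [e, d]) = wX a + dx e + dx d := by simp; ring
    have s2Y : wY (a ++ [e, d]) = wY a + dy e + dy d := by simp; ring
    intro p p' q q' h1 h2 hX hY
    rcases key p p' h1 with e1 | e1 | ⟨c, c', e1, e2, e3, e4⟩
    · rcases key q q' h2 with g1 | g1 | ⟨c, c', g1, g2, g3, g4⟩
      · rw [e1, g1]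
      · exfalso
        rw [e1, g1, s1X, s2X] at hX
        rw [e1, g1, s1Y, s2Y] at hY
        exact hd ⟨by linarith, by linarith⟩
      · exfalso
        rw [e1, s1X] at hX
        rw [e1, s1Y] at hY
        exact hf1 ⟨c, c', g1, by rw [g2, ← hX], by rw [g3, ← hY]⟩
    · rcases key q q' h2 with g1 | g1 | ⟨c, c', g1, g2, g3, g4⟩
      · exfalso
        rw [e1, g1, s1X, s2X] at hX
        rw [e1, g1, s1Y, s2Y] at hY
        exact hd ⟨by linarith, by linarith⟩
      · rw [e1, g1]
      · exfalso
        rw [e1, s2X] at hX
        rw [e1, s2Y] at hY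
        exact hf2 ⟨c, c', g1, by rw [g2, ← hX], by rw [g3, ← hY]⟩
    · rcases key q q' h2 with g1 | g1 | ⟨k, k', g1, g2, g3, g4⟩
      · exfalso
        rw [g1, s1X] at hX
        rw [g1, s1Y] at hY
        exact hf1 ⟨c, c', e1, by rw [e2, hX], by rw [e3, hY]⟩
      · exfalso
        rw [g1, s2X] at hX
        rw [g1, s2Y] at hY
        exact hf2 ⟨c, c', e1, by rw [e2, hX], by rw [e3, hY]⟩
      · have hck := hw c c' k k' e1 g1 (by rw [e2, g2, hX]) (by rw [e3, g3, hY])
        rcases e4 with ⟨T, t1, t2⟩ | ⟨b1, t1, t2⟩
        · rcases g4 with ⟨T', r1, r2⟩ | ⟨b2, r1, r2⟩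
          · rw [t2, r2, hck]
          · exfalso
            have h3 := congrArg List.length t1
            rw [hck, r1] at h3
            simp at h3
        · rcases g4 with ⟨T', r1, r2⟩ | ⟨b2, r1, r2⟩
          · exfalso
            have h3 := congrArg List.length r1
            rw [← hck, t1] at h3
            simp at h3
          · rw [t1, r1] at hck
            have hbb : b1 = b2 := by simpa using hck
            rw [t2, r2, hbb]

end Pool.Agent.H976R2
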