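import Mathlib
import Pool.Agent.H976R2.Displ

set_option autoImplicit false
set_option linter.unusedVariables false

namespace Pool.Agent.H976R2

open Dir Finset
open scoped Classical

/-- `ω` is an `n`-step self-avoiding walk on the square lattice started at the origin. -/
def IsSAW (n : ℕ) (ω : Fin (n + 1) → ℤ × ℤ) : Prop :=
  ω 0 = (0, 0) ∧
  (∀ i : Fin n, |(ω i.succ).1 - (ω i.castSucc).1| + |(ω i.succ).2 - (ω i.castSucc).2| = 1) ∧
  Function.Injective ω

/-- the path of a word -/
def pth (n : ℕ) (w : List Dir) : Fin (n + 1) → ℤ × ℤ :=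
  fun k => (wX (w.take (k : ℕ)), wY (w.take (k : ℕ)))

lemma take_succ_dir (w : List Dir) (i : ℕ) (hi : i < w.length) :
    w.take (i + 1) = w.take i ++ [w[i]] := by
  rw [List.take_append_getElem hi]

lemma pth_saw {n : ℕ} {w : List Dir} (hw : w ∈ SW n) : IsSAW n (pth n w) := by
  obtain ⟨hlen, hsaw⟩ := mem_SW.mp hw
  refine ⟨by simp [pth], ?_, ?_⟩
  · intro i
    have hi : (i : ℕ) < w.length := by rw [hlen]; exact i.2
    simp only [pth, Fin.val_succ, Fin.val_castSucc]
    rw [take_succ_dir w i hi]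
    simp only [wX_append, wY_append, wX_cons, wY_cons, wX_nil, wY_nil, add_zero, add_sub_cancel_left]
    cases w[(i : ℕ)] <;> simp [dx, dy]
  · intro i j hE
    simp only [pth, Prod.mk.injEq] at hE
    have key : ∀ i j : ℕ, i < j → j ≤ n → wX (w.take i) = wX (w.take j) →
        wY (w.take i) = wY (w.take j) → False := by
      intro i j hij hj hX hY
      have e1 : w.take j = w.take i ++ (w.drop i).take (j - i) := by
        have : j = i + (j - i) := by omega
        conv_lhs => rw [this]
        rw [List.take_add]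
      have hne : (w.drop i).take (j - i) ≠ [] := by
        apply List.ne_nil_of_length_pos
        rw [List.length_take, List.length_drop, hlen]
        omega
      refine hsaw (w.take i) ((w.drop i).take (j - i)) (w.drop j) ?_ hne ?_
      · rw [← e1, List.take_append_drop]
      · rw [e1, wX_append] at hX
        rw [e1, wY_append] at hY
        constructor <;> linarith
    by_contra hne
    have hne' : (i : ℕ) ≠ (j : ℕ) := fun h => hne (Fin.ext h)
    have hi := i.2
    have hj := j.2
    rcases lt_or_gt_of_ne hne' with h | h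
    · exact key i j h (by omega) hE.1 hE.2
    · exact key j i h (by omega) hE.1.symm hE.2.symm

/-- direction of a unit vector -/
def dirOf (v : ℤ × ℤ) : Dir :=
  if v.1 = 1 then E else if v.1 = -1 then W else if v.2 = 1 then N else S

lemma dirOf_spec {v : ℤ × ℤ} (h : |v.1| + |v.2| = 1) : dx (dirOf v) = v.1 ∧ dy (dirOf v) = v.2 := by
  obtain ⟨a, b⟩ := v
  simp only at h
  unfold dirOf
  simp only
  have ha : -1 ≤ a ∧ a ≤ 1 := by
    have := abs_nonneg b
    rw [← abs_le]; linarith
  have hb : -1 ≤ b ∧ b ≤ 1 := by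
    have := abs_nonneg a
    rw [← abs_le]; linarith
  obtain ⟨ha1, ha2⟩ := ha
  obtain ⟨hb1, hb2⟩ := hb
  interval_cases a <;> interval_cases b <;> simp_all [dx, dy]

/-- the word of a path -/
def wordOf (n : ℕ) (ω : Fin (n + 1) → ℤ × ℤ) : List Dir :=
  List.ofFn (fun i : Fin n => dirOf ((ω i.succ).1 - (ω i.castSucc).1, (ω i.succ).2 - (ω i.castSucc).2))

lemma pth_wordOf {n : ℕ} {ω : Fin (n + 1) → ℤ × ℤ} (h : IsSAW n ω) : pth n (wordOf n ω) = ω := by
  have hlen : (wordOf n ω).length = n := by simp [wordOf]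
  have key : ∀ k : ℕ, ∀ hk : k < n + 1,
      (wX ((wordOf n ω).take k), wY ((wordOf n ω).take k)) = ω ⟨k, hk⟩ := by
    intro k
    induction k with
    | zero => intro hk; simpa using h.1.symm
    | succ k ih =>
      intro hk
      have hk' : k < n := by omega
      have ih' := ih (by omega)
      have e1 := take_succ_dir (wordOf n ω) k (by omega)
      have e2 : (wordOf n ω)[k]'(by omega) = dirOf ((ω (Fin.succ ⟨k, hk'⟩)).1 - (ω (Fin.castSucc ⟨k, hk'⟩)).1,
          (ω (Fin.succ ⟨k, hk'⟩)).2 - (ω (Fin.castSucc ⟨k, hk'⟩)).2) := by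
        simp [wordOf]
      have e3 := dirOf_spec (v := ((ω (Fin.succ ⟨k, hk'⟩)).1 - (ω (Fin.castSucc ⟨k, hk'⟩)).1,
          (ω (Fin.succ ⟨k, hk'⟩)).2 - (ω (Fin.castSucc ⟨k, hk'⟩)).2)) (h.2.1 ⟨k, hk'⟩)
      have e4 : (Fin.castSucc ⟨k, hk'⟩ : Fin (n + 1)) = ⟨k, by omega⟩ := rfl
      have e5 : (Fin.succ ⟨k, hk'⟩ : Fin (n + 1)) = ⟨k + 1, hk⟩ := rfl
      rw [e1, wX_append, wY_append, e2]
      simp only [wX_cons, wY_cons, wX_nil, wY_nil, add_zero]
      rw [e3.1, e3.2]
      rw [e4, e5]
      rw [← ih']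
      simp
  funext k
  exact key k k.2

lemma wordOf_mem {n : ℕ} {ω : Fin (n + 1) → ℤ × ℤ} (h : IsSAW n ω) : wordOf n ω ∈ SW n := by
  have hlen : (wordOf n ω).length = n := by simp [wordOf]
  refine mem_SW.mpr ⟨hlen, ?_⟩
  intro a b c habc hb hcon
  have hp := pth_wordOf h
  have hinj := h.2.2
  have hblen : 0 < b.length := List.length_pos_iff.mpr hb
  have htot : a.length + b.length + c.length = n := by
    rw [← hlen, habc]; simp only [List.length_append]
  have i1 : a.length < n + 1 := by omega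
  have i2 : a.length + b.length < n + 1 := by omega
  have e1 : pth n (wordOf n ω) ⟨a.length, i1⟩ = pth n (wordOf n ω) ⟨a.length + b.length, i2⟩ := by
    simp only [pth]
    have t1 : (wordOf n ω).take a.length = a := by rw [habc, List.append_assoc]; exact List.take_left
    have t2 : (wordOf n ω).take (a.length + b.length) = a ++ b := by
      rw [habc]; apply List.take_left'; simp
    rw [t1, t2, wX_append, wY_append, hcon.1, hcon.2]
    simp
  rw [hp] at e1
  have := hinj e1
  rw [Fin.mk.injEq] at this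
  omega

lemma pth_injOn (n : ℕ) : Set.InjOn (pth n) (SW n : Set (List Dir)) := by
  intro w hw w' hw' hE
  obtain ⟨hlen, _⟩ := mem_SW.mp hw
  obtain ⟨hlen', _⟩ := mem_SW.mp hw'
  apply List.ext_getElem (by rw [hlen, hlen'])
  intro i h1 h2
  have hi : i < n := by omega
  have a1 := congrFun hE ⟨i, by omega⟩
  have a2 := congrFun hE ⟨i + 1, by omega⟩
  simp only [pth, Prod.mk.injEq] at a1 a2
  rw [take_succ_dir w i h1, take_succ_dir w' i h2] at a2
  simp only [wX_append, wY_append, wX_cons, wY_cons, wX_nil, wY_nil, add_zero] at a2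
  have b1 : dx w[i] = dx w'[i] := by linarith [a1.1, a2.1]
  have b2 : dy w[i] = dy w'[i] := by linarith [a1.2, a2.2]
  cases hd : w[i] <;> cases hd' : w'[i] <;> rw [hd, hd'] at b1 b2 <;> simp [dx, dy] at b1 b2

lemma pth_image (n : ℕ) : pth n '' (SW n : Set (List Dir)) = {ω | IsSAW n ω} := by
  ext ω
  constructor
  · rintro ⟨w, hw, rfl⟩
    exact pth_saw hw
  · intro h
    exact ⟨wordOf n ω, wordOf_mem h, pth_wordOf h⟩

lemma finite_saw (n : ℕ) : {ω | IsSAW n ω}.Finite := by
  rw [← pth_image]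
  exact (Finset.finite_toSet (SW n)).image _

lemma ncard_saw (n : ℕ) : {ω | IsSAW n ω}.ncard = (SW n).card := by
  rw [← pth_image, (pth_injOn n).ncard_image, Set.ncard_coe_finset]

lemma ncard_saw_filter (n : ℕ) (P : (Fin (n + 1) → ℤ × ℤ) → Prop) :
    {ω | IsSAW n ω ∧ P ω}.ncard = ((SW n).filter (fun w => P (pth n w))).card := by
  have : {ω | IsSAW n ω ∧ P ω} = pth n '' (((SW n).filter (fun w => P (pth n w)) : Finset (List Dir)) :
      Set (List Dir)) := by
    ext ω
    constructor
    · rintro ⟨h1, h2⟩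
      refine ⟨wordOf n ω, ?_, pth_wordOf h1⟩
      rw [Finset.mem_coe, Finset.mem_filter]
      exact ⟨wordOf_mem h1, by rw [pth_wordOf h1]; exact h2⟩
    · rintro ⟨w, hw, rfl⟩
      rw [Finset.mem_coe, Finset.mem_filter] at hw
      exact ⟨pth_saw hw.1, hw.2⟩
  rw [this, Set.InjOn.ncard_image, Set.ncard_coe_finset]
  exact (pth_injOn n).mono (by
    intro w hw
    rw [Finset.mem_coe, Finset.mem_filter] at hw
    exact hw.1)

lemma finsum_saw (n : ℕ) (F : (Fin (n + 1) → ℤ × ℤ) → ℝ) :
    ∑ᶠ ω ∈ {ω | IsSAW n ω}, F ω = ∑ w ∈ SW n, F (pth n w) := by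
  rw [← pth_image, finsum_mem_image (pth_injOn n), finsum_mem_coe_finset]

lemma pth_last {n : ℕ} {w : List Dir} (hw : w ∈ SW n) : pth n w (Fin.last n) = (wX w, wY w) := by
  simp only [pth, Fin.val_last]
  rw [List.take_of_length_le (by rw [(mem_SW.mp hw).1])]

end Pool.Agent.H976R2
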