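import Mathlib
import Pool.Agent.H976R2.KBump
import Pool.Agent.H976R2.Paths

set_option autoImplicit false
set_option linter.unusedVariables false

/-!
# Bumps in self-avoiding words: definitions

`SW n` is the finset of self-avoiding words (lists of directions) of length `n`.
A *bump* of a word is a block `e, d, opp e` with `e ⊥ d`; deleting it (keeping `d`) shortens the
word by two and keeps its endpoint.  `ins w i e` inserts a bump at the letter number `i`.
-/

namespace Pool.Agent.H976R2

open Dir Finset
open scoped Classical

/-- the letter number `i` of a word (junk `E` outside) -/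
def lt (w : List Dir) (i : ℕ) : Dir := w.getD i E

/-- replace the letter `d` number `i` by `e, d, opp e` -/
def ins (w : List Dir) (i : ℕ) (e : Dir) : List Dir :=
  w.take i ++ e :: lt w i :: opp e :: w.drop (i + 1)

/-- delete the bump at positions `i, i+1, i+2` (keep the middle letter) -/
def del (w : List Dir) (i : ℕ) : List Dir :=
  w.take i ++ lt w (i + 1) :: w.drop (i + 3)

/-- admissible insertions -/
noncomputable def adm (w : List Dir) : Finset (ℕ × Dir) :=
  ((range w.length) ×ˢ (univ : Finset Dir)).filter (fun p => perp p.2 (lt w p.1) ∧ Saw (ins w p.1 p.2))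

/-- positions of bumps -/
noncomputable def bumps (w : List Dir) : Finset ℕ :=
  (range w.length).filter (fun i => i + 2 < w.length ∧ lt w (i + 2) = opp (lt w i) ∧
    perp (lt w i) (lt w (i + 1)))

/-- number of bumps -/
noncomputable def bc (w : List Dir) : ℕ := (bumps w).card

/-- number of admissible insertions -/
noncomputable def AA (w : List Dir) : ℕ := (adm w).card

/-- (truncated) number of bumps -/
noncomputable def bt (w : List Dir) : ℝ := max (bc w : ℝ) ((w.length : ℝ) / 2000)

/-- the ratio functional -/
noncomputable def RR (w : List Dir) : ℝ := (AA w : ℝ) / bt w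

/-- words with few bumps -/
noncomputable def few (n : ℕ) : Finset (List Dir) := (SW n).filter (fun w => (bc w : ℝ) < (n : ℝ) / 2000)

/-- average over self-avoiding words of length `n` -/
noncomputable def EE (n : ℕ) (F : List Dir → ℝ) : ℝ := (∑ w ∈ SW n, F w) / ((SW n).card : ℝ)

/-- squared distance of the endpoint from the origin -/
noncomputable def sq (w : List Dir) : ℝ := (wX w : ℝ) ^ 2 + (wY w : ℝ) ^ 2

/-- maximal squared distance of a site of the walk from the origin -/
noncomputable def mxsq (w : List Dir) : ℝ :=
  (range (w.length + 1)).sup' ⟨0, by simp⟩ (fun k => sq (w.take k))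

end Pool.Agent.H976R2
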