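import Mathlib
import Pool.Agent.H976R2.KDefs

set_option autoImplicit false
set_option linter.unusedVariables false

/-! Polygonal paths of words, as continuous maps on the unit interval. -/

namespace Pool.Agent.H976R2

open Dir Finset
open scoped Classical

/-- clamp to `[0,1]` -/
noncomputable def cl (u : ℝ) : ℝ := max 0 (min 1 u)

/-- the unit vector of a direction, as a complex number -/
noncomputable def vec (s : Dir) : ℂ := (dx s : ℂ) + (dy s : ℂ) * Complex.I

/-- the polygonal path through the sites of the word, at time `u`: `∑ₖ clamp(u - k) · stepₖ` -/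
noncomputable def ZZ (w : List Dir) (u : ℝ) : ℂ :=
  ∑ k ∈ range w.length, ((cl (u - (k : ℝ)) : ℝ) : ℂ) * vec (lt w k)

lemma continuous_cl : Continuous cl := by unfold cl; fun_prop

lemma continuous_ZZ (w : List Dir) : Continuous (ZZ w) := by
  unfold ZZ
  refine continuous_finset_sum _ (fun k _ => ?_)
  have := continuous_cl
  exact (Complex.continuous_ofReal.comp (this.comp (by fun_prop))).mul continuous_const

/-- the path rescaled by `s` in space and by its length in time -/
noncomputable def Xs (s : ℝ) (w : List Dir) : C(unitInterval, ℂ) where
  toFun t := ((s⁻¹ : ℝ) : ℂ) * ZZ w ((w.length : ℝ) * (t : ℝ))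
  continuous_toFun := by
    have := continuous_ZZ w
    exact continuous_const.mul (this.comp (by fun_prop))

end Pool.Agent.H976R2
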