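import Mathlib
import Pool.Agent.H976R2.KDefs
import Pool.Agent.H976R2.KPath

set_option autoImplicit false
set_option linter.unusedVariables false

namespace Pool.Agent.H976R2.Lip

open Pool.Agent.H976R2

open Dir Finset
open scoped Classical

/-! ### The letters of the word with an inserted bump -/

lemma ins_length (w : List Dir) (i : ℕ) (e : Dir) (hi : i < w.length) :
    (ins w i e).length = w.length + 2 := by
  unfold ins
  simp only [List.length_append, List.length_take, List.length_cons, List.length_drop]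
  omega

lemma split_at (w : List Dir) (i : ℕ) (hi : i < w.length) :
    w = w.take i ++ lt w i :: w.drop (i + 1) := by
  have h1 : lt w i = w[i] := by
    unfold lt
    rw [List.getD_eq_getElem?_getD, List.getElem?_eq_getElem hi]
    rfl
  rw [h1, List.getElem_cons_drop, List.take_append_drop]

lemma lt_ins_lt (w : List Dir) (i j : ℕ) (e : Dir) (hi : i < w.length) (hj : j < i) :
    lt (ins w i e) j = lt w j := by
  unfold lt ins
  rw [List.getD_eq_getElem?_getD, List.getD_eq_getElem?_getD]
  rw [List.getElem?_append_left (by rw [List.length_take]; omega), List.getElem?_take_of_lt hj]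

lemma lt_ins_ge (w : List Dir) (i k : ℕ) (e : Dir) (hi : i < w.length) :
    lt (ins w i e) (i + k) = (e :: lt w i :: opp e :: w.drop (i + 1)).getD k E := by
  conv_lhs => unfold lt ins
  rw [List.getD_eq_getElem?_getD, List.getD_eq_getElem?_getD]
  rw [List.getElem?_append_right (by rw [List.length_take]; omega)]
  congr 2
  rw [List.length_take]
  omega

lemma lt_ins_0 (w : List Dir) (i : ℕ) (e : Dir) (hi : i < w.length) :
    lt (ins w i e) i = e := by
  have := lt_ins_ge w i 0 e hi
  simpa using this

lemma lt_ins_1 (w : List Dir) (i : ℕ) (e : Dir) (hi : i < w.length) :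
    lt (ins w i e) (i + 1) = lt w i := by
  have := lt_ins_ge w i 1 e hi
  simpa using this

lemma lt_ins_2 (w : List Dir) (i : ℕ) (e : Dir) (hi : i < w.length) :
    lt (ins w i e) (i + 2) = opp e := by
  have := lt_ins_ge w i 2 e hi
  simpa using this

lemma lt_ins_gt (w : List Dir) (i j : ℕ) (e : Dir) (hi : i < w.length) (hj : i < j) :
    lt (ins w i e) (j + 2) = lt w j := by
  obtain ⟨k, rfl⟩ : ∃ k, j = i + 1 + k := ⟨j - i - 1, by omega⟩
  have h := lt_ins_ge w i (k + 3) e hi
  rw [show i + 1 + k + 2 = i + (k + 3) by ring, h]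
  simp only [List.getD_cons_succ]
  unfold lt
  rw [List.getD_eq_getElem?_getD, List.getD_eq_getElem?_getD, List.getElem?_drop]

/-! ### Number of bumps -/

lemma mem_bumps (w : List Dir) (j : ℕ) : j ∈ bumps w ↔ (j + 2 < w.length ∧
    lt w (j + 2) = opp (lt w j) ∧ perp (lt w j) (lt w (j + 1))) := by
  unfold bumps
  rw [mem_filter, mem_range]
  constructor
  · exact fun h => h.2
  · exact fun h => ⟨by omega, h⟩

lemma bumps_lt (w : List Dir) (i j : ℕ) (e : Dir) (hi : i < w.length) (hj : j + 2 < i) :
    j ∈ bumps (ins w i e) ↔ j ∈ bumps w := by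
  rw [mem_bumps, mem_bumps, ins_length w i e hi, lt_ins_lt w i j e hi (by omega),
    lt_ins_lt w i (j + 1) e hi (by omega), lt_ins_lt w i (j + 2) e hi hj]
  constructor
  · exact fun h => ⟨by omega, h.2⟩
  · exact fun h => ⟨by omega, h.2⟩

lemma bumps_gt (w : List Dir) (i j : ℕ) (e : Dir) (hi : i < w.length) (hj : i < j) :
    j + 2 ∈ bumps (ins w i e) ↔ j ∈ bumps w := by
  rw [mem_bumps, mem_bumps, ins_length w i e hi, lt_ins_gt w i j e hi hj,
    show j + 2 + 1 = (j + 1) + 2 by ring, lt_ins_gt w i (j + 1) e hi (by omega),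
    lt_ins_gt w i (j + 2) e hi (by omega)]
  constructor
  · exact fun h => ⟨by omega, h.2⟩
  · exact fun h => ⟨by omega, h.2⟩

theorem bc_ins (w : List Dir) (i : ℕ) (e : Dir) (hi : i < w.length) :
    |((bc (ins w i e) : ℤ) - (bc w : ℤ))| ≤ 5 := by
  have h1 : (bumps w).card ≤ (bumps (ins w i e)).card + 3 := by
    rw [← card_filter_add_card_filter_not (s := bumps w) (fun j => j ∈ Icc (i - 2) i)]
    have a1 : ((bumps w).filter (fun j => j ∈ Icc (i - 2) i)).card ≤ 3 := by
      calc _ ≤ (Icc (i - 2) i).card := card_le_card (fun j hj => (mem_filter.mp hj).2)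
        _ ≤ 3 := by rw [Nat.card_Icc]; omega
    have a2 : ((bumps w).filter (fun j => ¬ j ∈ Icc (i - 2) i)).card ≤ (bumps (ins w i e)).card := by
      apply card_le_card_of_injOn (fun j => if j < i then j else j + 2)
      · intro j hj
        rw [mem_coe, mem_filter, mem_Icc] at hj
        obtain ⟨hj1, hj2⟩ := hj
        simp only [mem_coe]
        split_ifs with h
        · rw [bumps_lt w i j e hi (by omega)]; exact hj1
        · rw [bumps_gt w i j e hi (by omega)]; exact hj1
      · intro j hj j' hj' hjj
        simp only at hjj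
        split_ifs at hjj <;> omega
    omega
  have h2 : (bumps (ins w i e)).card ≤ (bumps w).card + 5 := by
    rw [← card_filter_add_card_filter_not (s := bumps (ins w i e)) (fun j => j ∈ Icc (i - 2) (i + 2))]
    have a1 : ((bumps (ins w i e)).filter (fun j => j ∈ Icc (i - 2) (i + 2))).card ≤ 5 := by
      calc _ ≤ (Icc (i - 2) (i + 2)).card := card_le_card (fun j hj => (mem_filter.mp hj).2)
        _ ≤ 5 := by rw [Nat.card_Icc]; omega
    have a2 : ((bumps (ins w i e)).filter (fun j => ¬ j ∈ Icc (i - 2) (i + 2))).card ≤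
        (bumps w).card := by
      apply card_le_card_of_injOn (fun j => if j < i then j else j - 2)
      · intro j hj
        rw [mem_coe, mem_filter, mem_Icc] at hj
        obtain ⟨hj1, hj2⟩ := hj
        simp only [mem_coe]
        split_ifs with h
        · rw [bumps_lt w i j e hi (by omega)] at hj1; exact hj1
        · obtain ⟨k, rfl⟩ : ∃ k, j = k + 2 := ⟨j - 2, by omega⟩
          rw [bumps_gt w i k e hi (by omega)] at hj1
          simpa using hj1
      · intro j hj j' hj' hjj
        rw [mem_coe, mem_filter, mem_Icc] at hj hj'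
        simp only at hjj
        split_ifs at hjj <;> omega
    omega
  unfold bc
  rw [abs_le]
  constructor <;> omega

/-! ### Number of admissible insertions -/

/-- position after `j` steps -/
def PP (w : List Dir) (j : ℕ) : ℤ × ℤ := (wX (w.take j), wY (w.take j))

/-- direction as a vector -/
def dv (e : Dir) : ℤ × ℤ := (dx e, dy e)

lemma PP_inj {w : List Dir} (hw : Saw w) {j k : ℕ} (hj : j ≤ w.length) (hk : k ≤ w.length)
    (h : PP w j = PP w k) : j = k := by
  unfold PP at h
  rw [Prod.mk.injEq] at h
  have := (saw_iff_pos w).mp hw (w.take j) (w.drop j) (w.take k) (w.drop k)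
    (List.take_append_drop j w).symm (List.take_append_drop k w).symm h.1 h.2
  have h2 := congrArg List.length this
  rw [List.length_take, List.length_take] at h2
  omega

lemma PP_succ (w : List Dir) (j : ℕ) (hj : j < w.length) :
    PP w (j + 1) = PP w j + dv (lt w j) := by
  have h1 : w.take (j + 1) = w.take j ++ [lt w j] := by
    rw [List.take_succ_eq_append_getElem hj]
    unfold lt
    rw [List.getD_eq_getElem?_getD, List.getElem?_eq_getElem hj]
    rfl
  unfold PP dv
  rw [h1]
  simp

lemma mem_adm {w : List Dir} (hw : Saw w) (j : ℕ) (f : Dir) : (j, f) ∈ adm w ↔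
    (j < w.length ∧ perp f (lt w j) ∧ ¬ vis w (PP w j + dv f) ∧
      ¬ vis w (PP w j + dv f + dv (lt w j))) := by
  unfold adm
  rw [mem_filter, mem_product, mem_range]
  simp only [mem_univ, and_true]
  constructor
  · rintro ⟨h1, h2, h3⟩
    refine ⟨h1, h2, ?_⟩
    have hs := split_at w j h1
    have hw2 : Saw (w.take j ++ lt w j :: w.drop (j + 1)) := by rw [← hs]; exact hw
    have h4 := (saw_insert_iff (e := f) hw2).mp h3
    rw [← hs] at h4
    exact h4
  · rintro ⟨h1, h2, h3⟩
    refine ⟨h1, h2, ?_⟩
    have hs := split_at w j h1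
    have hw2 : Saw (w.take j ++ lt w j :: w.drop (j + 1)) := by rw [← hs]; exact hw
    refine (saw_insert_iff (e := f) hw2).mpr ?_
    rw [← hs]
    exact h3

lemma vis_ins (w : List Dir) (i : ℕ) (e : Dir) (hi : i < w.length) (p : ℤ × ℤ) :
    vis (ins w i e) p ↔ vis w p ∨ p = PP w i + dv e ∨ p = PP w i + dv e + dv (lt w i) := by
  have hs := split_at w i hi
  have h := vis_insert (a := w.take i) (b := w.drop (i + 1)) (d := lt w i) (e := e) p
  rw [← hs] at h
  unfold ins
  rw [h]
  unfold PP dv
  constructor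
  · rintro (h1 | h1 | h1)
    · exact Or.inl h1
    · right; left; exact Prod.ext h1.1.symm h1.2.symm
    · right; right; exact Prod.ext h1.1.symm h1.2.symm
  · rintro (h1 | h1 | h1)
    · exact Or.inl h1
    · right; left; rw [h1]; exact ⟨rfl, rfl⟩
    · right; right; rw [h1]; exact ⟨rfl, rfl⟩

lemma PP_ins_le (w : List Dir) (i j : ℕ) (e : Dir) (hi : i < w.length) (hj : j ≤ i) :
    PP (ins w i e) j = PP w j := by
  have : (ins w i e).take j = w.take j := by
    unfold ins
    rw [List.take_append_of_le_length (by rw [List.length_take]; omega), List.take_take]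
    congr 1
    omega
  unfold PP
  rw [this]

lemma PP_ins_gt (w : List Dir) (i j : ℕ) (e : Dir) (hi : i < w.length) (hj : i < j) :
    PP (ins w i e) (j + 2) = PP w j := by
  obtain ⟨k, rfl⟩ : ∃ k, j = i + 1 + k := ⟨j - i - 1, by omega⟩
  have hl : (w.take i).length = i := by rw [List.length_take]; omega
  have h1 : (ins w i e).take (i + 1 + k + 2) =
      w.take i ++ e :: lt w i :: opp e :: (w.drop (i + 1)).take k := by
    unfold ins
    rw [List.take_append, hl, show i + 1 + k + 2 - i = k + 3 by omega]
    simp only [List.take_succ_cons]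
    congr 1
    exact List.take_of_length_le (by rw [hl]; omega)
  have h2 : w.take (i + 1 + k) = w.take i ++ lt w i :: (w.drop (i + 1)).take k := by
    conv_lhs => rw [split_at w i hi]
    rw [List.take_append, hl, show i + 1 + k - i = k + 1 by omega]
    simp only [List.take_succ_cons]
    congr 1
    exact List.take_of_length_le (by rw [hl]; omega)
  unfold PP
  rw [h1, h2]
  simp only [wX_append, wY_append, wX_cons, wY_cons, dx_opp, dy_opp, Prod.mk.injEq]
  constructor <;> ring

/-- the shift of indices -/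
def sh (i j : ℕ) : ℕ := if j < i then j else j + 2

lemma sh_inj (i : ℕ) : Function.Injective (sh i) := by
  intro j k h
  unfold sh at h
  split_ifs at h <;> omega

lemma mem_adm_sh {w : List Dir} (hw : Saw w) (i : ℕ) (e : Dir) (hi : i < w.length)
    (hw' : Saw (ins w i e)) (j : ℕ) (hji : j ≠ i) (f : Dir) :
    (sh i j, f) ∈ adm (ins w i e) ↔ ((j, f) ∈ adm w ∧
      (PP w j + dv f ≠ PP w i + dv e ∧ PP w j + dv f ≠ PP w i + dv e + dv (lt w i)) ∧
      (PP w j + dv f + dv (lt w j) ≠ PP w i + dv e ∧
        PP w j + dv f + dv (lt w j) ≠ PP w i + dv e + dv (lt w i))) := by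
  rw [mem_adm hw', mem_adm hw, ins_length w i e hi]
  have h1 : lt (ins w i e) (sh i j) = lt w j := by
    unfold sh
    split_ifs with h
    · exact lt_ins_lt w i j e hi h
    · exact lt_ins_gt w i j e hi (by omega)
  have h2 : PP (ins w i e) (sh i j) = PP w j := by
    unfold sh
    split_ifs with h
    · exact PP_ins_le w i j e hi (by omega)
    · exact PP_ins_gt w i j e hi (by omega)
  have h3 : sh i j < w.length + 2 ↔ j < w.length := by
    unfold sh
    split_ifs with h <;> omega
  rw [h1, h2, h3, vis_ins w i e hi, vis_ins w i e hi]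
  tauto

lemma card_pos_le {w : List Dir} (hw : Saw w) (v : ℤ × ℤ) (g : ℕ → Dir → ℤ × ℤ)
    (s : Finset (ℕ × Dir)) (c : ℕ) (hc : c ≤ 1)
    (hs : ∀ p ∈ s, p.1 < w.length ∧ PP w (p.1 + c) + dv p.2 = v) : s.card ≤ 4 := by
  have h4 : (univ : Finset Dir).card = 4 := rfl
  rw [← h4]
  apply card_le_card_of_injOn (fun p => p.2) (fun p _ => mem_univ _)
  intro p hp q hq hpq
  rw [mem_coe] at hp hq
  simp only at hpq
  have h1 := hs p hp
  have h2 := hs q hq
  have h3 : PP w (p.1 + c) = PP w (q.1 + c) := by
    have := h1.2.trans h2.2.symm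
    rw [hpq] at this
    exact add_right_cancel this
  have h5 := PP_inj hw (by omega) (by omega) h3
  exact Prod.ext (by omega) hpq

theorem AA_ins (w : List Dir) (hw : Saw w) (i : ℕ) (e : Dir) (h : (i, e) ∈ adm w) :
    |((AA (ins w i e) : ℤ) - (AA w : ℤ))| ≤ 40 := by
  have h0 := h
  unfold adm at h0
  rw [mem_filter, mem_product, mem_range] at h0
  have hi : i < w.length := h0.1.1
  have hw' : Saw (ins w i e) := h0.2.2
  have h4 : (univ : Finset Dir).card = 4 := rfl
  -- upper bound
  have u1 : (adm (ins w i e)).card ≤ (adm w).card + 12 := by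
    rw [← card_filter_add_card_filter_not (s := adm (ins w i e)) (fun p => p.1 ∈ Icc i (i + 2))]
    have a1 : ((adm (ins w i e)).filter (fun p => p.1 ∈ Icc i (i + 2))).card ≤ 12 := by
      calc _ ≤ ((Icc i (i + 2)) ×ˢ (univ : Finset Dir)).card :=
            card_le_card (fun p hp => mem_product.mpr ⟨(mem_filter.mp hp).2, mem_univ _⟩)
        _ = 12 := by rw [card_product, Nat.card_Icc, h4]; omega
    have a2 : ((adm (ins w i e)).filter (fun p => ¬ p.1 ∈ Icc i (i + 2))).card ≤ (adm w).card := by
      apply card_le_card_of_injOn (fun p => (if p.1 < i then p.1 else p.1 - 2, p.2))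
      · rintro ⟨j, f⟩ hp
        rw [mem_coe, mem_filter, mem_Icc] at hp
        obtain ⟨hp1, hp2⟩ := hp
        simp only at hp2
        simp only [mem_coe]
        split_ifs with hj
        · have : sh i j = j := by unfold sh; rw [if_pos hj]
          rw [← this] at hp1
          exact ((mem_adm_sh hw i e hi hw' j (by omega) f).mp hp1).1
        · obtain ⟨k, rfl⟩ : ∃ k, j = k + 2 := ⟨j - 2, by omega⟩
          have : sh i k = k + 2 := by unfold sh; rw [if_neg (by omega)]
          rw [← this] at hp1
          simpa using ((mem_adm_sh hw i e hi hw' k (by omega) f).mp hp1).1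
      · rintro ⟨j, f⟩ hp ⟨k, g⟩ hq hpq
        rw [mem_coe, mem_filter, mem_Icc] at hp hq
        simp only [Prod.mk.injEq] at hpq hp hq ⊢
        refine ⟨?_, hpq.2⟩
        have := hpq.1
        split_ifs at this <;> omega
    omega
  -- lower bound
  have u2 : (adm w).card ≤ (adm (ins w i e)).card + 20 := by
    set v1 := PP w i + dv e with hv1
    set v2 := PP w i + dv e + dv (lt w i) with hv2
    have hsub : adm w ⊆ (((adm w).filter (fun p => p.1 = i)) ∪
        ((adm w).filter (fun p => PP w (p.1 + 0) + dv p.2 = v1)) ∪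
        ((adm w).filter (fun p => PP w (p.1 + 0) + dv p.2 = v2)) ∪
        ((adm w).filter (fun p => PP w (p.1 + 1) + dv p.2 = v1)) ∪
        ((adm w).filter (fun p => PP w (p.1 + 1) + dv p.2 = v2))) ∪
        ((adm w).filter (fun p => (sh i p.1, p.2) ∈ adm (ins w i e))) := by
      rintro ⟨j, f⟩ hp
      have hjl : j < w.length := by
        have := hp
        rw [mem_adm hw] at this
        exact this.1
      by_contra hcon
      simp only [mem_union, mem_filter, not_or, hp, true_and, add_zero] at hcon
      obtain ⟨⟨⟨⟨⟨c1, c2⟩, c3⟩, c4⟩, c5⟩, c6⟩ := hcon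
      rw [PP_succ w j hjl] at c4 c5
      apply c6
      rw [mem_adm_sh hw i e hi hw' j c1 f]
      refine ⟨hp, ⟨c2, c3⟩, ?_, ?_⟩
      · intro h'; apply c4; rw [hv1, ← h']; abel
      · intro h'; apply c5; rw [hv2, ← h']; abel
    have hlt : ∀ p ∈ adm w, p.1 < w.length := by
      rintro ⟨j, f⟩ hp
      rw [mem_adm hw] at hp
      exact hp.1
    have b1 : ((adm w).filter (fun p => p.1 = i)).card ≤ 4 := by
      rw [← h4]
      apply card_le_card_of_injOn (fun p => p.2) (fun p _ => mem_univ _)
      rintro ⟨j, f⟩ hp ⟨k, g⟩ hq hpq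
      rw [mem_coe, mem_filter] at hp hq
      simp only at hp hq hpq
      rw [hp.2, hq.2, hpq]
    have b2 : ((adm w).filter (fun p => PP w (p.1 + 0) + dv p.2 = v1)).card ≤ 4 :=
      card_pos_le hw v1 (fun _ _ => v1) _ 0 (by omega)
        (fun p hp => ⟨hlt p (mem_filter.mp hp).1, (mem_filter.mp hp).2⟩)
    have b3 : ((adm w).filter (fun p => PP w (p.1 + 0) + dv p.2 = v2)).card ≤ 4 :=
      card_pos_le hw v2 (fun _ _ => v2) _ 0 (by omega)
        (fun p hp => ⟨hlt p (mem_filter.mp hp).1, (mem_filter.mp hp).2⟩)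
    have b4 : ((adm w).filter (fun p => PP w (p.1 + 1) + dv p.2 = v1)).card ≤ 4 :=
      card_pos_le hw v1 (fun _ _ => v1) _ 1 (by omega)
        (fun p hp => ⟨hlt p (mem_filter.mp hp).1, (mem_filter.mp hp).2⟩)
    have b5 : ((adm w).filter (fun p => PP w (p.1 + 1) + dv p.2 = v2)).card ≤ 4 :=
      card_pos_le hw v2 (fun _ _ => v2) _ 1 (by omega)
        (fun p hp => ⟨hlt p (mem_filter.mp hp).1, (mem_filter.mp hp).2⟩)
    have b6 : ((adm w).filter (fun p => (sh i p.1, p.2) ∈ adm (ins w i e))).card ≤
        (adm (ins w i e)).card := by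
      apply card_le_card_of_injOn (fun p => (sh i p.1, p.2))
      · intro p hp
        rw [mem_coe, mem_filter] at hp
        exact hp.2
      · rintro ⟨j, f⟩ hp ⟨k, g⟩ hq hpq
        simp only [Prod.mk.injEq] at hpq ⊢
        exact ⟨sh_inj i hpq.1, hpq.2⟩
    have hc := card_le_card hsub
    have c1 := card_union_le (((adm w).filter (fun p => p.1 = i)) ∪
        ((adm w).filter (fun p => PP w (p.1 + 0) + dv p.2 = v1)) ∪
        ((adm w).filter (fun p => PP w (p.1 + 0) + dv p.2 = v2)) ∪
        ((adm w).filter (fun p => PP w (p.1 + 1) + dv p.2 = v1)) ∪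
        ((adm w).filter (fun p => PP w (p.1 + 1) + dv p.2 = v2)))
        ((adm w).filter (fun p => (sh i p.1, p.2) ∈ adm (ins w i e)))
    have c2 := card_union_le (((adm w).filter (fun p => p.1 = i)) ∪
        ((adm w).filter (fun p => PP w (p.1 + 0) + dv p.2 = v1)) ∪
        ((adm w).filter (fun p => PP w (p.1 + 0) + dv p.2 = v2)) ∪
        ((adm w).filter (fun p => PP w (p.1 + 1) + dv p.2 = v1)))
        ((adm w).filter (fun p => PP w (p.1 + 1) + dv p.2 = v2))
    have c3 := card_union_le (((adm w).filter (fun p => p.1 = i)) ∪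
        ((adm w).filter (fun p => PP w (p.1 + 0) + dv p.2 = v1)) ∪
        ((adm w).filter (fun p => PP w (p.1 + 0) + dv p.2 = v2)))
        ((adm w).filter (fun p => PP w (p.1 + 1) + dv p.2 = v1))
    have c4 := card_union_le (((adm w).filter (fun p => p.1 = i)) ∪
        ((adm w).filter (fun p => PP w (p.1 + 0) + dv p.2 = v1)))
        ((adm w).filter (fun p => PP w (p.1 + 0) + dv p.2 = v2))
    have c5 := card_union_le ((adm w).filter (fun p => p.1 = i))
        ((adm w).filter (fun p => PP w (p.1 + 0) + dv p.2 = v1))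
    omega
  unfold AA
  rw [abs_le]
  constructor <;> omega

end Pool.Agent.H976R2.Lip
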