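import Mathlib
import Pool.Agent.H976R2.KDefs

set_option autoImplicit false
set_option linter.unusedVariables false

namespace Pool.Agent.H976R2

open Dir Finset
open scoped Classical

lemma lt_eq {w : List Dir} {i : ℕ} (hi : i < w.length) : lt w i = w[i] := by
  unfold lt; rw [List.getD_eq_getElem?_getD, List.getElem?_eq_getElem hi]; rfl

lemma split_at {w : List Dir} {i : ℕ} (hi : i < w.length) :
    w = w.take i ++ lt w i :: w.drop (i + 1) := by
  rw [lt_eq hi, List.cons_getElem_drop_succ, List.take_append_drop]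

lemma length_ins {w : List Dir} {i : ℕ} (e : Dir) (hi : i < w.length) :
    (ins w i e).length = w.length + 2 := by
  unfold ins
  simp only [List.length_append, List.length_take, List.length_cons, List.length_drop]
  omega

lemma lt_append_left {a b : List Dir} {i : ℕ} (h : i < a.length) : lt (a ++ b) i = lt a i := by
  unfold lt; rw [List.getD_append _ _ _ _ h]

lemma lt_append_right {a b : List Dir} {i : ℕ} (h : a.length ≤ i) :
    lt (a ++ b) i = lt b (i - a.length) := by
  unfold lt; rw [List.getD_append_right _ _ _ _ h]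

@[simp] lemma lt_cons_zero (s : Dir) (w : List Dir) : lt (s :: w) 0 = s := rfl
@[simp] lemma lt_cons_succ (s : Dir) (w : List Dir) (i : ℕ) : lt (s :: w) (i + 1) = lt w i := by
  simp [lt]

lemma lt_drop (w : List Dir) (i j : ℕ) : lt (w.drop i) j = lt w (i + j) := by
  unfold lt
  rw [List.getD_eq_getElem?_getD, List.getD_eq_getElem?_getD, List.getElem?_drop]

section
variable {w : List Dir} {i : ℕ} {e : Dir}

lemma take_len (hi : i ≤ w.length) : (w.take i).length = i := by
  rw [List.length_take]; omega

lemma lt_ins_lt (hi : i < w.length) {j : ℕ} (hj : j < i) : lt (ins w i e) j = lt w j := by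
  unfold ins
  rw [lt_append_left (by rw [take_len hi.le]; exact hj)]
  conv_rhs => rw [← List.take_append_drop i w]
  rw [lt_append_left (by rw [take_len hi.le]; exact hj)]

lemma lt_ins_0 (hi : i < w.length) : lt (ins w i e) i = e := by
  unfold ins
  rw [lt_append_right (by rw [take_len hi.le]), take_len hi.le]
  simp

lemma lt_ins_1 (hi : i < w.length) : lt (ins w i e) (i + 1) = lt w i := by
  unfold ins
  rw [lt_append_right (by rw [take_len hi.le]; omega), take_len hi.le]
  have : i + 1 - i = 0 + 1 := by omega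
  rw [this]; simp

lemma lt_ins_2 (hi : i < w.length) : lt (ins w i e) (i + 2) = opp e := by
  unfold ins
  rw [lt_append_right (by rw [take_len hi.le]; omega), take_len hi.le]
  have : i + 2 - i = 0 + 1 + 1 := by omega
  rw [this]; simp

lemma lt_ins_gt (hi : i < w.length) {j : ℕ} (hj : i < j) : lt (ins w i e) (j + 2) = lt w j := by
  unfold ins
  rw [lt_append_right (by rw [take_len hi.le]; omega), take_len hi.le]
  have : j + 2 - i = (j - i - 1) + 1 + 1 + 1 := by omega
  rw [this]
  simp only [lt_cons_succ]
  rw [lt_drop]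
  congr 1; omega

lemma take_ins (hi : i < w.length) : (ins w i e).take i = w.take i := by
  unfold ins
  rw [List.take_left' (take_len hi.le)]

lemma drop_ins (hi : i < w.length) : (ins w i e).drop (i + 3) = w.drop (i + 1) := by
  unfold ins
  have : i + 3 = (w.take i).length + 3 := by rw [take_len hi.le]
  rw [this, List.drop_append]
  simp

lemma del_ins (hi : i < w.length) : del (ins w i e) i = w := by
  unfold del
  rw [take_ins hi, lt_ins_1 hi, drop_ins hi]
  exact (split_at hi).symm

lemma split3 (hi : i + 2 < w.length) :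
    w = w.take i ++ lt w i :: lt w (i + 1) :: lt w (i + 2) :: w.drop (i + 3) := by
  have h1 := split_at (w := w) (i := i) (by omega)
  have h2 : w.drop (i + 1) = lt w (i + 1) :: w.drop (i + 2) := by
    rw [lt_eq (by omega), List.cons_getElem_drop_succ]
  have h3 : w.drop (i + 2) = lt w (i + 2) :: w.drop (i + 3) := by
    rw [lt_eq (by omega), List.cons_getElem_drop_succ]
  rw [← h3, ← h2]; exact h1

lemma length_del (hi : i + 2 < w.length) : (del w i).length = w.length - 2 := by
  unfold del
  simp only [List.length_append, List.length_take, List.length_cons, List.length_drop]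
  omega

lemma lt_del (hi : i + 2 < w.length) : lt (del w i) i = lt w (i + 1) := by
  unfold del
  rw [lt_append_right (by rw [take_len (by omega)]), take_len (by omega)]
  simp

lemma take_del (hi : i + 2 < w.length) : (del w i).take i = w.take i := by
  unfold del
  rw [List.take_left' (take_len (by omega))]

lemma drop_del (hi : i + 2 < w.length) : (del w i).drop (i + 1) = w.drop (i + 3) := by
  unfold del
  have : i + 1 = (w.take i).length + 1 := by rw [take_len (by omega)]
  rw [this, List.drop_append]
  simp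

lemma ins_del (hi : i + 2 < w.length) (h : lt w (i + 2) = opp (lt w i)) :
    ins (del w i) i (lt w i) = w := by
  unfold ins
  rw [take_del hi, lt_del hi, drop_del hi, ← h]
  exact (split3 hi).symm

end

lemma mem_adm {w : List Dir} {i : ℕ} {e : Dir} :
    (i, e) ∈ adm w ↔ i < w.length ∧ perp e (lt w i) ∧ Saw (ins w i e) := by
  unfold adm
  simp [and_assoc]

lemma mem_bumps {w : List Dir} {i : ℕ} :
    i ∈ bumps w ↔ i + 2 < w.length ∧ lt w (i + 2) = opp (lt w i) ∧ perp (lt w i) (lt w (i + 1)) := by
  unfold bumps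
  simp only [mem_filter, mem_range]
  constructor
  · exact fun h => h.2
  · exact fun h => ⟨by omega, h⟩

/-- double counting of bumps -/
theorem sum_ins (n : ℕ) (G : List Dir → List Dir → ℝ) :
    ∑ w ∈ SW n, ∑ p ∈ adm w, G w (ins w p.1 p.2) =
      ∑ w' ∈ SW (n + 2), ∑ i ∈ bumps w', G (del w' i) w' := by
  rw [Finset.sum_sigma', Finset.sum_sigma']
  refine Finset.sum_nbij' (fun x => ⟨ins x.1 x.2.1 x.2.2, x.2.1⟩)
    (fun y => ⟨del y.1 y.2, (y.2, lt y.1 y.2)⟩) ?_ ?_ ?_ ?_ ?_
  · rintro ⟨w, i, e⟩ h
    simp only [mem_sigma] at h ⊢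
    obtain ⟨h1, h2⟩ := h
    obtain ⟨hlen, hsaw⟩ := mem_SW.mp h1
    obtain ⟨hi, hp, hs⟩ := mem_adm.mp h2
    refine ⟨mem_SW.mpr ⟨by rw [length_ins e hi, hlen], hs⟩, mem_bumps.mpr ⟨?_, ?_, ?_⟩⟩
    · rw [length_ins e hi]; omega
    · rw [lt_ins_2 hi, lt_ins_0 hi]
    · rw [lt_ins_0 hi, lt_ins_1 hi]; exact hp
  · rintro ⟨w, i⟩ h
    simp only [mem_sigma] at h ⊢
    obtain ⟨h1, h2⟩ := h
    obtain ⟨hlen, hsaw⟩ := mem_SW.mp h1
    obtain ⟨hi, ho, hp⟩ := mem_bumps.mp h2
    have hd : Saw (del w i) := by
      unfold del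
      have := split3 hi
      rw [ho] at this
      rw [this] at hsaw
      exact saw_delete hsaw
    refine ⟨mem_SW.mpr ⟨by rw [length_del hi, hlen]; omega, hd⟩, mem_adm.mpr ⟨?_, ?_, ?_⟩⟩
    · rw [length_del hi]; omega
    · rw [lt_del hi]; exact hp
    · rw [ins_del hi ho]; exact hsaw
  · rintro ⟨w, i, e⟩ h
    simp only [mem_sigma] at h
    obtain ⟨h1, h2⟩ := h
    obtain ⟨hi, hp, hs⟩ := mem_adm.mp h2
    simp only [del_ins hi, lt_ins_0 hi]
  · rintro ⟨w, i⟩ h
    simp only [mem_sigma] at h
    obtain ⟨h1, h2⟩ := h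
    obtain ⟨hi, ho, hp⟩ := mem_bumps.mp h2
    simp only [ins_del hi ho]
  · rintro ⟨w, i, e⟩ h
    simp only [mem_sigma] at h
    obtain ⟨h1, h2⟩ := h
    obtain ⟨hi, hp, hs⟩ := mem_adm.mp h2
    simp only [del_ins hi]

lemma wX_ins {w : List Dir} {i : ℕ} (e : Dir) (hi : i < w.length) : wX (ins w i e) = wX w := by
  conv_rhs => rw [split_at hi]
  unfold ins
  simp only [wX_append, wX_cons, dx_opp]; ring

lemma wY_ins {w : List Dir} {i : ℕ} (e : Dir) (hi : i < w.length) : wY (ins w i e) = wY w := by
  conv_rhs => rw [split_at hi]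
  unfold ins
  simp only [wY_append, wY_cons, dy_opp]; ring

lemma sq_ins {w : List Dir} {i : ℕ} (e : Dir) (hi : i < w.length) : sq (ins w i e) = sq w := by
  unfold sq; rw [wX_ins e hi, wY_ins e hi]

lemma perp_card (d : Dir) : ((univ : Finset Dir).filter (fun e => perp e d)).card ≤ 2 := by
  cases d <;> decide

lemma AA_le (w : List Dir) : AA w ≤ 2 * w.length := by
  unfold AA adm
  calc (((range w.length) ×ˢ (univ : Finset Dir)).filter
        (fun p => perp p.2 (lt w p.1) ∧ Saw (ins w p.1 p.2))).card
      ≤ ((range w.length).sigma (fun i => (univ : Finset Dir).filter (fun e => perp e (lt w i)))).card := by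
        refine Finset.card_le_card_of_injOn (fun p => ⟨p.1, p.2⟩) ?_ ?_
        · intro p hp
          simp only [coe_filter, mem_product, mem_range, mem_univ, and_true, Set.mem_setOf_eq] at hp
          simp only [coe_sigma, Set.mem_sigma_iff, mem_coe, mem_range, mem_filter, mem_univ, true_and]
          exact ⟨hp.1, hp.2.1⟩
        · intro p _ q _ h
          simp only [Sigma.mk.injEq, heq_eq_eq] at h
          exact Prod.ext h.1 h.2
    _ = ∑ i ∈ range w.length, ((univ : Finset Dir).filter (fun e => perp e (lt w i))).card := by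
        rw [card_sigma]
    _ ≤ ∑ i ∈ range w.length, 2 := Finset.sum_le_sum (fun i _ => perp_card _)
    _ = 2 * w.length := by simp [mul_comm]

end Pool.Agent.H976R2
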