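import Mathlib
import Pool.Agent.H976R2.KDefs
import Pool.Agent.H976R2.KPath

set_option autoImplicit false
set_option linter.unusedVariables false

/-! Words with few bumps are exponentially rare. -/

namespace Pool.Agent.H976R2.Few

open Pool.Agent.H976R2

open Dir Finset
open scoped Classical

namespace KFewAux

/-- there is a bump at position `i` -/
def IsBump (w : List Dir) (i : ℕ) : Prop :=
  i + 2 < w.length ∧ lt w (i + 2) = opp (lt w i) ∧ perp (lt w i) (lt w (i + 1))

lemma bc_eq (w : List Dir) : bc w = ∑ i ∈ range w.length, if IsBump w i then 1 else 0 := by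
  unfold bc bumps IsBump
  rw [Finset.card_filter]
  apply Finset.sum_congr rfl
  intro i _
  congr 1

lemma isBump_cons (s : Dir) (w : List Dir) (i : ℕ) : IsBump (s :: w) (i + 1) ↔ IsBump w i := by
  unfold IsBump lt
  simp only [List.length_cons, List.getD_cons_succ]
  constructor
  · rintro ⟨h1, h2, h3⟩
    exact ⟨by omega, h2, h3⟩
  · rintro ⟨h1, h2, h3⟩
    exact ⟨by omega, h2, h3⟩

lemma bc_cons (s : Dir) (w : List Dir) :
    bc (s :: w) = bc w + if IsBump (s :: w) 0 then 1 else 0 := by
  rw [bc_eq, bc_eq, List.length_cons, Finset.sum_range_succ']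
  simp only [isBump_cons]

lemma isBump_zero (s t r : Dir) (v : List Dir) :
    IsBump (s :: t :: r :: v) 0 ↔ r = opp s ∧ perp s t := by
  unfold IsBump lt
  simp

lemma sum_wordsN_succ (n : ℕ) (F : List Dir → ℝ) :
    ∑ w ∈ wordsN (n + 1), F w = ∑ r : Dir, ∑ v ∈ wordsN n, F (r :: v) := by
  rw [← Finset.sum_product']
  symm
  refine Finset.sum_bij (fun p _ => p.1 :: p.2) ?_ ?_ ?_ ?_
  · rintro ⟨r, v⟩ h
    rw [Finset.mem_product] at h
    rw [mem_wordsN]
    have := mem_wordsN.1 h.2
    simp only at this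
    simp [this]
  · rintro ⟨r, v⟩ _ ⟨r', v'⟩ _ h
    simp only [List.cons.injEq] at h
    exact Prod.ext h.1 h.2
  · intro w hw
    rw [mem_wordsN] at hw
    cases w with
    | nil => simp at hw
    | cons r v =>
      refine ⟨(r, v), ?_, rfl⟩
      rw [Finset.mem_product]
      refine ⟨Finset.mem_univ _, ?_⟩
      rw [mem_wordsN]
      simpa using hw
  · intros
    rfl

/-- weighted number of self-avoiding words with given first two letters -/
noncomputable def G (s t : Dir) (n : ℕ) : ℝ :=
  ∑ w ∈ wordsN n, if Saw (s :: t :: w) then (1 / 100 : ℝ) ^ bc (s :: t :: w) else 0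

noncomputable def c (s t r : Dir) : ℝ := if r = opp s ∧ perp s t then 1 / 100 else 1

noncomputable def h (s t : Dir) : ℝ := if s = t then 1.41 else 1

lemma saw_tail {s : Dir} {w : List Dir} (hw : Saw (s :: w)) : Saw w :=
  Saw.right (a := [s]) (by simpa using hw)

lemma not_saw_opp (s : Dir) (w : List Dir) : ¬ Saw (s :: opp s :: w) := by
  intro hw
  refine hw [] [s, opp s] w (by simp) (by simp) ?_
  simp only [wX_cons, wY_cons, wX_nil, wY_nil, dx_opp, dy_opp]
  constructor <;> ring

lemma G_opp (s : Dir) (n : ℕ) : G s (opp s) n = 0 := by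
  unfold G
  apply Finset.sum_eq_zero
  intro w _
  rw [if_neg (not_saw_opp s w)]

lemma c_nonneg (s t r : Dir) : 0 ≤ c s t r := by
  unfold c
  split_ifs <;> norm_num

lemma G_succ (s t : Dir) (n : ℕ) :
    G s t (n + 1) ≤ ∑ r : Dir, if r = opp t then 0 else c s t r * G t r n := by
  unfold G
  rw [sum_wordsN_succ]
  apply Finset.sum_le_sum
  intro r _
  by_cases hr : r = opp t
  · rw [if_pos hr]
    apply le_of_eq
    apply Finset.sum_eq_zero
    intro w _
    rw [if_neg]
    intro hw
    rw [hr] at hw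
    exact not_saw_opp t w (saw_tail hw)
  · rw [if_neg hr, Finset.mul_sum]
    apply Finset.sum_le_sum
    intro v _
    by_cases h1 : Saw (s :: t :: r :: v)
    · rw [if_pos h1, if_pos (saw_tail h1), bc_cons, pow_add, mul_comm]
      apply mul_le_mul_of_nonneg_right _ (by positivity)
      unfold c
      by_cases h2 : IsBump (s :: t :: r :: v) 0
      · rw [if_pos h2, if_pos ((isBump_zero s t r v).1 h2)]
        norm_num
      · rw [if_neg h2, if_neg (fun h3 => h2 ((isBump_zero s t r v).2 h3))]
        norm_num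
    · rw [if_neg h1]
      apply mul_nonneg (c_nonneg _ _ _)
      split_ifs
      · positivity
      · exact le_rfl

lemma sum_dir (F : Dir → ℝ) : ∑ r : Dir, F r = F E + F W + F N + F S := by
  have : (Finset.univ : Finset Dir) = {E, W, N, S} := rfl
  rw [this]
  rw [Finset.sum_insert (by simp), Finset.sum_insert (by simp), Finset.sum_insert (by simp),
    Finset.sum_singleton]
  ring

lemma potential (s t : Dir) (hst : t ≠ opp s) :
    (∑ r : Dir, if r = opp t then 0 else c s t r * h t r) ≤ 2.42 * h s t := by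
  rw [sum_dir]
  unfold c h
  cases s <;> cases t <;> first
    | (exfalso; exact hst rfl)
    | (simp [opp, perp, dx, dy]; norm_num)

lemma G_le (n : ℕ) : ∀ s t : Dir, G s t n ≤ h s t * (2.42 : ℝ) ^ n := by
  induction n with
  | zero =>
    intro s t
    have h0 : wordsN 0 = {[]} := by
      ext w
      rw [mem_wordsN]
      simp
    unfold G
    rw [h0, Finset.sum_singleton, pow_zero, mul_one]
    have h1 : (1 : ℝ) ≤ h s t := by
      unfold h
      split_ifs <;> norm_num
    refine le_trans ?_ h1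
    split_ifs
    · exact pow_le_one₀ (by norm_num) (by norm_num)
    · norm_num
  | succ n ih =>
    intro s t
    by_cases hst : t = opp s
    · rw [hst, G_opp]
      unfold h
      positivity
    · refine (G_succ s t n).trans ?_
      calc (∑ r : Dir, if r = opp t then 0 else c s t r * G t r n)
          ≤ ∑ r : Dir, (if r = opp t then 0 else c s t r * h t r) * (2.42 : ℝ) ^ n := by
            apply Finset.sum_le_sum
            intro r _
            split_ifs
            · simp
            · rw [mul_assoc]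
              exact mul_le_mul_of_nonneg_left (ih t r) (c_nonneg _ _ _)
        _ = (∑ r : Dir, if r = opp t then 0 else c s t r * h t r) * (2.42 : ℝ) ^ n := by
            rw [Finset.sum_mul]
        _ ≤ (2.42 * h s t) * (2.42 : ℝ) ^ n :=
            mul_le_mul_of_nonneg_right (potential s t hst) (by positivity)
        _ = h s t * (2.42 : ℝ) ^ (n + 1) := by
            rw [pow_succ]
            ring

lemma sum_SW (n : ℕ) : ∑ w ∈ SW (n + 2), (1 / 100 : ℝ) ^ bc w ≤ 23 * (2.42 : ℝ) ^ n := by
  have h1 : ∑ w ∈ SW (n + 2), (1 / 100 : ℝ) ^ bc w = ∑ s : Dir, ∑ t : Dir, G s t n := by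
    unfold SW
    rw [Finset.sum_filter, sum_wordsN_succ (n + 1)]
    apply Finset.sum_congr rfl
    intro s _
    rw [sum_wordsN_succ n]
    rfl
  rw [h1]
  have h2 : ∀ s t : Dir, G s t n ≤ 1.41 * (2.42 : ℝ) ^ n := by
    intro s t
    refine (G_le n s t).trans ?_
    apply mul_le_mul_of_nonneg_right _ (by positivity)
    unfold h
    split_ifs <;> norm_num
  calc ∑ s : Dir, ∑ t : Dir, G s t n ≤ ∑ s : Dir, ∑ t : Dir, 1.41 * (2.42 : ℝ) ^ n := by
        apply Finset.sum_le_sum
        intro s _
        apply Finset.sum_le_sum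
        intro t _
        exact h2 s t
    _ ≤ 23 * (2.42 : ℝ) ^ n := by
        simp only [sum_dir]
        have : (0 : ℝ) < (2.42 : ℝ) ^ n := by positivity
        nlinarith

lemma key_num : (100 : ℝ) ≤ (2.428 / 2.42 : ℝ) ^ 2000 := by
  have h1 : (1.068 : ℝ) ≤ (2.428 / 2.42 : ℝ) ^ 20 := by norm_num
  have h2 : (100 : ℝ) ≤ (1.068 : ℝ) ^ 100 := by norm_num
  calc (100 : ℝ) ≤ (1.068 : ℝ) ^ 100 := h2
    _ ≤ ((2.428 / 2.42 : ℝ) ^ 20) ^ 100 := pow_le_pow_left₀ (by norm_num) h1 100
    _ = (2.428 / 2.42 : ℝ) ^ 2000 := by rw [← pow_mul]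

lemma few_le (n : ℕ) : ((few (n + 2)).card : ℝ) ≤ 23 * (2.428 : ℝ) ^ (n + 2) := by
  set K : ℝ := 2.428 / 2.42 with hK
  have hK1 : 1 ≤ K := by
    rw [hK]
    norm_num
  have h1 : ∀ w ∈ few (n + 2), (1 : ℝ) ≤ K ^ (n + 2) * (1 / 100 : ℝ) ^ bc w := by
    intro w hw
    unfold few at hw
    rw [Finset.mem_filter] at hw
    have h2 : 2000 * bc w ≤ n + 2 := by
      have h3 := hw.2
      have h4 : (2000 * bc w : ℝ) < ((n + 2 : ℕ) : ℝ) := by
        rw [lt_div_iff₀ (by norm_num)] at h3
        linarith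
      have h5 : 2000 * bc w < n + 2 := by exact_mod_cast h4
      omega
    have h3 : (100 : ℝ) ^ bc w ≤ K ^ (n + 2) := by
      calc (100 : ℝ) ^ bc w ≤ (K ^ 2000) ^ bc w := pow_le_pow_left₀ (by norm_num) key_num _
        _ = K ^ (2000 * bc w) := by rw [pow_mul]
        _ ≤ K ^ (n + 2) := pow_le_pow_right₀ hK1 h2
    calc (1 : ℝ) = (100 : ℝ) ^ bc w * (1 / 100 : ℝ) ^ bc w := by
          rw [← mul_pow]
          norm_num
      _ ≤ K ^ (n + 2) * (1 / 100 : ℝ) ^ bc w :=
          mul_le_mul_of_nonneg_right h3 (by positivity)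
  calc ((few (n + 2)).card : ℝ) = ∑ w ∈ few (n + 2), (1 : ℝ) := by simp
    _ ≤ ∑ w ∈ few (n + 2), K ^ (n + 2) * (1 / 100 : ℝ) ^ bc w := Finset.sum_le_sum h1
    _ ≤ ∑ w ∈ SW (n + 2), K ^ (n + 2) * (1 / 100 : ℝ) ^ bc w := by
        apply Finset.sum_le_sum_of_subset_of_nonneg
        · unfold few
          exact Finset.filter_subset _ _
        · intros
          positivity
    _ = K ^ (n + 2) * ∑ w ∈ SW (n + 2), (1 / 100 : ℝ) ^ bc w := by rw [Finset.mul_sum]
    _ ≤ K ^ (n + 2) * (23 * (2.42 : ℝ) ^ n) :=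
        mul_le_mul_of_nonneg_left (sum_SW n) (by positivity)
    _ ≤ K ^ (n + 2) * (23 * (2.42 : ℝ) ^ (n + 2)) := by
        apply mul_le_mul_of_nonneg_left _ (by positivity)
        apply mul_le_mul_of_nonneg_left _ (by norm_num)
        exact pow_le_pow_right₀ (by norm_num) (by omega)
    _ = 23 * (2.428 : ℝ) ^ (n + 2) := by
        have : (2.428 : ℝ) = K * 2.42 := by
          rw [hK]
          norm_num
        rw [this, mul_pow]
        ring

end KFewAux

theorem few_card : ∃ C : ℝ, 0 < C ∧ ∀ n : ℕ, ((few n).card : ℝ) ≤ C * (2.428 : ℝ) ^ n := by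
  refine ⟨23 + (few 0).card + (few 1).card, by positivity, ?_⟩
  intro n
  match n with
  | 0 =>
    rw [pow_zero, mul_one]
    have : (0 : ℝ) ≤ (few 1).card := by positivity
    linarith
  | 1 =>
    have h1 : (0 : ℝ) ≤ (few 1).card := by positivity
    have h2 : (0 : ℝ) ≤ (few 0).card := by positivity
    rw [pow_one]
    nlinarith
  | (n + 2) =>
    refine (KFewAux.few_le n).trans ?_
    apply mul_le_mul_of_nonneg_right _ (by positivity)
    have h1 : (0 : ℝ) ≤ (few 1).card := by positivity
    have h2 : (0 : ℝ) ≤ (few 0).card := by positivity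
    linarith

end Pool.Agent.H976R2.Few
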