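import Mathlib
import Pool.Agent.H976R2.KDefs
import Pool.Agent.H976R2.KPath

set_option autoImplicit false
set_option linter.unusedVariables false

/-! # An elementary lower bound `c * 2.43 ^ n` for the number of self-avoiding words -/

namespace Pool.Agent.H976R2.Low

open Pool.Agent.H976R2

open Dir Finset
open scoped Classical

namespace KLow

/-- words allowed after a letter -/
inductive OK : Dir → List Dir → Prop
  | nil (s : Dir) : OK s []
  | e (s : Dir) (v : List Dir) : OK E v → OK s (E :: v)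
  | n (s : Dir) (v : List Dir) : s ≠ S → OK N v → OK s (N :: v)
  | s (s : Dir) (v : List Dir) : s ≠ N → OK S v → OK s (S :: v)
  | bu (s : Dir) (v : List Dir) : OK N v → OK s (E :: E :: N :: W :: N :: E :: v)
  | bd (s : Dir) (v : List Dir) : OK S v → OK s (E :: E :: S :: W :: S :: E :: v)

/-- all nonempty prefixes have displacement in `P` -/
def Pre (P : ℤ → ℤ → Prop) (w : List Dir) : Prop :=
  ∀ p q, w = p ++ q → p ≠ [] → P (wX p) (wY p)

lemma pre_nil (P : ℤ → ℤ → Prop) : Pre P [] := by
  intro p q h hp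
  have := List.append_eq_nil_iff.mp h.symm
  exact absurd this.1 hp

lemma pre_cons (P : ℤ → ℤ → Prop) (t : Dir) (v : List Dir) :
    Pre P (t :: v) ↔ P (dx t) (dy t) ∧ Pre (fun x y => P (dx t + x) (dy t + y)) v := by
  constructor
  · intro h
    refine ⟨?_, ?_⟩
    · have := h [t] v (by simp) (by simp)
      simpa using this
    · intro p q hpq hp
      have := h (t :: p) q (by simp [hpq]) (by simp)
      simpa using this
  · rintro ⟨h1, h2⟩ p q hpq hp
    cases p with
    | nil => exact absurd rfl hp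
    | cons a p =>
      simp only [List.cons_append, List.cons.injEq] at hpq
      obtain ⟨rfl, hv⟩ := hpq
      by_cases hp' : p = []
      · subst hp'; simpa using h1
      · have := h2 p q hv hp'
        simpa using this

lemma Pre.mono {P Q : ℤ → ℤ → Prop} {v : List Dir} (h : Pre P v) (hPQ : ∀ x y, P x y → Q x y) :
    Pre Q v := fun p q hpq hp => hPQ _ _ (h p q hpq hp)

/-- the shape of the displacements of the prefixes -/
def shp (s : Dir) (x y : ℤ) : Prop :=
  0 < x ∨ (x = 0 ∧ (s = N → 0 < y) ∧ (s = S → y < 0) ∧ y ≠ 0)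

lemma OK.pre {s : Dir} {w : List Dir} (h : OK s w) : Pre (shp s) w := by
  induction h with
  | nil s => exact pre_nil _
  | e s v _ ih =>
    rw [pre_cons]
    refine ⟨by simp [shp, dx], ih.mono ?_⟩
    intro x y hxy
    simp only [shp, dx, dy] at hxy ⊢
    left
    rcases hxy with h | h <;> omega
  | n s v hs _ ih =>
    rw [pre_cons]
    refine ⟨by simp [shp, dx, dy, hs], ih.mono ?_⟩
    intro x y hxy
    simp only [shp, dx, dy] at hxy ⊢
    rcases hxy with h | ⟨h, h1, h2⟩
    · left; omega
    · right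
      have := h1 trivial
      refine ⟨by omega, fun _ => by omega, fun h => absurd h hs, by omega⟩
  | s s v hs _ ih =>
    rw [pre_cons]
    refine ⟨by simp [shp, dx, dy, hs], ih.mono ?_⟩
    intro x y hxy
    simp only [shp, dx, dy] at hxy ⊢
    rcases hxy with h | ⟨h, h1, h2, h3⟩
    · left; omega
    · right
      have := h2 trivial
      refine ⟨by omega, fun h => absurd h hs, fun _ => by omega, by omega⟩
  | bu s v _ ih =>
    simp only [pre_cons]
    refine ⟨by simp [shp, dx, dy], by simp [shp, dx, dy], by simp [shp, dx, dy],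
      by simp [shp, dx, dy], by simp [shp, dx, dy], by simp [shp, dx, dy], ih.mono ?_⟩
    intro x y hxy
    simp only [shp, dx, dy] at hxy ⊢
    left
    rcases hxy with h | h <;> omega
  | bd s v _ ih =>
    simp only [pre_cons]
    refine ⟨by simp [shp, dx, dy], by simp [shp, dx, dy], by simp [shp, dx, dy],
      by simp [shp, dx, dy], by simp [shp, dx, dy], by simp [shp, dx, dy], ih.mono ?_⟩
    intro x y hxy
    simp only [shp, dx, dy] at hxy ⊢
    left
    rcases hxy with h | h <;> omega

/-- nonzero -/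
def nzp (x y : ℤ) : Prop := ¬ (x = 0 ∧ y = 0)

lemma saw_cons {t : Dir} {v : List Dir} (h : Pre nzp (t :: v)) (hv : Saw v) : Saw (t :: v) := by
  intro a b c habc hb
  cases a with
  | nil => exact h b c (by simpa using habc) hb
  | cons x a =>
    simp only [List.cons_append, List.cons.injEq] at habc
    exact hv a b c habc.2 hb

lemma saw_nil : Saw [] := by
  intro a b c h hb
  have h1 := List.append_eq_nil_iff.mp h.symm
  have h2 := List.append_eq_nil_iff.mp h1.1
  exact absurd h2.2 hb

lemma shp_nzp {s : Dir} {x y : ℤ} (h : shp s x y) : nzp x y := by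
  rintro ⟨hx, hy⟩
  rcases h with h | ⟨_, _, _, h⟩ <;> omega

lemma OK.saw {s : Dir} {w : List Dir} (h : OK s w) : Saw w := by
  have hpre := h.pre
  induction h with
  | nil s => exact saw_nil
  | e s v hv ih => exact saw_cons (hpre.mono fun _ _ h => shp_nzp h) (ih hv.pre)
  | n s v _ hv ih => exact saw_cons (hpre.mono fun _ _ h => shp_nzp h) (ih hv.pre)
  | s s v _ hv ih => exact saw_cons (hpre.mono fun _ _ h => shp_nzp h) (ih hv.pre)
  | bu s v hv ih =>
    refine saw_cons (hpre.mono fun _ _ h => shp_nzp h) (saw_cons ?_ (saw_cons ?_ (saw_cons ?_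
      (saw_cons ?_ (saw_cons ?_ (ih hv.pre)))))) <;>
    · simp only [pre_cons, nzp, dx, dy]
      norm_num
      refine hv.pre.mono ?_
      intro x y hxy
      simp [shp] at hxy
      omega
  | bd s v hv ih =>
    refine saw_cons (hpre.mono fun _ _ h => shp_nzp h) (saw_cons ?_ (saw_cons ?_ (saw_cons ?_
      (saw_cons ?_ (saw_cons ?_ (ih hv.pre)))))) <;>
    · simp only [pre_cons, nzp, dx, dy]
      norm_num
      refine hv.pre.mono ?_
      intro x y hxy
      simp [shp] at hxy
      omega

/-- the self-avoiding words of length `n` allowed after `s` -/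
noncomputable def AL (s : Dir) (n : ℕ) : Finset (List Dir) := (SW n).filter (fun w => OK s w)

lemma mem_AL {s : Dir} {n : ℕ} {w : List Dir} : w ∈ AL s n ↔ w.length = n ∧ OK s w := by
  unfold AL
  rw [mem_filter, mem_SW]
  exact ⟨fun h => ⟨h.1.1, h.2⟩, fun h => ⟨⟨h.1, h.2.saw⟩, h.2⟩⟩

/-- prepend a block -/
noncomputable def prep (b : List Dir) (F : Finset (List Dir)) : Finset (List Dir) :=
  F.image (fun v => b ++ v)

lemma card_prep (b : List Dir) (F : Finset (List Dir)) : (prep b F).card = F.card :=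
  card_image_of_injective _ (fun v w h => by simpa using h)

lemma mem_prep {b : List Dir} {F : Finset (List Dir)} {w : List Dir} :
    w ∈ prep b F ↔ ∃ v ∈ F, b ++ v = w := by simp [prep]

lemma not_ok_W {s : Dir} {v : List Dir} : ¬ OK s (W :: v) := by
  intro h; cases h

lemma not_ok_block {s a : Dir} {v : List Dir} : ¬ OK s (E :: a :: W :: v) := by
  intro h
  cases h with
  | e _ _ h =>
    cases h with
    | e _ _ h => exact not_ok_W h
    | n _ _ _ h => exact not_ok_W h
    | s _ _ _ h => exact not_ok_W h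

lemma disj_block (a t : Dir) (l : List Dir) (n m : ℕ) (s : Dir) :
    Disjoint (prep [E] (AL E n)) (prep (E :: E :: a :: W :: l) (AL s m)) := by
  rw [Finset.disjoint_left]
  intro w h1 h2
  obtain ⟨v, hv, rfl⟩ := mem_prep.mp h1
  obtain ⟨u, hu, h⟩ := mem_prep.mp h2
  simp only [List.cons_append, List.nil_append, List.cons.injEq, true_and] at h
  rw [← h] at hv
  exact not_ok_block (mem_AL.mp hv).2

lemma disj_head {a b : Dir} (hab : a ≠ b) (l l' : List Dir) (F G : Finset (List Dir)) :
    Disjoint (prep (a :: l) F) (prep (b :: l') G) := by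
  rw [Finset.disjoint_left]
  intro w h1 h2
  obtain ⟨v, hv, rfl⟩ := mem_prep.mp h1
  obtain ⟨u, hu, h⟩ := mem_prep.mp h2
  simp only [List.cons_append, List.cons.injEq] at h
  exact hab h.1.symm

lemma disj_third {a b c d : Dir} {e f : Dir} (hab : a ≠ b) (l l' : List Dir)
    (F G : Finset (List Dir)) :
    Disjoint (prep (c :: d :: a :: l) F) (prep (c :: d :: b :: l') G) := by
  rw [Finset.disjoint_left]
  intro w h1 h2
  obtain ⟨v, hv, rfl⟩ := mem_prep.mp h1
  obtain ⟨u, hu, h⟩ := mem_prep.mp h2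
  simp only [List.cons_append, List.cons.injEq] at h
  exact hab h.2.2.1.symm

/-- the common part of the three recursions -/
noncomputable def CP (n : ℕ) : Finset (List Dir) :=
  prep [E] (AL E (n + 5)) ∪ (prep [E, E, N, W, N, E] (AL N n) ∪ prep [E, E, S, W, S, E] (AL S n))

lemma card_CP (n : ℕ) : (CP n).card = (AL E (n + 5)).card + (AL N n).card + (AL S n).card := by
  unfold CP
  rw [card_union_of_disjoint, card_union_of_disjoint, card_prep, card_prep, card_prep, add_assoc]
  · exact disj_third (e := E) (f := E) (by decide) _ _ _ _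
  · rw [Finset.disjoint_union_right]
    exact ⟨disj_block _ E _ _ _ _, disj_block _ E _ _ _ _⟩

lemma CP_sub (s : Dir) (n : ℕ) : CP n ⊆ AL s (n + 6) := by
  intro w hw
  unfold CP at hw
  rw [mem_union, mem_union] at hw
  rw [mem_AL]
  rcases hw with h | h | h <;> obtain ⟨v, hv, rfl⟩ := mem_prep.mp h <;> rw [mem_AL] at hv
  · refine ⟨by simp [hv.1], OK.e _ _ hv.2⟩
  · refine ⟨by simp [hv.1], OK.bu _ _ hv.2⟩
  · refine ⟨by simp [hv.1], OK.bd _ _ hv.2⟩

lemma CP_head {n : ℕ} {w : List Dir} (hw : w ∈ CP n) : ∃ v, w = E :: v := by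
  unfold CP at hw
  rw [mem_union, mem_union] at hw
  rcases hw with h | h | h <;> obtain ⟨v, hv, rfl⟩ := mem_prep.mp h <;> exact ⟨_, rfl⟩

lemma disj_CP {a : Dir} (ha : a ≠ E) (l : List Dir) (n : ℕ) (F : Finset (List Dir)) :
    Disjoint (CP n) (prep (a :: l) F) := by
  rw [Finset.disjoint_left]
  intro w h1 h2
  obtain ⟨u, hu, h⟩ := mem_prep.mp h2
  obtain ⟨v, hv⟩ := CP_head h1
  rw [hv] at h
  simp only [List.cons_append, List.cons.injEq] at h
  exact ha h.1

lemma recE (n : ℕ) : (AL E (n + 5)).card + (AL N (n + 5)).card + (AL S (n + 5)).card +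
    (AL N n).card + (AL S n).card ≤ (AL E (n + 6)).card := by
  have h : CP n ∪ (prep [N] (AL N (n + 5)) ∪ prep [S] (AL S (n + 5))) ⊆ AL E (n + 6) := by
    refine union_subset (CP_sub _ _) (union_subset ?_ ?_)
    · intro w hw
      obtain ⟨v, hv, rfl⟩ := mem_prep.mp hw
      rw [mem_AL] at hv ⊢
      exact ⟨by simp [hv.1], OK.n _ _ (by decide) hv.2⟩
    · intro w hw
      obtain ⟨v, hv, rfl⟩ := mem_prep.mp hw
      rw [mem_AL] at hv ⊢
      exact ⟨by simp [hv.1], OK.s _ _ (by decide) hv.2⟩
  have h2 := card_le_card h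
  rw [card_union_of_disjoint, card_union_of_disjoint, card_prep, card_prep, card_CP] at h2
  · omega
  · exact disj_head (by decide) _ _ _ _
  · rw [Finset.disjoint_union_right]
    exact ⟨disj_CP (by decide) _ _ _, disj_CP (by decide) _ _ _⟩

lemma recN (n : ℕ) : (AL E (n + 5)).card + (AL N (n + 5)).card +
    (AL N n).card + (AL S n).card ≤ (AL N (n + 6)).card := by
  have h : CP n ∪ prep [N] (AL N (n + 5)) ⊆ AL N (n + 6) := by
    refine union_subset (CP_sub _ _) ?_
    intro w hw
    obtain ⟨v, hv, rfl⟩ := mem_prep.mp hw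
    rw [mem_AL] at hv ⊢
    exact ⟨by simp [hv.1], OK.n _ _ (by decide) hv.2⟩
  have h2 := card_le_card h
  rw [card_union_of_disjoint, card_prep, card_CP] at h2
  · omega
  · exact disj_CP (by decide) _ _ _

lemma recS (n : ℕ) : (AL E (n + 5)).card + (AL S (n + 5)).card +
    (AL N n).card + (AL S n).card ≤ (AL S (n + 6)).card := by
  have h : CP n ∪ prep [S] (AL S (n + 5)) ⊆ AL S (n + 6) := by
    refine union_subset (CP_sub _ _) ?_
    intro w hw
    obtain ⟨v, hv, rfl⟩ := mem_prep.mp hw
    rw [mem_AL] at hv ⊢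
    exact ⟨by simp [hv.1], OK.s _ _ (by decide) hv.2⟩
  have h2 := card_le_card h
  rw [card_union_of_disjoint, card_prep, card_CP] at h2
  · omega
  · exact disj_CP (by decide) _ _ _

lemma one_le_AL (s : Dir) (n : ℕ) : 1 ≤ (AL s n).card := by
  have hrep : ∀ n (s : Dir), OK s (List.replicate n E) := by
    intro n
    induction n with
    | zero => intro s; exact OK.nil s
    | succ n ih => intro s; rw [List.replicate_succ]; exact OK.e _ _ (ih E)
  exact Finset.card_pos.mpr ⟨List.replicate n E, mem_AL.mpr ⟨by simp, hrep n s⟩⟩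

lemma low (n : ℕ) :
    (1.41 * (2.43 : ℝ) ^ n ≤ 200 * ((AL E n).card : ℝ)) ∧
    ((2.43 : ℝ) ^ n ≤ 200 * ((AL N n).card : ℝ)) ∧
    ((2.43 : ℝ) ^ n ≤ 200 * ((AL S n).card : ℝ)) := by
  induction n using Nat.strong_induction_on with
  | _ n ih =>
    by_cases hn : n < 6
    · have h1 : (1 : ℝ) ≤ ((AL E n).card : ℝ) := by exact_mod_cast one_le_AL E n
      have h2 : (1 : ℝ) ≤ ((AL N n).card : ℝ) := by exact_mod_cast one_le_AL N n
      have h3 : (1 : ℝ) ≤ ((AL S n).card : ℝ) := by exact_mod_cast one_le_AL S n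
      have h4 : (2.43 : ℝ) ^ n ≤ 100 := by
        interval_cases n <;> norm_num
      refine ⟨by linarith, by linarith, by linarith⟩
    · obtain ⟨m, rfl⟩ : ∃ m, n = m + 6 := ⟨n - 6, by omega⟩
      obtain ⟨a1, a2, a3⟩ := ih (m + 5) (by omega)
      obtain ⟨b1, b2, b3⟩ := ih m (by omega)
      have e1 : ((AL E (m + 5)).card : ℝ) + (AL N (m + 5)).card + (AL S (m + 5)).card +
        (AL N m).card + (AL S m).card ≤ (AL E (m + 6)).card := by exact_mod_cast recE m
      have e2 : ((AL E (m + 5)).card : ℝ) + (AL N (m + 5)).card +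
        (AL N m).card + (AL S m).card ≤ (AL N (m + 6)).card := by exact_mod_cast recN m
      have e3 : ((AL E (m + 5)).card : ℝ) + (AL S (m + 5)).card +
        (AL N m).card + (AL S m).card ≤ (AL S (m + 6)).card := by exact_mod_cast recS m
      have hp : (0 : ℝ) < (2.43 : ℝ) ^ m := by positivity
      have k5 : (2.43 : ℝ) ^ (m + 5) = (2.43 : ℝ) ^ m * (2.43 : ℝ) ^ 5 := pow_add _ _ _
      have k6 : (2.43 : ℝ) ^ (m + 6) = (2.43 : ℝ) ^ m * (2.43 : ℝ) ^ 6 := pow_add _ _ _
      rw [k5] at a1 a2 a3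
      rw [k6]
      norm_num at a1 a2 a3 b1 b2 b3 hp ⊢
      refine ⟨by linarith, by linarith, by linarith⟩

end KLow

theorem SW_card_lower : ∃ c : ℝ, 0 < c ∧ ∀ n : ℕ, c * (2.43 : ℝ) ^ n ≤ ((SW n).card : ℝ) := by
  refine ⟨1 / 200, by norm_num, fun n => ?_⟩
  have h := (KLow.low n).2.1
  have h2 : ((KLow.AL N n).card : ℝ) ≤ ((SW n).card : ℝ) := by
    exact_mod_cast card_le_card (filter_subset _ _)
  linarith

end Pool.Agent.H976R2.Low
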