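import Mathlib
import Pool.Agent.H976R2.KDouble
import Pool.Agent.H976R2.KLip
import Pool.Agent.H976R2.KFew
import Pool.Agent.H976R2.KLow

set_option autoImplicit false
set_option linter.unusedVariables false

namespace Pool.Agent.H976R2

open Dir Finset
open scoped Classical

lemma bt_ge (w : List Dir) : (w.length : ℝ) / 2000 ≤ bt w := le_max_right _ _
lemma bc_le_bt (w : List Dir) : (bc w : ℝ) ≤ bt w := le_max_left _ _

lemma bt_pos {w : List Dir} (h : 1 ≤ w.length) : 0 < bt w := by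
  have h1 := bt_ge w
  have h2 : (1 : ℝ) ≤ w.length := by exact_mod_cast h
  linarith

lemma inv_bt_le {w : List Dir} (h : 1 ≤ w.length) : 1 / bt w ≤ 2000 / (w.length : ℝ) := by
  have h1 := bt_ge w
  have h2 : (1 : ℝ) ≤ w.length := by exact_mod_cast h
  rw [div_le_div_iff₀ (bt_pos h) (by linarith)]
  linarith

lemma RR_nonneg (w : List Dir) : 0 ≤ RR w := by
  unfold RR
  have : (0 : ℝ) ≤ bt w := le_trans (by positivity) (bt_ge w)
  positivity

lemma RR_le {w : List Dir} (h : 1 ≤ w.length) : RR w ≤ 4000 := by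
  unfold RR
  rw [div_le_iff₀ (bt_pos h)]
  have h1 : (AA w : ℝ) ≤ 2 * w.length := by exact_mod_cast AA_le w
  have h2 := bt_ge w
  linarith

lemma bt_ins {w : List Dir} {i : ℕ} (e : Dir) (hi : i < w.length) :
    |bt (ins w i e) - bt w| ≤ 5 := by
  unfold bt
  rw [length_ins e hi]
  have h := Lip.bc_ins w i e hi
  have h' : |((bc (ins w i e) : ℝ) - (bc w : ℝ))| ≤ 5 := by exact_mod_cast h
  refine (abs_max_sub_max_le_max _ _ _ _).trans (max_le h' ?_)
  push_cast
  have : ((w.length : ℝ) + 2) / 2000 - (w.length : ℝ) / 2000 = 1 / 1000 := by ring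
  rw [this]; norm_num

lemma inv_bt_ins {w : List Dir} {i : ℕ} (e : Dir) (hi : i < w.length) :
    |1 / bt (ins w i e) - 1 / bt w| ≤ 20000000 / (w.length : ℝ) ^ 2 := by
  have hl : 1 ≤ w.length := by omega
  have hl' : 1 ≤ (ins w i e).length := by rw [length_ins e hi]; omega
  have p1 := bt_pos hl
  have p2 := bt_pos hl'
  have h2 : (1 : ℝ) ≤ w.length := by exact_mod_cast hl
  have e1 : 1 / bt (ins w i e) - 1 / bt w = (bt w - bt (ins w i e)) * (1 / bt (ins w i e)) * (1 / bt w) := by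
    field_simp
  rw [e1, abs_mul, abs_mul, abs_of_pos (show 0 < 1 / bt (ins w i e) by positivity),
    abs_of_pos (show 0 < 1 / bt w by positivity), abs_sub_comm]
  have h3 := bt_ins e hi
  have h4 := inv_bt_le hl
  have h5 : 1 / bt (ins w i e) ≤ 2000 / (w.length : ℝ) := by
    refine (inv_bt_le hl').trans ?_
    rw [length_ins e hi]
    gcongr
    push_cast; linarith
  calc |bt (ins w i e) - bt w| * (1 / bt (ins w i e)) * (1 / bt w)
      ≤ 5 * (2000 / (w.length : ℝ)) * (2000 / (w.length : ℝ)) := by gcongr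
    _ = 20000000 / (w.length : ℝ) ^ 2 := by field_simp; norm_num

lemma RR_ins {w : List Dir} (hw : Saw w) {i : ℕ} {e : Dir} (h : (i, e) ∈ adm w) :
    |RR (ins w i e) - RR w| ≤ 50000000 / (w.length : ℝ) := by
  have hi := (mem_adm.mp h).1
  have hl : 1 ≤ w.length := by omega
  have hl' : 1 ≤ (ins w i e).length := by rw [length_ins e hi]; omega
  have p1 := bt_pos hl
  have p2 := bt_pos hl'
  have h2 : (1 : ℝ) ≤ w.length := by exact_mod_cast hl
  have e1 : RR (ins w i e) - RR w = ((AA (ins w i e) : ℝ) - AA w) * (1 / bt (ins w i e)) +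
      (AA w : ℝ) * (1 / bt (ins w i e) - 1 / bt w) := by
    unfold RR; ring
  have h3 : |((AA (ins w i e) : ℝ) - AA w)| ≤ 40 := by exact_mod_cast Lip.AA_ins w hw i e h
  have h4 := inv_bt_ins e hi
  have h5 : 1 / bt (ins w i e) ≤ 2000 / (w.length : ℝ) := by
    refine (inv_bt_le hl').trans ?_
    rw [length_ins e hi]
    gcongr
    push_cast; linarith
  have h6 : (AA w : ℝ) ≤ 2 * w.length := by exact_mod_cast AA_le w
  rw [e1]
  calc |((AA (ins w i e) : ℝ) - AA w) * (1 / bt (ins w i e)) +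
      (AA w : ℝ) * (1 / bt (ins w i e) - 1 / bt w)|
      ≤ |((AA (ins w i e) : ℝ) - AA w)| * (1 / bt (ins w i e)) +
        (AA w : ℝ) * |1 / bt (ins w i e) - 1 / bt w| := by
        refine (abs_add_le _ _).trans ?_
        rw [abs_mul, abs_mul, abs_of_pos (show 0 < 1 / bt (ins w i e) by positivity),
          abs_of_nonneg (show (0 : ℝ) ≤ AA w by positivity)]
    _ ≤ 40 * (2000 / (w.length : ℝ)) + 2 * w.length * (20000000 / (w.length : ℝ) ^ 2) := by
        gcongr
    _ ≤ 50000000 / (w.length : ℝ) := by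
        rw [show 40 * (2000 / (w.length : ℝ)) + 2 * w.length * (20000000 / (w.length : ℝ) ^ 2)
          = 40080000 / (w.length : ℝ) by field_simp; norm_num]
        gcongr
        norm_num

/-- the transfer lemma -/
theorem transfer (n : ℕ) (hn : 1 ≤ n) (F F' Δ : List Dir → ℝ) (hΔ0 : ∀ w ∈ SW n, 0 ≤ Δ w)
    (hΔ : ∀ w ∈ SW n, ∀ p ∈ adm w, |F' (ins w p.1 p.2) - F w| ≤ Δ w) :
    |∑ w' ∈ SW (n + 2), F' w' - ∑ w ∈ SW n, F w * RR w| ≤
      ∑ w ∈ SW n, (4000 * Δ w + 50000000 / (n : ℝ) * |F w|) + ∑ w' ∈ few (n + 2), |F' w'| := by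
  have hn' : (1 : ℝ) ≤ n := by exact_mod_cast hn
  -- the part with many bumps
  have e1 : ∑ w' ∈ SW (n + 2), F' w' * ((bc w' : ℝ) / bt w') =
      ∑ w ∈ SW n, ∑ p ∈ adm w, F' (ins w p.1 p.2) * (1 / bt (ins w p.1 p.2)) := by
    rw [sum_ins n (fun _ w' => F' w' * (1 / bt w'))]
    refine Finset.sum_congr rfl (fun w' _ => ?_)
    rw [Finset.sum_const, nsmul_eq_mul]
    unfold bc; ring
  have e2 : ∑ w ∈ SW n, F w * RR w = ∑ w ∈ SW n, ∑ p ∈ adm w, F w * (1 / bt w) := by
    refine Finset.sum_congr rfl (fun w _ => ?_)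
    rw [Finset.sum_const, nsmul_eq_mul]
    unfold RR AA; ring
  have h1 : |∑ w' ∈ SW (n + 2), F' w' * ((bc w' : ℝ) / bt w') - ∑ w ∈ SW n, F w * RR w| ≤
      ∑ w ∈ SW n, (4000 * Δ w + 50000000 / (n : ℝ) * |F w|) := by
    rw [e1, e2, ← Finset.sum_sub_distrib]
    refine (Finset.abs_sum_le_sum_abs _ _).trans (Finset.sum_le_sum (fun w hw => ?_))
    obtain ⟨hlen, hsaw⟩ := mem_SW.mp hw
    rw [← Finset.sum_sub_distrib]
    refine (Finset.abs_sum_le_sum_abs _ _).trans ?_
    have hD := hΔ0 w hw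
    calc ∑ p ∈ adm w, |F' (ins w p.1 p.2) * (1 / bt (ins w p.1 p.2)) - F w * (1 / bt w)|
        ≤ ∑ p ∈ adm w, (Δ w * (2000 / n) + |F w| * (20000000 / (n : ℝ) ^ 2)) := by
          refine Finset.sum_le_sum (fun p hp => ?_)
          obtain ⟨i, e⟩ := p
          have hi := (mem_adm.mp hp).1
          have hl' : 1 ≤ (ins w i e).length := by rw [length_ins e hi]; omega
          have p2 := bt_pos hl'
          have h3 := hΔ w hw (i, e) hp
          have h4 := inv_bt_ins e hi
          have h5 : 1 / bt (ins w i e) ≤ 2000 / (n : ℝ) := by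
            refine (inv_bt_le hl').trans ?_
            rw [length_ins e hi, hlen]
            gcongr
            push_cast; linarith
          rw [hlen] at h4
          simp only at h3 ⊢
          have e3 : F' (ins w i e) * (1 / bt (ins w i e)) - F w * (1 / bt w) =
              (F' (ins w i e) - F w) * (1 / bt (ins w i e)) +
              F w * (1 / bt (ins w i e) - 1 / bt w) := by ring
          rw [e3]
          refine (abs_add_le _ _).trans ?_
          rw [abs_mul, abs_mul, abs_of_pos (show 0 < 1 / bt (ins w i e) by positivity)]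
          gcongr
      _ = (AA w : ℝ) * (Δ w * (2000 / n) + |F w| * (20000000 / (n : ℝ) ^ 2)) := by
          rw [Finset.sum_const, nsmul_eq_mul]; rfl
      _ ≤ (2 * n) * (Δ w * (2000 / n) + |F w| * (20000000 / (n : ℝ) ^ 2)) := by
          have h6 : (AA w : ℝ) ≤ 2 * w.length := by exact_mod_cast AA_le w
          rw [hlen] at h6
          have : 0 ≤ Δ w * (2000 / n) + |F w| * (20000000 / (n : ℝ) ^ 2) := by positivity
          exact mul_le_mul_of_nonneg_right h6 this
      _ = 4000 * Δ w + 40000000 / (n : ℝ) * |F w| := by field_simp; ring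
      _ ≤ 4000 * Δ w + 50000000 / (n : ℝ) * |F w| := by gcongr; norm_num
  -- the part with few bumps
  have h2 : |∑ w' ∈ SW (n + 2), F' w' - ∑ w' ∈ SW (n + 2), F' w' * ((bc w' : ℝ) / bt w')| ≤
      ∑ w' ∈ few (n + 2), |F' w'| := by
    rw [← Finset.sum_sub_distrib]
    refine (Finset.abs_sum_le_sum_abs _ _).trans ?_
    unfold few
    rw [Finset.sum_filter]
    refine Finset.sum_le_sum (fun w' hw' => ?_)
    obtain ⟨hlen, hsaw⟩ := mem_SW.mp hw'
    have p2 := bt_pos (w := w') (by omega)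
    split_ifs with hc
    · have e3 : F' w' - F' w' * ((bc w' : ℝ) / bt w') = F' w' * (1 - (bc w' : ℝ) / bt w') := by ring
      rw [e3, abs_mul]
      have h3 : (bc w' : ℝ) / bt w' ≤ 1 := by
        rw [div_le_one p2]; exact bc_le_bt w'
      have h4 : 0 ≤ (bc w' : ℝ) / bt w' := by positivity
      have h5 : |1 - (bc w' : ℝ) / bt w'| ≤ 1 := by rw [abs_le]; constructor <;> linarith
      calc |F' w'| * |1 - (bc w' : ℝ) / bt w'| ≤ |F' w'| * 1 := by gcongr
        _ = |F' w'| := mul_one _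
    · push Not at hc
      have h3 : bt w' = bc w' := by
        unfold bt; rw [hlen]; exact max_eq_left hc
      rw [h3]
      have h4 : (0 : ℝ) < bc w' := by rw [← h3]; exact p2
      rw [div_self h4.ne', mul_one, sub_self, abs_zero]
  calc |∑ w' ∈ SW (n + 2), F' w' - ∑ w ∈ SW n, F w * RR w|
      ≤ |∑ w' ∈ SW (n + 2), F' w' - ∑ w' ∈ SW (n + 2), F' w' * ((bc w' : ℝ) / bt w')| +
        |∑ w' ∈ SW (n + 2), F' w' * ((bc w' : ℝ) / bt w') - ∑ w ∈ SW n, F w * RR w| :=
        abs_sub_le _ _ _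
    _ ≤ _ := by linarith

end Pool.Agent.H976R2
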