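import Mathlib
import Pool.Agent.H976R2.KTransfer

set_option autoImplicit false
set_option linter.unusedVariables false

namespace Pool.Agent.H976R2

open Dir Finset
open scoped Classical

/-- weights: nonnegative, invariant under insertion of bumps, at least one and of quadratic growth -/
structure Good (φ : List Dir → ℝ) : Prop where
  inv : ∀ (w : List Dir) (i : ℕ) (e : Dir), i < w.length → φ (ins w i e) = φ w
  one_le : ∀ w : List Dir, Saw w → 1 ≤ w.length → 1 ≤ φ w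
  le : ∀ w : List Dir, φ w ≤ ((w.length : ℝ) + 1) ^ 2

lemma good_one : Good (fun _ => 1) where
  inv := fun _ _ _ _ => rfl
  one_le := fun _ _ _ => le_rfl
  le := fun w => by
    have : (0 : ℝ) ≤ w.length := by positivity
    nlinarith

lemma abs_wX_wY_le : ∀ w : List Dir, |wX w| + |wY w| ≤ w.length
  | [] => by simp
  | s :: w => by
    have ih := abs_wX_wY_le w
    simp only [wX_cons, wY_cons, List.length_cons, Nat.cast_add, Nat.cast_one]
    have h1 := abs_add_le (dx s) (wX w)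
    have h2 := abs_add_le (dy s) (wY w)
    have h3 : |dx s| + |dy s| = 1 := by cases s <;> simp [dx, dy]
    linarith

lemma sq_le (w : List Dir) : sq w ≤ (w.length : ℝ) ^ 2 := by
  have h := abs_wX_wY_le w
  have h' : |(wX w : ℝ)| + |(wY w : ℝ)| ≤ w.length := by exact_mod_cast h
  unfold sq
  rw [← sq_abs (wX w : ℝ), ← sq_abs (wY w : ℝ)]
  nlinarith [abs_nonneg (wX w : ℝ), abs_nonneg (wY w : ℝ)]

lemma good_sq : Good sq where
  inv := fun w i e hi => sq_ins e hi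
  one_le := fun w hw hl => by
    have h1 : ¬ (wX w = 0 ∧ wY w = 0) := hw [] w [] (by simp) (by
      intro h; rw [h] at hl; simp at hl)
    have h2 : (1 : ℤ) ≤ wX w ^ 2 + wY w ^ 2 := by
      by_contra hcon
      push Not at hcon
      have : wX w ^ 2 + wY w ^ 2 = 0 := by
        have := sq_nonneg (wX w)
        have := sq_nonneg (wY w)
        omega
      have h3 : wX w ^ 2 = 0 := by nlinarith [sq_nonneg (wX w), sq_nonneg (wY w)]
      have h4 : wY w ^ 2 = 0 := by nlinarith [sq_nonneg (wX w), sq_nonneg (wY w)]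
      exact h1 ⟨by simpa using h3, by simpa using h4⟩
    unfold sq
    exact_mod_cast h2
  le := fun w => (sq_le w).trans (by
    have : (0 : ℝ) ≤ w.length := by positivity
    nlinarith)

/-- total weight -/
noncomputable def mom (φ : List Dir → ℝ) (n : ℕ) : ℝ := ∑ w ∈ SW n, φ w

lemma SW_card_pos (n : ℕ) : (0 : ℝ) < (SW n).card := by
  obtain ⟨c, hc, h⟩ := Low.SW_card_lower
  have := h n
  have h2 : 0 < c * (2.43 : ℝ) ^ n := by positivity
  linarith

lemma card_le_mom {φ : List Dir → ℝ} (hφ : Good φ) {n : ℕ} (hn : 1 ≤ n) :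
    ((SW n).card : ℝ) ≤ mom φ n := by
  unfold mom
  rw [show ((SW n).card : ℝ) = ∑ w ∈ SW n, (1 : ℝ) by simp]
  refine Finset.sum_le_sum (fun w hw => ?_)
  obtain ⟨hlen, hsaw⟩ := mem_SW.mp hw
  exact hφ.one_le w hsaw (by omega)

lemma mom_pos {φ : List Dir → ℝ} (hφ : Good φ) {n : ℕ} (hn : 1 ≤ n) : 0 < mom φ n :=
  lt_of_lt_of_le (SW_card_pos n) (card_le_mom hφ hn)

lemma nonneg_of_good {φ : List Dir → ℝ} (hφ : Good φ) {n : ℕ} (hn : 1 ≤ n) {w : List Dir}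
    (hw : w ∈ SW n) : 0 ≤ φ w := by
  obtain ⟨hlen, hsaw⟩ := mem_SW.mp hw
  have := hφ.one_le w hsaw (by omega)
  linarith

/-- words with few bumps are negligible -/
theorem few_small : ∃ D : ℝ, 0 < D ∧ ∀ n : ℕ, 1 ≤ n →
    ((n : ℝ) + 3) ^ 2 * ((few (n + 2)).card : ℝ) ≤ D / n * ((SW n).card : ℝ) := by
  obtain ⟨C, hC, h1⟩ := Few.few_card
  obtain ⟨c, hc, h2⟩ := Low.SW_card_lower
  -- n (n+3)^2 r^n is bounded, r = 2.428/2.43
  have hr0 : (0 : ℝ) < 2.428 / 2.43 := by norm_num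
  have hr1 : (2.428 / 2.43 : ℝ) < 1 := by norm_num
  have ht : Filter.Tendsto (fun n : ℕ => (n : ℝ) ^ 3 * (2.428 / 2.43 : ℝ) ^ n) Filter.atTop (nhds 0) :=
    tendsto_pow_const_mul_const_pow_of_lt_one 3 hr0.le hr1
  obtain ⟨B, hB⟩ := ht.bddAbove_range
  have hB' : ∀ n : ℕ, (n : ℝ) ^ 3 * (2.428 / 2.43 : ℝ) ^ n ≤ B := fun n => hB ⟨n, rfl⟩
  have hB0 : 0 ≤ B := by have := hB' 0; simpa using this
  refine ⟨16 * C * 2.428 ^ 2 * (B + 1) / c, by positivity, fun n hn => ?_⟩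
  have hn' : (1 : ℝ) ≤ n := by exact_mod_cast hn
  have h3 := h1 (n + 2)
  have h4 := h2 n
  have h5 := hB' n
  rw [div_pow, ← mul_div_assoc, div_le_iff₀ (by positivity)] at h5
  have h6 : ((n : ℝ) + 3) ^ 2 ≤ 16 * (n : ℝ) ^ 2 := by nlinarith
  have h7 : (n : ℝ) * (((n : ℝ) + 3) ^ 2 * ((few (n + 2)).card : ℝ)) ≤
      16 * C * 2.428 ^ 2 * (B + 1) / c * ((SW n).card : ℝ) := by
    calc (n : ℝ) * (((n : ℝ) + 3) ^ 2 * ((few (n + 2)).card : ℝ))
        ≤ (n : ℝ) * ((16 * (n : ℝ) ^ 2) * (C * 2.428 ^ (n + 2))) := by gcongr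
      _ = 16 * C * 2.428 ^ 2 * ((n : ℝ) ^ 3 * 2.428 ^ n) := by ring
      _ ≤ 16 * C * 2.428 ^ 2 * (B * 2.43 ^ n) := by gcongr
      _ ≤ 16 * C * 2.428 ^ 2 * ((B + 1) * 2.43 ^ n) := by gcongr; linarith
      _ = 16 * C * 2.428 ^ 2 * (B + 1) / c * (c * 2.43 ^ n) := by field_simp
      _ ≤ _ := by gcongr
  rw [div_mul_eq_mul_div, le_div_iff₀ (by linarith)]
  linarith

/-- first step: the total weight -/
theorem mom_step {φ : List Dir → ℝ} (hφ : Good φ) : ∃ D : ℝ, 0 < D ∧ ∀ n : ℕ, 1 ≤ n →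
    |mom φ (n + 2) - ∑ w ∈ SW n, φ w * RR w| ≤ D / n * mom φ n := by
  obtain ⟨D, hD, hfew⟩ := few_small
  refine ⟨D + 50000000, by positivity, fun n hn => ?_⟩
  have hn' : (1 : ℝ) ≤ n := by exact_mod_cast hn
  have h := transfer n hn φ φ (fun _ => 0) (fun _ _ => le_rfl) (by
    rintro w hw ⟨i, e⟩ hp
    have hi := (mem_adm.mp hp).1
    simp only
    rw [hφ.inv w i e hi, sub_self, abs_zero])
  refine h.trans ?_
  have h1 : ∑ w ∈ SW n, (4000 * (0 : ℝ) + 50000000 / (n : ℝ) * |φ w|) =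
      50000000 / (n : ℝ) * mom φ n := by
    unfold mom
    rw [Finset.mul_sum]
    refine Finset.sum_congr rfl (fun w hw => ?_)
    rw [abs_of_nonneg (nonneg_of_good hφ hn hw)]; ring
  have h2 : ∑ w' ∈ few (n + 2), |φ w'| ≤ D / n * mom φ n := by
    calc ∑ w' ∈ few (n + 2), |φ w'| ≤ ∑ w' ∈ few (n + 2), ((n : ℝ) + 3) ^ 2 := by
          refine Finset.sum_le_sum (fun w' hw' => ?_)
          have hw'' : w' ∈ SW (n + 2) := (Finset.mem_filter.mp hw').1
          rw [abs_of_nonneg (nonneg_of_good hφ (by omega) hw'')]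
          refine (hφ.le w').trans (le_of_eq ?_)
          rw [(mem_SW.mp hw'').1]; push_cast; ring
      _ = ((n : ℝ) + 3) ^ 2 * ((few (n + 2)).card : ℝ) := by
          rw [Finset.sum_const, nsmul_eq_mul]; ring
      _ ≤ D / n * ((SW n).card : ℝ) := hfew n hn
      _ ≤ D / n * mom φ n := by gcongr; exact card_le_mom hφ hn
  rw [h1]
  calc 50000000 / (n : ℝ) * mom φ n + ∑ w' ∈ few (n + 2), |φ w'|
      ≤ 50000000 / (n : ℝ) * mom φ n + D / n * mom φ n := by gcongr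
    _ = (D + 50000000) / n * mom φ n := by ring

/-- second step -/
theorem mom_step2 {φ : List Dir → ℝ} (hφ : Good φ) : ∃ D : ℝ, 0 < D ∧ ∀ n : ℕ, 1 ≤ n →
    |∑ w ∈ SW (n + 2), φ w * RR w - ∑ w ∈ SW n, φ w * RR w ^ 2| ≤ D / n * mom φ n := by
  obtain ⟨D, hD, hfew⟩ := few_small
  refine ⟨4000 * D + 8000 * 50000000, by positivity, fun n hn => ?_⟩
  have hn' : (1 : ℝ) ≤ n := by exact_mod_cast hn
  have h := transfer n hn (fun w => φ w * RR w) (fun w => φ w * RR w)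
    (fun w => |φ w| * (50000000 / n)) (fun w hw => by positivity) (by
    rintro w hw ⟨i, e⟩ hp
    have hi := (mem_adm.mp hp).1
    simp only
    rw [hφ.inv w i e hi, ← mul_sub, abs_mul]
    have := RR_ins (mem_SW.mp hw).2 hp
    rw [(mem_SW.mp hw).1] at this
    gcongr)
  have e0 : ∑ w ∈ SW n, φ w * RR w * RR w = ∑ w ∈ SW n, φ w * RR w ^ 2 :=
    Finset.sum_congr rfl (fun w _ => by ring)
  rw [e0] at h
  refine h.trans ?_
  have h1 : ∑ w ∈ SW n, (4000 * (|φ w| * (50000000 / (n : ℝ))) + 50000000 / (n : ℝ) * |φ w * RR w|) ≤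
      8000 * (50000000 / (n : ℝ)) * mom φ n := by
    unfold mom
    rw [Finset.mul_sum]
    refine Finset.sum_le_sum (fun w hw => ?_)
    have h0 := nonneg_of_good hφ hn hw
    rw [abs_mul, abs_of_nonneg h0, abs_of_nonneg (RR_nonneg w)]
    have hR := RR_le (w := w) (by rw [(mem_SW.mp hw).1]; exact hn)
    calc 4000 * (φ w * (50000000 / (n : ℝ))) + 50000000 / (n : ℝ) * (φ w * RR w)
        ≤ 4000 * (φ w * (50000000 / (n : ℝ))) + 50000000 / (n : ℝ) * (φ w * 4000) := by gcongr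
      _ = 8000 * (50000000 / (n : ℝ)) * φ w := by ring
  have h2 : ∑ w' ∈ few (n + 2), |φ w' * RR w'| ≤ 4000 * (D / n) * mom φ n := by
    calc ∑ w' ∈ few (n + 2), |φ w' * RR w'| ≤ ∑ w' ∈ few (n + 2), 4000 * ((n : ℝ) + 3) ^ 2 := by
          refine Finset.sum_le_sum (fun w' hw' => ?_)
          have hw'' : w' ∈ SW (n + 2) := (Finset.mem_filter.mp hw').1
          have h0 := nonneg_of_good hφ (by omega : 1 ≤ n + 2) hw''
          rw [abs_mul, abs_of_nonneg h0, abs_of_nonneg (RR_nonneg w')]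
          have hR := RR_le (w := w') (by rw [(mem_SW.mp hw'').1]; omega)
          have h3 := hφ.le w'
          rw [(mem_SW.mp hw'').1] at h3
          push_cast at h3
          calc φ w' * RR w' ≤ ((n : ℝ) + 2 + 1) ^ 2 * 4000 := by
                gcongr
                exact RR_nonneg w'
            _ = 4000 * ((n : ℝ) + 3) ^ 2 := by ring
      _ = 4000 * (((n : ℝ) + 3) ^ 2 * ((few (n + 2)).card : ℝ)) := by
          rw [Finset.sum_const, nsmul_eq_mul]; ring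
      _ ≤ 4000 * (D / n * ((SW n).card : ℝ)) := by gcongr 4000 * ?_; exact hfew n hn
      _ ≤ 4000 * (D / n * mom φ n) := by gcongr; exact card_le_mom hφ hn
      _ = _ := by ring
  calc _ ≤ 8000 * (50000000 / (n : ℝ)) * mom φ n + 4000 * (D / n) * mom φ n := by gcongr
    _ = (4000 * D + 8000 * 50000000) / n * mom φ n := by ring

lemma sum_RR_le {φ : List Dir → ℝ} (hφ : Good φ) {n : ℕ} (hn : 1 ≤ n) :
    ∑ w ∈ SW n, φ w * RR w ≤ 4000 * mom φ n := by
  unfold mom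
  rw [Finset.mul_sum]
  refine Finset.sum_le_sum (fun w hw => ?_)
  have h0 := nonneg_of_good hφ hn hw
  have hR := RR_le (w := w) (by rw [(mem_SW.mp hw).1]; exact hn)
  nlinarith

lemma sum_RR_nonneg {φ : List Dir → ℝ} (hφ : Good φ) {n : ℕ} (hn : 1 ≤ n) :
    0 ≤ ∑ w ∈ SW n, φ w * RR w :=
  Finset.sum_nonneg (fun w hw => mul_nonneg (nonneg_of_good hφ hn hw) (RR_nonneg w))

theorem mom_succ_le {φ : List Dir → ℝ} (hφ : Good φ) : ∃ B : ℝ, 0 < B ∧ ∀ n : ℕ, 1 ≤ n →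
    mom φ (n + 2) ≤ B * mom φ n := by
  obtain ⟨D, hD, h⟩ := mom_step hφ
  refine ⟨4000 + D, by positivity, fun n hn => ?_⟩
  have hn' : (1 : ℝ) ≤ n := by exact_mod_cast hn
  have h1 := (abs_le.mp (h n hn)).2
  have h2 := sum_RR_le hφ hn
  have h3 := mom_pos hφ hn
  have h4 : D / n * mom φ n ≤ D * mom φ n := by
    gcongr
    exact div_le_self hD.le hn'
  linarith

/-- `mom (n+4)` through the second moment of `RR` -/
theorem mom_step4 {φ : List Dir → ℝ} (hφ : Good φ) : ∃ D : ℝ, 0 < D ∧ ∀ n : ℕ, 1 ≤ n →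
    |mom φ (n + 4) - ∑ w ∈ SW n, φ w * RR w ^ 2| ≤ D / n * mom φ n := by
  obtain ⟨D1, hD1, h1⟩ := mom_step hφ
  obtain ⟨D2, hD2, h2⟩ := mom_step2 hφ
  obtain ⟨B, hB, h3⟩ := mom_succ_le hφ
  refine ⟨D1 * B + D2, by positivity, fun n hn => ?_⟩
  have hn' : (1 : ℝ) ≤ n := by exact_mod_cast hn
  have g1 := h1 (n + 2) (by omega)
  have g2 := h2 n hn
  have g3 := h3 n hn
  have h0 := mom_pos hφ hn
  have h0' := mom_pos hφ (show 1 ≤ n + 2 by omega)
  have g4 : D1 / ((n + 2 : ℕ) : ℝ) * mom φ (n + 2) ≤ D1 / n * (B * mom φ n) := by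
    gcongr
    push_cast; linarith
  have e1 : n + 2 + 2 = n + 4 := by ring
  rw [e1] at g1
  calc |mom φ (n + 4) - ∑ w ∈ SW n, φ w * RR w ^ 2|
      ≤ |mom φ (n + 4) - ∑ w ∈ SW (n + 2), φ w * RR w| +
        |∑ w ∈ SW (n + 2), φ w * RR w - ∑ w ∈ SW n, φ w * RR w ^ 2| := abs_sub_le _ _ _
    _ ≤ D1 / n * (B * mom φ n) + D2 / n * mom φ n := by linarith
    _ = (D1 * B + D2) / n * mom φ n := by ring

/-- the ratio inequality -/
theorem mom_ratio {φ : List Dir → ℝ} (hφ : Good φ) : ∃ D : ℝ, 0 < D ∧ ∀ n : ℕ, 1 ≤ n →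
    mom φ (n + 2) ^ 2 ≤ mom φ n * mom φ (n + 4) + D / n * mom φ n ^ 2 := by
  obtain ⟨D1, hD1, h1⟩ := mom_step hφ
  obtain ⟨D4, hD4, h4⟩ := mom_step4 hφ
  refine ⟨D4 + 8000 * D1 + D1 ^ 2, by positivity, fun n hn => ?_⟩
  have hn' : (1 : ℝ) ≤ n := by exact_mod_cast hn
  have h0 := mom_pos hφ hn
  have h0' := mom_pos hφ (show 1 ≤ n + 2 by omega)
  have g1 := (abs_le.mp (h1 n hn)).2
  have g4 := (abs_le.mp (h4 n hn)).1
  set S1 := ∑ w ∈ SW n, φ w * RR w with hS1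
  set S2 := ∑ w ∈ SW n, φ w * RR w ^ 2 with hS2
  have hcs : S1 ^ 2 ≤ mom φ n * S2 := by
    have := Finset.sum_mul_sq_le_sq_mul_sq (SW n) (fun w => Real.sqrt (φ w))
      (fun w => Real.sqrt (φ w) * RR w)
    have e1 : ∑ w ∈ SW n, Real.sqrt (φ w) * (Real.sqrt (φ w) * RR w) = S1 := by
      refine Finset.sum_congr rfl (fun w hw => ?_)
      rw [← mul_assoc, Real.mul_self_sqrt (nonneg_of_good hφ hn hw)]
    have e2 : ∑ w ∈ SW n, Real.sqrt (φ w) ^ 2 = mom φ n := by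
      refine Finset.sum_congr rfl (fun w hw => ?_)
      rw [Real.sq_sqrt (nonneg_of_good hφ hn hw)]
    have e3 : ∑ w ∈ SW n, (Real.sqrt (φ w) * RR w) ^ 2 = S2 := by
      refine Finset.sum_congr rfl (fun w hw => ?_)
      rw [mul_pow, Real.sq_sqrt (nonneg_of_good hφ hn hw)]
    rw [e1, e2, e3] at this
    exact this
  have hS1le : S1 ≤ 4000 * mom φ n := sum_RR_le hφ hn
  have hS10 : 0 ≤ S1 := sum_RR_nonneg hφ hn
  have k1 : mom φ (n + 2) ≤ S1 + D1 / n * mom φ n := by linarith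
  have k2 : mom φ (n + 2) ^ 2 ≤ (S1 + D1 / n * mom φ n) ^ 2 := by
    gcongr
  have hd : D1 / n ≤ D1 := div_le_self hD1.le hn'
  have hdn : 0 ≤ D1 / n := by positivity
  have k3 : (S1 + D1 / n * mom φ n) ^ 2 ≤ mom φ n * S2 + (8000 * D1 + D1 ^ 2) / n * mom φ n ^ 2 := by
    have e : (S1 + D1 / n * mom φ n) ^ 2 = S1 ^ 2 + 2 * S1 * (D1 / n * mom φ n) +
        (D1 / n) * (D1 / n) * mom φ n ^ 2 := by ring
    have i1 : 2 * S1 * (D1 / n * mom φ n) ≤ 2 * (4000 * mom φ n) * (D1 / n * mom φ n) := by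
      gcongr
    have i2 : (D1 / n) * (D1 / n) * mom φ n ^ 2 ≤ (D1 / n) * D1 * mom φ n ^ 2 := by gcongr
    have e2 : (8000 * D1 + D1 ^ 2) / n * mom φ n ^ 2 = 2 * (4000 * mom φ n) * (D1 / n * mom φ n) +
        (D1 / n) * D1 * mom φ n ^ 2 := by ring
    rw [e, e2]
    linarith
  have k4 : mom φ n * S2 ≤ mom φ n * mom φ (n + 4) + D4 / n * mom φ n ^ 2 := by
    have : S2 ≤ mom φ (n + 4) + D4 / n * mom φ n := by linarith
    calc mom φ n * S2 ≤ mom φ n * (mom φ (n + 4) + D4 / n * mom φ n) := by gcongr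
      _ = _ := by ring
  have e5 : (D4 + 8000 * D1 + D1 ^ 2) / n * mom φ n ^ 2 =
      D4 / n * mom φ n ^ 2 + (8000 * D1 + D1 ^ 2) / n * mom φ n ^ 2 := by ring
  rw [e5]
  linarith

end Pool.Agent.H976R2
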