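import Mathlib
import Pool.Agent.H976R2.KDefs
import Pool.Agent.H976R2.KPath

set_option autoImplicit false
set_option linter.unusedVariables false

/-! Distance of the rescaled polygonal paths after the insertion of a bump. -/

namespace Pool.Agent.H976R2.Geo

open Pool.Agent.H976R2

open Dir Finset
open scoped Classical

namespace KGeo

lemma sum_cl (m : ℕ) (u : ℝ) : ∑ k ∈ range m, cl (u - (k : ℝ)) = max 0 (min (m : ℝ) u) := by
  induction m with
  | zero =>
    simp only [range_zero, sum_empty, Nat.cast_zero]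
    exact (max_eq_left (min_le_left _ _)).symm
  | succ m ih =>
    rw [sum_range_succ, ih]
    have hm : (0 : ℝ) ≤ m := Nat.cast_nonneg m
    unfold cl
    push_cast
    simp only [max_def, min_def]
    split_ifs <;> linarith

lemma cl_mono {u v : ℝ} (h : v ≤ u) : cl v ≤ cl u := by
  unfold cl
  exact max_le_max le_rfl (min_le_min le_rfl h)

lemma cl_nonneg (u : ℝ) : 0 ≤ cl u := le_max_left _ _

lemma cl_le_one (u : ℝ) : cl u ≤ 1 := max_le zero_le_one (min_le_left _ _)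

lemma sum_abs_aux (m : ℕ) {u v : ℝ} (h : v ≤ u) :
    ∑ k ∈ range m, |cl (u - (k : ℝ)) - cl (v - (k : ℝ))| ≤ |u - v| := by
  have h1 : ∀ k ∈ range m, |cl (u - (k : ℝ)) - cl (v - (k : ℝ))|
      = cl (u - (k : ℝ)) - cl (v - (k : ℝ)) := fun k _ =>
    abs_of_nonneg (by have := cl_mono (show v - (k : ℝ) ≤ u - k by linarith); linarith)
  rw [sum_congr rfl h1, sum_sub_distrib, sum_cl, sum_cl, abs_of_nonneg (by linarith : (0 : ℝ) ≤ u - v)]
  simp only [max_def, min_def]
  have hm : (0 : ℝ) ≤ m := Nat.cast_nonneg m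
  split_ifs <;> linarith

lemma sum_abs (m : ℕ) (u v : ℝ) :
    ∑ k ∈ range m, |cl (u - (k : ℝ)) - cl (v - (k : ℝ))| ≤ |u - v| := by
  rcases le_total v u with h | h
  · exact sum_abs_aux m h
  · have := sum_abs_aux m h
    rw [abs_sub_comm] at this
    refine le_trans (le_of_eq (sum_congr rfl (fun k _ => abs_sub_comm _ _))) this

lemma norm_vec (s : Dir) : ‖vec s‖ = 1 := by
  cases s <;> simp [vec, dx, dy]

lemma vec_opp (s : Dir) : vec (opp s) = - vec s := by
  cases s <;> simp [vec, opp, dx, dy]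

/-- the sum of the first kind is Lipschitz -/
lemma norm_sum_sub (m : ℕ) (f : ℕ → Dir) (u v : ℝ) :
    ‖(∑ k ∈ range m, ((cl (u - (k : ℝ)) : ℝ) : ℂ) * vec (f k))
      - ∑ k ∈ range m, ((cl (v - (k : ℝ)) : ℝ) : ℂ) * vec (f k)‖ ≤ |u - v| := by
  rw [← sum_sub_distrib]
  refine (norm_sum_le _ _).trans (le_trans (sum_le_sum (fun k _ => ?_)) (sum_abs m u v))
  rw [← sub_mul, norm_mul, norm_vec, mul_one, ← Complex.ofReal_sub, Complex.norm_real,
    Real.norm_eq_abs]

lemma ZZ_lip (w : List Dir) (u v : ℝ) : ‖ZZ w u - ZZ w v‖ ≤ |u - v| :=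
  norm_sum_sub w.length (lt w) u v

lemma split_sum (i m : ℕ) (F : ℕ → ℂ) :
    ∑ k ∈ range (i + m), F k = ∑ k ∈ range i, F k + ∑ l ∈ range m, F (i + l) :=
  sum_range_add F i m

lemma lt_ins_lo (w : List Dir) (i : ℕ) (e : Dir) (hi : i < w.length) (k : ℕ) (hk : k < i) :
    lt (ins w i e) k = lt w k := by
  unfold ins
  show (List.take i w ++ e :: lt w i :: opp e :: List.drop (i + 1) w).getD k E = w.getD k E
  have h1 : (List.take i w).length = i := by rw [List.length_take]; omega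
  rw [List.getD_append _ _ _ _ (by omega)]
  simp [List.getD_eq_getElem?_getD, hk]

lemma lt_ins_hi (w : List Dir) (i : ℕ) (e : Dir) (hi : i < w.length) (l : ℕ) :
    lt (ins w i e) (i + l) = (e :: lt w i :: opp e :: w.drop (i + 1)).getD l E := by
  unfold ins
  show (List.take i w ++ e :: lt w i :: opp e :: List.drop (i + 1) w).getD (i + l) E = _
  have h1 : (List.take i w).length = i := by rw [List.length_take]; omega
  rw [List.getD_append_right _ _ _ _ (by omega), h1]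
  congr 1
  omega

lemma lt_drop (w : List Dir) (i l : ℕ) : (w.drop (i + 1)).getD l E = lt w (i + 1 + l) := by
  unfold lt
  simp [List.getD_eq_getElem?_getD, List.getElem?_drop]

lemma length_ins (w : List Dir) (i : ℕ) (e : Dir) (hi : i < w.length) :
    (ins w i e).length = i + (3 + (w.length - (i + 1))) := by
  unfold ins
  simp only [List.length_append, List.length_take, List.length_cons, List.length_drop]
  omega

/-- main estimate: the inserted path at time `u` and the original path at time `v` -/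
lemma ZZ_ins (w : List Dir) (i : ℕ) (e : Dir) (hi : i < w.length) (u v : ℝ) :
    ‖ZZ (ins w i e) u - ZZ w v‖ ≤ |u - v| + |u - 2 - v| + 2 := by
  set m := w.length - (i + 1) with hm
  have e1 : ZZ (ins w i e) u = (∑ k ∈ range i, ((cl (u - (k : ℝ)) : ℝ) : ℂ) * vec (lt w k))
      + (((cl (u - i) - cl (u - i - 2) : ℝ) : ℂ) * vec e + ((cl (u - i - 1) : ℝ) : ℂ) * vec (lt w i))
      + ∑ l ∈ range m, ((cl ((u - 2 - (i + 1)) - (l : ℝ)) : ℝ) : ℂ) * vec (lt w (i + 1 + l)) := by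
    unfold ZZ
    rw [length_ins w i e hi, split_sum, split_sum]
    have a1 : ∑ k ∈ range i, ((cl (u - (k : ℝ)) : ℝ) : ℂ) * vec (lt (ins w i e) k)
        = ∑ k ∈ range i, ((cl (u - (k : ℝ)) : ℝ) : ℂ) * vec (lt w k) :=
      sum_congr rfl (fun k hk => by rw [lt_ins_lo w i e hi k (mem_range.mp hk)])
    have a2 : ∑ l ∈ range 3, ((cl (u - ((i + l : ℕ) : ℝ)) : ℝ) : ℂ) * vec (lt (ins w i e) (i + l))
        = ((cl (u - i) - cl (u - i - 2) : ℝ) : ℂ) * vec e + ((cl (u - i - 1) : ℝ) : ℂ) * vec (lt w i) := by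
      rw [sum_range_succ, sum_range_succ, sum_range_succ, sum_range_zero]
      rw [lt_ins_hi w i e hi 0, lt_ins_hi w i e hi 1, lt_ins_hi w i e hi 2]
      simp only [List.getD_cons_zero, List.getD_cons_succ, vec_opp]
      push_cast
      rw [show u - ((i : ℝ) + 0) = u - i by ring, show u - ((i : ℝ) + 1) = u - i - 1 by ring,
        show u - ((i : ℝ) + 2) = u - i - 2 by ring]
      ring
    have a3 : ∑ l ∈ range m, ((cl (u - ((i + (3 + l) : ℕ) : ℝ)) : ℝ) : ℂ)
          * vec (lt (ins w i e) (i + (3 + l)))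
        = ∑ l ∈ range m, ((cl ((u - 2 - (i + 1)) - (l : ℝ)) : ℝ) : ℂ) * vec (lt w (i + 1 + l)) := by
      refine sum_congr rfl (fun l _ => ?_)
      rw [lt_ins_hi w i e hi (3 + l)]
      rw [show 3 + l = ((l + 1) + 1) + 1 by omega]
      simp only [List.getD_cons_succ]
      rw [lt_drop]
      congr 3
      push_cast
      ring
    rw [a1, a2, a3]
    ring
  have e2 : ZZ w v = (∑ k ∈ range i, ((cl (v - (k : ℝ)) : ℝ) : ℂ) * vec (lt w k))
      + ((cl (v - i) : ℝ) : ℂ) * vec (lt w i)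
      + ∑ l ∈ range m, ((cl ((v - (i + 1)) - (l : ℝ)) : ℝ) : ℂ) * vec (lt w (i + 1 + l)) := by
    unfold ZZ
    have : w.length = i + (1 + m) := by omega
    rw [this, split_sum, split_sum]
    have a2 : ∑ l ∈ range 1, ((cl (v - ((i + l : ℕ) : ℝ)) : ℝ) : ℂ) * vec (lt w (i + l))
        = ((cl (v - i) : ℝ) : ℂ) * vec (lt w i) := by
      rw [sum_range_succ, sum_range_zero]
      simp
    have a3 : ∑ l ∈ range m, ((cl (v - ((i + (1 + l) : ℕ) : ℝ)) : ℝ) : ℂ)
          * vec (lt w (i + (1 + l)))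
        = ∑ l ∈ range m, ((cl ((v - (i + 1)) - (l : ℝ)) : ℝ) : ℂ) * vec (lt w (i + 1 + l)) := by
      refine sum_congr rfl (fun l _ => ?_)
      rw [show i + (1 + l) = i + 1 + l by omega]
      congr 3
      push_cast
      ring
    rw [a2, a3]
    ring
  rw [e1, e2]
  have b1 := norm_sum_sub i (lt w) u v
  have b3 := norm_sum_sub m (fun l => lt w (i + 1 + l)) (u - 2 - (i + 1)) (v - (i + 1))
  rw [show u - 2 - ((i : ℝ) + 1) - (v - (i + 1)) = u - 2 - v by ring] at b3
  have b2 : ‖(((cl (u - i) - cl (u - i - 2) : ℝ) : ℂ) * vec e + ((cl (u - i - 1) : ℝ) : ℂ) * vec (lt w i))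
      - ((cl (v - i) : ℝ) : ℂ) * vec (lt w i)‖ ≤ 2 := by
    have c1 : ‖((cl (u - i) - cl (u - i - 2) : ℝ) : ℂ) * vec e‖ ≤ 1 := by
      rw [norm_mul, norm_vec, mul_one, Complex.norm_real, Real.norm_eq_abs, abs_le]
      have := cl_nonneg (u - i); have := cl_nonneg (u - i - 2)
      have := cl_le_one (u - i); have := cl_le_one (u - i - 2)
      constructor <;> linarith
    have c2 : ‖((cl (u - i - 1) : ℝ) : ℂ) * vec (lt w i) - ((cl (v - i) : ℝ) : ℂ) * vec (lt w i)‖ ≤ 1 := by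
      rw [← sub_mul, norm_mul, norm_vec, mul_one, ← Complex.ofReal_sub, Complex.norm_real,
        Real.norm_eq_abs, abs_le]
      have := cl_nonneg (u - i - 1); have := cl_nonneg (v - i)
      have := cl_le_one (u - i - 1); have := cl_le_one (v - i)
      constructor <;> linarith
    rw [add_sub_assoc]
    exact (norm_add_le _ _).trans (by linarith)
  set A1 := ∑ k ∈ range i, ((cl (u - (k : ℝ)) : ℝ) : ℂ) * vec (lt w k)
  set A2 := ∑ k ∈ range i, ((cl (v - (k : ℝ)) : ℝ) : ℂ) * vec (lt w k)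
  set B1 := (((cl (u - i) - cl (u - i - 2) : ℝ) : ℂ) * vec e + ((cl (u - i - 1) : ℝ) : ℂ) * vec (lt w i))
  set B2 := ((cl (v - i) : ℝ) : ℂ) * vec (lt w i)
  set C1 := ∑ l ∈ range m, ((cl ((u - 2 - (i + 1)) - (l : ℝ)) : ℝ) : ℂ) * vec (lt w (i + 1 + l))
  set C2 := ∑ l ∈ range m, ((cl ((v - (i + 1)) - (l : ℝ)) : ℝ) : ℂ) * vec (lt w (i + 1 + l))
  have : A1 + B1 + C1 - (A2 + B2 + C2) = (A1 - A2) + (B1 - B2) + (C1 - C2) := by ring
  rw [this]
  have t1 := norm_add_le ((A1 - A2) + (B1 - B2)) (C1 - C2)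
  have t2 := norm_add_le (A1 - A2) (B1 - B2)
  linarith

lemma wX_take (w : List Dir) (k : ℕ) (hk : k ≤ w.length) :
    wX (w.take k) = ∑ j ∈ range k, dx (lt w j) := by
  induction k with
  | zero => simp
  | succ k ih =>
    rw [sum_range_succ, ← ih (by omega), List.take_succ_eq_append_getElem (by omega), wX_append]
    simp [lt, List.getD_eq_getElem?_getD, List.getElem?_eq_getElem (show k < w.length by omega)]

lemma wY_take (w : List Dir) (k : ℕ) (hk : k ≤ w.length) :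
    wY (w.take k) = ∑ j ∈ range k, dy (lt w j) := by
  induction k with
  | zero => simp
  | succ k ih =>
    rw [sum_range_succ, ← ih (by omega), List.take_succ_eq_append_getElem (by omega), wY_append]
    simp [lt, List.getD_eq_getElem?_getD, List.getElem?_eq_getElem (show k < w.length by omega)]

lemma ZZ_nat (w : List Dir) (k : ℕ) (hk : k ≤ w.length) :
    ZZ w (k : ℝ) = ((wX (w.take k) : ℤ) : ℂ) + ((wY (w.take k) : ℤ) : ℂ) * Complex.I := by
  unfold ZZ
  have h1 : w.length = k + (w.length - k) := by omega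
  rw [h1, split_sum]
  have a1 : ∑ j ∈ range k, ((cl ((k : ℝ) - (j : ℝ)) : ℝ) : ℂ) * vec (lt w j)
      = ∑ j ∈ range k, vec (lt w j) := by
    refine sum_congr rfl (fun j hj => ?_)
    have hj' : j + 1 ≤ k := mem_range.mp hj
    have hj'' : (j : ℝ) + 1 ≤ k := by exact_mod_cast hj'
    have : cl ((k : ℝ) - (j : ℝ)) = 1 := by
      unfold cl
      rw [min_eq_left (by linarith)]
      exact max_eq_right zero_le_one
    rw [this]; simp
  have a2 : ∑ l ∈ range (w.length - k), ((cl ((k : ℝ) - ((k + l : ℕ) : ℝ)) : ℝ) : ℂ) * vec (lt w (k + l))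
      = 0 := by
    refine sum_eq_zero (fun l _ => ?_)
    have : cl ((k : ℝ) - ((k + l : ℕ) : ℝ)) = 0 := by
      unfold cl
      have hl : (0 : ℝ) ≤ l := Nat.cast_nonneg l
      push_cast
      exact max_eq_left ((min_le_right _ _).trans (by linarith))
    rw [this]; simp
  rw [a1, a2, add_zero, wX_take w k hk, wY_take w k hk]
  push_cast
  rw [sum_mul, ← sum_add_distrib]
  rfl

lemma norm_ZZ_nat (w : List Dir) (k : ℕ) (hk : k ≤ w.length) :
    ‖ZZ w (k : ℝ)‖ ≤ Real.sqrt (mxsq w) := by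
  rw [ZZ_nat w k hk]
  have h1 : sq (w.take k) ≤ mxsq w := by
    unfold mxsq
    exact Finset.le_sup' (fun k => sq (w.take k)) (mem_range.mpr (by omega))
  apply Real.le_sqrt_of_sq_le
  refine le_trans (le_of_eq ?_) h1
  rw [← Complex.normSq_eq_norm_sq]
  unfold sq
  rw [show ((wX (w.take k) : ℤ) : ℂ) = (((wX (w.take k) : ℤ) : ℝ) : ℂ) by push_cast; rfl,
    show ((wY (w.take k) : ℤ) : ℂ) = (((wY (w.take k) : ℤ) : ℝ) : ℂ) by push_cast; rfl,
    Complex.normSq_add_mul_I]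

lemma norm_ZZ (w : List Dir) (u : ℝ) (h0 : 0 ≤ u) (h1 : u ≤ w.length) :
    ‖ZZ w u‖ ≤ Real.sqrt (mxsq w) + 1 := by
  have hk : ⌊u⌋₊ ≤ w.length := Nat.floor_le_of_le h1
  have a1 := norm_ZZ_nat w ⌊u⌋₊ hk
  have a2 := ZZ_lip w u (⌊u⌋₊ : ℝ)
  have a3 : |u - (⌊u⌋₊ : ℝ)| ≤ 1 := by
    have := Nat.floor_le h0
    have := Nat.lt_floor_add_one u
    rw [abs_le]; constructor <;> linarith
  have a4 := norm_sub_norm_le (ZZ w u) (ZZ w (⌊u⌋₊ : ℝ))
  linarith

end KGeo

open KGeo in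
theorem dist_ins (w : List Dir) (i : ℕ) (e : Dir) (hi : i < w.length) (s s' : ℝ) (hs : 0 < s)
    (hs' : 0 < s') :
    dist (Xs s' (ins w i e)) (Xs s w) ≤ 12 / s' + |1 / s' - 1 / s| * (Real.sqrt (mxsq w) + 1) := by
  have hR : (0 : ℝ) ≤ Real.sqrt (mxsq w) + 1 := by positivity
  rw [ContinuousMap.dist_le (by positivity)]
  intro t
  rw [dist_eq_norm]
  show ‖((s'⁻¹ : ℝ) : ℂ) * ZZ (ins w i e) (((ins w i e).length : ℝ) * (t : ℝ))
    - ((s⁻¹ : ℝ) : ℂ) * ZZ w ((w.length : ℝ) * (t : ℝ))‖ ≤ _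
  have ht0 : (0 : ℝ) ≤ (t : ℝ) := t.2.1
  have ht1 : (t : ℝ) ≤ 1 := t.2.2
  have hlen : ((ins w i e).length : ℝ) = w.length + 2 := by
    have : (ins w i e).length = w.length + 2 := by rw [length_ins w i e hi]; omega
    rw [this]; push_cast; ring
  rw [hlen]
  set u := (w.length : ℝ) * (t : ℝ) with hu
  set u' := ((w.length : ℝ) + 2) * (t : ℝ) with hu'
  have huu : u' - u = 2 * (t : ℝ) := by rw [hu, hu']; ring
  have h1 := ZZ_ins w i e hi u' u
  have h2 : |u' - u| ≤ 2 := by rw [abs_le]; constructor <;> linarith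
  have h3 : |u' - 2 - u| ≤ 2 := by rw [abs_le]; constructor <;> linarith
  have h4 : ‖ZZ w u‖ ≤ Real.sqrt (mxsq w) + 1 := by
    have hn : (0 : ℝ) ≤ w.length := Nat.cast_nonneg _
    refine norm_ZZ w u (mul_nonneg hn ht0) ?_
    calc (w.length : ℝ) * (t : ℝ) ≤ w.length * 1 := mul_le_mul_of_nonneg_left ht1 hn
      _ = _ := mul_one _
  have h5 : ((s'⁻¹ : ℝ) : ℂ) * ZZ (ins w i e) u' - ((s⁻¹ : ℝ) : ℂ) * ZZ w u
      = ((s'⁻¹ : ℝ) : ℂ) * (ZZ (ins w i e) u' - ZZ w u) + ((s'⁻¹ - s⁻¹ : ℝ) : ℂ) * ZZ w u := by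
    push_cast; ring
  rw [h5]
  refine (norm_add_le _ _).trans ?_
  rw [norm_mul, norm_mul, Complex.norm_real, Complex.norm_real, Real.norm_eq_abs, Real.norm_eq_abs,
    abs_of_pos (inv_pos.mpr hs')]
  refine add_le_add ?_ ?_
  · rw [div_eq_inv_mul]
    exact mul_le_mul_of_nonneg_left (by linarith) (inv_pos.mpr hs').le
  · rw [one_div, one_div]
    exact mul_le_mul_of_nonneg_left h4 (abs_nonneg _)

end Pool.Agent.H976R2.Geo
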