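import Mathlib

set_option autoImplicit false
set_option linter.unusedVariables false

/-!
# Kesten's ratio lemma with a rate (real analysis)
-/

namespace Pool.Agent.H976R2

namespace KRate

variable {b : ℕ → ℝ} {K D θ : ℝ}

lemma r_pos (hb : ∀ n : ℕ, 1 ≤ n → 1 ≤ b n) {n : ℕ} (hn : 1 ≤ n) : 0 < b (n + 2) / b n := by
  have h1 := hb n hn
  have h2 := hb (n + 2) (by omega)
  positivity

lemma r_step (hb : ∀ n : ℕ, 1 ≤ n → 1 ≤ b n)
    (hstep : ∀ n : ℕ, 1 ≤ n → b (n + 2) ^ 2 ≤ b n * b (n + 4) + D / n * b n ^ 2)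
    {n : ℕ} (hn : 1 ≤ n) :
    (b (n + 2) / b n) ^ 2 ≤ b (n + 2) / b n * (b (n + 4) / b (n + 2)) + D / n := by
  have h1 : 0 < b n := lt_of_lt_of_le one_pos (hb n hn)
  have h2 : 0 < b (n + 2) := lt_of_lt_of_le one_pos (hb (n + 2) (by omega))
  have h3 := hstep n hn
  have h4 : b (n + 2) / b n * (b (n + 4) / b (n + 2)) + D / n
      = (b n * b (n + 4) + D / n * b n ^ 2) / b n ^ 2 := by
    field_simp
  rw [h4, div_pow]
  exact div_le_div_of_nonneg_right h3 (by positivity)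

lemma half_exp {x : ℝ} (h0 : 0 ≤ x) (h1 : x ≤ 1) : Real.exp (x / 2) ≤ 1 + x := by
  have h2 : Real.exp (x / 2) ≤ 1 / (1 - x / 2) := by
    have h3 := Real.add_one_le_exp (-(x / 2))
    have h4 : 0 < 1 - x / 2 := by linarith
    rw [le_div_iff₀ h4]
    calc Real.exp (x / 2) * (1 - x / 2) ≤ Real.exp (x / 2) * Real.exp (-(x / 2)) := by
          apply mul_le_mul_of_nonneg_left _ (Real.exp_pos _).le
          linarith
      _ = 1 := by rw [← Real.exp_add]; simp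
  refine h2.trans ?_
  rw [div_le_iff₀ (by linarith)]
  nlinarith

lemma upper (hK : 0 ≤ K) (hD : 1 ≤ D) (hθ0 : 0 < θ) (hθ : θ < 1)
    (hb : ∀ n : ℕ, 1 ≤ n → 1 ≤ b n)
    (hup : ∀ n : ℕ, 1 ≤ n → b n ≤ Real.exp (K * (n : ℝ) ^ θ))
    (hstep : ∀ n : ℕ, 1 ≤ n → b (n + 2) ^ 2 ≤ b n * b (n + 4) + D / n * b n ^ 2)
    {n : ℕ} (hn : 1 ≤ n) {δ : ℝ} (hδ : 0 < δ) (hδ1 : δ ≤ 1) (h : 1 + δ ≤ b (n + 2) / b n) :
    δ ^ 2 * n ≤ 2 * D * (8 * K + 1) * (n : ℝ) ^ θ := by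
  have hn' : (1 : ℝ) ≤ n := by exact_mod_cast hn
  have hn0 : (0 : ℝ) < n := by linarith
  have hD0 : 0 < D := by linarith
  obtain ⟨J, hJ⟩ : ∃ J : ℕ, J = ⌊δ * n / (2 * D)⌋₊ := ⟨_, rfl⟩
  have hJle : (J : ℝ) ≤ δ * n / (2 * D) := by
    rw [hJ]; exact Nat.floor_le (by positivity)
  have hJge : δ * n / (2 * D) - 1 ≤ J := by
    rw [hJ]
    have := Nat.lt_floor_add_one (δ * n / (2 * D))
    linarith
  have hJle' : (J : ℝ) * (2 * D) ≤ δ * n := by
    rwa [le_div_iff₀ (by positivity)] at hJle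
  -- ratios stay large
  have key : ∀ j : ℕ, (j : ℝ) * D / n ≤ δ →
      1 + δ - j * D / n ≤ b (n + 2 * j + 2) / b (n + 2 * j) := by
    intro j
    induction j with
    | zero => intro _; simpa using h
    | succ j ih =>
      intro hj
      have hj' : (j : ℝ) * D / n ≤ δ := by
        refine le_trans ?_ hj
        push_cast
        gcongr
        linarith
      have h1 := ih hj'
      have h2 := r_step hb hstep (n := n + 2 * j) (by omega)
      have h3 : n + 2 * (j + 1) = n + 2 * j + 2 := by ring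
      rw [h3]
      set ρ := b (n + 2 * j + 2) / b (n + 2 * j) with hρ
      set ρ' := b (n + 2 * j + 2 + 2) / b (n + 2 * j + 2) with hρ'
      have h5 : 1 ≤ ρ := by linarith
      have h6 : D / ((n + 2 * j : ℕ) : ℝ) ≤ D / n := by
        apply div_le_div_of_nonneg_left hD0.le hn0
        push_cast
        have : (0 : ℝ) ≤ j := Nat.cast_nonneg j
        linarith
      have h7 : ρ * ρ ≤ ρ * (ρ' + D / n) := by
        have h8 : D / n ≤ ρ * (D / n) := le_mul_of_one_le_left (by positivity) h5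
        nlinarith
      have h9 : ρ ≤ ρ' + D / n := le_of_mul_le_mul_left h7 (by linarith)
      have h10 : ((j + 1 : ℕ) : ℝ) * D / n = j * D / n + D / n := by push_cast; ring
      rw [h10]
      linarith
  have keyJ : ∀ j : ℕ, j ≤ J → 1 + δ / 2 ≤ b (n + 2 * j + 2) / b (n + 2 * j) := by
    intro j hj
    have h1 : (j : ℝ) * D / n ≤ δ / 2 := by
      rw [div_le_iff₀ hn0]
      have : (j : ℝ) ≤ J := by exact_mod_cast hj
      nlinarith
    have := key j (by linarith)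
    linarith
  have prod : ∀ j : ℕ, j ≤ J → (1 + δ / 2) ^ j * b n ≤ b (n + 2 * j) := by
    intro j
    induction j with
    | zero => intro _; simp
    | succ j ih =>
      intro hj
      have h1 := ih (by omega)
      have h2 := keyJ j (by omega)
      have h3 : 0 < b (n + 2 * j) := lt_of_lt_of_le one_pos (hb _ (by omega))
      rw [le_div_iff₀ h3] at h2
      have h4 : n + 2 * (j + 1) = n + 2 * j + 2 := by ring
      rw [h4, pow_succ]
      calc (1 + δ / 2) ^ j * (1 + δ / 2) * b n = (1 + δ / 2) * ((1 + δ / 2) ^ j * b n) := by ring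
        _ ≤ (1 + δ / 2) * b (n + 2 * j) := by gcongr
        _ ≤ _ := h2
  have h1 := prod J le_rfl
  have h2 := hup (n + 2 * J) (by omega)
  have h3 : 1 ≤ b n := hb n hn
  have h4 : Real.exp (J * (δ / 4)) ≤ (1 + δ / 2) ^ J := by
    have h5 := half_exp (x := δ / 2) (by positivity) (by linarith)
    calc Real.exp (J * (δ / 4)) = (Real.exp (δ / 2 / 2)) ^ J := by
          rw [← Real.exp_nat_mul]; congr 1; ring
      _ ≤ _ := pow_le_pow_left₀ (Real.exp_pos _).le h5 J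
  have h5 : Real.exp (J * (δ / 4)) ≤ Real.exp (K * ((n + 2 * J : ℕ) : ℝ) ^ θ) := by
    refine h4.trans (le_trans ?_ h2)
    refine le_trans ?_ h1
    exact le_mul_of_one_le_right (by positivity) h3
  have h6 : (J : ℝ) * (δ / 4) ≤ K * ((n + 2 * J : ℕ) : ℝ) ^ θ := Real.exp_le_exp.1 h5
  have h7 : ((n + 2 * J : ℕ) : ℝ) ^ θ ≤ 2 * (n : ℝ) ^ θ := by
    have h8 : ((n + 2 * J : ℕ) : ℝ) ≤ 2 * n := by
      push_cast
      nlinarith
    calc ((n + 2 * J : ℕ) : ℝ) ^ θ ≤ (2 * (n : ℝ)) ^ θ :=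
          Real.rpow_le_rpow (by positivity) h8 hθ0.le
      _ = 2 ^ θ * (n : ℝ) ^ θ := Real.mul_rpow (by norm_num) hn0.le
      _ ≤ 2 ^ (1 : ℝ) * (n : ℝ) ^ θ := by
          gcongr
          · norm_num
      _ = 2 * (n : ℝ) ^ θ := by rw [Real.rpow_one]
  have h8 : (J : ℝ) * (δ / 4) ≤ 2 * K * (n : ℝ) ^ θ := by
    calc (J : ℝ) * (δ / 4) ≤ K * ((n + 2 * J : ℕ) : ℝ) ^ θ := h6
      _ ≤ K * (2 * (n : ℝ) ^ θ) := by gcongr
      _ = _ := by ring
  have h9 : 1 ≤ (n : ℝ) ^ θ := Real.one_le_rpow hn' hθ0.le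
  have h10 : (δ * n / (2 * D) - 1) * (δ / 4) ≤ 2 * K * (n : ℝ) ^ θ :=
    le_trans (mul_le_mul_of_nonneg_right hJge (by positivity)) h8
  have h11 : δ * (δ * n / (2 * D)) ≤ 8 * K * (n : ℝ) ^ θ + δ := by nlinarith
  have h12 : δ * (δ * n / (2 * D)) ≤ (8 * K + 1) * (n : ℝ) ^ θ := by nlinarith
  have h13 : δ ^ 2 * n = 2 * D * (δ * (δ * n / (2 * D))) := by field_simp
  rw [h13]
  calc 2 * D * (δ * (δ * n / (2 * D))) ≤ 2 * D * ((8 * K + 1) * (n : ℝ) ^ θ) := by gcongr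
    _ = _ := by ring

lemma lower (hK : 0 ≤ K) (hD : 1 ≤ D) (hθ0 : 0 < θ) (hθ : θ < 1)
    (hb : ∀ n : ℕ, 1 ≤ n → 1 ≤ b n)
    (hup : ∀ n : ℕ, 1 ≤ n → b n ≤ Real.exp (K * (n : ℝ) ^ θ))
    (hstep : ∀ n : ℕ, 1 ≤ n → b (n + 2) ^ 2 ≤ b n * b (n + 4) + D / n * b n ^ 2)
    {n : ℕ} (hn : 1 ≤ n) {δ : ℝ} (hδ : 0 < δ) (hδ1 : δ ≤ 1 / 2) (h : b (n + 2) / b n ≤ 1 - δ) :
    δ ^ 2 * n ≤ 32 * D * (K + 1) * (n : ℝ) ^ θ := by
  have hn' : (1 : ℝ) ≤ n := by exact_mod_cast hn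
  have hn0 : (0 : ℝ) < n := by linarith
  have hD0 : 0 < D := by linarith
  obtain ⟨J, hJ⟩ : ∃ J : ℕ, J = ⌊δ * n / (16 * D)⌋₊ := ⟨_, rfl⟩
  have hJle : (J : ℝ) ≤ δ * n / (16 * D) := by
    rw [hJ]; exact Nat.floor_le (by positivity)
  have hJge : δ * n / (16 * D) - 1 ≤ J := by
    rw [hJ]
    have := Nat.lt_floor_add_one (δ * n / (16 * D))
    linarith
  have hJle' : (J : ℝ) * (16 * D) ≤ δ * n := by
    rwa [le_div_iff₀ (by positivity)] at hJle
  have hJn : 32 * J ≤ n := by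
    have : (32 : ℝ) * J ≤ n := by nlinarith [Nat.cast_nonneg (α := ℝ) J]
    exact_mod_cast this
  have hkpos : ∀ j : ℕ, j ≤ J → 1 ≤ n - 2 * j ∧ n ≤ 2 * (n - 2 * j) := by
    intro j hj
    omega
  have key : ∀ j : ℕ, j ≤ J →
      b (n - 2 * j + 2) / b (n - 2 * j) ≤ 1 - δ + 8 * D * j / n := by
    intro j
    induction j with
    | zero => intro _; simpa using h
    | succ j ih =>
      intro hj
      have h1 := ih (by omega)
      have hk := hkpos (j + 1) hj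
      have hk' := hkpos j (by omega)
      obtain ⟨k, hk0⟩ : ∃ k, k = n - 2 * (j + 1) := ⟨_, rfl⟩
      have hkj : n - 2 * j = k + 2 := by omega
      rw [hkj] at h1
      rw [← hk0] at hk ⊢
      have h2 := r_step hb hstep (n := k) hk.1
      have hkp := r_pos hb (n := k) hk.1
      set ρ := b (k + 2) / b k with hρ
      set ρ' := b (k + 2 + 2) / b (k + 2) with hρ'
      have hkR : (n : ℝ) ≤ 2 * k := by exact_mod_cast hk.2
      have hk1 : (1 : ℝ) ≤ k := by exact_mod_cast hk.1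
      have h10 : 8 * D * ((j + 1 : ℕ) : ℝ) / n = 8 * D * j / n + 8 * D / n := by push_cast; ring
      rw [h10]
      have h11 : (0 : ℝ) ≤ 8 * D * j / n := by positivity
      have h12 : (0 : ℝ) ≤ 8 * D / n := by positivity
      by_cases hc : ρ ≤ 1 / 4
      · linarith
      · push Not at hc
        have h6 : D / (k : ℝ) ≤ 2 * D / n := by
          rw [div_le_div_iff₀ (by linarith) hn0]
          nlinarith
        have h7 : ρ * ρ ≤ ρ * (ρ' + 8 * D / n) := by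
          have h8 : D / (k : ℝ) ≤ ρ * (8 * D / n) := by
            have h13 : 1 / 4 * (8 * D / n) ≤ ρ * (8 * D / n) :=
              mul_le_mul_of_nonneg_right hc.le h12
            have h14 : 1 / 4 * (8 * D / n) = 2 * D / n := by ring
            linarith
          nlinarith
        have h9 : ρ ≤ ρ' + 8 * D / n := le_of_mul_le_mul_left h7 hkp
        linarith
  have keyJ : ∀ j : ℕ, j ≤ J → b (n - 2 * j + 2) / b (n - 2 * j) ≤ 1 - δ / 2 := by
    intro j hj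
    have h1 : 8 * D * (j : ℝ) / n ≤ δ / 2 := by
      rw [div_le_iff₀ hn0]
      have : (j : ℝ) ≤ J := by exact_mod_cast hj
      nlinarith
    have := key j hj
    linarith
  have prod : ∀ j : ℕ, j ≤ J → b n ≤ (1 - δ / 2) ^ j * b (n - 2 * j) := by
    intro j
    induction j with
    | zero => intro _; simp
    | succ j ih =>
      intro hj
      have h1 := ih (by omega)
      have hk := hkpos (j + 1) hj
      have h2 := keyJ (j + 1) hj
      have h3 : 0 < b (n - 2 * (j + 1)) := lt_of_lt_of_le one_pos (hb _ hk.1)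
      rw [div_le_iff₀ h3] at h2
      have h4 : n - 2 * (j + 1) + 2 = n - 2 * j := by omega
      rw [h4] at h2
      refine h1.trans ?_
      rw [pow_succ, mul_assoc]
      exact mul_le_mul_of_nonneg_left h2 (pow_nonneg (by linarith) j)
  have h1 := prod J le_rfl
  have hk := hkpos J le_rfl
  have h2 := hup (n - 2 * J) hk.1
  have h3 : 1 ≤ b n := hb n hn
  have h4 : (1 - δ / 2) ^ J ≤ Real.exp (-(J * (δ / 2))) := by
    calc (1 - δ / 2) ^ J ≤ (Real.exp (-(δ / 2))) ^ J :=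
          pow_le_pow_left₀ (by linarith) (Real.one_sub_le_exp_neg _) J
      _ = _ := by rw [← Real.exp_nat_mul]; congr 1; ring
  have h5 : (((n - 2 * J : ℕ) : ℝ)) ^ θ ≤ (n : ℝ) ^ θ := by
    apply Real.rpow_le_rpow (by positivity) _ hθ0.le
    have : n - 2 * J ≤ n := Nat.sub_le _ _
    exact_mod_cast this
  have h6 : (1 : ℝ) ≤ Real.exp (-(J * (δ / 2)) + K * (n : ℝ) ^ θ) := by
    calc (1 : ℝ) ≤ (1 - δ / 2) ^ J * b (n - 2 * J) := h3.trans h1
      _ ≤ Real.exp (-(J * (δ / 2))) * Real.exp (K * (n : ℝ) ^ θ) := by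
          apply mul_le_mul h4 _ (by have := hb _ hk.1; linarith) (Real.exp_pos _).le
          exact h2.trans (Real.exp_le_exp.2 (mul_le_mul_of_nonneg_left h5 hK))
      _ = _ := by rw [← Real.exp_add]
  have h7 : 0 ≤ -(J * (δ / 2)) + K * (n : ℝ) ^ θ := by
    rwa [← Real.exp_zero, Real.exp_le_exp] at h6
  have h9 : 1 ≤ (n : ℝ) ^ θ := Real.one_le_rpow hn' hθ0.le
  have h10 : (δ * n / (16 * D) - 1) * (δ / 2) ≤ K * (n : ℝ) ^ θ := by
    have := mul_le_mul_of_nonneg_right hJge (by positivity : 0 ≤ δ / 2)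
    linarith
  have h12 : δ * (δ * n / (16 * D)) ≤ 2 * (K + 1) * (n : ℝ) ^ θ := by nlinarith
  have h13 : δ ^ 2 * n = 16 * D * (δ * (δ * n / (16 * D))) := by field_simp
  rw [h13]
  calc 16 * D * (δ * (δ * n / (16 * D))) ≤ 16 * D * (2 * (K + 1) * (n : ℝ) ^ θ) := by gcongr
    _ = _ := by ring

lemma core (hK : 0 ≤ K) (hD : 1 ≤ D) (hθ0 : 0 < θ) (hθ : θ < 1)
    (hb : ∀ n : ℕ, 1 ≤ n → 1 ≤ b n)
    (hup : ∀ n : ℕ, 1 ≤ n → b n ≤ Real.exp (K * (n : ℝ) ^ θ))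
    (hstep : ∀ n : ℕ, 1 ≤ n → b (n + 2) ^ 2 ≤ b n * b (n + 4) + D / n * b n ^ 2) :
    ∃ C : ℝ, ∀ n : ℕ, 1 ≤ n → |b (n + 2) / b n - 1| ≤ C * (n : ℝ) ^ (-((1 - θ) / 2)) := by
  obtain ⟨C0, hC0⟩ : ∃ C0 : ℝ, C0 = 32 * D * (8 * K + 1) := ⟨_, rfl⟩
  have hD0 : 0 < D := by linarith
  have hC0pos : 0 < C0 := by rw [hC0]; positivity
  -- the main estimate, with `δ` truncated at `1/2`
  have main : ∀ n : ℕ, 1 ≤ n → ∀ δ : ℝ, 0 < δ → δ ≤ 1 / 2 → δ ≤ |b (n + 2) / b n - 1| →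
      δ ^ 2 * n ≤ C0 * (n : ℝ) ^ θ := by
    intro n hn δ h0 h1 h2
    have hpos : 0 ≤ (n : ℝ) ^ θ := by positivity
    rcases le_total 0 (b (n + 2) / b n - 1) with h3 | h3
    · rw [abs_of_nonneg h3] at h2
      have h4 := upper hK hD hθ0 hθ hb hup hstep hn h0 (by linarith) (by linarith)
      refine h4.trans (mul_le_mul_of_nonneg_right ?_ hpos)
      rw [hC0]
      have : 0 ≤ D * (8 * K + 1) := by positivity
      linarith
    · rw [abs_of_nonpos h3] at h2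
      have h4 := lower hK hD hθ0 hθ hb hup hstep hn h0 h1 (by linarith)
      refine h4.trans (mul_le_mul_of_nonneg_right ?_ hpos)
      rw [hC0]
      have h5 : 0 ≤ D * K := by positivity
      nlinarith
  -- large `n`
  obtain ⟨N, hN⟩ : ∃ N : ℕ, ∀ n : ℕ, N ≤ n → 4 * C0 < (n : ℝ) ^ (1 - θ) := by
    have h1 : Filter.Tendsto (fun n : ℕ => (n : ℝ) ^ (1 - θ)) Filter.atTop Filter.atTop :=
      (tendsto_rpow_atTop (by linarith)).comp tendsto_natCast_atTop_atTop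
    obtain ⟨N, hN⟩ := Filter.eventually_atTop.1 (h1.eventually_gt_atTop (4 * C0))
    exact ⟨N, hN⟩
  obtain ⟨S, hS⟩ : ∃ S : ℝ, S = ∑ k ∈ Finset.range (N + 1),
      |b (k + 2) / b k - 1| * (k : ℝ) ^ ((1 - θ) / 2) := ⟨_, rfl⟩
  have hS0 : 0 ≤ S := by
    rw [hS]
    exact Finset.sum_nonneg fun k _ => by positivity
  refine ⟨Real.sqrt C0 + S, fun n hn => ?_⟩
  have hn' : (1 : ℝ) ≤ n := by exact_mod_cast hn
  have hn0 : (0 : ℝ) < n := by linarith
  have hpw : (0 : ℝ) < (n : ℝ) ^ ((1 - θ) / 2) := Real.rpow_pos_of_pos hn0 _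
  rw [Real.rpow_neg hn0.le, ← div_eq_mul_inv, le_div_iff₀ hpw]
  by_cases hnN : n < N + 1
  · have h1 : |b (n + 2) / b n - 1| * (n : ℝ) ^ ((1 - θ) / 2) ≤ S := by
      rw [hS]
      exact Finset.single_le_sum (f := fun k : ℕ =>
        |b (k + 2) / b k - 1| * (k : ℝ) ^ ((1 - θ) / 2)) (fun k _ => by positivity)
        (Finset.mem_range.2 hnN)
    have := Real.sqrt_nonneg C0
    linarith
  · have hnN' : N ≤ n := by omega
    have h1 := hN n hnN'
    have hsplit : (n : ℝ) ^ θ * (n : ℝ) ^ (1 - θ) = n := by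
      rw [← Real.rpow_add hn0]; simp
    have hθpos : 0 < (n : ℝ) ^ θ := Real.rpow_pos_of_pos hn0 _
    -- `|r - 1| < 1/2`
    have h2 : |b (n + 2) / b n - 1| < 1 / 2 := by
      by_contra hcon
      push Not at hcon
      have h3 := main n hn (1 / 2) (by norm_num) le_rfl hcon
      have h4 : (1 / 2 : ℝ) ^ 2 * n = 1 / 4 * ((n : ℝ) ^ θ * (n : ℝ) ^ (1 - θ)) := by
        rw [hsplit]; ring
      rw [h4] at h3
      nlinarith
    rcases (abs_nonneg (b (n + 2) / b n - 1)).eq_or_lt with h0 | h0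
    · rw [← h0, zero_mul]
      have := Real.sqrt_nonneg C0
      linarith
    · have h3 := main n hn _ h0 h2.le le_rfl
      have h4 : (|b (n + 2) / b n - 1| * (n : ℝ) ^ ((1 - θ) / 2)) ^ 2 ≤ C0 := by
        have h5 : ((n : ℝ) ^ ((1 - θ) / 2)) ^ 2 = (n : ℝ) ^ (1 - θ) := by
          rw [← Real.rpow_natCast, ← Real.rpow_mul hn0.le]
          congr 1
          push_cast
          ring
        rw [mul_pow, h5]
        have h6 : |b (n + 2) / b n - 1| ^ 2 * ((n : ℝ) ^ θ * (n : ℝ) ^ (1 - θ))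
            ≤ C0 * (n : ℝ) ^ θ := by rw [hsplit]; exact h3
        have h7 : (n : ℝ) ^ θ * (|b (n + 2) / b n - 1| ^ 2 * (n : ℝ) ^ (1 - θ))
            ≤ (n : ℝ) ^ θ * C0 := by linarith
        exact le_of_mul_le_mul_left h7 hθpos
      have h5 := Real.abs_le_sqrt h4
      have h6 := le_abs_self (|b (n + 2) / b n - 1| * (n : ℝ) ^ ((1 - θ) / 2))
      linarith

end KRate

theorem kesten_rate (a : ℕ → ℝ) (μ K D θ : ℝ) (hμ : 0 < μ) (hθ0 : 0 < θ) (hθ : θ < 1)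
    (ha : ∀ n : ℕ, 1 ≤ n → μ ^ n ≤ a n)
    (hup : ∀ n : ℕ, 1 ≤ n → a n ≤ μ ^ n * Real.exp (K * (n : ℝ) ^ θ))
    (hstep : ∀ n : ℕ, 1 ≤ n → a (n + 2) ^ 2 ≤ a n * a (n + 4) + D / n * a n ^ 2) :
    ∃ C : ℝ, ∀ n : ℕ, 1 ≤ n → |a (n + 2) / (μ ^ 2 * a n) - 1| ≤ C * (n : ℝ) ^ (-((1 - θ) / 2)) := by
  have hb : ∀ n : ℕ, 1 ≤ n → 1 ≤ a n / μ ^ n := by
    intro n hn
    rw [le_div_iff₀ (by positivity), one_mul]
    exact ha n hn
  have hup' : ∀ n : ℕ, 1 ≤ n → a n / μ ^ n ≤ Real.exp (max K 0 * (n : ℝ) ^ θ) := by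
    intro n hn
    rw [div_le_iff₀ (by positivity), mul_comm]
    refine (hup n hn).trans ?_
    apply mul_le_mul_of_nonneg_left _ (by positivity)
    apply Real.exp_le_exp.2
    apply mul_le_mul_of_nonneg_right (le_max_left _ _) (by positivity)
  have hstep' : ∀ n : ℕ, 1 ≤ n → (a (n + 2) / μ ^ (n + 2)) ^ 2 ≤
      a n / μ ^ n * (a (n + 4) / μ ^ (n + 4)) + (max (D / μ ^ 4) 1) / n * (a n / μ ^ n) ^ 2 := by
    intro n hn
    have h1 := hstep n hn
    have h2 : (a (n + 2) / μ ^ (n + 2)) ^ 2 = a (n + 2) ^ 2 / μ ^ (2 * n + 4) := by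
      rw [div_pow, ← pow_mul]
      congr 2
      ring
    have h3 : a n / μ ^ n * (a (n + 4) / μ ^ (n + 4)) + (D / μ ^ 4) / n * (a n / μ ^ n) ^ 2
        = (a n * a (n + 4) + D / n * a n ^ 2) / μ ^ (2 * n + 4) := by
      have e1 : μ ^ (2 * n + 4) = μ ^ n * μ ^ (n + 4) := by rw [← pow_add]; congr 1; ring
      have e2 : μ ^ (2 * n + 4) = μ ^ 4 * (μ ^ n) ^ 2 := by
        rw [← pow_mul, ← pow_add]; congr 1; ring
      rw [add_div]
      congr 1
      · rw [e1]; field_simp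
      · rw [e2]
        have hn0 : (n : ℝ) ≠ 0 := by positivity
        field_simp
    have h4 : (D / μ ^ 4) / n * (a n / μ ^ n) ^ 2
        ≤ (max (D / μ ^ 4) 1) / n * (a n / μ ^ n) ^ 2 := by
      apply mul_le_mul_of_nonneg_right _ (by positivity)
      exact div_le_div_of_nonneg_right (le_max_left _ _) (by positivity)
    rw [h2]
    calc a (n + 2) ^ 2 / μ ^ (2 * n + 4)
        ≤ (a n * a (n + 4) + D / n * a n ^ 2) / μ ^ (2 * n + 4) :=
          div_le_div_of_nonneg_right h1 (by positivity)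
      _ = a n / μ ^ n * (a (n + 4) / μ ^ (n + 4)) + (D / μ ^ 4) / n * (a n / μ ^ n) ^ 2 := h3.symm
      _ ≤ _ := by linarith
  obtain ⟨C, hC⟩ := KRate.core (b := fun n => a n / μ ^ n) (le_max_right K 0)
    (le_max_right (D / μ ^ 4) 1) hθ0 hθ hb hup' hstep'
  refine ⟨C, fun n hn => ?_⟩
  have h1 := hC n hn
  have h2 : a (n + 2) / μ ^ (n + 2) / (a n / μ ^ n) = a (n + 2) / (μ ^ 2 * a n) := by
    have h3 : 0 < a n := lt_of_lt_of_le (by positivity) (ha n hn)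
    rw [pow_add]
    field_simp
  rwa [h2] at h1

end Pool.Agent.H976R2
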