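import Mathlib
import Pool.Agent.H976R2.KMom
import Pool.Agent.H976R2.KRate
import Pool.Agent.H976R2.Growth37

set_option autoImplicit false
set_option linter.unusedVariables false

namespace Pool.Agent.H976R2

open Dir Finset
open scoped Classical

theorem SW_growth : ∃ μ K : ℝ, 0 < μ ∧ 0 < K ∧ ∀ n : ℕ, 1 ≤ n → μ ^ n ≤ ((SW n).card : ℝ) ∧
    ((SW n).card : ℝ) ≤ μ ^ n * Real.exp (K * (n : ℝ) ^ (3 / 7 : ℝ)) := by
  obtain ⟨μ, hμ, -, K, hK⟩ := G37.result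
  refine ⟨μ, max K 1, hμ, by positivity, fun n hn => ?_⟩
  have hC : (G37.C n : ℝ) = ((SW n).card : ℝ) := by
    have : G37.C n = (SW n).card := by
      rw [← ncard_saw n]
      unfold G37.C
      rw [← Nat.card_coe_set_eq]
      rfl
    exact_mod_cast this
  obtain ⟨h1, h2⟩ := hK n hn
  rw [hC] at h1 h2
  refine ⟨h1, h2.trans ?_⟩
  gcongr
  exact le_max_left _ _

/-- growth of weighted sums -/
theorem mom_growth {φ : List Dir → ℝ} (hφ : Good φ) : ∃ μ K : ℝ, 0 < μ ∧ (∀ n : ℕ, 1 ≤ n →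
      μ ^ n ≤ ((SW n).card : ℝ) ∧ ((SW n).card : ℝ) ≤ μ ^ n * Real.exp (K * (n : ℝ) ^ (3 / 7 : ℝ))) ∧
    ∀ n : ℕ, 1 ≤ n → μ ^ n ≤ mom φ n ∧
    mom φ n ≤ μ ^ n * Real.exp (K * (n : ℝ) ^ (3 / 7 : ℝ)) := by
  obtain ⟨μ, K, hμ, hK, h⟩ := SW_growth
  refine ⟨μ, K + 14, hμ, fun n hn => ⟨(h n hn).1, (h n hn).2.trans ?_⟩, fun n hn =>
    ⟨(h n hn).1.trans (card_le_mom hφ hn), ?_⟩⟩
  · gcongr
    linarith
  · have hn' : (1 : ℝ) ≤ n := by exact_mod_cast hn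
    have h1 : mom φ n ≤ ((n : ℝ) + 1) ^ 2 * ((SW n).card : ℝ) := by
      unfold mom
      calc ∑ w ∈ SW n, φ w ≤ ∑ w ∈ SW n, ((n : ℝ) + 1) ^ 2 := by
            refine Finset.sum_le_sum (fun w hw => ?_)
            have := hφ.le w
            rwa [(mem_SW.mp hw).1] at this
        _ = ((n : ℝ) + 1) ^ 2 * ((SW n).card : ℝ) := by
            rw [Finset.sum_const, nsmul_eq_mul]; ring
    have h2 : ((n : ℝ) + 1) ^ 2 ≤ Real.exp (14 * (n : ℝ) ^ (3 / 7 : ℝ)) := by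
      have h3 : Real.log ((n : ℝ) + 1) ≤ 7 * (n : ℝ) ^ (3 / 7 : ℝ) := by
        have h4 : Real.log ((n : ℝ) + 1) ≤ Real.log (2 * n) :=
          Real.log_le_log (by linarith) (by linarith)
        have h5 : Real.log (2 * n) = Real.log 2 + Real.log n := by
          rw [Real.log_mul (by norm_num) (by linarith)]
        have h6 : Real.log n ≤ (n : ℝ) ^ (3 / 7 : ℝ) / (3 / 7) :=
          Real.log_le_rpow_div (by linarith) (by norm_num)
        have h7 : Real.log 2 ≤ 1 := by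
          have := Real.log_two_lt_d9; linarith
        have h8 : (1 : ℝ) ≤ (n : ℝ) ^ (3 / 7 : ℝ) := Real.one_le_rpow hn' (by norm_num)
        have h9 : (n : ℝ) ^ (3 / 7 : ℝ) / (3 / 7) = (n : ℝ) ^ (3 / 7 : ℝ) * (7 / 3) := by ring
        linarith
      calc ((n : ℝ) + 1) ^ 2 = Real.exp (2 * Real.log ((n : ℝ) + 1)) := by
            rw [mul_comm, Real.exp_mul, Real.exp_log (by linarith)]
            norm_num
        _ ≤ _ := Real.exp_le_exp.mpr (by linarith)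
    calc mom φ n ≤ ((n : ℝ) + 1) ^ 2 * ((SW n).card : ℝ) := h1
      _ ≤ Real.exp (14 * (n : ℝ) ^ (3 / 7 : ℝ)) * (μ ^ n * Real.exp (K * (n : ℝ) ^ (3 / 7 : ℝ))) := by
          gcongr
          exact (h n hn).2
      _ = μ ^ n * Real.exp ((K + 14) * (n : ℝ) ^ (3 / 7 : ℝ)) := by
          rw [add_mul, Real.exp_add]; ring

/-- ratio limit with a rate, for all good weights with a common `μ` -/
theorem mom_rate {φ : List Dir → ℝ} (hφ : Good φ) : ∃ μ : ℝ, 0 < μ ∧ ∃ C : ℝ, 0 < C ∧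
    (∀ n : ℕ, 1 ≤ n → |((SW (n + 2)).card : ℝ) / (μ ^ 2 * ((SW n).card : ℝ)) - 1| ≤
      C * (n : ℝ) ^ (-(2 / 7 : ℝ))) ∧
    (∀ n : ℕ, 1 ≤ n → |mom φ (n + 2) / (μ ^ 2 * mom φ n) - 1| ≤ C * (n : ℝ) ^ (-(2 / 7 : ℝ))) := by
  obtain ⟨μ, K, hμ, h1, h2⟩ := mom_growth hφ
  obtain ⟨D1, hD1, k1⟩ := mom_ratio good_one
  obtain ⟨D2, hD2, k2⟩ := mom_ratio hφ
  have e : ∀ n, mom (fun _ => (1 : ℝ)) n = ((SW n).card : ℝ) := fun n => by simp [mom]
  simp only [e] at k1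
  obtain ⟨C1, g1⟩ := kesten_rate (fun n => ((SW n).card : ℝ)) μ K D1 (3 / 7) hμ (by norm_num)
    (by norm_num) (fun n hn => (h1 n hn).1) (fun n hn => (h1 n hn).2) k1
  obtain ⟨C2, g2⟩ := kesten_rate (fun n => mom φ n) μ K D2 (3 / 7) hμ (by norm_num)
    (by norm_num) (fun n hn => (h2 n hn).1) (fun n hn => (h2 n hn).2) k2
  have e7 : -((1 - 3 / 7) / 2) = -(2 / 7 : ℝ) := by norm_num
  rw [e7] at g1 g2
  refine ⟨μ, hμ, max 1 (max C1 C2), by positivity, fun n hn => (g1 n hn).trans ?_,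
    fun n hn => (g2 n hn).trans ?_⟩
  · gcongr
    exact (le_max_left _ _).trans (le_max_right _ _)
  · gcongr
    exact (le_max_right _ _).trans (le_max_right _ _)

end Pool.Agent.H976R2
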