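import Mathlib
import Pool.Agent.H976R2.KGrow

set_option autoImplicit false
set_option linter.unusedVariables false

namespace Pool.Agent.H976R2

open Dir Finset
open scoped Classical

/-- number of walks -/
noncomputable def cN (n : ℕ) : ℝ := ((SW n).card : ℝ)

/-- ratio -/
noncomputable def rh (n : ℕ) : ℝ := cN (n + 2) / cN n

lemma cN_pos (n : ℕ) : 0 < cN n := SW_card_pos n

lemma rh_pos (n : ℕ) : 0 < rh n := div_pos (cN_pos _) (cN_pos _)

/-- mean square deviation of `RR` from the ratio -/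
noncomputable def SS (n : ℕ) : ℝ := EE n (fun w => (RR w - rh n) ^ 2)

lemma SS_nonneg (n : ℕ) : 0 ≤ SS n := by
  unfold SS EE
  exact div_nonneg (Finset.sum_nonneg (fun w _ => sq_nonneg _)) (SW_card_pos n).le

lemma mom_one (n : ℕ) : mom (fun _ => (1 : ℝ)) n = cN n := by simp [mom, cN]

theorem SS_le : ∃ D : ℝ, 0 < D ∧ ∀ n : ℕ, 1 ≤ n →
    SS n ≤ rh n * (rh (n + 2) - rh n) + D * (1 + rh n) / n := by
  obtain ⟨D1, hD1, h1⟩ := mom_step good_one
  obtain ⟨D4, hD4, h4⟩ := mom_step4 good_one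
  refine ⟨2 * D1 + D4, by positivity, fun n hn => ?_⟩
  have hn' : (0 : ℝ) < n := by exact_mod_cast hn
  have g1 := h1 n hn
  have g4 := h4 n hn
  simp only [mom_one, one_mul] at g1 g4
  have hc := cN_pos n
  have hc2 := cN_pos (n + 2)
  have hr := rh_pos n
  have e1 : cN (n + 2) = rh n * cN n := by unfold rh; field_simp
  have e2 : cN (n + 4) = rh n * rh (n + 2) * cN n := by
    unfold rh
    rw [show n + 2 + 2 = n + 4 by ring]
    field_simp
  have e3 : SS n * cN n = ∑ w ∈ SW n, RR w ^ 2 - 2 * rh n * ∑ w ∈ SW n, RR w + rh n ^ 2 * cN n := by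
    unfold SS EE cN
    rw [div_mul_cancel₀ _ (SW_card_pos n).ne']
    have : ∀ w : List Dir, (RR w - rh n) ^ 2 = RR w ^ 2 - 2 * rh n * RR w + rh n ^ 2 := fun w => by ring
    simp only [this]
    rw [Finset.sum_add_distrib, Finset.sum_sub_distrib, ← Finset.mul_sum]
    simp
    ring
  have k1 := (abs_le.mp g1).2
  have k4 := (abs_le.mp g4).1
  have k5 : SS n * cN n ≤ (rh n * (rh (n + 2) - rh n) + (2 * D1 + D4) * (1 + rh n) / n) * cN n := by
    rw [e3]
    have a1 : ∑ w ∈ SW n, RR w ^ 2 ≤ rh n * rh (n + 2) * cN n + D4 / n * cN n := by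
      rw [← e2]; linarith
    have a2 : rh n * cN n - D1 / n * cN n ≤ ∑ w ∈ SW n, RR w := by
      rw [← e1]; linarith
    have a3 : 2 * rh n * (rh n * cN n - D1 / n * cN n) ≤ 2 * rh n * ∑ w ∈ SW n, RR w := by
      gcongr
    have a4 : (rh n * (rh (n + 2) - rh n) + (2 * D1 + D4) * (1 + rh n) / n) * cN n =
        rh n * rh (n + 2) * cN n - rh n ^ 2 * cN n + D4 / n * cN n + 2 * rh n * (D1 / n) * cN n
        + (2 * D1 + D4 * rh n) / n * cN n := by ring
    rw [a4]
    have a5 : 0 ≤ (2 * D1 + D4 * rh n) / n * cN n := by positivity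
    nlinarith
  exact le_of_mul_le_mul_right k5 hc

/-- one step of the merging -/
theorem one_step : ∃ C : ℝ, 0 < C ∧ ∀ n : ℕ, 1 ≤ n → ∀ (F F' Δ : List Dir → ℝ),
    (∀ w, |F w| ≤ 1) → (∀ w, |F' w| ≤ 1) → (∀ w ∈ SW n, 0 ≤ Δ w) →
    (∀ w ∈ SW n, ∀ p ∈ adm w, |F' (ins w p.1 p.2) - F w| ≤ Δ w) →
    |EE (n + 2) F' - EE n F| ≤ C / rh n * (Real.sqrt (SS n) + EE n Δ + 1 / n) := by
  obtain ⟨D, hD, hfew⟩ := few_small
  refine ⟨D + 50000000, by positivity, fun n hn F F' Δ hF hF' hΔ0 hΔ => ?_⟩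
  have hn' : (1 : ℝ) ≤ n := by exact_mod_cast hn
  have h := transfer n hn F F' Δ hΔ0 hΔ
  have hc := SW_card_pos n
  have hc2 := SW_card_pos (n + 2)
  have hr := rh_pos n
  set N : ℝ := ((SW n).card : ℝ) with hN
  have eN2 : ((SW (n + 2)).card : ℝ) = rh n * N := by
    unfold rh cN; rw [hN, div_mul_cancel₀ _ (SW_card_pos n).ne']
  have hE : 0 ≤ EE n Δ := by
    unfold EE; exact div_nonneg (Finset.sum_nonneg hΔ0) hc.le
  -- error
  have herr : ∑ w ∈ SW n, (4000 * Δ w + 50000000 / (n : ℝ) * |F w|) + ∑ w' ∈ few (n + 2), |F' w'| ≤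
      (4000 * EE n Δ + 50000000 / n + D / n) * N := by
    have e1 : ∑ w ∈ SW n, (4000 * Δ w + 50000000 / (n : ℝ) * |F w|) ≤
        (4000 * EE n Δ + 50000000 / n) * N := by
      have e0 : ∑ w ∈ SW n, Δ w = EE n Δ * N := by
        unfold EE; rw [div_mul_cancel₀ _ hc.ne']
      rw [Finset.sum_add_distrib, ← Finset.mul_sum, e0, ← Finset.mul_sum]
      have e2 : ∑ w ∈ SW n, |F w| ≤ N := by
        calc ∑ w ∈ SW n, |F w| ≤ ∑ w ∈ SW n, (1 : ℝ) := Finset.sum_le_sum (fun w _ => hF w)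
          _ = N := by simp [hN]
      calc 4000 * (EE n Δ * N) + 50000000 / (n : ℝ) * ∑ w ∈ SW n, |F w|
          ≤ 4000 * (EE n Δ * N) + 50000000 / (n : ℝ) * N := by gcongr
        _ = _ := by ring
    have e2 : ∑ w' ∈ few (n + 2), |F' w'| ≤ D / n * N := by
      calc ∑ w' ∈ few (n + 2), |F' w'| ≤ ∑ w' ∈ few (n + 2), (1 : ℝ) :=
            Finset.sum_le_sum (fun w _ => hF' w)
        _ = 1 * ((few (n + 2)).card : ℝ) := by simp
        _ ≤ ((n : ℝ) + 3) ^ 2 * ((few (n + 2)).card : ℝ) := by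
            gcongr
            nlinarith
        _ ≤ D / n * N := hfew n hn
    linarith
  have h2 := h.trans herr
  -- Cauchy-Schwarz
  have hcs : |∑ w ∈ SW n, F w * RR w - rh n * ∑ w ∈ SW n, F w| ≤ Real.sqrt (SS n) * N := by
    have e1 : ∑ w ∈ SW n, F w * RR w - rh n * ∑ w ∈ SW n, F w = ∑ w ∈ SW n, F w * (RR w - rh n) := by
      rw [Finset.mul_sum, ← Finset.sum_sub_distrib]
      exact Finset.sum_congr rfl (fun w _ => by ring)
    rw [e1]
    have e2 : (∑ w ∈ SW n, F w * (RR w - rh n)) ^ 2 ≤ N * (SS n * N) := by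
      refine (Finset.sum_mul_sq_le_sq_mul_sq (SW n) F (fun w => RR w - rh n)).trans ?_
      have e3 : ∑ w ∈ SW n, F w ^ 2 ≤ N := by
        calc ∑ w ∈ SW n, F w ^ 2 ≤ ∑ w ∈ SW n, (1 : ℝ) := by
              refine Finset.sum_le_sum (fun w _ => ?_)
              have := hF w
              rw [← sq_abs]
              have h0 := abs_nonneg (F w)
              nlinarith
          _ = N := by simp [hN]
      have e4 : ∑ w ∈ SW n, (RR w - rh n) ^ 2 = SS n * N := by
        unfold SS EE; rw [div_mul_cancel₀ _ hc.ne']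
      rw [e4]
      have : 0 ≤ SS n * N := mul_nonneg (SS_nonneg n) hc.le
      gcongr
    have e5 : N * (SS n * N) = (Real.sqrt (SS n) * N) ^ 2 := by
      rw [mul_pow, Real.sq_sqrt (SS_nonneg n)]; ring
    rw [e5] at e2
    exact abs_le_of_sq_le_sq e2 (by positivity)
  -- combine
  have h3 : |∑ w' ∈ SW (n + 2), F' w' - rh n * ∑ w ∈ SW n, F w| ≤
      (4000 * EE n Δ + 50000000 / n + D / n + Real.sqrt (SS n)) * N := by
    calc |∑ w' ∈ SW (n + 2), F' w' - rh n * ∑ w ∈ SW n, F w|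
        ≤ |∑ w' ∈ SW (n + 2), F' w' - ∑ w ∈ SW n, F w * RR w| +
          |∑ w ∈ SW n, F w * RR w - rh n * ∑ w ∈ SW n, F w| := abs_sub_le _ _ _
      _ ≤ (4000 * EE n Δ + 50000000 / n + D / n) * N + Real.sqrt (SS n) * N := by linarith
      _ = _ := by ring
  have e6 : EE (n + 2) F' - EE n F =
      (∑ w' ∈ SW (n + 2), F' w' - rh n * ∑ w ∈ SW n, F w) / (rh n * N) := by
    unfold EE
    rw [eN2, ← hN]
    field_simp
  rw [e6, abs_div, abs_of_pos (mul_pos hr hc), div_le_iff₀ (mul_pos hr hc)]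
  have hsq := Real.sqrt_nonneg (SS n)
  calc |∑ w' ∈ SW (n + 2), F' w' - rh n * ∑ w ∈ SW n, F w|
      ≤ (4000 * EE n Δ + 50000000 / n + D / n + Real.sqrt (SS n)) * N := h3
    _ ≤ ((D + 50000000) * (Real.sqrt (SS n) + EE n Δ + 1 / n)) * N := by
        have : 4000 * EE n Δ + 50000000 / n + D / n + Real.sqrt (SS n) ≤
          (D + 50000000) * (Real.sqrt (SS n) + EE n Δ + 1 / n) := by
          have e7 : (D + 50000000) * (Real.sqrt (SS n) + EE n Δ + 1 / n) =
            D * Real.sqrt (SS n) + 50000000 * Real.sqrt (SS n) + D * EE n Δ + 50000000 * EE n Δ +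
            (50000000 / n + D / n) := by ring
          rw [e7]
          have : 0 ≤ D * Real.sqrt (SS n) := by positivity
          have : 0 ≤ D * EE n Δ := by positivity
          linarith
        gcongr
    _ = (D + 50000000) / rh n * (Real.sqrt (SS n) + EE n Δ + 1 / n) * (rh n * N) := by
        field_simp

end Pool.Agent.H976R2
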