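import Mathlib
import Pool.Agent.H976R2.KDefs
import Pool.Agent.H977R2.Plain

set_option autoImplicit false
set_option linter.unusedVariables false

/-!
Transfer of the bounds of `H977R2` (maximal inequality and lower bound for the mean-square
displacement) to self-avoiding words.
-/

namespace Pool.Agent.H976R2.Tight

open Pool.Agent.H976R2

open Dir Finset
open scoped Classical

/-- the path of a word, constant after the end -/
def fnw (w : List Dir) : ℕ → ℤ × ℤ := fun i => (wX (w.take i), wY (w.take i))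

lemma fnw_eq_pth {n : ℕ} (w : List Dir) (i : ℕ) (hi : i < n + 1) : fnw w i = pth n w ⟨i, hi⟩ := rfl

lemma fnw_const {n : ℕ} {w : List Dir} (hw : w.length = n) (i : ℕ) (hi : n ≤ i) :
    fnw w i = (wX w, wY w) := by
  unfold fnw
  rw [List.take_of_length_le (by omega)]

lemma fnw_saw {n : ℕ} {w : List Dir} (hw : w ∈ SW n) : H977R2.Saw n (fnw w) := by
  have h := pth_saw hw
  have hlen := (mem_SW.mp hw).1
  constructor
  · simp [fnw]
  · intro i hi
    have h1 := h.2.1 ⟨i, hi⟩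
    have e1 : pth n w (Fin.castSucc ⟨i, hi⟩) = fnw w i := rfl
    have e2 : pth n w (Fin.succ ⟨i, hi⟩) = fnw w (i + 1) := rfl
    rw [e1, e2] at h1
    unfold H977R2.Adj
    have ha := abs_nonneg ((fnw w (i + 1)).1 - (fnw w i).1)
    have hb := abs_nonneg ((fnw w (i + 1)).2 - (fnw w i).2)
    rcases abs_cases ((fnw w (i + 1)).1 - (fnw w i).1) with h2 | h2 <;>
      rcases abs_cases ((fnw w (i + 1)).2 - (fnw w i).2) with h3 | h3 <;> omega
  · intro i k hi hk hik
    have h1 : pth n w ⟨i, by omega⟩ = pth n w ⟨k, by omega⟩ := hik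
    have h2 := h.2.2 h1
    rw [Fin.mk.injEq] at h2
    exact h2
  · intro i hi
    rw [fnw_const hlen i hi, fnw_const hlen n le_rfl]

lemma fnw_injOn (n : ℕ) : Set.InjOn fnw (SW n : Set (List Dir)) := by
  intro w hw w' hw' h
  apply pth_injOn n hw hw'
  funext k
  exact congrFun h k

lemma fnw_surj {n : ℕ} {f : ℕ → ℤ × ℤ} (hf : H977R2.Saw n f) : ∃ w ∈ SW n, fnw w = f := by
  have h : IsSAW n (fun i : Fin (n + 1) => f i) := by
    refine ⟨hf.zero, ?_, ?_⟩
    · intro i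
      have h1 := hf.adj i i.2
      simp only [Fin.val_succ, Fin.val_castSucc]
      unfold H977R2.Adj at h1
      rcases h1 with ⟨a, b⟩ | ⟨a, b⟩ | ⟨a, b⟩ | ⟨a, b⟩ <;> rw [a, b] <;> simp
    · intro i k hik
      exact Fin.ext (hf.inj i k (by omega) (by omega) hik)
  refine ⟨wordOf n _, wordOf_mem h, ?_⟩
  have hp := pth_wordOf h
  have hlen := (mem_SW.mp (wordOf_mem h)).1
  have key : ∀ i, i ≤ n → fnw (wordOf n (fun i : Fin (n + 1) => f i)) i = f i := by
    intro i hi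
    rw [fnw_eq_pth (n := n) _ i (by omega), hp]
  funext i
  rcases le_or_gt i n with h1 | h1
  · exact key i h1
  · rw [hf.const i h1.le, ← key n le_rfl, fnw_const hlen i h1.le, fnw_const hlen n le_rfl]

lemma image_fnw (n : ℕ) : (SW n).image fnw = H977R2.SawSet n := by
  ext f
  rw [Finset.mem_image, H977R2.mem_SawSet]
  constructor
  · rintro ⟨w, hw, rfl⟩
    exact fnw_saw hw
  · intro h
    exact fnw_surj h

lemma card_SW (n : ℕ) : (H977R2.SawSet n).card = (SW n).card := by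
  rw [← image_fnw, Finset.card_image_of_injOn (fnw_injOn n)]

lemma endSum_eq (n : ℕ) : (H977R2.endSum n : ℝ) = ∑ w ∈ SW n, sq w := by
  unfold H977R2.endSum
  rw [← image_fnw, Finset.sum_image (fnw_injOn n), Int.cast_sum]
  refine Finset.sum_congr rfl fun w hw => ?_
  rw [fnw_const (mem_SW.mp hw).1 n le_rfl, sq]
  push_cast
  ring

lemma maxSq_eq {n : ℕ} {w : List Dir} (hw : w ∈ SW n) :
    (H977R2.maxSq n (fnw w) : ℝ) = mxsq w := by
  have hlen := (mem_SW.mp hw).1
  have hterm : ∀ i, (((fnw w i).1 ^ 2 + (fnw w i).2 ^ 2 : ℤ) : ℝ) = sq (w.take i) := by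
    intro i
    rw [sq, fnw]
    push_cast
    ring
  apply le_antisymm
  · unfold H977R2.maxSq
    obtain ⟨i, hi, hi'⟩ := Finset.exists_mem_eq_sup' (s := range (n + 1)) ⟨0, by simp⟩
      (fun i => (fnw w i).1 ^ 2 + (fnw w i).2 ^ 2)
    rw [hi', hterm]
    unfold mxsq
    exact Finset.le_sup' (fun k => sq (w.take k)) (by rw [hlen]; exact hi)
  · unfold mxsq
    apply Finset.sup'_le
    intro i hi
    rw [← hterm]
    rw [hlen] at hi
    have : (fnw w i).1 ^ 2 + (fnw w i).2 ^ 2 ≤ H977R2.maxSq n (fnw w) := by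
      unfold H977R2.maxSq
      exact Finset.le_sup' (fun i => (fnw w i).1 ^ 2 + (fnw w i).2 ^ 2) hi
    exact_mod_cast this

theorem max_le : ∀ ε : ℝ, 0 < ε → ∃ C : ℝ, ∀ n : ℕ, 1 ≤ n →
    ∑ w ∈ SW n, mxsq w ≤ C * (n : ℝ) ^ ε * ∑ w ∈ SW n, sq w := by
  intro ε hε
  obtain ⟨C, hC⟩ := H977R2.max_le_of_key H977R2.key ε hε
  refine ⟨C, fun n hn => ?_⟩
  have h := hC n hn
  rw [endSum_eq, ← image_fnw, Finset.sum_image (fnw_injOn n), Int.cast_sum] at h
  rw [Finset.sum_congr rfl fun w hw => maxSq_eq hw] at h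
  exact h

theorem msd_ge : ∀ ε : ℝ, 0 < ε → ∃ c : ℝ, 0 < c ∧ ∀ n : ℕ, 1 ≤ n →
    c * (n : ℝ) ^ (1 - ε) * ((SW n).card : ℝ) ≤ ∑ w ∈ SW n, sq w := by
  intro ε hε
  obtain ⟨c, hc, h⟩ := H977R2.msd_ge_of_key H977R2.key ε hε
  refine ⟨c, hc, fun n hn => ?_⟩
  have h1 := h n hn
  rw [endSum_eq, card_SW] at h1
  exact h1

end Pool.Agent.H976R2.Tight
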