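import Mathlib
import Pool.Agent.H976R2.KOne
import Pool.Agent.H976R2.KGeo
import Pool.Agent.H976R2.KTight

set_option autoImplicit false
set_option linter.unusedVariables false

namespace Pool.Agent.H976R2

open Dir Finset
open scoped Classical

/-- root mean square displacement -/
noncomputable def sd (n : ℕ) : ℝ := Real.sqrt (EE n sq)

lemma EE_sq (n : ℕ) : EE n sq = mom sq n / cN n := rfl

lemma EE_sq_pos {n : ℕ} (hn : 1 ≤ n) : 0 < EE n sq := by
  rw [EE_sq]; exact div_pos (mom_pos good_sq hn) (cN_pos n)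

lemma sd_pos {n : ℕ} (hn : 1 ≤ n) : 0 < sd n := Real.sqrt_pos.mpr (EE_sq_pos hn)

/-- elementary: square roots of ratios near one -/
lemma sqrt_ratio {a b x y δ : ℝ} (ha : 0 < a) (hb : 0 < b) (hδ0 : 0 ≤ δ) (hδ : δ ≤ 1 / 2)
    (hx : |x - 1| ≤ δ) (hy : |y - 1| ≤ δ) (hab : a / b = x / y) :
    |Real.sqrt b / Real.sqrt a - 1| ≤ 8 * δ := by
  rw [abs_le] at hx hy
  have hx0 : 0 < x := by linarith
  have hy0 : 0 < y := by linarith
  have e1 : b / a = y / x := by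
    have := congrArg (fun t => t⁻¹) hab
    simpa [inv_div] using this
  rw [← Real.sqrt_div hb.le, e1]
  have h1 : y / x ≤ (1 + 4 * δ) ^ 2 := by
    rw [div_le_iff₀ hx0]
    nlinarith [mul_nonneg hδ0 hδ0, mul_nonneg (mul_nonneg hδ0 hδ0) hδ0]
  have h2 : (1 - 4 * δ) * |1 - 4 * δ| ≤ y / x := by
    rw [le_div_iff₀ hx0]
    rcases le_or_gt 0 (1 - 4 * δ) with h | h
    · rw [abs_of_nonneg h]
      nlinarith [mul_nonneg hδ0 hδ0, mul_nonneg hδ0 h]
    · rw [abs_of_neg h]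
      nlinarith [mul_pos hx0 (mul_pos_of_neg_of_neg h h)]
  rw [abs_le]
  constructor
  · rcases le_or_gt 0 (1 - 4 * δ) with h | h
    · rw [abs_of_nonneg h] at h2
      have : 1 - 4 * δ ≤ Real.sqrt (y / x) := Real.le_sqrt_of_sq_le (by rw [pow_two]; exact h2)
      linarith
    · have := Real.sqrt_nonneg (y / x)
      linarith
  · have : Real.sqrt (y / x) ≤ 1 + 4 * δ := by
      rw [show 1 + 4 * δ = Real.sqrt ((1 + 4 * δ) ^ 2) by rw [Real.sqrt_sq (by linarith)]]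
      exact Real.sqrt_le_sqrt h1
    linarith

/-- the scale varies slowly, and the ratio of the numbers of walks is close to `μ²` -/
theorem slow_scale : ∃ μ : ℝ, 0 < μ ∧ ∃ C : ℝ, 0 < C ∧
    (∀ n : ℕ, 1 ≤ n → |rh n / μ ^ 2 - 1| ≤ C * (n : ℝ) ^ (-(2 / 7 : ℝ))) ∧
    (∀ n : ℕ, 1 ≤ n → C * (n : ℝ) ^ (-(2 / 7 : ℝ)) ≤ 1 / 2 →
      |sd n / sd (n + 2) - 1| ≤ 8 * (C * (n : ℝ) ^ (-(2 / 7 : ℝ)))) := by
  obtain ⟨μ, hμ, C, hC, h1, h2⟩ := mom_rate good_sq
  refine ⟨μ, hμ, C, hC, fun n hn => ?_, fun n hn hsmall => ?_⟩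
  · have := h1 n hn
    have e : rh n / μ ^ 2 = ((SW (n + 2)).card : ℝ) / (μ ^ 2 * ((SW n).card : ℝ)) := by
      unfold rh cN; rw [div_div, mul_comm]
    rw [e]; exact this
  · have g1 := h1 n hn
    have g2 := h2 n hn
    have hδ0 : 0 ≤ C * (n : ℝ) ^ (-(2 / 7 : ℝ)) := by positivity
    refine sqrt_ratio (EE_sq_pos (show 1 ≤ n + 2 by omega)) (EE_sq_pos hn) hδ0 hsmall g2 g1 ?_
    rw [EE_sq, EE_sq]
    have := cN_pos n
    have := cN_pos (n + 2)
    have := mom_pos good_sq hn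
    have := mom_pos good_sq (show 1 ≤ n + 2 by omega)
    unfold cN at *
    field_simp

/-- average of the square root of the maximal squared distance -/
lemma EE_sqrt_mxsq {n : ℕ} {B : ℝ} (hB : 0 ≤ B)
    (h : ∑ w ∈ SW n, mxsq w ≤ B * ∑ w ∈ SW n, sq w) :
    EE n (fun w => Real.sqrt (mxsq w)) ≤ Real.sqrt B * sd n := by
  have hc := SW_card_pos n
  have hmx : ∀ w, 0 ≤ mxsq w := by
    intro w
    unfold mxsq
    refine le_trans ?_ (Finset.le_sup' (fun k => sq (w.take k)) (show 0 ∈ range (w.length + 1) by simp))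
    unfold sq; positivity
  have h1 : (∑ w ∈ SW n, Real.sqrt (mxsq w)) ^ 2 ≤ ((SW n).card : ℝ) * ∑ w ∈ SW n, mxsq w := by
    have := Finset.sum_mul_sq_le_sq_mul_sq (SW n) (fun _ => (1 : ℝ)) (fun w => Real.sqrt (mxsq w))
    simp only [one_mul, one_pow, Finset.sum_const, nsmul_eq_mul, mul_one] at this
    refine this.trans (le_of_eq ?_)
    congr 1
    exact Finset.sum_congr rfl (fun w _ => Real.sq_sqrt (hmx w))
  have h2 : EE n (fun w => Real.sqrt (mxsq w)) ^ 2 ≤ B * EE n sq := by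
    unfold EE
    rw [div_pow, div_le_iff₀ (by positivity)]
    calc (∑ w ∈ SW n, Real.sqrt (mxsq w)) ^ 2 ≤ ((SW n).card : ℝ) * ∑ w ∈ SW n, mxsq w := h1
      _ ≤ ((SW n).card : ℝ) * (B * ∑ w ∈ SW n, sq w) := by gcongr
      _ = B * ((∑ w ∈ SW n, sq w) / ((SW n).card : ℝ)) * ((SW n).card : ℝ) ^ 2 := by
          field_simp
  unfold sd
  rw [← Real.sqrt_mul hB]
  exact Real.le_sqrt_of_sq_le h2

lemma sd_ge {c : ℝ} (hc : 0 < c) {n : ℕ} (hn : 1 ≤ n)
    (h : c * (n : ℝ) ^ (1 - 1 / 28 : ℝ) * ((SW n).card : ℝ) ≤ ∑ w ∈ SW n, sq w) :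
    Real.sqrt c * (n : ℝ) ^ (27 / 56 : ℝ) ≤ sd n := by
  have hn' : (0 : ℝ) < n := by exact_mod_cast hn
  unfold sd
  apply Real.le_sqrt_of_sq_le
  rw [mul_pow, Real.sq_sqrt hc.le, ← Real.rpow_natCast ((n : ℝ) ^ (27 / 56 : ℝ)) 2,
    ← Real.rpow_mul hn'.le]
  unfold EE
  rw [le_div_iff₀ (SW_card_pos n)]
  have : (27 / 56 : ℝ) * ((2 : ℕ) : ℝ) = 1 - 1 / 28 := by norm_num
  rw [this]; exact h

/-- one step for Lipschitz functions of the rescaled path -/
theorem lip_step : ∃ μ : ℝ, 0 < μ ∧ ∃ C : ℝ, 0 < C ∧ ∃ n₀ : ℕ, 1 ≤ n₀ ∧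
    (∀ n : ℕ, n₀ ≤ n → |rh n / μ ^ 2 - 1| ≤ C * (n : ℝ) ^ (-(2 / 7 : ℝ))) ∧
    (∀ n : ℕ, n₀ ≤ n → rh n ≤ 2 * μ ^ 2) ∧
    ∀ n : ℕ, n₀ ≤ n → ∀ g : C(unitInterval, ℂ) → ℝ, (∀ x, |g x| ≤ 1) → LipschitzWith 1 g →
      |EE (n + 2) (fun w => g (Xs (sd (n + 2)) w)) - EE n (fun w => g (Xs (sd n) w))| ≤
        C * (Real.sqrt (SS n) + (n : ℝ) ^ (-(15 / 56 : ℝ))) := by
  obtain ⟨μ, hμ, C1, hC1, h1, h2⟩ := slow_scale
  obtain ⟨C2, hC2, h3⟩ := one_step
  obtain ⟨B, hB⟩ := Tight.max_le (1 / 28) (by norm_num)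
  obtain ⟨c, hc, h4⟩ := Tight.msd_ge (1 / 28) (by norm_num)
  -- threshold
  have ht : Filter.Tendsto (fun n : ℕ => C1 * (n : ℝ) ^ (-(2 / 7 : ℝ))) Filter.atTop (nhds 0) := by
    have := (tendsto_rpow_neg_atTop (show (0 : ℝ) < 2 / 7 by norm_num)).comp
      tendsto_natCast_atTop_atTop
    have := this.const_mul C1
    simpa using this
  obtain ⟨m0, hm0⟩ := Filter.eventually_atTop.mp (ht.eventually (gt_mem_nhds (show (0 : ℝ) < 1 / 2 by norm_num)))
  set B' : ℝ := max B 1 with hB'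
  have hB'1 : 1 ≤ B' := le_max_right _ _
  set C3 : ℝ := 2 * C2 / μ ^ 2 * (12 / Real.sqrt c + 8 * C1 * (Real.sqrt B' + 1 / Real.sqrt c) + 2) with hC3
  have hsc : 0 < Real.sqrt c := Real.sqrt_pos.mpr hc
  have hC3p : 0 < C3 := by positivity
  have hfac : 2 * C2 / μ ^ 2 ≤ C3 := by
    rw [hC3]
    have : 0 < 2 * C2 / μ ^ 2 := by positivity
    have h9 : 1 ≤ 12 / Real.sqrt c + 8 * C1 * (Real.sqrt B' + 1 / Real.sqrt c) + 2 := by
      have : 0 ≤ 12 / Real.sqrt c := by positivity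
      have : 0 ≤ 8 * C1 * (Real.sqrt B' + 1 / Real.sqrt c) := by positivity
      linarith
    nlinarith
  have hrb : ∀ n : ℕ, max m0 1 ≤ n → μ ^ 2 / 2 ≤ rh n ∧ rh n ≤ 2 * μ ^ 2 := by
    intro n hn
    have g1 := h1 n ((le_max_right _ _).trans hn)
    have g2 := hm0 n ((le_max_left _ _).trans hn)
    have g3 := abs_le.mp (g1.trans g2.le)
    have hμ2 : 0 < μ ^ 2 := by positivity
    constructor
    · have := g3.1
      have h5 : 1 / 2 ≤ rh n / μ ^ 2 := by linarith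
      rw [le_div_iff₀ hμ2] at h5
      linarith
    · have := g3.2
      have h5 : rh n / μ ^ 2 ≤ 2 := by linarith
      rw [div_le_iff₀ hμ2] at h5
      linarith
  refine ⟨μ, hμ, max C1 C3, lt_max_of_lt_left hC1, max m0 1, le_max_right _ _, fun n hn => ?_,
    fun n hn => (hrb n hn).2, ?_⟩
  · refine (h1 n ((le_max_right _ _).trans hn)).trans ?_
    gcongr
    exact le_max_left _ _
  · intro n hn g hg hL
    have hn1 : 1 ≤ n := (le_max_right _ _).trans hn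
    have hn' : (1 : ℝ) ≤ n := by exact_mod_cast hn1
    have hs := sd_pos hn1
    have hs' := sd_pos (show 1 ≤ n + 2 by omega)
    have k := h3 n hn1 (fun w => g (Xs (sd n) w)) (fun w => g (Xs (sd (n + 2)) w))
      (fun w => 12 / sd (n + 2) + |1 / sd (n + 2) - 1 / sd n| * (Real.sqrt (mxsq w) + 1))
      (fun w => hg _) (fun w => hg _) (fun w _ => by positivity) (by
        rintro w hw ⟨i, e⟩ hp
        have hi := (mem_adm.mp hp).1
        have e1 := hL.dist_le_mul (Xs (sd (n + 2)) (ins w i e)) (Xs (sd n) w)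
        rw [Real.dist_eq] at e1
        simp only [NNReal.coe_one, one_mul] at e1
        exact e1.trans (Geo.dist_ins w i e hi (sd n) (sd (n + 2)) hs hs'))
    refine k.trans ?_
    obtain ⟨hr1, hr2⟩ := hrb n hn
    have hrp := rh_pos n
    -- average of Δ
    have hE : EE n (fun w => 12 / sd (n + 2) + |1 / sd (n + 2) - 1 / sd n| * (Real.sqrt (mxsq w) + 1)) =
        12 / sd (n + 2) + |1 / sd (n + 2) - 1 / sd n| * (EE n (fun w => Real.sqrt (mxsq w)) + 1) := by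
      unfold EE
      have hc' := (SW_card_pos n).ne'
      rw [Finset.sum_add_distrib, ← Finset.mul_sum, Finset.sum_add_distrib]
      simp only [Finset.sum_const, nsmul_eq_mul, mul_one]
      field_simp
    have hsl := sd_ge hc hn1 (h4 n hn1)
    have hsl' := sd_ge hc (show 1 ≤ n + 2 by omega) (h4 (n + 2) (by omega))
    have hpow1 : (1 : ℝ) ≤ (n : ℝ) ^ (27 / 56 : ℝ) := Real.one_le_rpow hn' (by norm_num)
    have hsl0 : Real.sqrt c ≤ sd n := by
      calc Real.sqrt c = Real.sqrt c * 1 := by ring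
        _ ≤ Real.sqrt c * (n : ℝ) ^ (27 / 56 : ℝ) := by gcongr
        _ ≤ _ := hsl
    have a1 : 12 / sd (n + 2) ≤ 12 / Real.sqrt c * (n : ℝ) ^ (-(15 / 56 : ℝ)) := by
      have h5 : Real.sqrt c * (n : ℝ) ^ (15 / 56 : ℝ) ≤ sd (n + 2) := by
        refine le_trans ?_ hsl'
        gcongr ?_ * ?_
        calc (n : ℝ) ^ (15 / 56 : ℝ) ≤ (n : ℝ) ^ (27 / 56 : ℝ) :=
              Real.rpow_le_rpow_of_exponent_le hn' (by norm_num)
          _ ≤ ((n + 2 : ℕ) : ℝ) ^ (27 / 56 : ℝ) := by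
              gcongr; push_cast; linarith
      rw [Real.rpow_neg (by linarith), ← div_eq_mul_inv, div_div]
      gcongr
    have a2 : |1 / sd (n + 2) - 1 / sd n| ≤ 8 * (C1 * (n : ℝ) ^ (-(2 / 7 : ℝ))) / sd n := by
      have h5 := h2 n hn1 (hm0 n ((le_max_left _ _).trans hn)).le
      have e1 : 1 / sd (n + 2) - 1 / sd n = (sd n / sd (n + 2) - 1) / sd n := by
        field_simp
      rw [e1, abs_div, abs_of_pos hs]
      gcongr
    have a3 : EE n (fun w => Real.sqrt (mxsq w)) ≤ Real.sqrt B' * (n : ℝ) ^ (1 / 56 : ℝ) * sd n := by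
      have h5 : ∑ w ∈ SW n, mxsq w ≤ (B' * (n : ℝ) ^ (1 / 28 : ℝ)) * ∑ w ∈ SW n, sq w := by
        refine (hB n hn1).trans ?_
        have : 0 ≤ ∑ w ∈ SW n, sq w := (mom_pos good_sq hn1).le
        gcongr
        exact le_max_left _ _
      have h6 := EE_sqrt_mxsq (by positivity) h5
      rw [Real.sqrt_mul (by positivity)] at h6
      have e2 : Real.sqrt ((n : ℝ) ^ (1 / 28 : ℝ)) = (n : ℝ) ^ (1 / 56 : ℝ) := by
        rw [Real.sqrt_eq_rpow, ← Real.rpow_mul (by linarith)]; norm_num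
      rwa [e2] at h6
    have a4 : |1 / sd (n + 2) - 1 / sd n| * (EE n (fun w => Real.sqrt (mxsq w)) + 1) ≤
        8 * C1 * (Real.sqrt B' + 1 / Real.sqrt c) * (n : ℝ) ^ (-(15 / 56 : ℝ)) := by
      calc |1 / sd (n + 2) - 1 / sd n| * (EE n (fun w => Real.sqrt (mxsq w)) + 1)
          ≤ 8 * (C1 * (n : ℝ) ^ (-(2 / 7 : ℝ))) / sd n *
            (Real.sqrt B' * (n : ℝ) ^ (1 / 56 : ℝ) * sd n + 1) := by
            have h0 : 0 ≤ EE n (fun w => Real.sqrt (mxsq w)) := by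
              unfold EE
              exact div_nonneg (Finset.sum_nonneg (fun w _ => Real.sqrt_nonneg _)) (SW_card_pos n).le
            gcongr
        _ = 8 * C1 * (Real.sqrt B' * ((n : ℝ) ^ (-(2 / 7 : ℝ)) * (n : ℝ) ^ (1 / 56 : ℝ)) +
            1 / sd n * (n : ℝ) ^ (-(2 / 7 : ℝ))) := by field_simp
        _ ≤ 8 * C1 * (Real.sqrt B' * (n : ℝ) ^ (-(15 / 56 : ℝ)) +
            1 / Real.sqrt c * (n : ℝ) ^ (-(15 / 56 : ℝ))) := by
            have e3 : (n : ℝ) ^ (-(2 / 7 : ℝ)) * (n : ℝ) ^ (1 / 56 : ℝ) = (n : ℝ) ^ (-(15 / 56 : ℝ)) := by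
              rw [← Real.rpow_add (by linarith)]; norm_num
            have e4 : (n : ℝ) ^ (-(2 / 7 : ℝ)) ≤ (n : ℝ) ^ (-(15 / 56 : ℝ)) :=
              Real.rpow_le_rpow_of_exponent_le hn' (by norm_num)
            rw [e3]
            gcongr
        _ = _ := by ring
    have a5 : 1 / (n : ℝ) ≤ (n : ℝ) ^ (-(15 / 56 : ℝ)) := by
      rw [one_div, ← Real.rpow_neg_one]
      exact Real.rpow_le_rpow_of_exponent_le hn' (by norm_num)
    rw [hE]
    set P : ℝ := (n : ℝ) ^ (-(15 / 56 : ℝ)) with hP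
    have hP0 : 0 < P := by positivity
    have hSq := Real.sqrt_nonneg (SS n)
    have b1 : C2 / rh n ≤ 2 * C2 / μ ^ 2 := by
      rw [div_le_div_iff₀ hrp (by positivity)]
      nlinarith
    have b2 : Real.sqrt (SS n) + (12 / sd (n + 2) + |1 / sd (n + 2) - 1 / sd n| *
        (EE n (fun w => Real.sqrt (mxsq w)) + 1)) + 1 / n ≤
        Real.sqrt (SS n) + (12 / Real.sqrt c + 8 * C1 * (Real.sqrt B' + 1 / Real.sqrt c) + 1) * P := by
      have : (12 / Real.sqrt c + 8 * C1 * (Real.sqrt B' + 1 / Real.sqrt c) + 1) * P =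
        12 / Real.sqrt c * P + 8 * C1 * (Real.sqrt B' + 1 / Real.sqrt c) * P + P := by ring
      rw [this]
      linarith
    have h0 : 0 ≤ EE n (fun w => Real.sqrt (mxsq w)) := by
      unfold EE
      exact div_nonneg (Finset.sum_nonneg (fun w _ => Real.sqrt_nonneg _)) (SW_card_pos n).le
    calc C2 / rh n * (Real.sqrt (SS n) + (12 / sd (n + 2) + |1 / sd (n + 2) - 1 / sd n| *
        (EE n (fun w => Real.sqrt (mxsq w)) + 1)) + 1 / n)
        ≤ 2 * C2 / μ ^ 2 * (Real.sqrt (SS n) +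
          (12 / Real.sqrt c + 8 * C1 * (Real.sqrt B' + 1 / Real.sqrt c) + 1) * P) := by
          gcongr
      _ = 2 * C2 / μ ^ 2 * Real.sqrt (SS n) + 2 * C2 / μ ^ 2 *
          (12 / Real.sqrt c + 8 * C1 * (Real.sqrt B' + 1 / Real.sqrt c) + 1) * P := by ring
      _ ≤ C3 * Real.sqrt (SS n) + C3 * P := by
          have b3 : 2 * C2 / μ ^ 2 * (12 / Real.sqrt c + 8 * C1 * (Real.sqrt B' + 1 / Real.sqrt c) + 1)
              ≤ C3 := by
            rw [hC3]
            have : 0 < 2 * C2 / μ ^ 2 := by positivity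
            nlinarith
          gcongr
      _ = C3 * (Real.sqrt (SS n) + P) := by ring
      _ ≤ max C1 C3 * (Real.sqrt (SS n) + P) := by
          gcongr
          exact le_max_right _ _

end Pool.Agent.H976R2
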