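import Mathlib
import Pool.Agent.H976R2.KMerge

set_option autoImplicit false
set_option linter.unusedVariables false

namespace Pool.Agent.H976R2

open Dir Finset
open scoped Classical

lemma EE_abs_le {n : ℕ} {F : List Dir → ℝ} (h : ∀ w, |F w| ≤ 1) : |EE n F| ≤ 1 := by
  unfold EE
  rw [abs_div, abs_of_pos (SW_card_pos n), div_le_one (SW_card_pos n)]
  calc |∑ w ∈ SW n, F w| ≤ ∑ w ∈ SW n, |F w| := Finset.abs_sum_le_sum_abs _ _
    _ ≤ ∑ w ∈ SW n, (1 : ℝ) := Finset.sum_le_sum (fun w _ => h w)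
    _ = ((SW n).card : ℝ) := by simp

/-- **Merging** in word form. -/
theorem merging : ∃ C : ℝ, 0 < C ∧ ∀ n k : ℕ, 1 ≤ n → 2 * (k : ℝ) ≤ (n : ℝ) ^ (1 / 4 : ℝ) →
    ∀ g : C(unitInterval, ℂ) → ℝ, (∀ x, |g x| ≤ 1) → LipschitzWith 1 g →
      |EE (n + 2 * k) (fun w => g (Xs (sd (n + 2 * k)) w)) - EE n (fun w => g (Xs (sd n) w))| ≤
        C * (n : ℝ) ^ (-(1 / 56 : ℝ)) := by
  obtain ⟨μ, hμ, C, hC, n₀, hn₀, h1, h2, h3⟩ := lip_step
  obtain ⟨D, hD, h4⟩ := SS_le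
  set C4 : ℝ := 4 * C * μ ^ 4 + D * (1 + 2 * μ ^ 2) with hC4
  have hC4p : 0 < C4 := by positivity
  refine ⟨C * (Real.sqrt C4 + 1) + 2 * (n₀ : ℝ) ^ (1 / 56 : ℝ), by positivity,
    fun n k hn hk g hg hL => ?_⟩
  have hn' : (1 : ℝ) ≤ n := by exact_mod_cast hn
  have hnp : (0 : ℝ) < n := by linarith
  rcases lt_or_ge n n₀ with hsmall | hlarge
  · -- trivial bound
    have t1 : |EE (n + 2 * k) (fun w => g (Xs (sd (n + 2 * k)) w)) -
        EE n (fun w => g (Xs (sd n) w))| ≤ 2 := by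
      refine (abs_sub _ _).trans ?_
      have a := EE_abs_le (n := n + 2 * k) (F := fun w => g (Xs (sd (n + 2 * k)) w)) (fun w => hg _)
      have b := EE_abs_le (n := n) (F := fun w => g (Xs (sd n) w)) (fun w => hg _)
      linarith
    have t2 : (n : ℝ) ^ (1 / 56 : ℝ) ≤ (n₀ : ℝ) ^ (1 / 56 : ℝ) := by
      gcongr
    have t3 : (2 : ℝ) ≤ 2 * (n₀ : ℝ) ^ (1 / 56 : ℝ) * (n : ℝ) ^ (-(1 / 56 : ℝ)) := by
      calc (2 : ℝ) = 2 * (n : ℝ) ^ (1 / 56 : ℝ) * (n : ℝ) ^ (-(1 / 56 : ℝ)) := by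
            rw [mul_assoc, ← Real.rpow_add hnp]; norm_num
        _ ≤ _ := by gcongr
    have t4 : 0 ≤ C * (Real.sqrt C4 + 1) * (n : ℝ) ^ (-(1 / 56 : ℝ)) := by positivity
    calc _ ≤ (2 : ℝ) := t1
      _ ≤ (C * (Real.sqrt C4 + 1) + 2 * (n₀ : ℝ) ^ (1 / 56 : ℝ)) * (n : ℝ) ^ (-(1 / 56 : ℝ)) := by
          rw [add_mul]; linarith
  · -- telescoping
    have hstep : ∀ j : ℕ, |EE (n + 2 * j) (fun w => g (Xs (sd (n + 2 * j)) w)) -
        EE n (fun w => g (Xs (sd n) w))| ≤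
        ∑ i ∈ range j, C * (Real.sqrt (SS (n + 2 * i)) + (n : ℝ) ^ (-(15 / 56 : ℝ))) := by
      intro j
      induction j with
      | zero => simp
      | succ j ih =>
        rw [Finset.sum_range_succ]
        have hj := h3 (n + 2 * j) (by omega) g hg hL
        have e : n + 2 * (j + 1) = n + 2 * j + 2 := by ring
        rw [e]
        have hp : ((n + 2 * j : ℕ) : ℝ) ^ (-(15 / 56 : ℝ)) ≤ (n : ℝ) ^ (-(15 / 56 : ℝ)) := by
          apply Real.rpow_le_rpow_of_nonpos hnp _ (by norm_num)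
          push_cast; linarith
        calc _ ≤ |EE (n + 2 * j + 2) (fun w => g (Xs (sd (n + 2 * j + 2)) w)) -
              EE (n + 2 * j) (fun w => g (Xs (sd (n + 2 * j)) w))| +
              |EE (n + 2 * j) (fun w => g (Xs (sd (n + 2 * j)) w)) -
              EE n (fun w => g (Xs (sd n) w))| := abs_sub_le _ _ _
          _ ≤ C * (Real.sqrt (SS (n + 2 * j)) + ((n + 2 * j : ℕ) : ℝ) ^ (-(15 / 56 : ℝ))) +
              ∑ i ∈ range j, C * (Real.sqrt (SS (n + 2 * i)) + (n : ℝ) ^ (-(15 / 56 : ℝ))) := by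
              gcongr
          _ ≤ C * (Real.sqrt (SS (n + 2 * j)) + (n : ℝ) ^ (-(15 / 56 : ℝ))) +
              ∑ i ∈ range j, C * (Real.sqrt (SS (n + 2 * i)) + (n : ℝ) ^ (-(15 / 56 : ℝ))) := by
              gcongr
          _ = _ := by ring
    -- sum of SS
    have hSS : ∀ j : ℕ, ∑ i ∈ range j, SS (n + 2 * i) ≤
        (rh (n + 2 * j) ^ 2 - rh n ^ 2) / 2 + j * (D * (1 + 2 * μ ^ 2) / n) := by
      intro j
      induction j with
      | zero => simp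
      | succ j ih =>
        rw [Finset.sum_range_succ]
        have a1 := h4 (n + 2 * j) (by omega)
        have a2 := h2 (n + 2 * j) (by omega)
        have e : n + 2 * (j + 1) = n + 2 * j + 2 := by ring
        rw [e]
        have a3 : rh (n + 2 * j) * (rh (n + 2 * j + 2) - rh (n + 2 * j)) ≤
            (rh (n + 2 * j + 2) ^ 2 - rh (n + 2 * j) ^ 2) / 2 := by
          nlinarith [sq_nonneg (rh (n + 2 * j + 2) - rh (n + 2 * j))]
        have a4 : D * (1 + rh (n + 2 * j)) / ((n + 2 * j : ℕ) : ℝ) ≤ D * (1 + 2 * μ ^ 2) / n := by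
          have : (n : ℝ) ≤ ((n + 2 * j : ℕ) : ℝ) := by push_cast; linarith
          gcongr
        push_cast at a1 a4 ih ⊢
        linarith
    have hk0 : (0 : ℝ) ≤ k := by positivity
    have hkn : (k : ℝ) ≤ (n : ℝ) ^ (1 / 4 : ℝ) := by linarith
    have hdiff : rh (n + 2 * k) ^ 2 - rh n ^ 2 ≤ 8 * C * μ ^ 4 * (n : ℝ) ^ (-(2 / 7 : ℝ)) := by
      have a1 := h1 (n + 2 * k) (by omega)
      have a2 := h1 n hlarge
      have a3 := h2 (n + 2 * k) (by omega)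
      have a4 := h2 n hlarge
      have p1 := rh_pos (n + 2 * k)
      have p2 := rh_pos n
      have hp : ((n + 2 * k : ℕ) : ℝ) ^ (-(2 / 7 : ℝ)) ≤ (n : ℝ) ^ (-(2 / 7 : ℝ)) := by
        apply Real.rpow_le_rpow_of_nonpos hnp _ (by norm_num)
        push_cast; linarith
      have a5 : rh (n + 2 * k) / μ ^ 2 - rh n / μ ^ 2 ≤ 2 * (C * (n : ℝ) ^ (-(2 / 7 : ℝ))) := by
        have b1 := (abs_le.mp a1).2
        have b2 := (abs_le.mp a2).1
        have b3 : C * ((n + 2 * k : ℕ) : ℝ) ^ (-(2 / 7 : ℝ)) ≤ C * (n : ℝ) ^ (-(2 / 7 : ℝ)) := by gcongr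
        linarith
      have a6 : rh (n + 2 * k) - rh n ≤ 2 * C * μ ^ 2 * (n : ℝ) ^ (-(2 / 7 : ℝ)) := by
        rw [← sub_div, div_le_iff₀ (by positivity)] at a5
        linarith
      have hP : 0 < (n : ℝ) ^ (-(2 / 7 : ℝ)) := by positivity
      have a7 : rh (n + 2 * k) ^ 2 - rh n ^ 2 = (rh (n + 2 * k) - rh n) * (rh (n + 2 * k) + rh n) := by ring
      rw [a7]
      calc (rh (n + 2 * k) - rh n) * (rh (n + 2 * k) + rh n)
          ≤ (2 * C * μ ^ 2 * (n : ℝ) ^ (-(2 / 7 : ℝ))) * (rh (n + 2 * k) + rh n) := by gcongr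
        _ ≤ (2 * C * μ ^ 2 * (n : ℝ) ^ (-(2 / 7 : ℝ))) * (4 * μ ^ 2) := by gcongr; linarith
        _ = _ := by ring
    have hsum : ∑ i ∈ range k, SS (n + 2 * i) ≤ C4 * (n : ℝ) ^ (-(2 / 7 : ℝ)) := by
      have a1 := hSS k
      have a2 : (k : ℝ) * (D * (1 + 2 * μ ^ 2) / n) ≤ D * (1 + 2 * μ ^ 2) * (n : ℝ) ^ (-(2 / 7 : ℝ)) := by
        calc (k : ℝ) * (D * (1 + 2 * μ ^ 2) / n) ≤ (n : ℝ) ^ (1 / 4 : ℝ) * (D * (1 + 2 * μ ^ 2) / n) := by
              gcongr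
          _ = D * (1 + 2 * μ ^ 2) * ((n : ℝ) ^ (1 / 4 : ℝ) / n) := by ring
          _ ≤ _ := by
              gcongr
              rw [div_eq_mul_inv, ← Real.rpow_neg_one, ← Real.rpow_add hnp]
              exact Real.rpow_le_rpow_of_exponent_le hn' (by norm_num)
      rw [hC4]
      calc _ ≤ (rh (n + 2 * k) ^ 2 - rh n ^ 2) / 2 + k * (D * (1 + 2 * μ ^ 2) / n) := a1
        _ ≤ 8 * C * μ ^ 4 * (n : ℝ) ^ (-(2 / 7 : ℝ)) / 2 +
            D * (1 + 2 * μ ^ 2) * (n : ℝ) ^ (-(2 / 7 : ℝ)) := by gcongr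
        _ = _ := by ring
    have hsq : ∑ i ∈ range k, Real.sqrt (SS (n + 2 * i)) ≤ Real.sqrt C4 * (n : ℝ) ^ (-(1 / 56 : ℝ)) := by
      have a1 := Finset.sum_mul_sq_le_sq_mul_sq (range k) (fun _ => (1 : ℝ))
        (fun i => Real.sqrt (SS (n + 2 * i)))
      simp only [one_mul, one_pow, Finset.sum_const, nsmul_eq_mul, mul_one, card_range] at a1
      have a2 : ∑ i ∈ range k, Real.sqrt (SS (n + 2 * i)) ^ 2 = ∑ i ∈ range k, SS (n + 2 * i) :=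
        Finset.sum_congr rfl (fun i _ => Real.sq_sqrt (SS_nonneg _))
      rw [a2] at a1
      have a3 : (∑ i ∈ range k, Real.sqrt (SS (n + 2 * i))) ^ 2 ≤
          (Real.sqrt C4 * (n : ℝ) ^ (-(1 / 56 : ℝ))) ^ 2 := by
        calc _ ≤ (k : ℝ) * ∑ i ∈ range k, SS (n + 2 * i) := a1
          _ ≤ (n : ℝ) ^ (1 / 4 : ℝ) * (C4 * (n : ℝ) ^ (-(2 / 7 : ℝ))) := by
              have : 0 ≤ ∑ i ∈ range k, SS (n + 2 * i) := Finset.sum_nonneg (fun i _ => SS_nonneg _)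
              gcongr
          _ = C4 * ((n : ℝ) ^ (1 / 4 : ℝ) * (n : ℝ) ^ (-(2 / 7 : ℝ))) := by ring
          _ = (Real.sqrt C4 * (n : ℝ) ^ (-(1 / 56 : ℝ))) ^ 2 := by
              rw [mul_pow, Real.sq_sqrt hC4p.le, ← Real.rpow_add hnp,
                ← Real.rpow_natCast ((n : ℝ) ^ (-(1 / 56 : ℝ))) 2, ← Real.rpow_mul hnp.le]
              norm_num
      exact le_of_sq_le_sq a3 (by positivity)
    refine (hstep k).trans ?_
    rw [← Finset.mul_sum, Finset.sum_add_distrib]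
    simp only [Finset.sum_const, nsmul_eq_mul, card_range]
    have a8 : (k : ℝ) * (n : ℝ) ^ (-(15 / 56 : ℝ)) ≤ (n : ℝ) ^ (-(1 / 56 : ℝ)) := by
      calc (k : ℝ) * (n : ℝ) ^ (-(15 / 56 : ℝ)) ≤ (n : ℝ) ^ (1 / 4 : ℝ) * (n : ℝ) ^ (-(15 / 56 : ℝ)) := by
            gcongr
        _ = _ := by rw [← Real.rpow_add hnp]; norm_num
    have hP : 0 < (n : ℝ) ^ (-(1 / 56 : ℝ)) := by positivity
    have hN0 : 0 ≤ 2 * (n₀ : ℝ) ^ (1 / 56 : ℝ) * (n : ℝ) ^ (-(1 / 56 : ℝ)) := by positivity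
    calc C * (∑ i ∈ range k, Real.sqrt (SS (n + 2 * i)) + (k : ℝ) * (n : ℝ) ^ (-(15 / 56 : ℝ)))
        ≤ C * (Real.sqrt C4 * (n : ℝ) ^ (-(1 / 56 : ℝ)) + (n : ℝ) ^ (-(1 / 56 : ℝ))) := by gcongr
      _ = C * (Real.sqrt C4 + 1) * (n : ℝ) ^ (-(1 / 56 : ℝ)) := by ring
      _ ≤ _ := by rw [add_mul]; linarith

end Pool.Agent.H976R2
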