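import Mathlib
import Pool.Agent.H976R2.KFinal

set_option autoImplicit false
set_option linter.unusedVariables false

namespace Pool.Agent.H976R2

open Dir Finset
open scoped Classical

lemma pth_step {n : ℕ} {w : List Dir} (hw : w ∈ SW n) (k : Fin n) :
    (pth n w k.succ).1 = (pth n w k.castSucc).1 + dx (lt w k) ∧
    (pth n w k.succ).2 = (pth n w k.castSucc).2 + dy (lt w k) := by
  have hlen := (mem_SW.mp hw).1
  have hk : (k : ℕ) < w.length := by rw [hlen]; exact k.2
  simp only [pth, Fin.val_succ, Fin.val_castSucc]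
  rw [lt_eq hk]
  have e := take_succ_dir w k hk
  constructor
  · rw [e, wX_append]; simp
  · rw [e, wY_append]; simp

/-- sum form of the polygonal path -/
lemma ZZ_eq {n : ℕ} {w : List Dir} (hw : w ∈ SW n) (u : ℝ) :
    ZZ w u = ∑ k : Fin n, ((max 0 (min 1 (u - (k : ℝ))) : ℝ) : ℂ) *
      ((((pth n w k.succ).1 : ℂ) + ((pth n w k.succ).2 : ℂ) * Complex.I) -
        (((pth n w k.castSucc).1 : ℂ) + ((pth n w k.castSucc).2 : ℂ) * Complex.I)) := by
  unfold ZZ
  rw [(mem_SW.mp hw).1, Finset.sum_range]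
  refine Finset.sum_congr rfl (fun k _ => ?_)
  obtain ⟨h1, h2⟩ := pth_step hw k
  rw [h1, h2]
  unfold cl vec
  push_cast
  ring

end Pool.Agent.H976R2
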